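import Pool.Agent.TutteEq.Stmts

/-!
# Module Arith: binary arithmetic in polynomial time
-/

set_option autoImplicit false

namespace Pool.Agent.TutteEq

open Function Pool.Agent.PT Pool.Agent.TutteHard N487b59b3

/-! ### the encoding of natural numbers -/

theorem arith_enc_eq (n : ℕ) : enc n = Computability.encodeNum (n : Num) := rfl

theorem arith_enc_zero : enc (0 : ℕ) = [] := rfl

theorem arith_num_bit (b : Bool) (n : ℕ) :
    ((Nat.bit b n : ℕ) : Num) = (bif b then Num.bit1 else Num.bit0) (n : Num) := by
  rw [← Num.ofNat'_eq, Num.ofNat'_bit, Num.ofNat'_eq]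

theorem arith_enc_bit1 (n : ℕ) : enc (Nat.bit true n) = true :: enc n := by
  rw [arith_enc_eq, arith_enc_eq, arith_num_bit]
  cases (n : Num) with
  | zero => rfl
  | pos m => rfl

theorem arith_enc_bit0 (n : ℕ) (h : n ≠ 0) : enc (Nat.bit false n) = false :: enc n := by
  rw [arith_enc_eq, arith_enc_eq, arith_num_bit]
  have h' : (n : Num) ≠ 0 := by
    intro h0
    apply h
    have := congrArg (fun z : Num => (z : ℕ)) h0
    simpa using this
  revert h'
  cases (n : Num) with
  | zero => intro h'; exact absurd rfl h'
  | pos m => intro _; rfl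

theorem arith_enc_ne_nil (n : ℕ) (h : n ≠ 0) : enc n ≠ [] := by
  intro h0
  exact h (bitEncode_injective (h0.trans arith_enc_zero.symm))

theorem arith_length (n : ℕ) : (enc n).length = Nat.size n := by
  induction n using Nat.binaryRec with
  | zero => simp [arith_enc_zero]
  | bit b n ih =>
    cases b with
    | true =>
      rw [arith_enc_bit1, Nat.size_bit (by simp [Nat.bit]), List.length_cons, ih]
    | false =>
      by_cases h : n = 0
      · subst h
        simp [Nat.bit, arith_enc_zero]
      · rw [arith_enc_bit0 n h, Nat.size_bit (by simp [Nat.bit]; omega), List.length_cons, ih]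

/-! ### shifts -/

theorem arith_half {α : Type} [N487b59b3 α] {f : α → ℕ} (hf : PT f) : PT (fun a => f a / 2) := by
  have : PT (fun n : ℕ => n / 2) := by
    refine ⟨.pop 0, 1, fun n => ?_⟩
    refine (Runs.pop 0 _).congr ?_ (by simp)
    have ht : (enc n).tail = enc (n / 2) := by
      induction n using Nat.binaryRec with
      | zero => rfl
      | bit b n _ =>
        rw [Nat.bit_div_two]
        cases b with
        | true => rw [arith_enc_bit1]; rfl
        | false =>
          by_cases h : n = 0
          · subst h
            simp [Nat.bit, arith_enc_zero]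
          · rw [arith_enc_bit0 n h]; rfl
    funext w
    simp only [update_apply, single]
    split_ifs <;> simp_all
  exact this.comp hf

theorem arith_bodd {α : Type} [N487b59b3 α] {f : α → ℕ} (hf : PT f) :
    PT (fun a => (f a).bodd) := by
  have : PT (fun n : ℕ => n.bodd) := by
    refine ⟨.ite 0 ist (.seq (clear 0) (.push 0 true)) (.seq (clear 0) (.push 0 false)),
      2 * Polynomial.X + 3, fun n => ?_⟩
    have hh : ist (enc n).head? = n.bodd := by
      induction n using Nat.binaryRec with
      | zero => rfl
      | bit b n _ =>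
        rw [Nat.bodd_bit]
        cases b with
        | true => rw [arith_enc_bit1]; rfl
        | false =>
          by_cases h : n = 0
          · subst h
            simp [Nat.bit, arith_enc_zero, ist]
          · rw [arith_enc_bit0 n h]; rfl
    cases hb : n.bodd with
    | true =>
      refine (Runs.ite_t (by simpa [single, hb] using hh)
        ((clear_runs 0 _).seq (Runs.push 0 true _))).congr ?_ ?_
      · funext w
        simp only [update_apply, single, enc_bool]
        split_ifs <;> simp_all
      · simp [single]
        omega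
    | false =>
      refine (Runs.ite_f (by simpa [single, hb] using hh)
        ((clear_runs 0 _).seq (Runs.push 0 false _))).congr ?_ ?_
      · funext w
        simp only [update_apply, single, enc_bool]
        split_ifs <;> simp_all
      · simp [single]
        omega
  exact this.comp hf

theorem arith_bit1 {α : Type} [N487b59b3 α] {f : α → ℕ} (hf : PT f) :
    PT (fun a => Nat.bit true (f a)) := by
  have : PT (fun n : ℕ => Nat.bit true n) := by
    refine ⟨.push 0 true, 1, fun n => ?_⟩
    refine (Runs.push 0 true _).congr ?_ (by simp)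
    funext w
    simp only [update_apply, single, arith_enc_bit1]
    split_ifs <;> simp_all
  exact this.comp hf

theorem arith_bit0 {α : Type} [N487b59b3 α] {f : α → ℕ} (hf : PT f) :
    PT (fun a => Nat.bit false (f a)) := by
  have : PT (fun n : ℕ => Nat.bit false n) := by
    refine ⟨.ite 0 isne (.push 0 false) .skip, 2, fun n => ?_⟩
    by_cases h : n = 0
    · subst h
      refine (Runs.ite_f ?_ (Runs.skip _)).congr ?_ (by simp)
      · simp [single, arith_enc_zero, isne]
      · simp [Nat.bit]
    · obtain ⟨b, m, hbm⟩ := List.exists_cons_of_ne_nil (arith_enc_ne_nil n h)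
      refine (Runs.ite_t ?_ (Runs.push 0 false _)).congr ?_ (by simp)
      · simp [single, hbm, isne]
      · funext w
        simp only [update_apply, single, arith_enc_bit0 n h]
        split_ifs <;> simp_all
  exact this.comp hf

theorem arith_bit {α : Type} [N487b59b3 α] {f : α → ℕ} {b : α → Bool} (hb : PT b) (hf : PT f) :
    PT (fun a => Nat.bit (b a) (f a)) :=
  (PT.ite hb (arith_bit1 hf) (arith_bit0 hf)).congr fun a => by cases b a <;> rfl

theorem arith_xor {α : Type} [N487b59b3 α] {f g : α → Bool} (hf : PT f) (hg : PT g) :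
    PT (fun a => xor (f a) (g a)) :=
  (PT.ite hf hg.not hg).congr fun a => by cases f a <;> cases g a <;> rfl

/-! ### values of bit lists, most significant bit first -/

/-- the value of a list of bits, most significant bit first -/
def arithVal (l : List Bool) : ℕ := l.foldl (fun n b => Nat.bit b n) 0

theorem arith_bit_val (b : Bool) (n : ℕ) : Nat.bit b n = 2 * n + b.toNat := by
  cases b <;> simp [Nat.bit]

theorem arith_foldl (n : ℕ) (l : List Bool) :
    l.foldl (fun n b => Nat.bit b n) n = n * 2 ^ l.length + arithVal l := by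
  induction l generalizing n with
  | nil => simp [arithVal]
  | cons b l ih =>
    rw [arithVal, List.foldl_cons, List.foldl_cons, ih, ih (Nat.bit b 0), arith_bit_val,
      arith_bit_val, List.length_cons]
    ring

theorem arith_val_cons (b : Bool) (l : List Bool) :
    arithVal (b :: l) = b.toNat * 2 ^ l.length + arithVal l := by
  rw [arithVal, List.foldl_cons, arith_foldl, arith_bit_val]
  simp

theorem arith_val_lt (l : List Bool) : arithVal l < 2 ^ l.length := by
  induction l with
  | nil => simp [arithVal]
  | cons b l ih =>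
    rw [arith_val_cons, List.length_cons, pow_succ]
    cases b <;> simp <;> omega

theorem arith_PT_val {α : Type} [N487b59b3 α] {f : α → List Bool} (hf : PT f) :
    PT (fun a => arithVal (f a)) := by
  refine (PT.fold (g := fun p : Bool × ℕ × Bool => Nat.bit p.2.2 p.2.1) (e := fun _ => true)
    (s := fun _ => 0) (l := f) (arith_bit PT.snd.comp_snd PT.snd.comp_fst) 1 ?_ (PT.const true)
    (PT.const 0) hf).congr fun a => rfl
  intro e s b
  rw [arith_length, arith_length]
  simp only [Polynomial.eval_one]
  by_cases h : Nat.bit b s = 0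
  · rw [h]; simp
  · rw [Nat.size_bit h]
    exact le_refl _

/-! ### the bits of a natural number -/

theorem arith_size_half (n : ℕ) : Nat.size (n / 2) ≤ Nat.size n :=
  Nat.size_le_size (Nat.div_le_self n 2)

theorem arith_half_eq (n : ℕ) : n = 2 * (n / 2) + n.bodd.toNat := by
  have h := Nat.bodd_add_div2 n
  rw [Nat.div2_val] at h
  omega

/-- one step of the extraction of bits -/
def arithStep (s : ℕ × List Bool) : ℕ × List Bool := (s.1 / 2, s.1.bodd :: s.2)

theorem arith_step_iter (n k : ℕ) : (arithStep^[k] (n, [])).2.length = k ∧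
    n = (arithStep^[k] (n, [])).1 * 2 ^ k + arithVal (arithStep^[k] (n, [])).2 := by
  induction k with
  | zero => simp [arithVal]
  | succ k ih =>
    obtain ⟨h1, h2⟩ := ih
    rw [Function.iterate_succ_apply']
    generalize arithStep^[k] (n, []) = s at h1 h2
    refine ⟨by simp [arithStep, h1], ?_⟩
    simp only [arithStep]
    rw [arith_val_cons, h1]
    have h3 := arith_half_eq s.1
    calc n = s.1 * 2 ^ k + arithVal s.2 := h2
      _ = (2 * (s.1 / 2) + s.1.bodd.toNat) * 2 ^ k + arithVal s.2 := by rw [← h3]
      _ = _ := by ring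

/-- the bits of `n`, most significant bit first -/
def arithBits (n : ℕ) : List Bool := (arithStep^[Nat.size n] (n, [])).2

theorem arith_val_bits (n : ℕ) : arithVal (arithBits n) = n := by
  obtain ⟨h1, h2⟩ := arith_step_iter n (Nat.size n)
  have h3 := Nat.lt_size_self n
  rw [arithBits]
  generalize arithStep^[Nat.size n] (n, []) = s at h1 h2
  have h4 : s.1 = 0 := by
    by_contra h
    have : 1 * 2 ^ Nat.size n ≤ s.1 * 2 ^ Nat.size n :=
      Nat.mul_le_mul_right _ (Nat.one_le_iff_ne_zero.2 h)
    omega
  rw [h4] at h2
  omega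

theorem arith_PT_bits {α : Type} [N487b59b3 α] {f : α → ℕ} (hf : PT f) :
    PT (fun a => arithBits (f a)) := by
  refine (PT.iter (g := fun p : Bool × (ℕ × List Bool) => arithStep p.2) (e := fun _ => true)
    (s := fun a => (f a, ([] : List Bool))) (n := fun a => U.mk (enc (f a)).length)
    ?_ 3 ?_ (PT.const true) (hf.pair (PT.const [])) (PT.encLen.comp hf)).comp_snd.congr fun a => ?_
  · exact (arith_half PT.snd.comp_fst).pair (PT.cons (arith_bodd PT.snd.comp_fst) PT.snd.comp_snd)
  · intro e s
    simp only [arithStep]
    rw [length_enc_pair, length_enc_cons, arith_length, enc_bool]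
    have h1 : (enc s).length = 2 * (enc s.1).length + 1 + (enc s.2).length := by
      conv_lhs => rw [← Prod.mk.eta (p := s)]
      rw [length_enc_pair]
    rw [h1, arith_length]
    have := arith_size_half s.1
    simp only [List.length_cons, List.length_nil, Polynomial.eval_ofNat]
    omega
  · simp only [arithBits, arith_length]

/-! ### addition -/

/-- one step of the addition -/
def arithAdd (s : ((ℕ × ℕ) × Bool) × List Bool) : ((ℕ × ℕ) × Bool) × List Bool :=
  (((s.1.1.1 / 2, s.1.1.2 / 2),
    (s.1.1.1.bodd && s.1.1.2.bodd) || (s.1.2 && (s.1.1.1.bodd || s.1.1.2.bodd))),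
    xor (xor s.1.1.1.bodd s.1.1.2.bodd) s.1.2 :: s.2)

theorem arith_add_bits (a b c : Bool) : a.toNat + b.toNat + c.toNat =
    2 * ((a && b) || (c && (a || b))).toNat + (xor (xor a b) c).toNat := by
  cases a <;> cases b <;> cases c <;> rfl

theorem arith_add_iter (m n k : ℕ) : (arithAdd^[k] (((m, n), false), [])).2.length = k ∧
    m + n = ((arithAdd^[k] (((m, n), false), [])).1.1.1 +
      (arithAdd^[k] (((m, n), false), [])).1.1.2 +
      (arithAdd^[k] (((m, n), false), [])).1.2.toNat) * 2 ^ k +
      arithVal (arithAdd^[k] (((m, n), false), [])).2 := by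
  induction k with
  | zero => simp [arithVal]
  | succ k ih =>
    obtain ⟨h1, h2⟩ := ih
    rw [Function.iterate_succ_apply']
    generalize arithAdd^[k] (((m, n), false), []) = s at h1 h2
    obtain ⟨⟨⟨a, b⟩, c⟩, l⟩ := s
    refine ⟨by simp only [arithAdd, List.length_cons]; simp only at h1; rw [h1], ?_⟩
    simp only at h1 h2
    simp only [arithAdd]
    rw [arith_val_cons, h1, h2]
    have h3 := arith_half_eq a
    have h4 := arith_half_eq b
    have h5 := arith_add_bits a.bodd b.bodd c
    have h6 : a + b + c.toNat = 2 * (a / 2 + b / 2 +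
        ((a.bodd && b.bodd) || (c && (a.bodd || b.bodd))).toNat) +
        (xor (xor a.bodd b.bodd) c).toNat := by omega
    rw [h6]
    ring

theorem arith_add {α : Type} [N487b59b3 α] {f g : α → ℕ} (hf : PT f) (hg : PT g) :
    PT (fun a => f a + g a) := by
  have h := (PT.iter (g := fun p : Bool × (((ℕ × ℕ) × Bool) × List Bool) => arithAdd p.2)
    (e := fun _ => true) (s := fun a => (((f a, g a), false), ([] : List Bool)))
    (n := fun a => U.mk ((U.mk (enc (f a)).length).val + (U.mk (enc (g a)).length).val + 1))
    ?_ 3 ?_ (PT.const true) (((hf.pair hg).pair (PT.const false)).pair (PT.const []))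
    ((PT.encLen.comp hf).uadd (PT.encLen.comp hg)).usucc).comp_snd
  · refine (arith_PT_val h).congr fun a => ?_
    simp only [arith_length]
    obtain ⟨h1, h2⟩ := arith_add_iter (f a) (g a) ((f a).size + (g a).size + 1)
    generalize arithAdd^[(f a).size + (g a).size + 1] (((f a, g a), false), []) = s at h1 h2
    have h3 := Nat.lt_size_self (f a)
    have h4 := Nat.lt_size_self (g a)
    have h5 : 2 ^ (f a).size + 2 ^ (g a).size ≤ 2 ^ ((f a).size + (g a).size + 1) := by
      have e1 : 2 ^ (f a).size ≤ 2 ^ ((f a).size + (g a).size) :=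
        Nat.pow_le_pow_right (by norm_num) (by omega)
      have e2 : 2 ^ (g a).size ≤ 2 ^ ((f a).size + (g a).size) :=
        Nat.pow_le_pow_right (by norm_num) (by omega)
      rw [pow_succ]
      omega
    have h6 : s.1.1.1 + s.1.1.2 + s.1.2.toNat = 0 := by
      by_contra h
      have : 1 * 2 ^ ((f a).size + (g a).size + 1) ≤
          (s.1.1.1 + s.1.1.2 + s.1.2.toNat) * 2 ^ ((f a).size + (g a).size + 1) :=
        Nat.mul_le_mul_right _ (Nat.one_le_iff_ne_zero.2 h)
      omega
    rw [h6] at h2
    omega
  · have pa : PT (fun p : Bool × (((ℕ × ℕ) × Bool) × List Bool) => p.2.1.1.1) :=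
      PT.snd.comp_fst.comp_fst.comp_fst
    have pb : PT (fun p : Bool × (((ℕ × ℕ) × Bool) × List Bool) => p.2.1.1.2) :=
      PT.snd.comp_fst.comp_fst.comp_snd
    have pc : PT (fun p : Bool × (((ℕ × ℕ) × Bool) × List Bool) => p.2.1.2) :=
      PT.snd.comp_fst.comp_snd
    exact (((arith_half pa).pair (arith_half pb)).pair
      (((arith_bodd pa).and (arith_bodd pb)).or (pc.and ((arith_bodd pa).or (arith_bodd pb))))).pair
      (PT.cons (arith_xor (arith_xor (arith_bodd pa) (arith_bodd pb)) pc) PT.snd.comp_snd)
  · intro e s
    obtain ⟨⟨⟨a, b⟩, c⟩, l⟩ := s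
    simp only [arithAdd]
    rw [length_enc_pair, length_enc_pair, length_enc_pair, length_enc_pair, length_enc_pair,
      length_enc_pair, length_enc_cons, arith_length, arith_length, arith_length, arith_length]
    have := arith_size_half a
    have := arith_size_half b
    simp only [enc_bool, List.length_cons, List.length_nil, Polynomial.eval_ofNat]
    omega

/-! ### subtraction and comparison -/

/-- one step of the subtraction -/
def arithSub (s : ((ℕ × ℕ) × Bool) × List Bool) : ((ℕ × ℕ) × Bool) × List Bool :=
  (((s.1.1.1 / 2, s.1.1.2 / 2),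
    (!s.1.1.1.bodd && (s.1.1.2.bodd || s.1.2)) || (s.1.1.2.bodd && s.1.2)),
    xor (xor s.1.1.1.bodd s.1.1.2.bodd) s.1.2 :: s.2)

theorem arith_sub_bits (a b c : Bool) : (a.toNat : ℤ) - b.toNat - c.toNat =
    -2 * ((!a && (b || c)) || (b && c)).toNat + (xor (xor a b) c).toNat := by
  cases a <;> cases b <;> cases c <;> rfl

theorem arith_sub_iter (m n k : ℕ) : (arithSub^[k] (((m, n), false), [])).2.length = k ∧
    (arithSub^[k] (((m, n), false), [])).1.1.1 = m / 2 ^ k ∧
    (arithSub^[k] (((m, n), false), [])).1.1.2 = n / 2 ^ k ∧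
    (m : ℤ) - n = (((arithSub^[k] (((m, n), false), [])).1.1.1 : ℤ) -
      (arithSub^[k] (((m, n), false), [])).1.1.2 -
      (arithSub^[k] (((m, n), false), [])).1.2.toNat) * 2 ^ k +
      arithVal (arithSub^[k] (((m, n), false), [])).2 := by
  induction k with
  | zero => simp [arithVal]
  | succ k ih =>
    obtain ⟨h1, ha, hb, h2⟩ := ih
    rw [Function.iterate_succ_apply']
    generalize arithSub^[k] (((m, n), false), []) = s at h1 h2 ha hb
    obtain ⟨⟨⟨a, b⟩, c⟩, l⟩ := s
    simp only at h1 h2 ha hb
    refine ⟨by simp only [arithSub, List.length_cons]; rw [h1], ?_, ?_, ?_⟩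
    · simp only [arithSub]
      rw [ha, Nat.div_div_eq_div_mul, pow_succ]
    · simp only [arithSub]
      rw [hb, Nat.div_div_eq_div_mul, pow_succ]
    simp only [arithSub]
    rw [arith_val_cons, h1, h2]
    have h3 := arith_half_eq a
    have h4 := arith_half_eq b
    have h5 := arith_sub_bits a.bodd b.bodd c
    have h3' : (a : ℤ) = 2 * ((a / 2 : ℕ) : ℤ) + (a.bodd.toNat : ℤ) := by exact_mod_cast h3
    have h4' : (b : ℤ) = 2 * ((b / 2 : ℕ) : ℤ) + (b.bodd.toNat : ℤ) := by exact_mod_cast h4
    have h6 : (a : ℤ) - b - c.toNat = 2 * (((a / 2 : ℕ) : ℤ) - ((b / 2 : ℕ) : ℤ) -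
        ((!a.bodd && (b.bodd || c)) || (b.bodd && c)).toNat) +
        (xor (xor a.bodd b.bodd) c).toNat := by
      rw [h3', h4']
      linarith
    rw [h6]
    push_cast
    ring

theorem arith_sub_final (m n : ℕ) :
    (arithSub^[m.size + n.size] (((m, n), false), [])).1.2 = decide (m < n) ∧
    (n ≤ m → arithVal (arithSub^[m.size + n.size] (((m, n), false), [])).2 = m - n) := by
  obtain ⟨h1, ha, hb, h2⟩ := arith_sub_iter m n (m.size + n.size)
  generalize arithSub^[m.size + n.size] (((m, n), false), []) = s at h1 h2 ha hb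
  obtain ⟨⟨⟨a, b⟩, c⟩, l⟩ := s
  simp only at h1 h2 ha hb ⊢
  have h3 : m < 2 ^ (m.size + n.size) := lt_of_lt_of_le (Nat.lt_size_self m)
    (Nat.pow_le_pow_right (by norm_num) (by omega))
  have h4 : n < 2 ^ (m.size + n.size) := lt_of_lt_of_le (Nat.lt_size_self n)
    (Nat.pow_le_pow_right (by norm_num) (by omega))
  rw [Nat.div_eq_of_lt h3] at ha
  rw [Nat.div_eq_of_lt h4] at hb
  subst ha hb
  have h5 := arith_val_lt l
  rw [h1] at h5
  have h5' : (arithVal l : ℤ) < 2 ^ (m.size + n.size) := by exact_mod_cast h5
  cases c with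
  | false =>
    simp only [Bool.toNat_false, Nat.cast_zero, sub_zero, zero_mul, zero_add] at h2
    constructor
    · symm
      rw [decide_eq_false_iff_not]
      omega
    · intro _
      omega
  | true =>
    simp only [Bool.toNat_true, Nat.cast_zero, Nat.cast_one, sub_zero, zero_sub, neg_mul, one_mul]
      at h2
    constructor
    · symm
      rw [decide_eq_true_iff]
      omega
    · intro h
      omega

theorem arith_PT_subIter {α : Type} [N487b59b3 α] {f g : α → ℕ} (hf : PT f) (hg : PT g) :
    PT (fun a => arithSub^[(f a).size + (g a).size] (((f a, g a), false), [])) := by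
  refine (PT.iter (g := fun p : Bool × (((ℕ × ℕ) × Bool) × List Bool) => arithSub p.2)
    (e := fun _ => true) (s := fun a => (((f a, g a), false), ([] : List Bool)))
    (n := fun a => U.mk ((U.mk (enc (f a)).length).val + (U.mk (enc (g a)).length).val))
    ?_ 3 ?_ (PT.const true) (((hf.pair hg).pair (PT.const false)).pair (PT.const []))
    ((PT.encLen.comp hf).uadd (PT.encLen.comp hg))).congr fun a => ?_
  · have pa : PT (fun p : Bool × (((ℕ × ℕ) × Bool) × List Bool) => p.2.1.1.1) :=
      PT.snd.comp_fst.comp_fst.comp_fst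
    have pb : PT (fun p : Bool × (((ℕ × ℕ) × Bool) × List Bool) => p.2.1.1.2) :=
      PT.snd.comp_fst.comp_fst.comp_snd
    have pc : PT (fun p : Bool × (((ℕ × ℕ) × Bool) × List Bool) => p.2.1.2) :=
      PT.snd.comp_fst.comp_snd
    exact (((arith_half pa).pair (arith_half pb)).pair
      (((arith_bodd pa).not.and ((arith_bodd pb).or pc)).or ((arith_bodd pb).and pc))).pair
      (PT.cons (arith_xor (arith_xor (arith_bodd pa) (arith_bodd pb)) pc) PT.snd.comp_snd)
  · intro e s
    obtain ⟨⟨⟨a, b⟩, c⟩, l⟩ := s
    simp only [arithSub]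
    rw [length_enc_pair, length_enc_pair, length_enc_pair, length_enc_pair, length_enc_pair,
      length_enc_pair, length_enc_cons, arith_length, arith_length, arith_length, arith_length]
    have := arith_size_half a
    have := arith_size_half b
    simp only [enc_bool, List.length_cons, List.length_nil, Polynomial.eval_ofNat]
    omega
  · simp only [arith_length]

theorem arith_le {α : Type} [N487b59b3 α] {f g : α → ℕ} (hf : PT f) (hg : PT g) :
    PT (fun a => decide (f a ≤ g a)) := by
  refine (arith_PT_subIter hg hf).comp_fst.comp_snd.not.congr fun a => ?_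
  rw [(arith_sub_final (g a) (f a)).1]
  by_cases h : f a ≤ g a
  · have h' : ¬ (g a < f a) := by omega
    simp [h, h']
  · have h' : g a < f a := by omega
    simp [h, h']

theorem arith_sub {α : Type} [N487b59b3 α] {f g : α → ℕ} (hf : PT f) (hg : PT g) :
    PT (fun a => f a - g a) := by
  refine (PT.ite (arith_le hg hf) (arith_PT_val (arith_PT_subIter hf hg).comp_snd)
    (PT.const 0)).congr fun a => ?_
  by_cases h : g a ≤ f a
  · simp only [h, decide_true, if_true]
    exact (arith_sub_final (f a) (g a)).2 h
  · have h' : f a - g a = 0 := by omega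
    simp only [h, decide_false]
    simp [h']

/-! ### multiplication -/

theorem arith_size_two (s b : ℕ) : Nat.size (2 * s + b) ≤ Nat.size s + Nat.size b + 2 := by
  rw [Nat.size_le]
  have h1 := Nat.lt_size_self s
  have h2 := Nat.lt_size_self b
  have e1 : 2 ^ s.size ≤ 2 ^ (s.size + b.size) := Nat.pow_le_pow_right (by norm_num) (by omega)
  have e2 : 2 ^ b.size ≤ 2 ^ (s.size + b.size) := Nat.pow_le_pow_right (by norm_num) (by omega)
  rw [pow_add]
  omega

theorem arith_mul_foldl (b : ℕ) (l : List Bool) (s : ℕ) :
    l.foldl (fun s x => Nat.bit false s + if x then b else 0) s =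
      s * 2 ^ l.length + arithVal l * b := by
  induction l generalizing s with
  | nil => simp [arithVal]
  | cons x l ih =>
    rw [List.foldl_cons, ih, arith_val_cons, arith_bit_val, List.length_cons]
    cases x <;> simp <;> ring

theorem arith_mul {α : Type} [N487b59b3 α] {f g : α → ℕ} (hf : PT f) (hg : PT g) :
    PT (fun a => f a * g a) := by
  refine (PT.fold (g := fun p : ℕ × ℕ × Bool => Nat.bit false p.2.1 + if p.2.2 then p.1 else 0)
    (e := g) (s := fun _ => 0) (l := fun a => arithBits (f a))
    (arith_add (arith_bit0 PT.snd.comp_fst) (PT.ite PT.snd.comp_snd PT.fst (PT.const 0)))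
    (Polynomial.X + 2) ?_ hg (PT.const 0) (arith_PT_bits hf)).congr fun a => ?_
  · intro e s b
    rw [arith_length, arith_length, arith_length]
    simp only [Polynomial.eval_add, Polynomial.eval_X, Polynomial.eval_ofNat]
    rw [arith_bit_val]
    have h := arith_size_two s (if b then e else 0)
    have h2 : Nat.size (if b then e else 0) ≤ Nat.size e := by
      cases b <;> simp
    simp only [Bool.toNat_false, add_zero]
    omega
  · rw [arith_mul_foldl, arith_val_bits]
    simp

/-! ### division -/

/-- one step of the long division -/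
def arithDiv (p : ℕ × (ℕ × ℕ) × Bool) : ℕ × ℕ :=
  if decide (p.1 ≤ Nat.bit p.2.2 p.2.1.2) then
    (Nat.bit true p.2.1.1, Nat.bit p.2.2 p.2.1.2 - p.1)
  else (Nat.bit false p.2.1.1, Nat.bit p.2.2 p.2.1.2)

theorem arith_PT_div : PT arithDiv := by
  have hr : PT (fun p : ℕ × (ℕ × ℕ) × Bool => Nat.bit p.2.2 p.2.1.2) :=
    arith_bit PT.snd.comp_snd PT.snd.comp_fst.comp_snd
  exact PT.ite (arith_le PT.fst hr)
    ((arith_bit1 PT.snd.comp_fst.comp_fst).pair (arith_sub hr PT.fst))
    ((arith_bit0 PT.snd.comp_fst.comp_fst).pair hr)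

theorem arith_size_bit (b : Bool) (n : ℕ) : Nat.size (Nat.bit b n) ≤ Nat.size n + 1 := by
  by_cases h : Nat.bit b n = 0
  · rw [h]; simp
  · rw [Nat.size_bit h]

theorem arith_div_foldl (b : ℕ) (hb : 0 < b) (l : List Bool) (s : ℕ × ℕ) (hs : s.2 < b) :
    (l.foldl (fun s x => arithDiv (b, s, x)) s).2 < b ∧
    (l.foldl (fun s x => arithDiv (b, s, x)) s).1 * b +
      (l.foldl (fun s x => arithDiv (b, s, x)) s).2 = (s.1 * b + s.2) * 2 ^ l.length +
        arithVal l := by
  induction l generalizing s with
  | nil => simp [arithVal, hs]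
  | cons x l ih =>
    obtain ⟨q, r⟩ := s
    simp only at hs
    rw [List.foldl_cons]
    have hstep : (arithDiv (b, (q, r), x)).2 < b ∧ (arithDiv (b, (q, r), x)).1 * b +
        (arithDiv (b, (q, r), x)).2 = 2 * (q * b + r) + x.toNat := by
      simp only [arithDiv]
      rw [arith_bit_val, arith_bit_val, arith_bit_val]
      have hx : x.toNat ≤ 1 := by cases x <;> simp
      by_cases h : b ≤ 2 * r + x.toNat
      · simp only [h, decide_true, if_true, Bool.toNat_true]
        refine ⟨by omega, ?_⟩
        have : (2 * q + 1) * b = 2 * (q * b) + b := by ring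
        rw [this]
        omega
      · simp only [h, decide_false, Bool.toNat_false, add_zero]
        simp only [Bool.false_eq_true, if_false]
        refine ⟨by omega, ?_⟩
        ring
    obtain ⟨h1, h2⟩ := hstep
    obtain ⟨h3, h4⟩ := ih _ h1
    refine ⟨h3, ?_⟩
    rw [h4, h2, arith_val_cons, List.length_cons]
    ring

theorem arith_div {α : Type} [N487b59b3 α] {f g : α → ℕ} (hf : PT f) (hg : PT g) :
    PT (fun a => f a / g a) := by
  have h := (PT.fold (g := arithDiv)
    (e := g) (s := fun _ => (0, 0)) (l := fun a => arithBits (f a))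
    arith_PT_div 3 ?_ hg (PT.const (0, 0)) (arith_PT_bits hf)).comp_fst
  · refine (PT.ite hg.natPos h (PT.const 0)).congr fun a => ?_
    by_cases hp : 0 < g a
    · simp only [hp, decide_true, if_true]
      obtain ⟨h1, h2⟩ := arith_div_foldl (g a) hp (arithBits (f a)) (0, 0) hp
      rw [arith_val_bits] at h2
      generalize List.foldl (fun s x => arithDiv (g a, s, x)) (0, 0) (arithBits (f a)) = s
        at h1 h2
      simp only [zero_mul, zero_add] at h2
      rw [← h2, mul_comm, Nat.mul_add_div hp, Nat.div_eq_of_lt h1, add_zero]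
    · have h0 : g a = 0 := by omega
      simp [h0]
  · intro e s b
    obtain ⟨q, r⟩ := s
    have h1 := arith_size_bit true q
    have h2 := arith_size_bit false q
    have h3 := arith_size_bit b r
    have h4 : Nat.size (Nat.bit b r - e) ≤ Nat.size (Nat.bit b r) :=
      Nat.size_le_size (Nat.sub_le _ _)
    simp only [arithDiv]
    split_ifs
    · rw [length_enc_pair, length_enc_pair, arith_length, arith_length, arith_length,
        arith_length]
      simp only [Polynomial.eval_ofNat]
      omega
    · rw [length_enc_pair, length_enc_pair, arith_length, arith_length, arith_length,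
        arith_length]
      simp only [Polynomial.eval_ofNat]
      omega

/-- binary arithmetic in polynomial time -/
theorem arith : S_Arith := fun _ _ _ _ hf hg =>
  ⟨arith_add hf hg, arith_sub hf hg, arith_mul hf hg, arith_div hf hg, arith_le hf hg⟩

end Pool.Agent.TutteEq
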