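import Pool.Agent.TutteEq.Stmts

/-!
# Module Arith2: length of the encoding, powers, dyadic numbers
-/

set_option autoImplicit false

namespace Pool.Agent.TutteEq

open Pool.Agent.PT Pool.Agent.TutteHard

theorem arith2_posNum (n : PosNum) : (Computability.encodePosNum n).length = n.natSize := by
  induction n with
  | one => rfl
  | bit1 n ih => simp [Computability.encodePosNum, PosNum.natSize, ih]
  | bit0 n ih => simp [Computability.encodePosNum, PosNum.natSize, ih]

theorem arith2_num (n : Num) : (Computability.encodeNum n).length = n.natSize := by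
  cases n with
  | zero => rfl
  | pos n => exact arith2_posNum n

theorem arith2_length (n : ℕ) : (enc n).length = Nat.size n := by
  have h : enc n = Computability.encodeNum (n : Num) := rfl
  rw [h, arith2_num, Num.natSize_to_nat, Num.to_of_nat]

theorem arith2_size_mul (a b : ℕ) : Nat.size (a * b) ≤ Nat.size a + Nat.size b := by
  rw [Nat.size_le, pow_add]
  exact Nat.mul_lt_mul'' (Nat.lt_size_self a) (Nat.lt_size_self b)

theorem arith2_pow (h : S_Arith) (α : Type) [N487b59b3 α] (f : α → ℕ) (e : α → U) (hf : PT f)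
    (he : PT e) : PT (fun a => f a ^ (e a).val) := by
  have hg : PT (fun p : ℕ × ℕ => p.2 * p.1) := (h (ℕ × ℕ) _ _ PT.snd PT.fst).2.2.1
  refine (PT.iter (g := fun p : ℕ × ℕ => p.2 * p.1) (e := f) (s := fun _ => 1) (n := e) hg
    Polynomial.X ?_ hf (PT.const 1) he).congr fun a => ?_
  · intro x s
    rw [Polynomial.eval_X, arith2_length, arith2_length, arith2_length]
    exact arith2_size_mul s x
  · have key : ∀ n m : ℕ, (fun s : ℕ => s * f a)^[n] m = m * f a ^ n := by
      intro n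
      induction n with
      | zero => intro m; simp
      | succ n ih =>
        intro m
        rw [Function.iterate_succ_apply, ih, pow_succ]
        ring
    simpa using key (e a).val 1

theorem arith2_congr_enc {α β γ : Type} [N487b59b3 α] [N487b59b3 β] [N487b59b3 γ] {f : α → β}
    {g : α → γ} (hf : PT f) (h : ∀ a, enc (g a) = enc (f a)) : PT g := by
  obtain ⟨c, p, hc⟩ := hf
  exact ⟨c, p, fun a => by rw [h a]; exact hc a⟩

theorem arith2_dyadic (n s : ℕ) :
    ((2 * (n : ℚ) + 1) / 2 ^ (s + 1) : ℚ).num = 2 * (n : ℤ) + 1 ∧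
      ((2 * (n : ℚ) + 1) / 2 ^ (s + 1) : ℚ).den = 2 ^ (s + 1) := by
  have hb : (0 : ℤ) < 2 ^ (s + 1) := by positivity
  have hc : Nat.Coprime (2 * (n : ℤ) + 1).natAbs ((2 : ℤ) ^ (s + 1)).natAbs := by
    have e1 : (2 * (n : ℤ) + 1).natAbs = 2 * n + 1 := by omega
    rw [e1, Int.natAbs_pow]
    apply Nat.Coprime.pow_right
    rw [Nat.coprime_comm]
    show Nat.Coprime 2 (2 * n + 1)
    rw [Nat.coprime_two_left]
    exact odd_two_mul_add_one n
  have e : ((2 * (n : ℚ) + 1) / 2 ^ (s + 1) : ℚ) =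
      (((2 * (n : ℤ) + 1 : ℤ) : ℚ) / (((2 : ℤ) ^ (s + 1) : ℤ) : ℚ)) := by
    push_cast
    ring
  rw [e]
  refine ⟨Rat.num_div_eq_of_coprime hb hc, ?_⟩
  have := Rat.den_div_eq_of_coprime hb hc
  exact_mod_cast this

theorem arith2 (h : S_Arith) : S_Arith2 := by
  refine ⟨arith2_length, fun α _ f e hf he => arith2_pow h α f e hf he, fun α _ n s hn hs => ?_⟩
  have h1 : PT (fun a => 2 * n a + 1) :=
    (h α _ _ (h α _ _ (PT.const 2) hn).2.2.1 (PT.const 1)).1
  have h2 : PT (fun a => 2 ^ ((s a).val + 1)) :=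
    arith2_pow h α (fun _ => 2) (fun a => U.mk ((s a).val + 1)) (PT.const 2) hs.usucc
  have h3 : PT (fun a => ((2 * n a + 1, 0), 2 ^ ((s a).val + 1))) :=
    (h1.pair (PT.const 0)).pair h2
  refine arith2_congr_enc h3 fun a => ?_
  obtain ⟨hn', hd'⟩ := arith2_dyadic (n a) (s a).val
  have e1 : enc ((2 * (n a : ℚ) + 1) / 2 ^ ((s a).val + 1) : ℚ) =
      enc ((((2 * (n a : ℚ) + 1) / 2 ^ ((s a).val + 1) : ℚ).num.toNat,
        (-((2 * (n a : ℚ) + 1) / 2 ^ ((s a).val + 1) : ℚ).num).toNat),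
        ((2 * (n a : ℚ) + 1) / 2 ^ ((s a).val + 1) : ℚ).den) := rfl
  rw [e1, hn', hd']
  have e2 : (2 * (n a : ℤ) + 1).toNat = 2 * n a + 1 := by omega
  have e3 : (-(2 * (n a : ℤ) + 1)).toNat = 0 := by omega
  rw [e2, e3]

end Pool.Agent.TutteEq
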