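import Pool.Agent.TutteEq.Stmts

/-!
# Module Gsn: numerators of geometric sums
-/

set_option autoImplicit false

namespace Pool.Agent.TutteEq

open Pool.Agent.PT Pool.Agent.TutteHard

theorem gsn_identity (P Q K : ℕ) : gsn P Q K * Q + P ^ K = gsn P Q K * P + Q ^ K := by
  induction K with
  | zero => simp [gsn]
  | succ K ih =>
    simp only [gsn]
    have e1 : (P * gsn P Q K + Q ^ K) * Q + P ^ (K + 1) =
        P * (gsn P Q K * Q + P ^ K) + Q ^ (K + 1) := by ring
    rw [e1, ih]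
    ring

theorem gsn_of_lt {P Q : ℕ} (h : P < Q) (K : ℕ) : gsn P Q K = (Q ^ K - P ^ K) / (Q - P) := by
  have h1 := gsn_identity P Q K
  have h2 : gsn P Q K * (Q - P) = Q ^ K - P ^ K := by
    rw [Nat.mul_sub]; omega
  rw [← h2, Nat.mul_div_cancel _ (Nat.sub_pos_of_lt h)]

theorem gsn_of_gt {P Q : ℕ} (h : Q < P) (K : ℕ) : gsn P Q K = (P ^ K - Q ^ K) / (P - Q) := by
  have h1 := gsn_identity P Q K
  have h2 : gsn P Q K * (P - Q) = P ^ K - Q ^ K := by
    rw [Nat.mul_sub]; omega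
  rw [← h2, Nat.mul_div_cancel _ (Nat.sub_pos_of_lt h)]

theorem gsn_self (P K : ℕ) : gsn P P K = K * P ^ (K - 1) := by
  induction K with
  | zero => simp [gsn]
  | succ K ih =>
    rcases Nat.eq_zero_or_pos K with rfl | hK
    · simp [gsn]
    · simp only [gsn]
      obtain ⟨k, rfl⟩ : ∃ k, K = k + 1 := ⟨K - 1, by omega⟩
      rw [ih]
      simp only [Nat.add_sub_cancel]
      ring

theorem gsn_size_succ (s : ℕ) : Nat.size (s + 1) ≤ Nat.size s + 1 := by
  rw [Nat.size_le, pow_succ]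
  have := Nat.lt_size_self s
  omega

/-- the value of a unary number, in binary -/
theorem gsn_uval (h : S_Arith) (h2 : S_Arith2) : PT (fun k : U => k.val) := by
  have hg : PT (fun p : ℕ × ℕ => p.2 + 1) := (h (ℕ × ℕ) _ _ PT.snd (PT.const 1)).1
  refine (PT.iter (g := fun p : ℕ × ℕ => p.2 + 1) (e := fun _ : U => 0) (s := fun _ => 0)
    (n := fun k : U => k) hg 1 ?_ (PT.const 0) (PT.const 0) PT.id).congr fun k => ?_
  · intro x s
    rw [Polynomial.eval_one, h2.1, h2.1]
    exact gsn_size_succ s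
  · simp

theorem gsn_pow (h2 : S_Arith2) (P : ℕ) : PT (fun k : U => P ^ k.val) :=
  h2.2.1 U (fun _ => P) (fun k => k) (PT.const P) PT.id

/-- Module Gsn -/
theorem gsn_pt (h : S_Arith) (h2 : S_Arith2) : S_Gsn := by
  intro P Q hQ
  constructor
  · rcases lt_trichotomy P Q with hlt | rfl | hgt
    · have h3 : PT (fun k : U => (Q ^ k.val - P ^ k.val) / (Q - P)) :=
        (h U _ _ (h U _ _ (gsn_pow h2 Q) (gsn_pow h2 P)).2.1 (PT.const (Q - P))).2.2.2.1
      exact h3.congr fun k => (gsn_of_lt hlt k.val).symm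
    · have h3 : PT (fun k : U => P ^ (k.val - 1)) :=
        h2.2.1 U (fun _ => P) (fun k => U.mk (k.val - 1)) (PT.const P) PT.id.upred
      have h4 : PT (fun k : U => k.val * P ^ (k.val - 1)) := (h U _ _ (gsn_uval h h2) h3).2.2.1
      exact h4.congr fun k => (gsn_self P k.val).symm
    · have h3 : PT (fun k : U => (P ^ k.val - Q ^ k.val) / (P - Q)) :=
        (h U _ _ (h U _ _ (gsn_pow h2 P) (gsn_pow h2 Q)).2.1 (PT.const (P - Q))).2.2.2.1
      exact h3.congr fun k => (gsn_of_gt hgt k.val).symm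
  · intro K hK
    have hQ' : (Q : ℝ) ≠ 0 := by exact_mod_cast hQ.ne'
    induction K, hK using Nat.le_induction with
    | base => simp [gsn, gs]
    | succ K hK ih =>
      obtain ⟨k, rfl⟩ : ∃ k, K = k + 1 := ⟨K - 1, by omega⟩
      have e1 : gs ((P : ℝ) / Q) (k + 1 + 1) = (P : ℝ) / Q * gs ((P : ℝ) / Q) (k + 1) + 1 := by
        unfold gs
        rw [geom_sum_succ]
      have e2 : gsn P Q (k + 1 + 1) = P * gsn P Q (k + 1) + Q ^ (k + 1) := rfl
      rw [e1, e2]
      push_cast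
      rw [ih]
      simp only [Nat.add_sub_cancel]
      field_simp
      ring

end Pool.Agent.TutteEq
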