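import Pool.Agent.TutteEq.Stmts

/-!
# The networks act as single edges
-/

set_option autoImplicit false
set_option linter.unusedSectionVars false

namespace Pool.Agent.TutteEq

open Pool.Agent.PT Pool.Agent.TutteHard Relation

variable {α : Type} [DecidableEq α]

/-! ### inner vertices of fans -/

theorem net_mem_fanI (nm : List Bool → α) (K : ℕ) : ∀ (p : List Bool) {x : α},
    x ∈ fanI nm K p → ∃ l, x = nm (l ++ p) := by
  induction K with
  | zero => intro p x h; simp [fanI] at h
  | succ K ih =>
    intro p x h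
    cases K with
    | zero => simp [fanI] at h
    | succ K =>
      rw [fanI, Finset.mem_insert] at h
      rcases h with h | h
      · exact ⟨[], by simpa using h⟩
      · obtain ⟨l, hl⟩ := ih _ h
        exact ⟨l ++ [true], by simpa using hl⟩

theorem net_mem_fansI (nm : List Bool → α) (K J : ℕ) : ∀ (p : List Bool) {x : α},
    x ∈ fansI nm K J p → ∃ l, x = nm (l ++ p) := by
  induction J with
  | zero => intro p x h; simp [fansI] at h
  | succ J ih =>
    intro p x h
    rw [fansI, Finset.mem_union] at h
    rcases h with h | h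
    · obtain ⟨l, hl⟩ := net_mem_fanI nm K _ h
      exact ⟨l ++ [false], by simpa using hl⟩
    · obtain ⟨l, hl⟩ := ih _ h
      exact ⟨l ++ [true], by simpa using hl⟩

theorem net_notMem_fanI {nm : List Bool → α} (hnm : Function.Injective nm) (K : ℕ)
    (p : List Bool) (b : Bool) : nm p ∉ fanI nm K (b :: p) := by
  intro hx
  obtain ⟨l, hl⟩ := net_mem_fanI nm K _ hx
  exact SP.ne_append_cons (hnm hl)

theorem net_notMem_fansI {nm : List Bool → α} (hnm : Function.Injective nm) (K J : ℕ)
    (p : List Bool) (b : Bool) : nm p ∉ fansI nm K J (b :: p) := by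
  intro hx
  obtain ⟨l, hl⟩ := net_mem_fansI nm K J _ hx
  exact SP.ne_append_cons (hnm hl)

theorem net_disjoint_fans {nm : List Bool → α} (hnm : Function.Injective nm) (K J : ℕ)
    (p : List Bool) : Disjoint (fanI nm K (false :: p)) (fansI nm K J (true :: p)) := by
  rw [Finset.disjoint_left]
  intro x hx hy
  obtain ⟨l, hl⟩ := net_mem_fanI nm K _ hx
  obtain ⟨l', hl'⟩ := net_mem_fansI nm K J _ hy
  exact SP.append_cons_ne (hnm (hl.symm.trans hl'))

theorem net_card_fanI {nm : List Bool → α} (hnm : Function.Injective nm) (K : ℕ) :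
    ∀ p : List Bool, (fanI nm K p).card = K - 1 := by
  induction K with
  | zero => intro p; simp [fanI]
  | succ K ih =>
    intro p
    cases K with
    | zero => simp [fanI]
    | succ K =>
      rw [fanI, Finset.card_insert_of_notMem (net_notMem_fanI hnm _ _ _), ih]
      omega

theorem net_card_fansI {nm : List Bool → α} (hnm : Function.Injective nm) (K J : ℕ) :
    ∀ p : List Bool, (fansI nm K J p).card = J * (K - 1) := by
  induction J with
  | zero => intro p; simp [fansI]
  | succ J ih =>
    intro p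
    rw [fansI, Finset.card_union_of_disjoint (net_disjoint_fans hnm K J p), net_card_fanI hnm,
      ih, Nat.succ_mul, add_comm]

/-- the end vertices of the edges of a fan -/
theorem net_verts_fan (nm : List Bool → α) (r : α) (K : ℕ) : ∀ (p : List Bool) (a b x : α),
    ((∃ e ∈ fan nm r K p a b, x = e.1 ∨ x = e.2) → x = a ∨ x = b ∨ x = r ∨ x ∈ fanI nm K p) ∧
    (x ∈ fanI nm K p → ∃ e ∈ fan nm r K p a b, x = e.1 ∨ x = e.2) := by
  induction K with
  | zero => intro p a b x; simp [fan, fanI]
  | succ K ih =>
    intro p a b x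
    cases K with
    | zero => simp [fan, fanI]; tauto
    | succ K =>
      obtain ⟨h1, h2⟩ := ih (true :: p) (nm p) b x
      rw [fan, fanI, Finset.mem_insert]
      constructor
      · rintro ⟨e, he, hx⟩
        rcases List.mem_cons.1 he with rfl | he
        · simp only at hx
          tauto
        · rcases List.mem_cons.1 he with rfl | he
          · simp only at hx
            tauto
          · have := h1 ⟨e, he, hx⟩
            tauto
      · rintro (h | h)
        · exact ⟨(a, nm p), List.mem_cons_self, Or.inr h⟩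
        · obtain ⟨e, he, hx⟩ := h2 h
          exact ⟨e, List.mem_cons_of_mem _ (List.mem_cons_of_mem _ he), hx⟩

theorem net_verts_fans (nm : List Bool → α) (r : α) (K J : ℕ) : ∀ (p : List Bool) (a b x : α),
    ((∃ e ∈ fans nm r K J p a b, x = e.1 ∨ x = e.2) →
      x = a ∨ x = b ∨ x = r ∨ x ∈ fansI nm K J p) ∧
    (x ∈ fansI nm K J p → ∃ e ∈ fans nm r K J p a b, x = e.1 ∨ x = e.2) := by
  induction J with
  | zero => intro p a b x; simp [fans, fansI]
  | succ J ih =>
    intro p a b x
    obtain ⟨h1, h2⟩ := ih (true :: p) a b x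
    obtain ⟨h3, h4⟩ := net_verts_fan nm r K (false :: p) a b x
    rw [fans, fansI, Finset.mem_union]
    constructor
    · rintro ⟨e, he, hx⟩
      rcases List.mem_append.1 he with he | he
      · rcases h3 ⟨e, he, hx⟩ with h | h | h | h
        · exact Or.inl h
        · exact Or.inr (Or.inl h)
        · exact Or.inr (Or.inr (Or.inl h))
        · exact Or.inr (Or.inr (Or.inr (Or.inl h)))
      · rcases h1 ⟨e, he, hx⟩ with h | h | h | h
        · exact Or.inl h
        · exact Or.inr (Or.inl h)
        · exact Or.inr (Or.inr (Or.inl h))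
        · exact Or.inr (Or.inr (Or.inr (Or.inr h)))
    · rintro (h | h)
      · obtain ⟨e, he, hx⟩ := h4 h
        exact ⟨e, List.mem_append.2 (Or.inl he), hx⟩
      · obtain ⟨e, he, hx⟩ := h2 h
        exact ⟨e, List.mem_append.2 (Or.inr he), hx⟩

theorem net_endsIn_fan (nm : List Bool → α) (r : α) (K : ℕ) (p : List Bool) {a b : α}
    {V : Finset α} (ha : a ∈ V) (hb : b ∈ V) (hr : r ∈ V) :
    EndsIn (V ∪ fanI nm K p) (fan nm r K p a b) := by
  intro e he
  have h1 := (net_verts_fan nm r K p a b e.1).1 ⟨e, he, Or.inl rfl⟩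
  have h2 := (net_verts_fan nm r K p a b e.2).1 ⟨e, he, Or.inr rfl⟩
  rw [Finset.mem_union, Finset.mem_union]
  constructor
  · rcases h1 with h1 | h1 | h1 | h1
    · exact Or.inl (h1 ▸ ha)
    · exact Or.inl (h1 ▸ hb)
    · exact Or.inl (h1 ▸ hr)
    · exact Or.inr h1
  · rcases h2 with h1 | h1 | h1 | h1
    · exact Or.inl (h1 ▸ ha)
    · exact Or.inl (h1 ▸ hb)
    · exact Or.inl (h1 ▸ hr)
    · exact Or.inr h1

theorem net_endsIn_fans (nm : List Bool → α) (r : α) (K J : ℕ) (p : List Bool) {a b : α}
    {V : Finset α} (ha : a ∈ V) (hb : b ∈ V) (hr : r ∈ V) :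
    EndsIn (V ∪ fansI nm K J p) (fans nm r K J p a b) := by
  intro e he
  have h1 := (net_verts_fans nm r K J p a b e.1).1 ⟨e, he, Or.inl rfl⟩
  have h2 := (net_verts_fans nm r K J p a b e.2).1 ⟨e, he, Or.inr rfl⟩
  rw [Finset.mem_union, Finset.mem_union]
  constructor
  · rcases h1 with h1 | h1 | h1 | h1
    · exact Or.inl (h1 ▸ ha)
    · exact Or.inl (h1 ▸ hb)
    · exact Or.inl (h1 ▸ hr)
    · exact Or.inr h1
  · rcases h2 with h1 | h1 | h1 | h1
    · exact Or.inl (h1 ▸ ha)
    · exact Or.inl (h1 ▸ hb)
    · exact Or.inl (h1 ▸ hr)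
    · exact Or.inr h1

theorem net_endsW {V : Finset α} {F : List (α × α)} (h : EndsIn V F) (v : ℝ) :
    EndsW V (SP.wtd v F) := by
  intro e he
  rw [SP.wtd, List.mem_map] at he
  obtain ⟨f, hf, rfl⟩ := he
  exact h f hf

/-! ### components -/

/-- a fan between connected vertices, connected to `r`, does nothing -/
theorem net_comps_fan {nm : List Bool → α} (hnm : Function.Injective nm) (r : α) (K : ℕ) :
    ∀ (p : List Bool) (a b : α) (V : Finset α) (S : List (α × α)) (ha : a ∈ V) (hb : b ∈ V)
      (hr : r ∈ V), Disjoint V (fanI nm K p) → EndsIn V S →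
      EqvGen (rel V S) ⟨a, ha⟩ ⟨r, hr⟩ → EqvGen (rel V S) ⟨r, hr⟩ ⟨b, hb⟩ →
      comps (V ∪ fanI nm K p) (fan nm r K p a b ++ S) = comps V S := by
  induction K with
  | zero => intro p a b V S ha hb hr _ _ _ _; simp [fan, fanI]
  | succ K ih =>
    intro p a b V S ha hb hr hV hS har hrb
    cases K with
    | zero =>
      simp only [fan, fanI, Finset.union_empty, List.singleton_append]
      exact comps_cons_of_eqv ha hb (har.trans _ _ _ hrb)
    | succ K =>
      rw [fanI] at hV
      rw [fan, fanI]
      have hzI : nm p ∉ fanI nm (K + 1) (true :: p) := net_notMem_fanI hnm _ p _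
      have ih' := ih (true :: p) (nm p) b
      generalize fanI nm (K + 1) (true :: p) = I at *
      generalize fan nm r (K + 1) (true :: p) (nm p) b = F at *
      generalize nm p = z at *
      have hzV : z ∉ V := fun h => Finset.disjoint_left.1 hV h (Finset.mem_insert_self _ _)
      have hVI : Disjoint V I := Finset.disjoint_of_subset_right (Finset.subset_insert _ _) hV
      have h1 : V ∪ insert z I = insert z V ∪ I := by
        ext x; simp only [Finset.mem_union, Finset.mem_insert]; tauto
      have hs1 : V ⊆ insert z V := Finset.subset_insert _ _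
      have hzz : z ∈ insert z V := Finset.mem_insert_self _ _
      rw [h1, comps_congr (T := F ++ ((a, z) :: (r, z) :: S)),
        ih' (insert z V) ((a, z) :: (r, z) :: S) hzz (hs1 hb) (hs1 hr)]
      · rw [comps_cons_of_eqv (S := (r, z) :: S) (hs1 ha) hzz, comps_leaf hS hr hzV]
        refine EqvGen.trans _ ⟨r, hs1 hr⟩ _ ?_ (EqvGen.rel _ _ ?_)
        · exact eqv_incl hs1 (fun e he => List.mem_cons_of_mem _ he) har
        · simp [rel]
      · rw [Finset.disjoint_insert_left]
        exact ⟨hzI, hVI⟩
      · exact (((hS.mono hs1).cons (hs1 hr) hzz).cons (hs1 ha) hzz)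
      · exact EqvGen.symm _ _ (EqvGen.rel _ _ (by simp [rel]))
      · exact eqv_incl hs1 (fun e he => List.mem_cons_of_mem _ (List.mem_cons_of_mem _ he)) hrb
      · intro f
        simp only [List.mem_cons, List.mem_append]
        tauto

theorem net_comps_fans {nm : List Bool → α} (hnm : Function.Injective nm) (r : α) (K J : ℕ) :
    ∀ (p : List Bool) (a b : α) (V : Finset α) (S : List (α × α)) (ha : a ∈ V) (hb : b ∈ V)
      (hr : r ∈ V), Disjoint V (fansI nm K J p) → EndsIn V S →
      EqvGen (rel V S) ⟨a, ha⟩ ⟨r, hr⟩ → EqvGen (rel V S) ⟨r, hr⟩ ⟨b, hb⟩ →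
      comps (V ∪ fansI nm K J p) (fans nm r K J p a b ++ S) = comps V S := by
  induction J with
  | zero => intro p a b V S ha hb hr _ _ _ _; simp [fans, fansI]
  | succ J ih =>
    intro p a b V S ha hb hr hV hS har hrb
    rw [fansI] at hV
    rw [fans, fansI]
    have hIJ := net_disjoint_fans hnm K J p
    have ih' := ih (true :: p) a b
    have hfan := net_comps_fan hnm r K (false :: p) a b
    have hends := net_endsIn_fans nm r K J (true :: p) ha hb hr
    generalize fanI nm K (false :: p) = I at *
    generalize fansI nm K J (true :: p) = I' at *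
    have hVI : Disjoint V I := Finset.disjoint_of_subset_right Finset.subset_union_left hV
    have hVJ : Disjoint V I' := Finset.disjoint_of_subset_right Finset.subset_union_right hV
    have h1 : V ∪ (I ∪ I') = (V ∪ I') ∪ I := by
      ext x; simp only [Finset.mem_union]; tauto
    have hsub : V ⊆ V ∪ I' := Finset.subset_union_left
    rw [h1, List.append_assoc, hfan (V ∪ I') _ (hsub ha) (hsub hb) (hsub hr),
      ih' V S ha hb hr hVJ hS har hrb]
    · rw [Finset.disjoint_union_left]
      exact ⟨hVI, hIJ.symm⟩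
    · exact SP.EndsIn_append hends (hS.mono hsub)
    · exact eqv_incl hsub (fun e he => List.mem_append.2 (Or.inr he)) har
    · exact eqv_incl hsub (fun e he => List.mem_append.2 (Or.inr he)) hrb

/-! ### partition functions -/

omit [DecidableEq α] in
theorem net_Z_eqv (q : ℝ) {V : Finset α} {a b : α} (ha : a ∈ V) (hb : b ∈ V) :
    ∀ (L : List ((α × α) × ℝ)) (S : List (α × α)), EqvGen (rel V S) ⟨a, ha⟩ ⟨b, hb⟩ →
      Z q V ((a, b) :: S) L = Z q V S L := by
  intro L
  induction L with
  | nil => intro S h; rw [Z_nil, Z_nil, comps_cons_of_eqv ha hb h]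
  | cons e L ih =>
    intro S h
    rw [Z_cons, Z_cons, ih S h, Z_congr q V (S := e.1 :: (a, b) :: S) (T := (a, b) :: e.1 :: S),
      ih (e.1 :: S)]
    · exact eqv_incl (Finset.Subset.refl V) (fun f hf => List.mem_cons_of_mem _ hf) h
    · intro f
      simp only [List.mem_cons]
      tauto

omit [DecidableEq α] in
/-- a hard edge inside a component gives zero -/
theorem net_Z_hard (q : ℝ) {V : Finset α} {e : α × α} (ha : e.1 ∈ V) (hb : e.2 ∈ V)
    (L : List ((α × α) × ℝ)) (S : List (α × α)) (h : EqvGen (rel V S) ⟨e.1, ha⟩ ⟨e.2, hb⟩) :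
    Z q V S ((e, -1) :: L) = 0 := by
  obtain ⟨a, b⟩ := e
  rw [Z_cons]
  simp only
  rw [net_Z_eqv q ha hb L S h]
  ring

/-- elimination of a vertex `z` of a fan -/
theorem net_star (q v : ℝ) (h0 : q - 2 + v ≠ 0) {V : Finset α} {S : List (α × α)}
    {L : List ((α × α) × ℝ)} {a b r z : α} (e1 : α × α) (he : e1 = (a, r) ∨ e1 = (r, a))
    (hS : EndsIn V S) (hL : EndsW V L) (ha : a ∈ V) (hb : b ∈ V) (hr : r ∈ V) (hz : z ∉ V) :
    Z q (insert z V) S (((z, b), v) :: ((r, z), -1) :: ((a, z), -1) :: (e1, -1) ::
        ((r, b), -1) :: L) =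
      (q - 2 + v) * Z q V S (((a, b), -v / (q - 2 + v)) :: (e1, -1) :: ((r, b), -1) :: L) := by
  have hs1 : V ⊆ insert z V := Finset.subset_insert _ _
  have hzz : z ∈ insert z V := Finset.mem_insert_self _ _
  have he1 : e1.1 ∈ V ∧ e1.2 ∈ V := by
    rcases he with rfl | rfl
    · exact ⟨ha, hr⟩
    · exact ⟨hr, ha⟩
  set M : List ((α × α) × ℝ) := (e1, -1) :: ((r, b), -1) :: L with hM
  have hMe : EndsW V M := (hL.cons hr hb).cons he1.1 he1.2
  have hM' : M.Perm (((r, b), -1) :: (e1, -1) :: L) := List.Perm.swap _ _ _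
  -- zero terms
  have key : ∀ T : List (α × α), (a, z) ∈ T → (r, z) ∈ T → Z q (insert z V) T M = 0 := by
    intro T h1 h2
    have h3 : EqvGen (rel (insert z V) T) ⟨a, hs1 ha⟩ ⟨r, hs1 hr⟩ :=
      EqvGen.trans _ ⟨z, hzz⟩ _ (EqvGen.rel _ _ h1) (EqvGen.symm _ _ (EqvGen.rel _ _ h2))
    rw [hM]
    rcases he with rfl | rfl
    · exact net_Z_hard q (e := (a, r)) (hs1 ha) (hs1 hr) _ T h3
    · exact net_Z_hard q (e := (r, a)) (hs1 hr) (hs1 ha) _ T (EqvGen.symm _ _ h3)
  have key2 : ∀ T : List (α × α), (z, b) ∈ T → (r, z) ∈ T → Z q (insert z V) T M = 0 := by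
    intro T h1 h2
    have h3 : EqvGen (rel (insert z V) T) ⟨r, hs1 hr⟩ ⟨b, hs1 hb⟩ :=
      EqvGen.trans _ ⟨z, hzz⟩ _ (EqvGen.rel _ _ h2) (EqvGen.rel _ _ h1)
    rw [Z_perm q _ hM']
    exact net_Z_hard q (e := (r, b)) (hs1 hr) (hs1 hb) _ T h3
  have t0 : Z q (insert z V) S M = q * Z q V S M := Z_insert q hS hMe hz
  have t1 : Z q (insert z V) ((a, z) :: S) M = Z q V S M := Z_leaf q hS hMe ha hz
  have t2 : Z q (insert z V) ((r, z) :: S) M = Z q V S M := Z_leaf q hS hMe hr hz
  have t3 : Z q (insert z V) ((z, b) :: S) M = Z q V S M := Z_leaf' q hS hMe hb hz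
  have t4 : Z q (insert z V) ((a, z) :: (z, b) :: S) M = Z q V ((a, b) :: S) M := by
    rw [Z_congr q (insert z V) (S := (a, z) :: (z, b) :: S) (T := (z, b) :: (a, z) :: S)
      (by intro f; simp only [List.mem_cons]; tauto)]
    exact Z_series q hS hMe ha hb hz
  have t5 : Z q (insert z V) ((a, z) :: (r, z) :: S) M = 0 := key _ (by simp) (by simp)
  have t6 : Z q (insert z V) ((r, z) :: (z, b) :: S) M = 0 := key2 _ (by simp) (by simp)
  have t7 : Z q (insert z V) ((a, z) :: (r, z) :: (z, b) :: S) M = 0 :=
    key _ (by simp) (by simp)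
  clear_value M
  rw [Z_cons, Z_cons, Z_cons, Z_cons, Z_cons, Z_cons, Z_cons]
  simp only
  rw [t0, t1, t2, t3, t4, t5, t6, t7, Z_cons]
  simp only
  field_simp
  ring

theorem net_gs_succ (b : ℝ) (K : ℕ) : gs b (K + 1) = gs b K + b ^ K := by
  rw [gs, gs, Finset.sum_range_succ]

theorem net_gs_succ' (b : ℝ) (K : ℕ) : gs b (K + 1) = 1 + b * gs b K := by
  induction K with
  | zero => simp [gs]
  | succ K ih =>
    have h := net_gs_succ b K
    rw [net_gs_succ b (K + 1)]
    linear_combination ih - b * h

theorem net_gs_pos {b : ℝ} (hb : 0 < b) (K : ℕ) : 0 < gs b (K + 1) := by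
  rw [gs, Finset.sum_range_succ]
  have : 0 ≤ ∑ i ∈ Finset.range K, b ^ i := Finset.sum_nonneg fun i _ => pow_nonneg hb.le i
  have := pow_pos hb K
  linarith

/-- the effective weight of a fan -/
theorem net_Z_fan {nm : List Bool → α} (hnm : Function.Injective nm) {q : ℝ} (hq1 : q < 1) (r : α)
    (K : ℕ) : ∀ (p : List Bool) (a b : α) (e1 : α × α), (e1 = (a, r) ∨ e1 = (r, a)) →
      ∀ (V : Finset α) (S : List (α × α)) (L : List ((α × α) × ℝ)), a ∈ V → b ∈ V → r ∈ V →
      Disjoint V (fanI nm (K + 1) p) → EndsIn V S → EndsW V L →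
      Z q (V ∪ fanI nm (K + 1) p) S (SP.wtd (-1) (fan nm r (K + 1) p a b) ++
          ((e1, -1) :: ((r, b), -1) :: L)) =
        ((-1) ^ K * gs (2 - q) (K + 1)) *
          Z q V S (((a, b), fK q (K + 1) - 1) :: (e1, -1) :: ((r, b), -1) :: L) := by
  induction K with
  | zero =>
    intro p a b e1 he V S L ha hb hr hV hS hL
    simp [fan, fanI, SP.wtd, gs, fK]
  | succ K ih =>
    intro p a b e1 he V S L ha hb hr hV hS hL
    rw [fanI] at hV
    rw [fan, fanI]
    have hzI : nm p ∉ fanI nm (K + 1) (true :: p) := net_notMem_fanI hnm _ p _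
    have ih' := ih (true :: p) (nm p) b (r, nm p) (Or.inr rfl)
    have h1e : SP.wtd (-1) ((a, nm p) :: (r, nm p) :: fan nm r (K + 1) (true :: p) (nm p) b) =
        ((a, nm p), (-1 : ℝ)) :: ((r, nm p), (-1 : ℝ)) ::
          SP.wtd (-1) (fan nm r (K + 1) (true :: p) (nm p) b) := rfl
    rw [h1e]
    generalize fanI nm (K + 1) (true :: p) = I at *
    generalize SP.wtd (-1) (fan nm r (K + 1) (true :: p) (nm p) b) = F at *
    generalize nm p = z at *
    have hzV : z ∉ V := fun h => Finset.disjoint_left.1 hV h (Finset.mem_insert_self _ _)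
    have hVI : Disjoint V I := Finset.disjoint_of_subset_right (Finset.subset_insert _ _) hV
    have h1 : V ∪ insert z I = insert z V ∪ I := by
      ext x; simp only [Finset.mem_union, Finset.mem_insert]; tauto
    have hs1 : V ⊆ insert z V := Finset.subset_insert _ _
    have hzz : z ∈ insert z V := Finset.mem_insert_self _ _
    have he1 : e1.1 ∈ V ∧ e1.2 ∈ V := by
      rcases he with rfl | rfl
      · exact ⟨ha, hr⟩
      · exact ⟨hr, ha⟩
    have hp1 : (((a, z), (-1 : ℝ)) :: ((r, z), (-1 : ℝ)) :: F ++
        ((e1, -1) :: ((r, b), -1) :: L)).Perm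
        (F ++ (((r, z), -1) :: ((r, b), -1) :: (((a, z), -1) :: (e1, -1) :: L))) := by
      have e1' : (((a, z), (-1 : ℝ)) :: ((r, z), (-1 : ℝ)) :: F ++
          ((e1, -1) :: ((r, b), -1) :: L)) = ([((a, z), (-1 : ℝ)), ((r, z), (-1 : ℝ))] ++ F) ++
          ((e1, -1) :: ((r, b), -1) :: L) := by simp
      rw [e1']
      refine (List.Perm.append_right _ List.perm_append_comm).trans ?_
      rw [List.append_assoc]
      refine List.Perm.append_left F ?_
      simp only [List.cons_append, List.nil_append]
      -- az, rz, e1, rb, L  ->  rz, rb, az, e1, L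
      refine (List.Perm.swap _ _ _).trans (List.Perm.cons _ ?_)
      -- az, e1, rb, L -> rb, az, e1, L
      refine (List.Perm.cons _ (List.Perm.swap _ _ _)).trans (List.Perm.swap _ _ _)
    rw [h1, Z_perm q _ hp1, ih' (insert z V) S _ hzz (hs1 hb) (hs1 hr) ?_ (hS.mono hs1) ?_]
    · have hp2 : ((((z, b), fK q (K + 1) - 1) :: ((r, z), -1) :: ((r, b), -1) ::
          ((a, z), -1) :: (e1, -1) :: L) : List ((α × α) × ℝ)).Perm
          (((z, b), fK q (K + 1) - 1) :: ((r, z), -1) :: ((a, z), -1) :: (e1, -1) ::
            ((r, b), -1) :: L) := by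
        refine List.Perm.cons _ (List.Perm.cons _ ?_)
        exact (List.Perm.swap _ _ _).trans (List.Perm.cons _ (List.Perm.swap _ _ _))
      have hb0 : (0 : ℝ) < 2 - q := by linarith
      have g1 := net_gs_pos hb0 K
      have g2 := net_gs_pos hb0 (K + 1)
      have g0 : 0 ≤ gs (2 - q) K := Finset.sum_nonneg fun i _ => pow_nonneg hb0.le i
      have e1'' := net_gs_succ' (2 - q) K
      have e2 := net_gs_succ' (2 - q) (K + 1)
      have f1 : fK q (K + 1) = (2 - q) * gs (2 - q) K / gs (2 - q) (K + 1) := by
        rw [fK]; simp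
      have f2 : fK q (K + 1 + 1) = (2 - q) * gs (2 - q) (K + 1) / gs (2 - q) (K + 1 + 1) := by
        rw [fK]; simp
      have h3 : gs (2 - q) (K + 1 + 1) = (2 - q + 1) * gs (2 - q) (K + 1) -
          (2 - q) * gs (2 - q) K := by
        rw [e2]; linear_combination (-1 : ℝ) * e1''
      have h4 : q - 2 + (fK q (K + 1) - 1) = - gs (2 - q) (K + 1 + 1) / gs (2 - q) (K + 1) := by
        rw [f1, h3]
        field_simp
        ring
      have h5 : q - 2 + (fK q (K + 1) - 1) ≠ 0 := by
        rw [h4]
        exact div_ne_zero (neg_ne_zero.2 g2.ne') g1.ne'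
      have h6 : -(fK q (K + 1) - 1) / (q - 2 + (fK q (K + 1) - 1)) = fK q (K + 1 + 1) - 1 := by
        rw [h4, f1, f2]
        have g2' := g2.ne'
        have g1' := g1.ne'
        field_simp
        linear_combination h3
      rw [Z_perm q _ hp2, net_star q (fK q (K + 1) - 1) h5 e1 he hS hL ha hb hr hzV, h6, h4]
      rw [pow_succ]
      have g1' := g1.ne'
      field_simp
    · rw [Finset.disjoint_insert_left]
      exact ⟨hzI, hVI⟩
    · exact (((hL.mono hs1).cons (hs1 he1.1) (hs1 he1.2)).cons (hs1 ha) hzz)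

/-- the effective weight of parallel fans -/
theorem net_Z_fans {nm : List Bool → α} (hnm : Function.Injective nm) {q : ℝ} (hq1 : q < 1)
    (r : α) (K J : ℕ) : ∀ (p : List Bool) (a b : α)
      (V : Finset α) (S : List (α × α)) (L : List ((α × α) × ℝ)), a ∈ V → b ∈ V → r ∈ V →
      Disjoint V (fansI nm (K + 1) J p) → EndsIn V S → EndsW V L →
      Z q (V ∪ fansI nm (K + 1) J p) S (SP.wtd (-1) (fans nm r (K + 1) J p a b) ++
          (((a, r), -1) :: ((r, b), -1) :: L)) =
        ((-1) ^ K * gs (2 - q) (K + 1)) ^ J *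
          Z q V S (((a, b), fK q (K + 1) ^ J - 1) :: ((a, r), -1) :: ((r, b), -1) :: L) := by
  induction J with
  | zero =>
    intro p a b V S L ha hb hr hV hS hL
    simp [fans, fansI, SP.wtd, Z_cons]
  | succ J ih =>
    intro p a b V S L ha hb hr hV hS hL
    rw [fansI] at hV
    rw [fans, fansI, SP.wtd_append]
    have hIJ := net_disjoint_fans hnm (K + 1) J p
    have ih' := ih (true :: p) a b
    have hfan := net_Z_fan hnm hq1 r K (false :: p) a b (a, r) (Or.inl rfl)
    have hends := net_endsW (net_endsIn_fans nm r (K + 1) J (true :: p) ha hb hr) (-1)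
    generalize fanI nm (K + 1) (false :: p) = I at *
    generalize fansI nm (K + 1) J (true :: p) = I' at *
    generalize SP.wtd (-1) (fan nm r (K + 1) (false :: p) a b) = F at *
    generalize SP.wtd (-1) (fans nm r (K + 1) J (true :: p) a b) = F' at *
    have hVI : Disjoint V I := Finset.disjoint_of_subset_right Finset.subset_union_left hV
    have hVJ : Disjoint V I' := Finset.disjoint_of_subset_right Finset.subset_union_right hV
    have h1 : V ∪ (I ∪ I') = (V ∪ I') ∪ I := by
      ext x; simp only [Finset.mem_union]; tauto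
    have hsub : V ⊆ V ∪ I' := Finset.subset_union_left
    have hp1 : (F ++ F' ++ (((a, r), -1) :: ((r, b), -1) :: L)).Perm
        (F ++ (((a, r), -1) :: ((r, b), -1) :: (F' ++ L))) := by
      rw [List.append_assoc]
      refine List.Perm.append_left F ?_
      exact (List.perm_middle).trans (List.Perm.cons _ List.perm_middle)
    rw [h1, Z_perm q _ hp1, hfan (V ∪ I') S _ (hsub ha) (hsub hb) (hsub hr) ?_ (hS.mono hsub)
      (hends.append (hL.mono hsub))]
    · have hp2 : ((((a, b), fK q (K + 1) - 1) :: ((a, r), -1) :: ((r, b), -1) ::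
          (F' ++ L) : List ((α × α) × ℝ))).Perm
          (F' ++ (((a, r), -1) :: ((r, b), -1) :: (((a, b), fK q (K + 1) - 1) :: L))) := by
        refine List.Perm.trans ?_ (List.perm_middle.trans
          (List.Perm.cons _ List.perm_middle)).symm
        refine (List.Perm.swap _ _ _).trans (List.Perm.cons _ ?_)
        refine (List.Perm.swap _ _ _).trans (List.Perm.cons _ ?_)
        exact List.perm_middle.symm
      rw [Z_perm q _ hp2, ih' V S _ ha hb hr hVJ hS (hL.cons ha hb)]
      have hp3 : ((((a, b), fK q (K + 1) ^ J - 1) :: ((a, r), -1) :: ((r, b), -1) ::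
          ((a, b), fK q (K + 1) - 1) :: L : List ((α × α) × ℝ))).Perm
          (((a, b), fK q (K + 1) ^ J - 1) :: ((a, b), fK q (K + 1) - 1) :: ((a, r), -1) ::
            ((r, b), -1) :: L) := by
        refine List.Perm.cons _ ?_
        exact (List.Perm.cons _ (List.Perm.swap _ _ _)).trans (List.Perm.swap _ _ _)
      rw [Z_perm q _ hp3, Z_par, pow_succ, pow_succ]
      have e3 : (1 + (fK q (K + 1) ^ J - 1)) * (1 + (fK q (K + 1) - 1)) - 1 =
          fK q (K + 1) ^ J * fK q (K + 1) - 1 := by ring
      rw [e3]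
      ring
    · rw [Finset.disjoint_union_left]
      exact ⟨hVI, hIJ.symm⟩

/-- the apex network acts as a single edge -/
theorem net_rv_apx {nm : List Bool → α} (hnm : Function.Injective nm) {q : ℝ} (hq1 : q < 1)
    (K J : ℕ) (p : List Bool) (a b : α) :
    RV q (SP.wtd (-1) ((NT.apx (K + 1) J).edges nm p a b)) ((NT.apx (K + 1) J).inner nm p) a b
      ((NT.apx (K + 1) J).wt q) ((NT.apx (K + 1) J).fac q) where
  ends := by
    have hends := net_endsW (net_endsIn_fans nm (nm p) (K + 1) J (true :: p)
      (V := insert a (insert b {nm p})) (a := a) (b := b) (by simp) (by simp) (by simp)) (-1)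
    intro e he
    rw [NT.edges] at he
    rw [NT.inner]
    rcases List.mem_cons.1 he with rfl | he
    · simp
    · rcases List.mem_cons.1 he with rfl | he
      · simp
      · have h := hends e he
        simp only [Finset.mem_insert, Finset.mem_union, Finset.mem_singleton] at h ⊢
        constructor
        · rcases h.1 with ((h | h | h) | h)
          · exact Or.inl h
          · exact Or.inr (Or.inl h)
          · exact Or.inr (Or.inr (Or.inl h))
          · exact Or.inr (Or.inr (Or.inr h))
        · rcases h.2 with ((h | h | h) | h)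
          · exact Or.inl h
          · exact Or.inr (Or.inl h)
          · exact Or.inr (Or.inr (Or.inl h))
          · exact Or.inr (Or.inr (Or.inr h))
  eq := by
    intro V S L ha hb hV hS hL
    rw [NT.inner] at hV
    have h1e : SP.wtd (-1) ((NT.apx (K + 1) J).edges nm p a b) =
        ((a, nm p), (-1 : ℝ)) :: ((nm p, b), (-1 : ℝ)) ::
          SP.wtd (-1) (fans nm (nm p) (K + 1) J (true :: p) a b) := rfl
    rw [h1e, NT.inner, NT.wt, NT.fac]
    have hzI : nm p ∉ fansI nm (K + 1) J (true :: p) := net_notMem_fansI hnm _ _ p _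
    have hZ := net_Z_fans hnm hq1 (nm p) K J (true :: p) a b
    generalize fansI nm (K + 1) J (true :: p) = I at *
    generalize SP.wtd (-1) (fans nm (nm p) (K + 1) J (true :: p) a b) = F at *
    generalize nm p = z at *
    have hzV : z ∉ V := fun h => Finset.disjoint_left.1 hV h (Finset.mem_insert_self _ _)
    have hVI : Disjoint V I := Finset.disjoint_of_subset_right (Finset.subset_insert _ _) hV
    have h1 : V ∪ insert z I = insert z V ∪ I := by
      ext x; simp only [Finset.mem_union, Finset.mem_insert]; tauto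
    have hs1 : V ⊆ insert z V := Finset.subset_insert _ _
    have hzz : z ∈ insert z V := Finset.mem_insert_self _ _
    have hp1 : (((a, z), (-1 : ℝ)) :: ((z, b), (-1 : ℝ)) :: F ++ L).Perm
        (F ++ (((a, z), -1) :: ((z, b), -1) :: L)) := by
      refine List.Perm.trans ?_ (List.perm_middle.trans
        (List.Perm.cons _ List.perm_middle)).symm
      rfl
    have hp2 : ((((a, b), fK q (K + 1) ^ J - 1) :: ((a, z), -1) :: ((z, b), -1) :: L :
        List ((α × α) × ℝ))).Perm
        (((a, z), -1) :: ((z, b), -1) :: (((a, b), fK q (K + 1) ^ J - 1) :: L)) := by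
      refine (List.Perm.swap _ _ _).trans (List.Perm.cons _ ?_)
      exact List.Perm.swap _ _ _
    have h2q : q + (-1) + (-1) ≠ 0 := by
      intro h; linarith
    have hser := (RV.edge q a z (-1)).ser (RV.edge q z b (-1)) (Finset.disjoint_empty_left _)
      (Finset.notMem_empty _) (Finset.notMem_empty _) h2q
    have hs2 := hser.eq V S (((a, b), fK q (K + 1) ^ J - 1) :: L) ha hb (by simpa using hzV) hS
      (hL.cons ha hb)
    have h3 : V ∪ insert z (∅ ∪ ∅) = insert z V := by
      ext x; simp
    rw [h3] at hs2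
    have h4 : ([((a, z), (-1 : ℝ))] ++ [((z, b), (-1 : ℝ))] ++
        (((a, b), fK q (K + 1) ^ J - 1) :: L)) = (((a, z), -1) :: ((z, b), -1) ::
          (((a, b), fK q (K + 1) ^ J - 1) :: L)) := rfl
    rw [h4] at hs2
    rw [h1, Z_perm q _ hp1, hZ (insert z V) S _ (hs1 ha) (hs1 hb) hzz ?_ (hS.mono hs1)
      (hL.mono hs1), Z_perm q _ hp2, hs2, Z_par]
    · have e3 : (1 + -1 * -1 / (q + -1 + -1)) * (1 + (fK q (K + 1) ^ J - 1)) - 1 =
          (1 - q) / (2 - q) * fK q (K + 1) ^ J - 1 := by
        have : (2 - q) ≠ 0 := by intro h; linarith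
        have h5 : q + -1 + -1 = -(2 - q) := by ring
        rw [h5]
        field_simp
        ring
      rw [e3, pow_succ (-1 : ℝ) (K + 1), pow_succ (-1 : ℝ) K]
      ring
    · rw [Finset.disjoint_insert_left]
      exact ⟨hzI, hVI⟩

/-! ### networks -/

namespace NT

theorem net_mem_inner (nm : List Bool → α) (A : NT) (p : List Bool) {x : α}
    (h : x ∈ A.inner nm p) : ∃ l, x = nm (l ++ p) := by
  induction A generalizing p with
  | edge => simp [inner] at h
  | ser A B ihA ihB =>
    rw [inner, Finset.mem_insert, Finset.mem_union] at h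
    rcases h with h | h | h
    · exact ⟨[], by simpa using h⟩
    · obtain ⟨l, hl⟩ := ihA _ h
      exact ⟨l ++ [false], by simpa using hl⟩
    · obtain ⟨l, hl⟩ := ihB _ h
      exact ⟨l ++ [true], by simpa using hl⟩
  | apx K J =>
    rw [inner, Finset.mem_insert] at h
    rcases h with h | h
    · exact ⟨[], by simpa using h⟩
    · obtain ⟨l, hl⟩ := net_mem_fansI nm K J _ h
      exact ⟨l ++ [true], by simpa using hl⟩

theorem net_disjoint_inner {nm : List Bool → α} (hnm : Function.Injective nm) (A B : NT)
    (p : List Bool) : Disjoint (A.inner nm (false :: p)) (B.inner nm (true :: p)) := by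
  rw [Finset.disjoint_left]
  intro x hx hy
  obtain ⟨l, hl⟩ := net_mem_inner nm A _ hx
  obtain ⟨l', hl'⟩ := net_mem_inner nm B _ hy
  exact SP.append_cons_ne (hnm (hl.symm.trans hl'))

theorem net_notMem_inner {nm : List Bool → α} (hnm : Function.Injective nm) (A : NT)
    (p : List Bool) (b : Bool) : nm p ∉ A.inner nm (b :: p) := by
  intro hx
  obtain ⟨l, hl⟩ := net_mem_inner nm A _ hx
  exact SP.ne_append_cons (hnm hl)

theorem net_card_inner {nm : List Bool → α} (hnm : Function.Injective nm) (A : NT)
    (p : List Bool) : (A.inner nm p).card = A.cnt := by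
  induction A generalizing p with
  | edge => rfl
  | ser A B ihA ihB =>
    rw [inner, cnt, Finset.card_insert_of_notMem, Finset.card_union_of_disjoint
      (net_disjoint_inner hnm A B p), ihA, ihB]
    rw [Finset.mem_union]
    rintro (h | h)
    · exact net_notMem_inner hnm A p _ h
    · exact net_notMem_inner hnm B p _ h
  | apx K J =>
    rw [inner, cnt, Finset.card_insert_of_notMem (net_notMem_fansI hnm _ _ _ _),
      net_card_fansI hnm, add_comm]

/-- the end vertices of the edges -/
theorem net_verts_edges (nm : List Bool → α) (A : NT) (p : List Bool) (a b x : α) :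
    (∃ e ∈ A.edges nm p a b, x = e.1 ∨ x = e.2) ↔ x = a ∨ x = b ∨ x ∈ A.inner nm p := by
  induction A generalizing p a b with
  | edge => simp [edges, inner]
  | ser A B ihA ihB =>
    have hA := ihA (false :: p) a (nm p)
    have hB := ihB (true :: p) (nm p) b
    rw [edges, inner, Finset.mem_insert, Finset.mem_union]
    constructor
    · rintro ⟨e, he, hx⟩
      rcases List.mem_append.1 he with he | he
      · have := hA.1 ⟨e, he, hx⟩
        tauto
      · have := hB.1 ⟨e, he, hx⟩
        tauto
    · intro h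
      by_cases h2 : x = a ∨ x = nm p ∨ x ∈ A.inner nm (false :: p)
      · obtain ⟨e, he, hx⟩ := hA.2 h2
        exact ⟨e, List.mem_append.2 (Or.inl he), hx⟩
      · obtain ⟨e, he, hx⟩ := hB.2 (by tauto)
        exact ⟨e, List.mem_append.2 (Or.inr he), hx⟩
  | apx K J =>
    obtain ⟨h1, h2⟩ := net_verts_fans nm (nm p) K J (true :: p) a b x
    rw [edges, inner, Finset.mem_insert]
    constructor
    · rintro ⟨e, he, hx⟩
      rcases List.mem_cons.1 he with rfl | he
      · simp only at hx
        tauto
      · rcases List.mem_cons.1 he with rfl | he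
        · simp only at hx
          tauto
        · rcases h1 ⟨e, he, hx⟩ with h | h | h | h
          · exact Or.inl h
          · exact Or.inr (Or.inl h)
          · exact Or.inr (Or.inr (Or.inl h))
          · exact Or.inr (Or.inr (Or.inr h))
    · rintro (h | h | h | h)
      · exact ⟨(a, nm p), List.mem_cons_self, Or.inl h⟩
      · exact ⟨(nm p, b), List.mem_cons_of_mem _ List.mem_cons_self, Or.inr h⟩
      · exact ⟨(a, nm p), List.mem_cons_self, Or.inr h⟩
      · obtain ⟨e, he, hx⟩ := h2 h
        exact ⟨e, List.mem_cons_of_mem _ (List.mem_cons_of_mem _ he), hx⟩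

theorem net_endsIn_edges (nm : List Bool → α) (A : NT) (p : List Bool) {a b : α} {V : Finset α}
    (ha : a ∈ V) (hb : b ∈ V) : EndsIn (V ∪ A.inner nm p) (A.edges nm p a b) := by
  intro e he
  have h1 := (net_verts_edges nm A p a b e.1).1 ⟨e, he, Or.inl rfl⟩
  have h2 := (net_verts_edges nm A p a b e.2).1 ⟨e, he, Or.inr rfl⟩
  rw [Finset.mem_union, Finset.mem_union]
  constructor
  · rcases h1 with h1 | h1 | h1
    · exact Or.inl (h1 ▸ ha)
    · exact Or.inl (h1 ▸ hb)
    · exact Or.inr h1
  · rcases h2 with h1 | h1 | h1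
    · exact Or.inl (h1 ▸ ha)
    · exact Or.inl (h1 ▸ hb)
    · exact Or.inr h1

/-- the network acts as a single edge -/
theorem net_rv (hw : S_NetW) {nm : List Bool → α} (hnm : Function.Injective nm) {q : ℝ}
    (hq0 : 0 < q) (hq1 : q < 1) (A : NT) (hok : A.ok) (p : List Bool) (a b : α) :
    RV q (SP.wtd (-1) (A.edges nm p a b)) (A.inner nm p) a b (A.wt q) (A.fac q) := by
  induction A generalizing p a b with
  | edge => exact RV.edge q a b (-1)
  | ser A B ihA ihB =>
    rw [edges, SP.wtd_append, inner, wt, fac]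
    have h1 := hw q hq0 hq1 A hok.1
    have h2 := hw q hq0 hq1 B hok.2
    have h0 : q + A.wt q + B.wt q ≠ 0 := by
      have : q + A.wt q + B.wt q < 0 := by linarith [h1.2.1, h2.2.1]
      exact this.ne
    exact (ihA hok.1 _ _ _).ser (ihB hok.2 _ _ _) (net_disjoint_inner hnm A B p)
      (net_notMem_inner hnm A p _) (net_notMem_inner hnm B p _) h0
  | apx K J =>
    obtain ⟨K, rfl⟩ : ∃ K', K = K' + 1 := ⟨K - 1, by have : 1 ≤ K := hok; omega⟩
    exact net_rv_apx hnm hq1 K J p a b

/-- the network connects its ends, and does nothing else -/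
theorem net_comps_edges {nm : List Bool → α} (hnm : Function.Injective nm) (A : NT)
    (p : List Bool) (a b : α) (V : Finset α) (S : List (α × α)) (ha : a ∈ V) (hb : b ∈ V)
    (hV : Disjoint V (A.inner nm p)) (hS : EndsIn V S) :
    comps (V ∪ A.inner nm p) (A.edges nm p a b ++ S) = comps V ((a, b) :: S) := by
  induction A generalizing p a b V S with
  | edge => simp [edges, inner]
  | ser A B ihA ihB =>
    rw [inner] at hV
    rw [edges, inner]
    have hzI : nm p ∉ A.inner nm (false :: p) := net_notMem_inner hnm A p _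
    have hzJ : nm p ∉ B.inner nm (true :: p) := net_notMem_inner hnm B p _
    have hIJ : Disjoint (A.inner nm (false :: p)) (B.inner nm (true :: p)) :=
      net_disjoint_inner hnm A B p
    have ihA' := ihA (false :: p) a (nm p)
    have ihB' := ihB (true :: p) (nm p) b
    have hBe := fun (W : Finset α) (h1 : nm p ∈ W) (h2 : b ∈ W) =>
      net_endsIn_edges nm B (true :: p) h1 h2
    generalize A.inner nm (false :: p) = I at *
    generalize B.inner nm (true :: p) = J at *
    generalize nm p = z at *
    have hzV : z ∉ V := fun h => Finset.disjoint_left.1 hV h (Finset.mem_insert_self _ _)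
    have hVI : Disjoint V I := Finset.disjoint_of_subset_right
      (Finset.subset_union_left.trans (Finset.subset_insert _ _)) hV
    have hVJ : Disjoint V J := Finset.disjoint_of_subset_right
      (Finset.subset_union_right.trans (Finset.subset_insert _ _)) hV
    have h1 : V ∪ insert z (I ∪ J) = (insert z V ∪ J) ∪ I := by
      ext x; simp only [Finset.mem_union, Finset.mem_insert]; tauto
    have hs1 : V ⊆ insert z V := Finset.subset_insert _ _
    have hs2 : insert z V ⊆ insert z V ∪ J := Finset.subset_union_left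
    have hzz : z ∈ insert z V := Finset.mem_insert_self _ _
    rw [h1, List.append_assoc, ihA' (insert z V ∪ J) _ (hs2 (hs1 ha)) (hs2 hzz) ?_
      (SP.EndsIn_append (hBe (insert z V) hzz (hs1 hb)) ((hS.mono hs1).mono hs2))]
    · rw [comps_congr (T := B.edges nm (true :: p) z b ++ ((a, z) :: S)),
        ihB' (insert z V) _ hzz (hs1 hb) ?_ ((hS.mono hs1).cons (hs1 ha) hzz)]
      · exact comps_series hS ha hb hzV
      · rw [Finset.disjoint_insert_left]
        exact ⟨hzJ, hVJ⟩
      · intro f
        simp only [List.mem_cons, List.mem_append]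
        tauto
    · rw [Finset.disjoint_union_left, Finset.disjoint_insert_left]
      exact ⟨⟨hzI, hVI⟩, hIJ.symm⟩
  | apx K J =>
    rw [inner] at hV
    rw [edges, inner]
    have hzI : nm p ∉ fansI nm K J (true :: p) := net_notMem_fansI hnm _ _ p _
    have hf := net_comps_fans hnm (nm p) K J (true :: p) a b
    generalize fansI nm K J (true :: p) = I at *
    generalize fans nm (nm p) K J (true :: p) a b = F at *
    generalize nm p = z at *
    have hzV : z ∉ V := fun h => Finset.disjoint_left.1 hV h (Finset.mem_insert_self _ _)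
    have hVI : Disjoint V I := Finset.disjoint_of_subset_right (Finset.subset_insert _ _) hV
    have h1 : V ∪ insert z I = insert z V ∪ I := by
      ext x; simp only [Finset.mem_union, Finset.mem_insert]; tauto
    have hs1 : V ⊆ insert z V := Finset.subset_insert _ _
    have hzz : z ∈ insert z V := Finset.mem_insert_self _ _
    rw [h1, comps_congr (T := F ++ ((z, b) :: (a, z) :: S)),
      hf (insert z V) ((z, b) :: (a, z) :: S) (hs1 ha) (hs1 hb) hzz, comps_series hS ha hb hzV]
    · rw [Finset.disjoint_insert_left]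
      exact ⟨hzI, hVI⟩
    · exact (((hS.mono hs1).cons (hs1 ha) hzz).cons hzz (hs1 hb))
    · exact EqvGen.rel _ _ (by simp [rel])
    · exact EqvGen.rel _ _ (by simp [rel])
    · intro f
      simp only [List.mem_cons, List.mem_append]
      tauto

end NT

theorem net (hw : S_NetW) : S_Net := by
  intro α _ nm hnm A hok p
  refine ⟨fun x hx => NT.net_mem_inner nm A p hx, NT.net_card_inner hnm A p,
    fun a b x => NT.net_verts_edges nm A p a b x, fun a b V S ha hb hV hS =>
      NT.net_comps_edges hnm A p a b V S ha hb hV hS, fun q a b hq0 hq1 =>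
      NT.net_rv hw hnm hq0 hq1 A hok p a b⟩

end Pool.Agent.TutteEq
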