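import Pool.Agent.TutteEq.Stmts

/-!
# Module NetW: effective weights and signs
-/

set_option autoImplicit false

namespace Pool.Agent.TutteEq

open Real

lemma netW_gs_succ (b : ℝ) (K : ℕ) : gs b (K + 1) = 1 + b * gs b K := by
  unfold gs
  rw [Finset.sum_range_succ', Finset.mul_sum]
  simp only [pow_succ, pow_zero]
  rw [add_comm]
  congr 1
  apply Finset.sum_congr rfl
  intro i _
  ring

lemma netW_gs_nonneg {b : ℝ} (hb : 0 ≤ b) (K : ℕ) : 0 ≤ gs b K :=
  Finset.sum_nonneg fun i _ => pow_nonneg hb i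

lemma netW_gs_pos {b : ℝ} (hb : 0 ≤ b) {K : ℕ} (hK : 1 ≤ K) : 0 < gs b K := by
  obtain ⟨k, rfl⟩ : ∃ k, K = k + 1 := ⟨K - 1, by omega⟩
  rw [netW_gs_succ]
  have := mul_nonneg hb (netW_gs_nonneg hb k)
  linarith

lemma netW_fK {q : ℝ} (h0 : 0 < q) (h1 : q < 1) {K : ℕ} (hK : 1 ≤ K) :
    0 ≤ fK q K ∧ fK q K ≤ 1 := by
  obtain ⟨k, rfl⟩ : ∃ k, K = k + 1 := ⟨K - 1, by omega⟩
  have hb : (0 : ℝ) ≤ 2 - q := by linarith
  unfold fK
  rw [Nat.add_sub_cancel, netW_gs_succ]
  have h2 := mul_nonneg hb (netW_gs_nonneg hb k)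
  refine ⟨by positivity, ?_⟩
  rw [div_le_one (by linarith)]
  linarith

/-- the interval of the weights -/
lemma netW_ser {q a b : ℝ} (h0 : 0 < q) (h1 : q < 1) (ha : -1 ≤ a) (ha' : a ≤ -q) (hb : -1 ≤ b)
    (hb' : b ≤ -q) : -1 ≤ a * b / (q + a + b) ∧ a * b / (q + a + b) ≤ -q := by
  have hneg : q + a + b < 0 := by linarith
  constructor
  · rw [le_div_iff_of_neg hneg]
    nlinarith
  · rw [div_le_iff_of_neg hneg]
    nlinarith

lemma netW_x_ser {q a b : ℝ} (h0 : 0 < q) (ha' : a ≤ -q) (hb' : b ≤ -q) :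
    1 + q / (a * b / (q + a + b)) = (1 + q / a) * (1 + q / b) := by
  have h1 : a ≠ 0 := by linarith
  have h2 : b ≠ 0 := by linarith
  have h3 : q + a + b ≠ 0 := by linarith
  field_simp
  ring

theorem netW : S_NetW := by
  intro q h0 h1 A
  induction A with
  | edge =>
    intro _
    simp only [NT.wt, NT.fac, NT.cnt]
    refine ⟨le_refl _, by linarith, by norm_num⟩
  | ser A B ihA ihB =>
    rintro ⟨hA, hB⟩
    obtain ⟨a1, a2, a3⟩ := ihA hA
    obtain ⟨b1, b2, b3⟩ := ihB hB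
    have h := netW_ser h0 h1 a1 a2 b1 b2
    refine ⟨h.1, h.2, ?_⟩
    simp only [NT.fac, NT.cnt]
    have e : (-1 : ℝ) ^ (A.cnt + B.cnt + 1) * (A.fac q * B.fac q * (q + A.wt q + B.wt q)) =
        ((-1) ^ A.cnt * A.fac q) * ((-1) ^ B.cnt * B.fac q) * (-(q + A.wt q + B.wt q)) := by
      rw [pow_succ, pow_add]
      ring
    rw [e]
    have h3 : 0 < -(q + A.wt q + B.wt q) := by linarith
    positivity
  | apx K J =>
    intro hK
    have hK' : 1 ≤ K := hK
    obtain ⟨f0, f1⟩ := netW_fK h0 h1 hK'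
    have p0 : 0 ≤ fK q K ^ J := pow_nonneg f0 J
    have p1 : fK q K ^ J ≤ 1 := pow_le_one₀ f0 f1
    have hb : (0 : ℝ) < 2 - q := by linarith
    simp only [NT.wt, NT.fac, NT.cnt]
    have c0 : 0 ≤ (1 - q) / (2 - q) := div_nonneg (by linarith) hb.le
    have c1 : (1 - q) / (2 - q) ≤ 1 - q := by
      rw [div_le_iff₀ hb]
      nlinarith
    refine ⟨?_, ?_, ?_⟩
    · have := mul_nonneg c0 p0
      linarith
    · have : (1 - q) / (2 - q) * fK q K ^ J ≤ (1 - q) * 1 :=
        mul_le_mul c1 p1 p0 (by linarith)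
      linarith
    · have hg : 0 < gs (2 - q) K := netW_gs_pos hb.le hK'
      have e : (-1 : ℝ) ^ (1 + J * (K - 1)) * (((-1) ^ (K + 1) * gs (2 - q) K) ^ J * (q - 2)) =
          gs (2 - q) K ^ J * (2 - q) := by
        obtain ⟨k, rfl⟩ : ∃ k, K = k + 1 := ⟨K - 1, by omega⟩
        rw [Nat.add_sub_cancel, mul_pow, ← pow_mul, pow_add, pow_one]
        have e2 : (-1 : ℝ) ^ (J * k) * (-1) ^ ((k + 1 + 1) * J) = 1 := by
          rw [← pow_add]
          have e3 : J * k + (k + 1 + 1) * J = 2 * (J * (k + 1)) := by ring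
          rw [e3, pow_mul]
          norm_num
        calc -1 * (-1 : ℝ) ^ (J * k) * ((-1) ^ ((k + 1 + 1) * J) * gs (2 - q) (k + 1) ^ J *
              (q - 2)) = ((-1 : ℝ) ^ (J * k) * (-1) ^ ((k + 1 + 1) * J)) *
              (gs (2 - q) (k + 1) ^ J * (2 - q)) := by ring
          _ = _ := by rw [e2, one_mul]
      rw [e]
      positivity

theorem chain_spec : S_Chain := by
  intro q h0 h1 A hA j
  have hw : ∀ B : NT, B.ok → -1 ≤ B.wt q ∧ B.wt q ≤ -q ∧ 0 < (-1) ^ B.cnt * B.fac q :=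
    netW q h0 h1
  have hx : ∀ B : NT, B.ok → 1 + q / B.wt q ≤ 1 - q := by
    intro B hB
    have h := hw B hB
    have h2 : q / B.wt q ≤ -q := by
      rw [div_le_iff_of_neg (by linarith)]
      nlinarith
    linarith
  induction j with
  | zero =>
    refine ⟨hA, rfl, by simp [NT.chain], ?_⟩
    have h2 := hx A hA
    have h3 : 1 - (1 + q / A.wt q) ≠ 0 := by linarith
    simp only [NT.chain, pow_zero, one_mul]
    rw [div_self h3, mul_one]
  | succ j ih =>
    obtain ⟨i1, i2, i3, i4⟩ := ih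
    have hC := hw _ i1
    have hxC := hx _ i1
    have hxA := hx _ hA
    set C := A.chain j with hCdef
    have hch : A.chain (j + 1) = NT.ser C NT.edge := rfl
    rw [hch]
    have hCne : C.wt q ≠ 0 := by linarith
    have e3 : 1 + q / (C.wt q * -1 / (q + C.wt q + -1)) = (1 + q / C.wt q) * (1 + q / (-1)) :=
      netW_x_ser h0 hC.2.1 (by linarith)
    refine ⟨⟨i1, trivial⟩, ?_, ?_, ?_⟩
    · simp only [NT.cnt]
      omega
    · simp only [NT.wt]
      rw [e3, i3, pow_succ]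
      ring
    · simp only [NT.cnt, NT.fac, NT.wt]
      have e : (-1 : ℝ) ^ (C.cnt + 0 + 1) * (C.fac q * 1 * (q + C.wt q + -1)) =
          ((-1) ^ C.cnt * C.fac q) * (-(q + C.wt q + -1)) := by
        rw [pow_succ]
        ring
      rw [e, i4, mul_assoc]
      congr 1
      have hD : 1 - (1 + q / A.wt q) ≠ 0 := by linarith
      have hE : 1 - (1 - q) ^ j * (1 + q / A.wt q) ≠ 0 := by
        rw [← i3]
        linarith
      rw [div_mul_eq_mul_div]
      congr 1
      -- the step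
      have e5 : -(q + C.wt q + -1) * (1 - (1 + q / C.wt q)) =
          1 - (1 - q) * (1 + q / C.wt q) := by
        field_simp
        ring
      have e6 : 1 - (1 - q) ^ (j + 1) * (1 + q / A.wt q) =
          1 - (1 - q) * (1 + q / C.wt q) := by
        rw [i3, pow_succ]
        ring
      rw [e6, ← e5, i3]
      ring

end Pool.Agent.TutteEq
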