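import Pool.Agent.TutteEq.Stmts
import Pool.Agent.Lib_helper88.TutteHard.RedPT
import Pool.Agent.Lib_helper88.PolyTime.Size

/-!
# The replacement of edges by networks is computable in polynomial time (unary parameters)
-/

set_option autoImplicit false

namespace Pool.Agent.TutteEq

open Pool.Agent.PT Pool.Agent.TutteHard

/-- a fold whose state grows by a bounded amount in every step, with an output list -/
theorem pTRed_scan {ε σ α τ : Type} [N487b59b3 ε] [N487b59b3 σ] [N487b59b3 α] [N487b59b3 τ]
    {h : ε × σ × α → σ} {o : ε × σ × α → List τ} (hh : PT h) (ho : PT o) (μ : σ → ℕ) (c : ℕ)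
    (h1 : ∀ s, μ s ≤ c * (enc s).length + c) (h2 : ∀ s, (enc s).length ≤ c * μ s + c)
    (h3 : ∀ e s a, μ (h (e, s, a)) ≤ μ s + c) :
    PT (fun p : ε × (σ × List τ) × List α =>
      p.2.2.foldl (fun s a => (h (p.1, s.1, a), s.2 ++ o (p.1, s.1, a))) p.2.1) := by
  obtain ⟨q, hq⟩ := ho.length_bound
  have hg : PT (fun p : ε × (σ × List τ) × α =>
      (h (p.1, p.2.1.1, p.2.2), p.2.1.2 ++ o (p.1, p.2.1.1, p.2.2))) := by
    have h0 : PT (fun p : ε × (σ × List τ) × α => (p.1, p.2.1.1, p.2.2)) :=
      PT.fst.pair (PT.snd.comp_fst.comp_fst.pair PT.snd.comp_snd)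
    exact (hh.comp h0).pair (PT.snd.comp_fst.comp_snd.append (ho.comp h0))
  have key : ∀ (e : ε) (B M : ℕ) (l : List α) (s : σ × List τ), (enc e).length ≤ B →
      (∀ a ∈ l, (enc a).length ≤ B) → μ s.1 + l.length * c ≤ M →
      μ (l.foldl (fun s a => (h (e, s.1, a), s.2 ++ o (e, s.1, a))) s).1 ≤ M ∧
      (enc (l.foldl (fun s a => (h (e, s.1, a), s.2 ++ o (e, s.1, a))) s).2).length ≤
        (enc s.2).length + l.length * q.eval (3 * B + 2 + 2 * (c * M + c)) := by
    intro e B M l
    induction l with
    | nil =>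
      intro s _ _ h6
      simp only [List.foldl_nil, List.length_nil, zero_mul, add_zero] at h6 ⊢
      exact ⟨h6, le_rfl⟩
    | cons a l ih =>
      intro s h4 h5 h6
      have ha := h5 a List.mem_cons_self
      rw [List.length_cons, add_one_mul] at h6
      have h7 := h3 e s.1 a
      obtain ⟨h8, h9⟩ := ih (h (e, s.1, a), s.2 ++ o (e, s.1, a)) h4
        (fun b hb => h5 b (List.mem_cons_of_mem _ hb)) (by simp only; omega)
      refine ⟨h8, ?_⟩
      have h10 := hq (e, s.1, a)
      have h12 : c * μ s.1 + c ≤ c * M + c := by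
        have : μ s.1 ≤ M := by omega
        have := Nat.mul_le_mul_left c this
        omega
      have h11 := poly_mono q (show (enc (e, s.1, a)).length ≤ 3 * B + 2 + 2 * (c * M + c) by
        rw [length_enc_pair, length_enc_pair]
        have := h2 s.1
        omega)
      simp only [enc_append, List.length_append] at h9
      rw [List.foldl_cons, List.length_cons, add_one_mul]
      omega
  refine PT.foldl hg (2 * (Polynomial.C c * (Polynomial.C c * Polynomial.X + Polynomial.C c +
    Polynomial.X * Polynomial.C c) + Polynomial.C c) + 1 + (Polynomial.X + Polynomial.X *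
      (q.comp (3 * Polynomial.X + 2 + 2 * (Polynomial.C c * (Polynomial.C c * Polynomial.X +
        Polynomial.C c + Polynomial.X * Polynomial.C c) + Polynomial.C c))))) ?_
  intro e s l
  simp only
  set N := (enc (e, s, l)).length with hN
  have hlen : N = 2 * (enc e).length + 1 + (2 * (enc s).length + 1 + (enc l).length) := by
    rw [hN, length_enc_pair, length_enc_pair]
  have hs1 : (enc s).length = 2 * (enc s.1).length + 1 + (enc s.2).length :=
    length_enc_pair s.1 s.2
  have h4 := length_le_enc l
  have h5 := h1 s.1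
  have h6 : c * (enc s.1).length ≤ c * N := Nat.mul_le_mul_left c (by omega)
  have h7 : l.length * c ≤ N * c := Nat.mul_le_mul_right c (by omega)
  obtain ⟨h8, h9⟩ := key e N (c * N + c + N * c) l s (by omega) (fun a ha => by
    have := length_enc_mem ha
    omega) (by omega)
  have h10 := h2 (l.foldl (fun s a => (h (e, s.1, a), s.2 ++ o (e, s.1, a))) s).1
  have h11 := Nat.mul_le_mul_left c h8
  have h12 : l.length * q.eval (3 * N + 2 + 2 * (c * (c * N + c + N * c) + c)) ≤
      N * q.eval (3 * N + 2 + 2 * (c * (c * N + c + N * c) + c)) :=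
    Nat.mul_le_mul_right _ (by omega)
  simp only [Polynomial.eval_add, Polynomial.eval_mul, Polynomial.eval_X, Polynomial.eval_C,
    Polynomial.eval_comp, Polynomial.eval_ofNat, Polynomial.eval_one]
  have h13 : (enc (l.foldl (fun s a => (h (e, s.1, a), s.2 ++ o (e, s.1, a))) s)).length =
      2 * (enc (l.foldl (fun s a => (h (e, s.1, a), s.2 ++ o (e, s.1, a))) s).1).length + 1 +
        (enc (l.foldl (fun s a => (h (e, s.1, a), s.2 ++ o (e, s.1, a))) s).2).length :=
    length_enc_pair _ _
  omega

/-! ### fans -/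

/-- the step for `fan` -/
theorem pTRed_fanFold (r : Vx) (K : ℕ) : ∀ (p a b : Vx) (out : MGraph),
    ((List.replicate K ()).foldl (fun (s : (Vx × Vx) × MGraph) (_ : Unit) =>
      ((true :: s.1.1, true :: s.1.1),
        s.2 ++ [(s.1.2, true :: s.1.1), (r, true :: s.1.1)])) ((p, a), out)).2 ++
      [(((List.replicate K ()).foldl (fun (s : (Vx × Vx) × MGraph) (_ : Unit) =>
      ((true :: s.1.1, true :: s.1.1),
        s.2 ++ [(s.1.2, true :: s.1.1), (r, true :: s.1.1)])) ((p, a), out)).1.2, b)] =
      out ++ fan nmT r (K + 1) p a b := by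
  induction K with
  | zero => intro p a b out; rfl
  | succ K ih =>
    intro p a b out
    rw [List.replicate_succ, List.foldl_cons, ih]
    simp only [fan, nmT, List.append_assoc, List.cons_append, List.nil_append]

theorem pTRed_fan : PT (fun z : (Vx × U) × (Vx × (Vx × Vx)) =>
    fan nmT z.1.1 z.1.2.val z.2.1 z.2.2.1 z.2.2.2) := by
  have h1 : PT (fun p : Vx × (Vx × Vx) × Unit => (true :: p.2.1.1, true :: p.2.1.1)) :=
    (PT.cons (PT.const true) PT.snd.comp_fst.comp_fst).pair
      (PT.cons (PT.const true) PT.snd.comp_fst.comp_fst)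
  have h2 : PT (fun p : Vx × (Vx × Vx) × Unit =>
      [(p.2.1.2, true :: p.2.1.1), (p.1, true :: p.2.1.1)]) :=
    PT.cons (PT.snd.comp_fst.comp_snd.pair (PT.cons (PT.const true) PT.snd.comp_fst.comp_fst))
      (PT.cons (PT.fst.pair (PT.cons (PT.const true) PT.snd.comp_fst.comp_fst)) (PT.const []))
  have h3 := pTRed_scan h1 h2 (fun s => max (enc s.1).length (enc s.2).length) 3
    (fun s => by
      have : (enc s).length = 2 * (enc s.1).length + 1 + (enc s.2).length :=
        length_enc_pair s.1 s.2
      omega)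
    (fun s => by
      have : (enc s).length = 2 * (enc s.1).length + 1 + (enc s.2).length :=
        length_enc_pair s.1 s.2
      omega)
    (fun e s a => by
      simp only [length_enc_bits, List.length_cons]
      omega)
  have h4 : PT (fun z : (Vx × U) × (Vx × (Vx × Vx)) =>
      (List.replicate (z.1.2.val - 1) ()).foldl (fun (s : (Vx × Vx) × MGraph) (_ : Unit) =>
      ((true :: s.1.1, true :: s.1.1),
        s.2 ++ [(s.1.2, true :: s.1.1), (z.1.1, true :: s.1.1)])) ((z.2.1, z.2.2.1), [])) :=
    h3.comp (PT.fst.comp_fst.pair (((PT.snd.comp_fst.pair PT.snd.comp_snd.comp_fst).pair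
      (PT.const [])).pair PT.fst.comp_snd.upred.toUnits))
  refine (PT.ite PT.fst.comp_snd.uzero (PT.const [])
    (h4.comp_snd.append (PT.cons (h4.comp_fst.comp_snd.pair PT.snd.comp_snd.comp_snd)
      (PT.const [])))).congr fun z => ?_
  obtain ⟨⟨r, ⟨K⟩⟩, p, a, b⟩ := z
  cases K with
  | zero => rfl
  | succ K =>
    have := pTRed_fanFold r K p a b []
    simp only [Nat.add_sub_cancel, List.nil_append] at this ⊢
    rw [if_neg (by simp)]
    exact this

theorem pTRed_fansFold (r : Vx) (K : ℕ) (a b : Vx) (J : ℕ) : ∀ (p : Vx) (out : MGraph),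
    ((List.replicate J ()).foldl (fun (s : Vx × MGraph) (_ : Unit) =>
      (true :: s.1, s.2 ++ fan nmT r K (false :: s.1) a b)) (p, out)).2 =
      out ++ fans nmT r K J p a b := by
  induction J with
  | zero => intro p out; simp [fans]
  | succ J ih =>
    intro p out
    rw [List.replicate_succ, List.foldl_cons, ih]
    simp only [fans, List.append_assoc]

theorem pTRed_fans : PT (fun z : (Vx × (U × U)) × (Vx × (Vx × Vx)) =>
    fans nmT z.1.1 z.1.2.1.val z.1.2.2.val z.2.1 z.2.2.1 z.2.2.2) := by
  have h1 : PT (fun p : ((Vx × U) × (Vx × Vx)) × Vx × Unit => true :: p.2.1) :=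
    PT.cons (PT.const true) PT.snd.comp_fst
  have h2 : PT (fun p : ((Vx × U) × (Vx × Vx)) × Vx × Unit =>
      fan nmT p.1.1.1 p.1.1.2.val (false :: p.2.1) p.1.2.1 p.1.2.2) :=
    pTRed_fan.comp (PT.fst.comp_fst.pair ((PT.cons (PT.const false) PT.snd.comp_fst).pair
      PT.fst.comp_snd))
  have h3 := pTRed_scan h1 h2 (fun s => (enc s).length) 3 (fun s => by omega)
    (fun s => by omega)
    (fun e s a => by
      simp only [length_enc_bits, List.length_cons]
      omega)
  have h4 : PT (fun z : (Vx × (U × U)) × (Vx × (Vx × Vx)) =>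
      (List.replicate z.1.2.2.val ()).foldl (fun (s : Vx × MGraph) (_ : Unit) =>
      (true :: s.1, s.2 ++ fan nmT z.1.1 z.1.2.1.val (false :: s.1) z.2.2.1 z.2.2.2))
        (z.2.1, [])) :=
    h3.comp (((PT.fst.comp_fst.pair PT.fst.comp_snd.comp_fst).pair PT.snd.comp_snd).pair
      ((PT.snd.comp_fst.pair (PT.const [])).pair PT.fst.comp_snd.comp_snd.toUnits))
  refine h4.comp_snd.congr fun z => ?_
  have := pTRed_fansFold z.1.1 z.1.2.1.val z.2.2.1 z.2.2.2 z.1.2.2.val z.2.1 []
  rw [List.nil_append] at this
  exact this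

/-! ### networks -/

theorem pTRed_apx : PT (fun z : (U × U) × (Vx × (Vx × Vx)) =>
    (NT.apx z.1.1.val z.1.2.val).edges nmT z.2.1 z.2.2.1 z.2.2.2) := by
  have hp : PT (fun z : (U × U) × (Vx × (Vx × Vx)) => true :: z.2.1) :=
    PT.cons (PT.const true) PT.snd.comp_fst
  refine PT.cons (PT.snd.comp_snd.comp_fst.pair hp) (PT.cons (hp.pair PT.snd.comp_snd.comp_snd)
    (pTRed_fans.comp ((hp.pair PT.fst).pair (hp.pair PT.snd.comp_snd))))

theorem pTRed_chain (j : ℕ) : PT (fun z : (U × U) × (Vx × (Vx × Vx)) =>
    ((NT.apx z.1.1.val z.1.2.val).chain j).edges nmT z.2.1 z.2.2.1 z.2.2.2) := by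
  induction j with
  | zero => exact pTRed_apx
  | succ j ih =>
    have hp : PT (fun z : (U × U) × (Vx × (Vx × Vx)) => true :: z.2.1) :=
      PT.cons (PT.const true) PT.snd.comp_fst
    have hp2 : PT (fun z : (U × U) × (Vx × (Vx × Vx)) => false :: z.2.1) :=
      PT.cons (PT.const false) PT.snd.comp_fst
    have h1 := ih.comp (PT.fst.pair (hp2.pair (PT.snd.comp_snd.comp_fst.pair hp)))
    have h2 : PT (fun z : (U × U) × (Vx × (Vx × Vx)) => [(true :: z.2.1, z.2.2.2)]) :=
      PT.cons (hp.pair PT.snd.comp_snd.comp_snd) (PT.const [])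
    exact h1.append h2

theorem pTRed_chainFold (a : Vx) (j : ℕ) : ∀ (p b : Vx) (out : MGraph),
    (((List.replicate j ()).foldl (fun (s : (Vx × Vx) × MGraph) (_ : Unit) =>
      ((false :: s.1.1, true :: s.1.1), s.2 ++ [(true :: s.1.1, s.1.2)])) ((p, b), out)).2 ++
      [(a, ((List.replicate j ()).foldl (fun (s : (Vx × Vx) × MGraph) (_ : Unit) =>
      ((false :: s.1.1, true :: s.1.1), s.2 ++ [(true :: s.1.1, s.1.2)]))
        ((p, b), out)).1.2)]).reverse =
      (NT.edge.chain j).edges nmT p a b ++ out.reverse := by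
  induction j with
  | zero => intro p b out; simp [NT.chain, NT.edges]
  | succ j ih =>
    intro p b out
    rw [List.replicate_succ, List.foldl_cons, ih]
    simp only [NT.chain, NT.edges, nmT, List.append_assoc, List.cons_append, List.nil_append,
      List.reverse_append, List.reverse_cons, List.reverse_nil]

theorem pTRed_edge : PT (fun z : U × (Vx × (Vx × Vx)) =>
    (NT.edge.chain z.1.val).edges nmT z.2.1 z.2.2.1 z.2.2.2) := by
  have h1 : PT (fun p : Unit × (Vx × Vx) × Unit => (false :: p.2.1.1, true :: p.2.1.1)) :=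
    (PT.cons (PT.const false) PT.snd.comp_fst.comp_fst).pair
      (PT.cons (PT.const true) PT.snd.comp_fst.comp_fst)
  have h2 : PT (fun p : Unit × (Vx × Vx) × Unit => [(true :: p.2.1.1, p.2.1.2)]) :=
    PT.cons ((PT.cons (PT.const true) PT.snd.comp_fst.comp_fst).pair PT.snd.comp_fst.comp_snd)
      (PT.const [])
  have h3 := pTRed_scan h1 h2 (fun s => max (enc s.1).length (enc s.2).length) 3
    (fun s => by
      have : (enc s).length = 2 * (enc s.1).length + 1 + (enc s.2).length :=
        length_enc_pair s.1 s.2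
      omega)
    (fun s => by
      have : (enc s).length = 2 * (enc s.1).length + 1 + (enc s.2).length :=
        length_enc_pair s.1 s.2
      omega)
    (fun e s a => by
      simp only [length_enc_bits, List.length_cons]
      omega)
  have h4 : PT (fun z : U × (Vx × (Vx × Vx)) =>
      (List.replicate z.1.val ()).foldl (fun (s : (Vx × Vx) × MGraph) (_ : Unit) =>
      ((false :: s.1.1, true :: s.1.1), s.2 ++ [(true :: s.1.1, s.1.2)]))
        ((z.2.1, z.2.2.2), [])) :=
    h3.comp ((PT.const ()).pair (((PT.snd.comp_fst.pair PT.snd.comp_snd.comp_snd).pair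
      (PT.const [])).pair PT.fst.toUnits))
  refine (PT.reverse.comp (h4.comp_snd.append (PT.cons (PT.snd.comp_snd.comp_fst.pair
    h4.comp_fst.comp_snd) (PT.const [])))).congr fun z => ?_
  have := pTRed_chainFold z.2.2.1 z.1.val z.2.1 z.2.2.2 []
  rw [List.reverse_nil, List.append_nil] at this
  exact this

/-! ### the replacement -/

theorem pTRed_replFold (A : NT) (G : MGraph) : ∀ out : MGraph,
    (G.foldl (fun (s : Vx × MGraph) (e : Vx × Vx) =>
      (s.1.tail, s.2 ++ A.edges nmT (false :: s.1.tail) (false :: e.1) (false :: e.2)))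
      (List.replicate G.length true, out)).2 = out ++ redN A G := by
  induction G with
  | nil => intro out; simp [redN, ren, NT.repl]
  | cons e G ih =>
    intro out
    rw [List.foldl_cons, List.length_cons, List.replicate_succ]
    simp only [List.tail_cons]
    rw [ih]
    simp only [redN, ren, List.map_cons, NT.repl, List.length_map, Prod.map, nmF,
      List.append_assoc]

theorem pTRed_redN {ι : Type} [N487b59b3 ι] (A : ι → NT)
    (hA : PT (fun z : ι × (Vx × (Vx × Vx)) => (A z.1).edges nmT z.2.1 z.2.2.1 z.2.2.2)) :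
    PT (fun z : ι × MGraph => redN (A z.1) z.2) := by
  have h1 : PT (fun p : ι × Vx × (Vx × Vx) => p.2.1.tail) := PT.tail.comp PT.snd.comp_fst
  have h2 : PT (fun p : ι × Vx × (Vx × Vx) =>
      (A p.1).edges nmT (false :: p.2.1.tail) (false :: p.2.2.1) (false :: p.2.2.2)) :=
    hA.comp (PT.fst.pair ((PT.cons (PT.const false) h1).pair
      ((PT.cons (PT.const false) PT.snd.comp_snd.comp_fst).pair
        (PT.cons (PT.const false) PT.snd.comp_snd.comp_snd))))
  have h3 := pTRed_scan h1 h2 (fun s => (enc s).length) 3 (fun s => by omega)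
    (fun s => by omega)
    (fun e s a => by
      simp only [length_enc_bits, List.length_tail]
      omega)
  have h5 : PT (fun z : ι × MGraph => List.replicate z.2.length true) :=
    (PT.map (ε := Unit) (g := fun _ : Unit × (Vx × Vx) => true) (PT.const true) (PT.const ())
      PT.snd).congr fun z => by simp
  have h4 : PT (fun z : ι × MGraph => z.2.foldl (fun (s : Vx × MGraph) (e : Vx × Vx) =>
      (s.1.tail, s.2 ++ (A z.1).edges nmT (false :: s.1.tail) (false :: e.1) (false :: e.2)))
      (List.replicate z.2.length true, [])) :=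
    h3.comp (PT.fst.pair ((h5.pair (PT.const [])).pair PT.snd))
  refine h4.comp_snd.congr fun z => ?_
  have := pTRed_replFold (A z.1) z.2 []
  rw [List.nil_append] at this
  exact this

/-- (module PTRed) -/
theorem ptRed : S_PTRed :=
  ⟨fun j => pTRed_redN (fun z : U × U => (NT.apx z.1.val z.2.val).chain j) (pTRed_chain j),
    pTRed_redN (fun z : U => NT.edge.chain z.val) pTRed_edge⟩

end Pool.Agent.TutteEq
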