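import Pool.Agent.TutteEq.Stmts

/-!
# Positivity and perturbation of the partition function

For lists of edges with arbitrary weights in `[-1, -q]` the sign of the partition function is
`(-1)` to the power of the rank; changing one weight changes it by a controlled factor.
-/

set_option autoImplicit false

namespace Pool.Agent.TutteEq

open Pool.Agent.PT Pool.Agent.TutteHard Real Relation

section

variable {α : Type} [DecidableEq α]

omit [DecidableEq α] in
/-- connectivity is monotone in the set of edges -/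
theorem pert_eqv_mono {V : Finset α} {S T : List (α × α)} (hST : ∀ e ∈ S, e ∈ T)
    {u w : {x // x ∈ V}} (hr : EqvGen (rel V S) u w) : EqvGen (rel V T) u w :=
  eqv_incl (Finset.Subset.refl V) hST hr

omit [DecidableEq α] in
/-- an edge inside a component of the hard edges does not change the partition function -/
theorem pert_Z_eqv (q : ℝ) {V : Finset α} {a b : α} (ha : a ∈ V) (hb : b ∈ V)
    (L : List ((α × α) × ℝ)) (S : List (α × α))
    (h : EqvGen (rel V S) ⟨a, ha⟩ ⟨b, hb⟩) : Z q V ((a, b) :: S) L = Z q V S L := by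
  induction L generalizing S with
  | nil => rw [Z_nil, Z_nil, comps_cons_of_eqv ha hb h]
  | cons f L ih =>
    have h1 := ih S h
    have h2 := ih (f.1 :: S) (pert_eqv_mono (fun e he => List.mem_cons_of_mem _ he) h)
    rw [Z_cons, Z_cons, h1, Z_congr q V (S := f.1 :: (a, b) :: S) (T := (a, b) :: f.1 :: S), h2]
    intro g
    simp only [List.mem_cons]
    tauto

omit [DecidableEq α] in
/-- an edge that joins two components of the whole graph -/
theorem pert_Z_bridge (q : ℝ) {V : Finset α} {a b : α} (ha : a ∈ V) (hb : b ∈ V)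
    (L : List ((α × α) × ℝ)) (S : List (α × α))
    (h : ¬ EqvGen (rel V (L.map Prod.fst ++ S)) ⟨a, ha⟩ ⟨b, hb⟩) :
    Z q V S L = q * Z q V ((a, b) :: S) L := by
  induction L generalizing S with
  | nil =>
    rw [List.map_nil, List.nil_append] at h
    rw [Z_nil, Z_nil, comps_cons_of_not_eqv ha hb h, pow_succ]
    ring
  | cons f L ih =>
    have h1 := ih S (fun h' => h (pert_eqv_mono (fun e he => by
      simp only [List.map_cons, List.cons_append, List.mem_cons, List.mem_append] at he ⊢
      tauto) h'))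
    have h2 := ih (f.1 :: S) (fun h' => h (pert_eqv_mono (fun e he => by
      simp only [List.map_cons, List.cons_append, List.mem_cons, List.mem_append] at he ⊢
      tauto) h'))
    rw [Z_cons, Z_cons, h1, h2, Z_congr q V (S := f.1 :: (a, b) :: S) (T := (a, b) :: f.1 :: S)]
    · ring
    · intro g
      simp only [List.mem_cons]
      tauto

/-- the signed partition function -/
noncomputable def pertF (q : ℝ) (V : Finset α) (S : List (α × α)) (L : List ((α × α) × ℝ)) : ℝ :=
  (-1) ^ (comps V S + comps V (L.map Prod.fst ++ S)) * Z q V S L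

omit [DecidableEq α] in
theorem pert_comps_swap (V : Finset α) (e : α × α) (L S : List (α × α)) :
    comps V (L ++ e :: S) = comps V (e :: (L ++ S)) := by
  refine comps_congr fun f => ?_
  simp only [List.mem_cons, List.mem_append]
  tauto

omit [DecidableEq α] in
/-- the signed partition function, edge inside a component of the hard edges -/
theorem pertF_loop (q : ℝ) {V : Finset α} {a b : α} (w : ℝ) (ha : a ∈ V) (hb : b ∈ V)
    (L : List ((α × α) × ℝ)) (S : List (α × α)) (h : EqvGen (rel V S) ⟨a, ha⟩ ⟨b, hb⟩) :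
    pertF q V S (((a, b), w) :: L) = (1 + w) * pertF q V S L := by
  have h1 : EqvGen (rel V (L.map Prod.fst ++ S)) ⟨a, ha⟩ ⟨b, hb⟩ :=
    pert_eqv_mono (fun e he => List.mem_append_right _ he) h
  have h2 : ((((a, b), w) :: L).map Prod.fst ++ S) = (a, b) :: (L.map Prod.fst ++ S) := rfl
  unfold pertF
  rw [h2, comps_cons_of_eqv ha hb h1, Z_cons]
  simp only
  rw [pert_Z_eqv q ha hb L S h]
  ring

omit [DecidableEq α] in
/-- the signed partition function, bridge -/
theorem pertF_bridge (q : ℝ) {V : Finset α} {a b : α} (w : ℝ) (ha : a ∈ V) (hb : b ∈ V)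
    (L : List ((α × α) × ℝ)) (S : List (α × α))
    (h : ¬ EqvGen (rel V (L.map Prod.fst ++ S)) ⟨a, ha⟩ ⟨b, hb⟩) :
    pertF q V S (((a, b), w) :: L) = (-w - q) * pertF q V ((a, b) :: S) L := by
  have h0 : ¬ EqvGen (rel V S) ⟨a, ha⟩ ⟨b, hb⟩ := fun h' =>
    h (pert_eqv_mono (fun e he => List.mem_append_right _ he) h')
  have h2 : ((((a, b), w) :: L).map Prod.fst ++ S) = (a, b) :: (L.map Prod.fst ++ S) := rfl
  unfold pertF
  rw [h2, ← pert_comps_swap, Z_cons, comps_cons_of_not_eqv ha hb h0]
  simp only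
  rw [pert_Z_bridge q ha hb L S h]
  ring

omit [DecidableEq α] in
/-- the signed partition function, other edges -/
theorem pertF_other (q : ℝ) {V : Finset α} {a b : α} (w : ℝ) (ha : a ∈ V) (hb : b ∈ V)
    (L : List ((α × α) × ℝ)) (S : List (α × α))
    (h0 : ¬ EqvGen (rel V S) ⟨a, ha⟩ ⟨b, hb⟩)
    (h : EqvGen (rel V (L.map Prod.fst ++ S)) ⟨a, ha⟩ ⟨b, hb⟩) :
    pertF q V S (((a, b), w) :: L) = pertF q V S L + (-w) * pertF q V ((a, b) :: S) L := by
  have h2 : ((((a, b), w) :: L).map Prod.fst ++ S) = (a, b) :: (L.map Prod.fst ++ S) := rfl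
  unfold pertF
  rw [h2, pert_comps_swap, comps_cons_of_eqv ha hb h, Z_cons, comps_cons_of_not_eqv ha hb h0]
  simp only
  ring

omit [DecidableEq α] in
/-- **Positivity** for arbitrary weights in `[-1, -q]` -/
theorem pertF_nonneg {q : ℝ} (hq0 : 0 < q) {V : Finset α}
    (L : List ((α × α) × ℝ)) (S : List (α × α)) (hL : EndsW V L)
    (hw : ∀ e ∈ L, -1 ≤ e.2 ∧ e.2 ≤ -q) : 0 ≤ pertF q V S L := by
  induction L generalizing S with
  | nil =>
    unfold pertF
    rw [Z_nil]
    have h2 : (([] : List ((α × α) × ℝ)).map Prod.fst ++ S) = S := rfl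
    rw [h2]
    have h1 : Even (comps V S + comps V S) := ⟨_, rfl⟩
    rw [h1.neg_one_pow, one_mul]
    exact pow_nonneg hq0.le _
  | cons e L ih =>
    obtain ⟨⟨a, b⟩, w⟩ := e
    have he := hL ((a, b), w) List.mem_cons_self
    have hww := hw ((a, b), w) List.mem_cons_self
    simp only at he hww
    have hL' : EndsW V L := hL.of_cons
    have hw' : ∀ e ∈ L, -1 ≤ e.2 ∧ e.2 ≤ -q := fun e he => hw e (List.mem_cons_of_mem _ he)
    have ih1 := ih S hL' hw'
    have ih2 := ih ((a, b) :: S) hL' hw'
    by_cases h0 : EqvGen (rel V S) ⟨a, he.1⟩ ⟨b, he.2⟩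
    · rw [pertF_loop q w he.1 he.2 L S h0]
      exact mul_nonneg (by linarith) ih1
    · by_cases h : EqvGen (rel V (L.map Prod.fst ++ S)) ⟨a, he.1⟩ ⟨b, he.2⟩
      · rw [pertF_other q w he.1 he.2 L S h0 h]
        exact add_nonneg ih1 (mul_nonneg (by linarith) ih2)
      · rw [pertF_bridge q w he.1 he.2 L S h]
        exact mul_nonneg (by linarith) ih2

omit [DecidableEq α] in
theorem pertF_perm (q : ℝ) (V : Finset α) {L M : List ((α × α) × ℝ)} (h : L.Perm M)
    (S : List (α × α)) : pertF q V S L = pertF q V S M := by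
  unfold pertF
  rw [Z_perm q V h, comps_congr (S := L.map Prod.fst ++ S) (T := M.map Prod.fst ++ S)]
  intro f
  rw [List.mem_append, List.mem_append, (h.map Prod.fst).mem_iff]

omit [DecidableEq α] in
/-- without edges only equal vertices are connected -/
theorem pert_eqv_nil {V : Finset α} {u w : {x // x ∈ V}} (h : EqvGen (rel V []) u w) : u = w := by
  induction h with
  | rel x y hxy => exact absurd hxy List.not_mem_nil
  | refl x => rfl
  | symm x y _ ih => exact ih.symm
  | trans x y z _ _ ih1 ih2 => exact ih1.trans ih2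

omit [DecidableEq α] in
/-- changing one weight -/
theorem pertF_step {q t t' δ : ℝ} (hq0 : 0 < q) {V : Finset α}
    (e : α × α) (he : e.1 ∈ V ∧ e.2 ∈ V) (L : List ((α × α) × ℝ)) (hL : EndsW V L)
    (hw : ∀ e ∈ L, -1 ≤ e.2 ∧ e.2 ≤ -q) (hδ : 0 ≤ δ) (h1 : exp (-δ) * t' ≤ t)
    (h2 : t ≤ exp δ * t')
    (hloop : e.1 = e.2 → exp (-δ) * (1 - t') ≤ 1 - t ∧ 1 - t ≤ exp δ * (1 - t'))
    (hbr : comps V (L.map Prod.fst) ≠ comps V (e :: L.map Prod.fst) →
      exp (-δ) * (t' - q) ≤ t - q ∧ t - q ≤ exp δ * (t' - q)) :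
    exp (-δ) * pertF q V [] ((e, -t') :: L) ≤ pertF q V [] ((e, -t) :: L) ∧
      pertF q V [] ((e, -t) :: L) ≤ exp δ * pertF q V [] ((e, -t') :: L) := by
  obtain ⟨a, b⟩ := e
  simp only at he hloop hbr
  have hA := pertF_nonneg hq0 L [] hL hw
  have hB := pertF_nonneg hq0 L [(a, b)] hL hw
  have hd1 : exp (-δ) ≤ 1 := by
    rw [exp_le_one_iff]
    linarith
  have hd2 : 1 ≤ exp δ := one_le_exp hδ
  by_cases h0 : EqvGen (rel V []) ⟨a, he.1⟩ ⟨b, he.2⟩
  · have hab : a = b := congrArg Subtype.val (pert_eqv_nil h0)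
    rw [pertF_loop q (-t) he.1 he.2 L [] h0, pertF_loop q (-t') he.1 he.2 L [] h0]
    obtain ⟨h3, h4⟩ := hloop hab
    constructor
    · calc exp (-δ) * ((1 + -t') * pertF q V [] L) = (exp (-δ) * (1 - t')) * pertF q V [] L := by
            ring
        _ ≤ (1 - t) * pertF q V [] L := mul_le_mul_of_nonneg_right h3 hA
        _ = (1 + -t) * pertF q V [] L := by ring
    · calc (1 + -t) * pertF q V [] L = (1 - t) * pertF q V [] L := by ring
        _ ≤ (exp δ * (1 - t')) * pertF q V [] L := mul_le_mul_of_nonneg_right h4 hA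
        _ = exp δ * ((1 + -t') * pertF q V [] L) := by ring
  · by_cases h : EqvGen (rel V (L.map Prod.fst ++ [])) ⟨a, he.1⟩ ⟨b, he.2⟩
    · rw [pertF_other q (-t) he.1 he.2 L [] h0 h, pertF_other q (-t') he.1 he.2 L [] h0 h]
      constructor
      · have h5 : exp (-δ) * pertF q V [] L ≤ 1 * pertF q V [] L :=
          mul_le_mul_of_nonneg_right hd1 hA
        have h6 : (exp (-δ) * t') * pertF q V [(a, b)] L ≤ t * pertF q V [(a, b)] L :=
          mul_le_mul_of_nonneg_right h1 hB
        linarith
      · have h5 : 1 * pertF q V [] L ≤ exp δ * pertF q V [] L :=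
          mul_le_mul_of_nonneg_right hd2 hA
        have h6 : t * pertF q V [(a, b)] L ≤ (exp δ * t') * pertF q V [(a, b)] L :=
          mul_le_mul_of_nonneg_right h2 hB
        linarith
    · rw [pertF_bridge q (-t) he.1 he.2 L [] h, pertF_bridge q (-t') he.1 he.2 L [] h]
      rw [List.append_nil] at h
      have h3 := comps_cons_of_not_eqv he.1 he.2 h
      obtain ⟨h4, h5⟩ := hbr (by omega)
      constructor
      · calc exp (-δ) * ((- -t' - q) * pertF q V [(a, b)] L)
              = (exp (-δ) * (t' - q)) * pertF q V [(a, b)] L := by ring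
          _ ≤ (t - q) * pertF q V [(a, b)] L := mul_le_mul_of_nonneg_right h4 hB
          _ = (- -t - q) * pertF q V [(a, b)] L := by ring
      · calc (- -t - q) * pertF q V [(a, b)] L = (t - q) * pertF q V [(a, b)] L := by ring
          _ ≤ (exp δ * (t' - q)) * pertF q V [(a, b)] L := mul_le_mul_of_nonneg_right h5 hB
          _ = exp δ * ((- -t' - q) * pertF q V [(a, b)] L) := by ring

omit [DecidableEq α] in
theorem pert_wtd_fst (v : ℝ) (G : List (α × α)) : (SP.wtd v G).map Prod.fst = G := by
  induction G with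
  | nil => rfl
  | cons e G ih =>
    have h1 : SP.wtd v (e :: G) = (e, v) :: SP.wtd v G := rfl
    rw [h1, List.map_cons, ih]

omit [DecidableEq α] in
/-- changing the weights of the edges in `G₁`, one at a time -/
theorem pertF_pert {q t t' δ : ℝ} (hq0 : 0 < q) {V : Finset α} (G : List (α × α))
    (hG : EndsIn V G) (hδ : 0 ≤ δ) (ht : q ≤ t) (ht1 : t ≤ 1) (ht' : q ≤ t') (ht1' : t' ≤ 1)
    (h1 : exp (-δ) * t' ≤ t) (h2 : t ≤ exp δ * t')
    (hloop : ∀ e ∈ G, e.1 = e.2 → exp (-δ) * (1 - t') ≤ 1 - t ∧ 1 - t ≤ exp δ * (1 - t'))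
    (hbr : ∀ (e : α × α) (G' : List (α × α)), (e :: G').Perm G → comps V G' ≠ comps V G →
      exp (-δ) * (t' - q) ≤ t - q ∧ t - q ≤ exp δ * (t' - q))
    (G₁ : List (α × α)) (M : List ((α × α) × ℝ)) (hP : (G₁ ++ M.map Prod.fst).Perm G)
    (hw : ∀ e ∈ M, -1 ≤ e.2 ∧ e.2 ≤ -q) :
    exp (-(G₁.length * δ)) * pertF q V [] (SP.wtd (-t') G₁ ++ M) ≤
        pertF q V [] (SP.wtd (-t) G₁ ++ M) ∧
      pertF q V [] (SP.wtd (-t) G₁ ++ M) ≤
        exp (G₁.length * δ) * pertF q V [] (SP.wtd (-t') G₁ ++ M) := by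
  induction G₁ generalizing M with
  | nil =>
    have e1 : SP.wtd (-t) ([] : List (α × α)) = [] := rfl
    have e2 : SP.wtd (-t') ([] : List (α × α)) = [] := rfl
    rw [e1, e2]
    simp
  | cons e G₁ ih =>
    have e1 : SP.wtd (-t) (e :: G₁) = (e, -t) :: SP.wtd (-t) G₁ := rfl
    have e2 : SP.wtd (-t') (e :: G₁) = (e, -t') :: SP.wtd (-t') G₁ := rfl
    have e3 : ((SP.wtd (-t) G₁ ++ M).map Prod.fst) = G₁ ++ M.map Prod.fst := by
      rw [List.map_append, pert_wtd_fst]
    have heG : e ∈ G := hP.mem_iff.1 (by simp)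
    have hmem : ∀ f ∈ G₁ ++ M.map Prod.fst, f ∈ G := fun f hf => hP.mem_iff.1 (by
      rw [List.cons_append]
      exact List.mem_cons_of_mem _ hf)
    have hL : EndsW V (SP.wtd (-t) G₁ ++ M) := by
      intro f hf
      exact hG f.1 (hmem _ (by
        rw [← e3]
        exact List.mem_map_of_mem hf))
    have hw1 : ∀ f ∈ SP.wtd (-t) G₁ ++ M, -1 ≤ f.2 ∧ f.2 ≤ -q := by
      intro f hf
      rcases List.mem_append.1 hf with hf | hf
      · obtain ⟨g, _, rfl⟩ := List.mem_map.1 hf
        constructor
        · simp only; linarith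
        · simp only; linarith
      · exact hw f hf
    have hc : comps V (e :: (G₁ ++ M.map Prod.fst)) = comps V G := by
      refine comps_congr fun f => ?_
      rw [← List.cons_append]
      exact hP.mem_iff
    have hstep := pertF_step (t := t) (t' := t') (δ := δ) hq0 e (hG e heG)
      (SP.wtd (-t) G₁ ++ M) hL hw1 hδ h1 h2 (hloop e heG) (by
        rw [e3, hc]
        exact hbr e (G₁ ++ M.map Prod.fst) (by rw [← List.cons_append]; exact hP))
    have hih := ih ((e, -t') :: M) (by
      rw [List.map_cons]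
      exact (List.perm_middle).trans (by rw [← List.cons_append]; exact hP)) (by
      intro f hf
      rcases List.mem_cons.1 hf with rfl | hf
      · constructor
        · simp only; linarith
        · simp only; linarith
      · exact hw f hf)
    have p1 : pertF q V [] (SP.wtd (-t) G₁ ++ (e, -t') :: M) =
        pertF q V [] ((e, -t') :: (SP.wtd (-t) G₁ ++ M)) := pertF_perm q V List.perm_middle []
    have p2 : pertF q V [] (SP.wtd (-t') G₁ ++ (e, -t') :: M) =
        pertF q V [] ((e, -t') :: (SP.wtd (-t') G₁ ++ M)) := pertF_perm q V List.perm_middle []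
    rw [p1, p2] at hih
    rw [e1, e2, List.cons_append, List.cons_append, List.length_cons]
    have x1 : exp (-(((G₁.length + 1 : ℕ) : ℝ) * δ)) = exp (-δ) * exp (-(G₁.length * δ)) := by
      rw [← exp_add]
      congr 1
      push_cast
      ring
    have x2 : exp (((G₁.length + 1 : ℕ) : ℝ) * δ) = exp δ * exp (G₁.length * δ) := by
      rw [← exp_add]
      congr 1
      push_cast
      ring
    rw [x1, x2]
    constructor
    · calc exp (-δ) * exp (-(G₁.length * δ)) *
            pertF q V [] ((e, -t') :: (SP.wtd (-t') G₁ ++ M))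
          = exp (-δ) * (exp (-(G₁.length * δ)) *
            pertF q V [] ((e, -t') :: (SP.wtd (-t') G₁ ++ M))) := by ring
        _ ≤ exp (-δ) * pertF q V [] ((e, -t') :: (SP.wtd (-t) G₁ ++ M)) :=
            mul_le_mul_of_nonneg_left hih.1 (exp_pos _).le
        _ ≤ _ := hstep.1
    · calc pertF q V [] ((e, -t) :: (SP.wtd (-t) G₁ ++ M))
          ≤ exp δ * pertF q V [] ((e, -t') :: (SP.wtd (-t) G₁ ++ M)) := hstep.2
        _ ≤ exp δ * (exp (G₁.length * δ) *
            pertF q V [] ((e, -t') :: (SP.wtd (-t') G₁ ++ M))) :=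
            mul_le_mul_of_nonneg_left hih.2 (exp_pos _).le
        _ = _ := by ring

/-- the rank and the numbers of components -/
theorem pert_rank (G : List (α × α)) :
    (verts G).card = comps (verts G) G + rank G Finset.univ := by
  have hk := (comps_le_card (endsIn_verts G)).1
  have hr : rank G Finset.univ = (verts G).card - comps (verts G) G := by
    unfold rank
    rw [subEdges_univ]
  omega

/-- the normalised partition function in terms of the signed one -/
theorem pert_Zt (q t : ℝ) (G : List (α × α)) :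
    Zt q t G = pertF q (verts G) [] (SP.wtd (-t) G) / q ^ comps (verts G) G := by
  unfold Zt pertF
  rw [pert_wtd_fst, List.append_nil, comps_nil, pert_rank G]
  have h1 : (-1 : ℝ) ^ (comps (verts G) G + rank G Finset.univ + comps (verts G) G) =
      (-1) ^ rank G Finset.univ := by
    have h2 : comps (verts G) G + rank G Finset.univ + comps (verts G) G =
        2 * comps (verts G) G + rank G Finset.univ := by ring
    rw [h2, pow_add, pow_mul]
    norm_num
  rw [h1]

end

theorem tutteZt : S_TutteZt := by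
  intro G q t hq ht
  have h1 := tutte_eq_Z G (1 - q / t) (1 - t)
  have e1 : (1 - q / t - 1) * (1 - t - 1) = q := by
    field_simp
    ring
  have e3 : 1 - t - 1 = -t := by ring
  have e5 : 1 - q / t - 1 = -(q / t) := by ring
  rw [e1, e3, e5, pert_rank G] at h1
  unfold Zt
  rw [← h1]
  have e7 : (-(q / t)) ^ comps (verts G) G * (-t) ^ (comps (verts G) G + rank G Finset.univ) =
      q ^ comps (verts G) G * ((-1) ^ rank G Finset.univ * t ^ rank G Finset.univ) := by
    rw [pow_add, ← mul_assoc, ← mul_pow, ← mul_pow]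
    congr 1
    · congr 1
      field_simp
    · congr 1
      ring
  rw [e7]
  have e8 : ((-1 : ℝ) ^ rank G Finset.univ) * (-1) ^ rank G Finset.univ = 1 := by
    rw [← mul_pow]
    norm_num
  have hqk : q ^ comps (verts G) G ≠ 0 := pow_ne_zero _ hq
  rw [eq_div_iff hqk]
  linear_combination (-(t ^ rank G Finset.univ * tutte G (1 - q / t) (1 - t) *
    q ^ comps (verts G) G)) * e8

theorem pos : S_Pos := by
  intro G q t hq _ ht ht1
  rw [pert_Zt]
  refine div_nonneg (pertF_nonneg hq _ _ ?_ ?_) (pow_pos hq _).le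
  · intro e he
    obtain ⟨g, hg, rfl⟩ := List.mem_map.1 he
    exact endsIn_verts G g hg
  · intro e he
    obtain ⟨g, _, rfl⟩ := List.mem_map.1 he
    constructor
    · simp only; linarith
    · simp only; linarith

theorem pert_wtd_mid (v : ℝ) (G₁ : MGraph) (e : Vx × Vx) (G₂ : MGraph) :
    (SP.wtd v (G₁ ++ e :: G₂)).Perm ((e, v) :: SP.wtd v (G₁ ++ G₂)) := by
  have h := List.perm_middle (a := e) (l₁ := G₁) (l₂ := G₂)
  exact h.map _

theorem zero : S_Zero := by
  intro G q hq
  constructor
  · rintro ⟨e, he, hab⟩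
    rw [pert_Zt]
    obtain ⟨G₁, G₂, hG⟩ := List.append_of_mem he
    have hp := pert_wtd_mid (-1) G₁ e G₂
    rw [← hG] at hp
    rw [pertF_perm q _ hp]
    have hev := endsIn_verts G e he
    obtain ⟨a, b⟩ := e
    simp only at hab hev
    subst hab
    rw [pertF_loop q (-1) hev.1 hev.2 _ [] (EqvGen.refl _)]
    simp
  · rintro ⟨G₁, e, G₂, hG, hc⟩
    rw [pert_Zt]
    have hp := pert_wtd_mid (-q) G₁ e G₂
    rw [← hG] at hp
    rw [pertF_perm q _ hp]
    have he : e ∈ G := by
      rw [hG]
      simp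
    have hev := endsIn_verts G e he
    obtain ⟨a, b⟩ := e
    simp only at hev
    rw [pertF_bridge q (-q) hev.1 hev.2 _ []]
    · simp
    · intro h
      rw [pert_wtd_fst, List.append_nil] at h
      apply hc
      rw [← comps_cons_of_eqv hev.1 hev.2 h]
      refine comps_congr fun f => ?_
      rw [hG]
      simp only [List.mem_cons, List.mem_append]
      tauto

theorem pert : S_Pert := by
  intro G q t t' δ hq _ hδ ht ht1 ht' ht1' h1 h2 hloop hbr
  have h := pertF_pert (t := t) (t' := t') (δ := δ) hq G (endsIn_verts G) hδ ht ht1 ht' ht1' h1 h2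
    (fun e he hab => hloop ⟨e, he, hab⟩) (fun e G' hP hc => hbr (by
      have he : e ∈ G := hP.mem_iff.1 List.mem_cons_self
      obtain ⟨G₁, G₂, hG⟩ := List.append_of_mem he
      refine ⟨G₁, e, G₂, hG, ?_⟩
      have hP2 : (e :: G').Perm (e :: (G₁ ++ G₂)) := by
        refine hP.trans ?_
        rw [hG]
        exact List.perm_middle
      have hP3 : G'.Perm (G₁ ++ G₂) := (List.perm_cons e).1 hP2
      rw [← comps_congr (S := G') (T := G₁ ++ G₂) (fun f => hP3.mem_iff)]
      exact hc)) G [] (by simp) (by simp)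
  rw [List.append_nil, List.append_nil] at h
  rw [pert_Zt, pert_Zt]
  have hk : 0 < q ^ comps (verts G) G := pow_pos hq _
  constructor
  · rw [← mul_div_assoc]
    exact div_le_div_of_nonneg_right h.1 hk.le
  · rw [← mul_div_assoc]
    exact div_le_div_of_nonneg_right h.2 hk.le

end Pool.Agent.TutteEq
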