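import Pool.Agent.TutteEq.Stmts

/-!
# Rank, loops and bridges in polynomial time
-/

set_option autoImplicit false

namespace Pool.Agent.TutteEq

open Pool.Agent.PT Pool.Agent.TutteHard Relation

/-! ### equality and membership of bit strings -/

/-- one step of the comparison of two bit strings -/
def rank_eqStep (p : Bool × (Bool × List Bool) × Bool) : Bool × List Bool :=
  (p.2.1.1 && (!p.2.1.2.isEmpty && (p.2.1.2.headD false == p.2.2)), p.2.1.2.tail)

theorem rank_PT_eqStep : PT rank_eqStep :=
  (PT.and PT.snd.comp_fst.comp_fst (PT.and (PT.not (PT.isEmpty.comp PT.snd.comp_fst.comp_snd))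
    (PT.beq (PT.headD.comp ((PT.const false).pair PT.snd.comp_fst.comp_snd))
      PT.snd.comp_snd))).pair (PT.tail.comp PT.snd.comp_fst.comp_snd)

theorem rank_eq_fold (x : List Bool) : ∀ (b : Bool) (y : List Bool),
    ((x.foldl (fun s a => rank_eqStep (true, s, a)) (b, y)).1 &&
      (x.foldl (fun s a => rank_eqStep (true, s, a)) (b, y)).2.isEmpty) =
      (b && decide (x = y)) := by
  induction x with
  | nil =>
    intro b y
    cases y <;> simp
  | cons a x ih =>
    intro b y
    rw [List.foldl_cons, ih]
    cases y with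
    | nil => simp [rank_eqStep]
    | cons c y =>
      simp only [rank_eqStep, List.isEmpty_cons, Bool.not_false, List.headD_cons, Bool.true_and,
        List.tail_cons, List.cons.injEq, Bool.decide_and]
      cases b <;> cases a <;> cases c <;> simp

theorem rank_enc_tail (l : List Bool) : (enc l.tail).length ≤ (enc l).length := by
  cases l with
  | nil => simp
  | cons a l => rw [List.tail_cons, length_enc_cons]; omega

theorem rank_PT_eq {δ : Type} [N487b59b3 δ] {f g : δ → List Bool} (hf : PT f) (hg : PT g) :
    PT (fun d => decide (f d = g d)) := by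
  have h := PT.fold (δ := δ) (ε := Bool) (σ := Bool × List Bool) (α := Bool)
    (g := rank_eqStep) (e := fun _ => true) (s := fun d => (true, g d)) (l := f)
    rank_PT_eqStep 0 (by
      intro e s a
      obtain ⟨s1, s2⟩ := s
      have := rank_enc_tail s2
      simp only [rank_eqStep]
      rw [length_enc_pair, length_enc_pair, enc_bool, enc_bool]
      simp only [List.length_singleton]
      omega) (PT.const true) ((PT.const true).pair hg) hf
  refine (PT.and h.comp_fst (PT.isEmpty.comp h.comp_snd)).congr fun d => ?_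
  rw [rank_eq_fold, Bool.true_and]

theorem rank_PT_mem {δ : Type} [N487b59b3 δ] {f : δ → Vx} {g : δ → List Vx} (hf : PT f)
    (hg : PT g) : PT (fun d => decide (f d ∈ g d)) := by
  have h := PT.fold (δ := δ) (ε := Vx) (σ := Bool) (α := Vx)
    (g := fun p => p.2.1 || decide (p.1 = p.2.2)) (e := f) (s := fun _ => false) (l := g)
    (PT.or PT.snd.comp_fst (rank_PT_eq PT.fst PT.snd.comp_snd)) 0 (by
      intro e s a
      rw [enc_bool, enc_bool]; simp) hf (PT.const false) hg
  refine h.congr fun d => ?_
  generalize g d = l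
  have key : ∀ (l : List Vx) (b : Bool), l.foldl (fun s a => s || decide (f d = a)) b =
      (b || decide (f d ∈ l)) := by
    intro l
    induction l with
    | nil => intro b; simp
    | cons a l ih =>
      intro b
      rw [List.foldl_cons, ih]
      simp only [List.mem_cons, Bool.decide_or, Bool.or_assoc]
  have := key l false
  simpa using this

/-! ### blocks -/

/-- one step of the collection of the blocks that meet an edge -/
def rank_colStep (p : (Vx × Vx) × (List Vx × List (List Vx)) × List Vx) :
    List Vx × List (List Vx) :=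
  if (decide (p.1.1 ∈ p.2.2) || decide (p.1.2 ∈ p.2.2)) then (p.2.2 ++ p.2.1.1, p.2.1.2)
  else (p.2.1.1, p.2.2 :: p.2.1.2)

/-- the union of the blocks that meet the edge `e`, and the other blocks -/
def rank_col (e : Vx × Vx) (bl : List (List Vx)) : List Vx × List (List Vx) :=
  bl.foldl (fun s B => rank_colStep (e, s, B)) ([e.1, e.2], [])

/-- the two ends of `e` are equal or in a common block -/
def rank_conn (e : Vx × Vx) (bl : List (List Vx)) : Bool :=
  bl.foldl (fun s B => s || (decide (e.1 ∈ B) && decide (e.2 ∈ B))) (decide (e.1 = e.2))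

/-- one step -/
def rank_step (p : Bool × (List (List Vx) × U) × (Vx × Vx)) : List (List Vx) × U :=
  ((rank_col p.2.2 p.2.1.1).1 :: (rank_col p.2.2 p.2.1.1).2,
    if rank_conn p.2.2 p.2.1.1 then p.2.1.2 else ⟨p.2.1.2.val + 1⟩)

/-- the number of edges that do not close a cycle -/
def rank_rk (G : MGraph) : U := (G.foldl (fun s e => rank_step (true, s, e)) ([], ⟨0⟩)).2

theorem rank_PT_colStep : PT rank_colStep := by
  have h1 := rank_PT_mem (δ := (Vx × Vx) × (List Vx × List (List Vx)) × List Vx)
    (f := fun p => p.1.1) (g := fun p => p.2.2) PT.fst.comp_fst PT.snd.comp_snd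
  have h2 := rank_PT_mem (δ := (Vx × Vx) × (List Vx × List (List Vx)) × List Vx)
    (f := fun p => p.1.2) (g := fun p => p.2.2) PT.fst.comp_snd PT.snd.comp_snd
  exact PT.ite (PT.or h1 h2)
    ((PT.append PT.snd.comp_snd PT.snd.comp_fst.comp_fst).pair PT.snd.comp_fst.comp_snd)
    (PT.snd.comp_fst.comp_fst.pair (PT.cons PT.snd.comp_snd PT.snd.comp_fst.comp_snd))

theorem rank_PT_col {δ : Type} [N487b59b3 δ] {e : δ → Vx × Vx} {bl : δ → List (List Vx)}
    (he : PT e) (hb : PT bl) : PT (fun d => rank_col (e d) (bl d)) := by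
  refine PT.fold (g := rank_colStep) (e := e) (s := fun d => ([(e d).1, (e d).2], [])) (l := bl)
    rank_PT_colStep (2 * Polynomial.X + 1) ?_ he
    ((PT.cons he.comp_fst (PT.cons he.comp_snd (PT.const []))).pair (PT.const [])) hb
  intro e s B
  obtain ⟨M, O⟩ := s
  simp only [rank_colStep]
  split_ifs
  · rw [length_enc_pair, length_enc_pair, enc_append, List.length_append]
    simp
    omega
  · rw [length_enc_pair, length_enc_pair, length_enc_cons]
    simp
    omega

theorem rank_PT_conn {δ : Type} [N487b59b3 δ] {e : δ → Vx × Vx} {bl : δ → List (List Vx)}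
    (he : PT e) (hb : PT bl) : PT (fun d => rank_conn (e d) (bl d)) := by
  refine PT.fold (g := fun p : (Vx × Vx) × Bool × List Vx =>
    p.2.1 || (decide (p.1.1 ∈ p.2.2) && decide (p.1.2 ∈ p.2.2))) (e := e)
    (s := fun d => decide ((e d).1 = (e d).2)) (l := bl)
    (PT.or PT.snd.comp_fst (PT.and (rank_PT_mem PT.fst.comp_fst PT.snd.comp_snd)
      (rank_PT_mem PT.fst.comp_snd PT.snd.comp_snd))) 0 ?_ he
    (rank_PT_eq he.comp_fst he.comp_snd) hb
  intro e s B
  rw [enc_bool, enc_bool]; simp

theorem rank_PT_step : PT rank_step := by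
  have h1 := rank_PT_col (δ := Bool × (List (List Vx) × U) × (Vx × Vx))
    (e := fun p => p.2.2) (bl := fun p => p.2.1.1) PT.snd.comp_snd PT.snd.comp_fst.comp_fst
  have h2 := rank_PT_conn (δ := Bool × (List (List Vx) × U) × (Vx × Vx))
    (e := fun p => p.2.2) (bl := fun p => p.2.1.1) PT.snd.comp_snd PT.snd.comp_fst.comp_fst
  exact (PT.cons h1.comp_fst h1.comp_snd).pair
    (PT.ite h2 PT.snd.comp_fst.comp_snd (PT.usucc PT.snd.comp_fst.comp_snd))

theorem rank_col_size (e : Vx × Vx) (bl : List (List Vx)) : ∀ s : List Vx × List (List Vx),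
    2 * (enc (bl.foldl (fun s B => rank_colStep (e, s, B)) s).1).length +
      (enc (bl.foldl (fun s B => rank_colStep (e, s, B)) s).2).length ≤
      2 * (enc s.1).length + (enc s.2).length + (enc bl).length := by
  induction bl with
  | nil => intro s; simp
  | cons B bl ih =>
    intro s
    rw [List.foldl_cons]
    refine (ih _).trans ?_
    obtain ⟨M, O⟩ := s
    rw [length_enc_cons]
    simp only [rank_colStep]
    split_ifs
    · simp only [enc_append, List.length_append]
      omega
    · simp only [length_enc_cons]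
      omega

theorem rank_PT_rk {δ : Type} [N487b59b3 δ] {f : δ → MGraph} (hf : PT f) :
    PT (fun d => rank_rk (f d)) := by
  have h := PT.fold (δ := δ) (ε := Bool) (σ := List (List Vx) × U) (α := Vx × Vx)
    (g := rank_step) (e := fun _ => true) (s := fun _ => ([], ⟨0⟩)) (l := f) rank_PT_step
    (8 * Polynomial.X + 12) (by
      intro e s a
      obtain ⟨bl, c⟩ := s
      obtain ⟨a, b⟩ := a
      have h1 := rank_col_size (a, b) bl ([a, b], [])
      have h2 : (enc ([a, b] : List Vx)).length = 2 * (enc a).length + 1 +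
          (2 * (enc b).length + 1) := by
        rw [length_enc_cons, length_enc_cons, enc_nil]; simp
      have h3 : (enc (rank_col (a, b) bl).1).length = (enc (bl.foldl
        (fun s B => rank_colStep ((a, b), s, B)) ([a, b], [])).1).length := rfl
      have h4 : (enc (rank_col (a, b) bl).2).length = (enc (bl.foldl
        (fun s B => rank_colStep ((a, b), s, B)) ([a, b], [])).2).length := rfl
      simp only at h1
      rw [← h3, ← h4, h2] at h1
      have h5 : (enc ([] : List (List Vx))).length = 0 := by rw [enc_nil]; rfl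
      rw [h5] at h1
      simp only [rank_step]
      rw [length_enc_pair, length_enc_pair, length_enc_cons, length_enc_pair]
      have h6 : (enc (if rank_conn (a, b) bl = true then c else (⟨c.val + 1⟩ : U))).length ≤
          (enc c).length + 1 := by
        split_ifs
        · omega
        · rw [length_enc_U, length_enc_U]
      simp only [Polynomial.eval_add, Polynomial.eval_mul, Polynomial.eval_X,
        Polynomial.eval_ofNat]
      omega) (PT.const true) (PT.const ([], (⟨0⟩ : U))) hf
  exact h.comp_snd

/-! ### correctness -/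

/-- the relation given by the blocks -/
def rank_R (bl : List (List Vx)) (x y : Vx) : Prop := x = y ∨ ∃ B ∈ bl, x ∈ B ∧ y ∈ B

theorem rank_conn_iff (e : Vx × Vx) (bl : List (List Vx)) :
    rank_conn e bl = true ↔ rank_R bl e.1 e.2 := by
  have key : ∀ (bl : List (List Vx)) (b : Bool),
      bl.foldl (fun s B => s || (decide (e.1 ∈ B) && decide (e.2 ∈ B))) b = true ↔
        (b = true ∨ ∃ B ∈ bl, e.1 ∈ B ∧ e.2 ∈ B) := by
    intro bl
    induction bl with
    | nil => intro b; simp
    | cons B bl ih =>
      intro b
      rw [List.foldl_cons, ih]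
      simp only [Bool.or_eq_true, Bool.and_eq_true, decide_eq_true_eq, List.mem_cons,
        exists_eq_or_imp, or_assoc]
  unfold rank_conn
  rw [key]
  simp [rank_R]

theorem rank_col_mem (e : Vx × Vx) (bl : List (List Vx)) : ∀ s : List Vx × List (List Vx),
    (∀ x, x ∈ (bl.foldl (fun s B => rank_colStep (e, s, B)) s).1 ↔
      x ∈ s.1 ∨ ∃ B ∈ bl, (e.1 ∈ B ∨ e.2 ∈ B) ∧ x ∈ B) ∧
    (∀ B, B ∈ (bl.foldl (fun s B => rank_colStep (e, s, B)) s).2 ↔
      B ∈ s.2 ∨ (B ∈ bl ∧ ¬ (e.1 ∈ B ∨ e.2 ∈ B))) := by
  induction bl with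
  | nil => intro s; simp
  | cons B bl ih =>
    intro s
    obtain ⟨h1, h2⟩ := ih (rank_colStep (e, s, B))
    obtain ⟨M, O⟩ := s
    constructor
    · intro x
      rw [List.foldl_cons, h1]
      simp only [rank_colStep, Bool.or_eq_true, decide_eq_true_eq, List.mem_cons,
        exists_eq_or_imp]
      split_ifs with hB
      · simp only [List.mem_append, hB, true_and]
        constructor
        · rintro ((h | h) | h)
          · exact Or.inr (Or.inl h)
          · exact Or.inl h
          · exact Or.inr (Or.inr h)
        · rintro (h | h | h)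
          · exact Or.inl (Or.inr h)
          · exact Or.inl (Or.inl h)
          · exact Or.inr h
      · simp only [hB, false_and, false_or]
    · intro C
      rw [List.foldl_cons, h2]
      simp only [rank_colStep, Bool.or_eq_true, decide_eq_true_eq, List.mem_cons]
      split_ifs with hB
      · constructor
        · rintro (h | ⟨h, h'⟩)
          · exact Or.inl h
          · exact Or.inr ⟨Or.inr h, h'⟩
        · rintro (h | ⟨rfl | h, h'⟩)
          · exact Or.inl h
          · exact absurd hB h'
          · exact Or.inr ⟨h, h'⟩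
      · simp only [List.mem_cons]
        constructor
        · rintro ((rfl | h) | ⟨h, h'⟩)
          · exact Or.inr ⟨Or.inl rfl, hB⟩
          · exact Or.inl h
          · exact Or.inr ⟨Or.inr h, h'⟩
        · rintro (h | ⟨rfl | h, h'⟩)
          · exact Or.inl (Or.inr h)
          · exact Or.inl (Or.inl rfl)
          · exact Or.inr ⟨h, h'⟩

/-- the blocks represent the components of `S` -/
def rank_Inv (S : MGraph) (bl : List (List Vx)) : Prop :=
  ∀ x y, rank_R bl x y ↔ EqvGen (fun u w => (u, w) ∈ S) x y

theorem rank_inv_step {S : MGraph} {bl : List (List Vx)} (h : rank_Inv S bl) (e : Vx × Vx) :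
    rank_Inv (e :: S) ((rank_col e bl).1 :: (rank_col e bl).2) := by
  obtain ⟨a, b⟩ := e
  obtain ⟨hM', hO'⟩ := rank_col_mem (a, b) bl ([a, b], [])
  have hM : ∀ x, x ∈ (rank_col (a, b) bl).1 ↔
      (x = a ∨ x = b) ∨ ∃ B ∈ bl, (a ∈ B ∨ b ∈ B) ∧ x ∈ B := by
    intro x
    have := hM' x
    simp only [List.mem_cons, List.not_mem_nil, or_false] at this
    exact this
  have hO : ∀ B, B ∈ (rank_col (a, b) bl).2 ↔ (B ∈ bl ∧ ¬ (a ∈ B ∨ b ∈ B)) := by
    intro B
    have := hO' B
    simp only [List.not_mem_nil, false_or] at this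
    exact this
  generalize (rank_col (a, b) bl).1 = M at hM
  generalize (rank_col (a, b) bl).2 = O at hO
  have hmono : ∀ {x y : Vx}, EqvGen (fun u w => (u, w) ∈ S) x y →
      EqvGen (fun u w => (u, w) ∈ (a, b) :: S) x y := by
    intro x y hxy
    exact hxy.mono fun u w huw => List.mem_cons_of_mem _ huw
  have hab : EqvGen (fun u w => (u, w) ∈ (a, b) :: S) a b :=
    EqvGen.rel _ _ List.mem_cons_self
  -- members of `M` are connected to `a`
  have hMa : ∀ x ∈ M, EqvGen (fun u w => (u, w) ∈ (a, b) :: S) a x := by
    intro x hx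
    rcases (hM x).1 hx with (rfl | rfl) | ⟨B, hB, hB' | hB', hxB⟩
    · exact EqvGen.refl _
    · exact hab
    · exact hmono ((h a x).1 (Or.inr ⟨B, hB, hB', hxB⟩))
    · exact hab.trans _ _ _ (hmono ((h b x).1 (Or.inr ⟨B, hB, hB', hxB⟩)))
  have haM : a ∈ M := (hM a).2 (Or.inl (Or.inl rfl))
  have hbM : b ∈ M := (hM b).2 (Or.inl (Or.inr rfl))
  -- a block of `bl` is in `M` or in `O`
  have hbl : ∀ {x y : Vx}, rank_R bl x y → rank_R (M :: O) x y := by
    rintro x y (rfl | ⟨B, hB, hx, hy⟩)
    · exact Or.inl rfl
    · by_cases hc : a ∈ B ∨ b ∈ B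
      · exact Or.inr ⟨M, List.mem_cons_self, (hM x).2 (Or.inr ⟨B, hB, hc, hx⟩),
          (hM y).2 (Or.inr ⟨B, hB, hc, hy⟩)⟩
      · exact Or.inr ⟨B, List.mem_cons_of_mem _ ((hO B).2 ⟨hB, hc⟩), hx, hy⟩
  -- propagation of membership in `M`
  have hprop : ∀ {y z : Vx} {B : List Vx}, y ∈ M → B ∈ O → y ∈ B → z ∈ B → z ∈ M := by
    intro y z B hy hB hyB hzB
    obtain ⟨hBbl, hBn⟩ := (hO B).1 hB
    rcases (hM y).1 hy with (rfl | rfl) | ⟨C, hC, hC', hyC⟩
    · exact absurd (Or.inl hyB) hBn
    · exact absurd (Or.inr hyB) hBn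
    · have hyz : EqvGen (fun u w => (u, w) ∈ S) y z := (h y z).1 (Or.inr ⟨B, hBbl, hyB, hzB⟩)
      rcases hC' with hC' | hC'
      · have h1 : rank_R bl a z := (h a z).2
          (((h a y).1 (Or.inr ⟨C, hC, hC', hyC⟩)).trans _ _ _ hyz)
        rcases h1 with rfl | ⟨D, hD, h2, h3⟩
        · exact haM
        · exact (hM z).2 (Or.inr ⟨D, hD, Or.inl h2, h3⟩)
      · have h1 : rank_R bl b z := (h b z).2
          (((h b y).1 (Or.inr ⟨C, hC, hC', hyC⟩)).trans _ _ _ hyz)
        rcases h1 with rfl | ⟨D, hD, h2, h3⟩
        · exact hbM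
        · exact (hM z).2 (Or.inr ⟨D, hD, Or.inr h2, h3⟩)
  intro x y
  constructor
  · rintro (rfl | ⟨B, hB, hx, hy⟩)
    · exact EqvGen.refl _
    · rcases List.mem_cons.1 hB with rfl | hB
      · exact ((hMa x hx).symm _ _).trans _ _ _ (hMa y hy)
      · exact hmono ((h x y).1 (Or.inr ⟨B, ((hO B).1 hB).1, hx, hy⟩))
  · intro hxy
    induction hxy with
    | rel u w huw =>
      rcases List.mem_cons.1 huw with huw | huw
      · simp only [Prod.mk.injEq] at huw
        obtain ⟨rfl, rfl⟩ := huw
        exact Or.inr ⟨M, List.mem_cons_self, haM, hbM⟩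
      · exact hbl ((h u w).2 (EqvGen.rel _ _ huw))
    | refl u => exact Or.inl rfl
    | symm u w _ ih =>
      rcases ih with rfl | ⟨B, hB, h1, h2⟩
      · exact Or.inl rfl
      · exact Or.inr ⟨B, hB, h2, h1⟩
    | trans u v w _ _ ih1 ih2 =>
      rcases ih1 with rfl | ⟨B, hB, h1, h2⟩
      · exact ih2
      rcases ih2 with rfl | ⟨C, hC, h3, h4⟩
      · exact Or.inr ⟨B, hB, h1, h2⟩
      rcases List.mem_cons.1 hB with hBM | hB
      · rw [hBM] at h1 h2
        rcases List.mem_cons.1 hC with hCM | hC
        · rw [hCM] at h3 h4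
          exact Or.inr ⟨M, List.mem_cons_self, h1, h4⟩
        · exact Or.inr ⟨M, List.mem_cons_self, h1, hprop h2 hC h3 h4⟩
      · rcases List.mem_cons.1 hC with hCM | hC
        · rw [hCM] at h3 h4
          exact Or.inr ⟨M, List.mem_cons_self, hprop h3 hB h2 h1, h4⟩
        · refine hbl ((h u w).2 ?_)
          exact ((h u v).1 (Or.inr ⟨B, ((hO B).1 hB).1, h1, h2⟩)).trans _ _ _
            ((h v w).1 (Or.inr ⟨C, ((hO C).1 hC).1, h3, h4⟩))

theorem rank_eqv_sub {V : Finset Vx} {S : MGraph} (hS : EndsIn V S) {a b : Vx} (ha : a ∈ V)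
    (hb : b ∈ V) : EqvGen (rel V S) ⟨a, ha⟩ ⟨b, hb⟩ ↔ EqvGen (fun u w => (u, w) ∈ S) a b := by
  constructor
  · intro h
    have key : ∀ x y : {x // x ∈ V}, EqvGen (rel V S) x y →
        EqvGen (fun u w => (u, w) ∈ S) x.1 y.1 := by
      intro x y hxy
      induction hxy with
      | rel u w huw => exact EqvGen.rel _ _ huw
      | refl u => exact EqvGen.refl _
      | symm u w _ ih => exact ih.symm _ _
      | trans u v w _ _ ih1 ih2 => exact ih1.trans _ _ _ ih2
    exact key _ _ h
  · intro h
    have key : ∀ x y : Vx, EqvGen (fun u w => (u, w) ∈ S) x y →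
        x = y ∨ ∃ (hx : x ∈ V) (hy : y ∈ V), EqvGen (rel V S) ⟨x, hx⟩ ⟨y, hy⟩ := by
      intro x y hxy
      induction hxy with
      | rel u w huw => exact Or.inr ⟨(hS _ huw).1, (hS _ huw).2, EqvGen.rel _ _ huw⟩
      | refl u => exact Or.inl rfl
      | symm u w _ ih =>
        rcases ih with rfl | ⟨h1, h2, h3⟩
        · exact Or.inl rfl
        · exact Or.inr ⟨h2, h1, h3.symm _ _⟩
      | trans u v w _ _ ih1 ih2 =>
        rcases ih1 with rfl | ⟨h1, h2, h3⟩
        · exact ih2
        rcases ih2 with rfl | ⟨h4, h5, h6⟩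
        · exact Or.inr ⟨h1, h2, h3⟩
        · exact Or.inr ⟨h1, h5, h3.trans _ _ _ h6⟩
    rcases key a b h with rfl | ⟨_, _, h3⟩
    · exact EqvGen.refl _
    · exact h3

/-- the count is `|V| - k(G)` -/
theorem rank_rk_eq {V : Finset Vx} {G : MGraph} (hG : EndsIn V G) :
    (rank_rk G).val + comps V G = V.card := by
  have key : ∀ (G S : MGraph) (bl : List (List Vx)) (c : U), EndsIn V G → EndsIn V S →
      rank_Inv S bl → c.val + comps V S = V.card →
      (G.foldl (fun s e => rank_step (true, s, e)) (bl, c)).2.val +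
        comps V (G.reverse ++ S) = V.card := by
    intro G
    induction G with
    | nil => intro S bl c _ _ _ h; simpa using h
    | cons e G ih =>
      intro S bl c hG hS hI hc
      obtain ⟨a, b⟩ := e
      have hab := hG (a, b) List.mem_cons_self
      rw [List.foldl_cons, List.reverse_cons, List.append_assoc, List.singleton_append]
      refine ih ((a, b) :: S) _ _ (fun f hf => hG f (List.mem_cons_of_mem _ hf))
        (hS.cons hab.1 hab.2) (rank_inv_step hI (a, b)) ?_
      simp only [rank_step]
      by_cases hc' : rank_conn (a, b) bl = true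
      · rw [if_pos hc']
        have h1 := (hI a b).1 ((rank_conn_iff (a, b) bl).1 hc')
        rw [comps_cons_of_eqv hab.1 hab.2 ((rank_eqv_sub hS hab.1 hab.2).2 h1)]
        exact hc
      · rw [if_neg hc']
        have h1 : ¬ EqvGen (rel V S) ⟨a, hab.1⟩ ⟨b, hab.2⟩ := fun h2 =>
          hc' ((rank_conn_iff (a, b) bl).2 ((hI a b).2 ((rank_eqv_sub hS hab.1 hab.2).1 h2)))
        have h3 : comps V S = comps V ((a, b) :: S) + 1 := comps_cons_of_not_eqv hab.1 hab.2 h1
        have h4 : c.val + 1 + comps V ((a, b) :: S) = V.card := by omega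
        exact h4
  have h1 := key G [] [] ⟨0⟩ hG (fun e he => absurd he List.not_mem_nil) (by
    intro x y
    constructor
    · rintro (rfl | ⟨B, hB, _⟩)
      · exact EqvGen.refl _
      · exact absurd hB List.not_mem_nil
    · intro h
      have : ∀ x y : Vx, EqvGen (fun u w => (u, w) ∈ ([] : MGraph)) x y → x = y := by
        intro x y hxy
        induction hxy with
        | rel u w huw => exact absurd huw List.not_mem_nil
        | refl u => rfl
        | symm u w _ ih => exact ih.symm
        | trans u v w _ _ ih1 ih2 => exact ih1.trans ih2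
      exact Or.inl (this x y h)) (by simp [comps_nil])
  rw [List.append_nil] at h1
  rw [← comps_congr (S := G.reverse) (T := G) (fun e => List.mem_reverse)]
  exact h1

theorem rank_endsIn (G : MGraph) : EndsIn (verts G) G := by
  intro e he
  unfold verts
  simp only [List.mem_toFinset, List.mem_append, List.mem_map]
  exact ⟨Or.inl ⟨e, he, rfl⟩, Or.inr ⟨e, he, rfl⟩⟩

open scoped Classical in
theorem rank_pt : S_Rank := by
  refine ⟨?_, ?_, ?_⟩
  · refine (rank_PT_rk PT.id).congr fun G => ?_
    have h1 := rank_rk_eq (rank_endsIn G)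
    unfold rank
    rw [subEdges_univ]
    have h2 : rank_rk G = U.mk (rank_rk G).val := rfl
    rw [h2]
    congr 1
    omega
  · have h := PT.fold (δ := MGraph) (ε := Bool) (σ := Bool) (α := Vx × Vx)
      (g := fun p => p.2.1 || decide (p.2.2.1 = p.2.2.2)) (e := fun _ => true)
      (s := fun _ => false) (l := fun G => G)
      (PT.or PT.snd.comp_fst (rank_PT_eq PT.snd.comp_snd.comp_fst PT.snd.comp_snd.comp_snd)) 0 (by
        intro e s a
        rw [enc_bool, enc_bool]; simp) (PT.const true) (PT.const false) PT.id
    refine h.congr fun G => ?_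
    have key : ∀ (l : MGraph) (b : Bool), l.foldl (fun s a => s || decide (a.1 = a.2)) b =
        (b || decide (HasLoop l)) := by
      intro l
      induction l with
      | nil => intro b; simp [HasLoop]
      | cons a l ih =>
        intro b
        rw [List.foldl_cons, ih]
        have e1 : HasLoop (a :: l) ↔ (a.1 = a.2 ∨ HasLoop l) := by
          unfold HasLoop
          simp only [List.mem_cons, exists_eq_or_imp]
        rw [decide_eq_decide.2 e1, Bool.decide_or, Bool.or_assoc]
    have := key G false
    simpa using this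
  · -- bridges
    set g : U × (MGraph × MGraph × Bool) × (Vx × Vx) → MGraph × MGraph × Bool := fun p =>
      (p.2.2 :: p.2.1.1, p.2.1.2.1.tail, p.2.1.2.2 ||
        !((decide ((rank_rk (p.2.1.1 ++ p.2.1.2.1.tail)).val ≤ p.1.val)) &&
          (decide (p.1.val ≤ (rank_rk (p.2.1.1 ++ p.2.1.2.1.tail)).val)))) with hg
    have hrk : PT (fun p : U × (MGraph × MGraph × Bool) × (Vx × Vx) =>
        rank_rk (p.2.1.1 ++ p.2.1.2.1.tail)) :=
      rank_PT_rk (PT.append PT.snd.comp_fst.comp_fst
        (PT.tail.comp PT.snd.comp_fst.comp_snd.comp_fst))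
    have hgPT : PT g := by
      refine (PT.cons PT.snd.comp_snd PT.snd.comp_fst.comp_fst).pair
        ((PT.tail.comp PT.snd.comp_fst.comp_snd.comp_fst).pair
          (PT.or PT.snd.comp_fst.comp_snd.comp_snd (PT.not (PT.and (PT.ule hrk PT.fst)
            (PT.ule PT.fst hrk)))))
    have htail : ∀ l : MGraph, (enc l.tail).length ≤ (enc l).length := by
      intro l
      cases l with
      | nil => simp
      | cons a l => rw [List.tail_cons, length_enc_cons]; omega
    have h := PT.fold (δ := MGraph) (g := g) (e := fun G => rank_rk G)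
      (s := fun G => ([], G, false)) (l := fun G => G) hgPT (4 * Polynomial.X + 2) (by
        intro e s a
        obtain ⟨s1, s2, s3⟩ := s
        have := htail s2
        rw [hg]
        simp only
        rw [length_enc_pair, length_enc_pair, length_enc_pair, length_enc_pair, length_enc_cons,
          enc_bool, enc_bool]
        simp only [Polynomial.eval_add, Polynomial.eval_mul, Polynomial.eval_X,
          Polynomial.eval_ofNat, List.length_singleton]
        omega) (rank_PT_rk PT.id) ((PT.const []).pair (PT.id.pair (PT.const false))) PT.id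
    refine h.comp_snd.comp_snd.congr fun G => ?_
    have key : ∀ (l : MGraph) (r : MGraph) (b : Bool),
        (l.foldl (fun s a => g (rank_rk G, s, a)) (r, l, b)).2.2 = true ↔
          (b = true ∨ ∃ (L₁ : MGraph) (e : Vx × Vx) (L₂ : MGraph), l = L₁ ++ e :: L₂ ∧
            (rank_rk ((L₁.reverse ++ r) ++ L₂)).val ≠ (rank_rk G).val) := by
      intro l
      induction l with
      | nil => intro r b; simp
      | cons a l ih =>
        intro r b
        rw [List.foldl_cons]
        have e0 : g (rank_rk G, (r, a :: l, b), a) = (a :: r, l, b ||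
          !((decide ((rank_rk (r ++ l)).val ≤ (rank_rk G).val)) &&
            (decide ((rank_rk G).val ≤ (rank_rk (r ++ l)).val)))) := by
          rw [hg]; rfl
        rw [e0, ih]
        have e1 : (b || !((decide ((rank_rk (r ++ l)).val ≤ (rank_rk G).val)) &&
            (decide ((rank_rk G).val ≤ (rank_rk (r ++ l)).val)))) = true ↔
            (b = true ∨ (rank_rk (r ++ l)).val ≠ (rank_rk G).val) := by
          simp only [Bool.or_eq_true, Bool.not_eq_true', Bool.and_eq_false_iff,
            decide_eq_false_iff_not]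
          constructor
          · rintro (h | h)
            · exact Or.inl h
            · exact Or.inr (by omega)
          · rintro (h | h)
            · exact Or.inl h
            · exact Or.inr (by omega)
        rw [e1, or_assoc]
        refine or_congr_right ?_
        constructor
        · rintro (h | ⟨L₁, e, L₂, h1, h2⟩)
          · exact ⟨[], a, l, rfl, by simpa using h⟩
          · refine ⟨a :: L₁, e, L₂, by rw [h1]; rfl, ?_⟩
            simpa using h2
        · rintro ⟨L₁, e, L₂, h1, h2⟩
          cases L₁ with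
          | nil =>
            simp only [List.nil_append, List.cons.injEq] at h1
            obtain ⟨rfl, rfl⟩ := h1
            exact Or.inl (by simpa using h2)
          | cons c L₁ =>
            simp only [List.cons_append, List.cons.injEq] at h1
            obtain ⟨rfl, h1⟩ := h1
            refine Or.inr ⟨L₁, e, L₂, h1, ?_⟩
            simpa using h2
    have h1 := key G [] false
    have h2 : HasBridge G ↔ ∃ (L₁ : MGraph) (e : Vx × Vx) (L₂ : MGraph), G = L₁ ++ e :: L₂ ∧
            (rank_rk ((L₁.reverse ++ []) ++ L₂)).val ≠ (rank_rk G).val := by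
      unfold HasBridge
      refine exists_congr fun L₁ => exists_congr fun e => exists_congr fun L₂ =>
        and_congr_right fun hG => ?_
      have hV := rank_endsIn G
      have a1 := rank_rk_eq hV
      have hsub : ∀ f, f ∈ L₁.reverse ++ [] ++ L₂ → f ∈ G := by
        intro f hf
        rw [hG]
        simp only [List.append_nil, List.mem_append, List.mem_reverse] at hf
        simp only [List.mem_append, List.mem_cons]
        tauto
      have a2 := rank_rk_eq (V := verts G) (G := L₁.reverse ++ [] ++ L₂)
        (fun f hf => hV f (hsub f hf))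
      have a3 : comps (verts G) (L₁.reverse ++ [] ++ L₂) = comps (verts G) (L₁ ++ L₂) :=
        comps_congr fun f => by simp
      rw [a3] at a2
      constructor
      · intro h; omega
      · intro h; omega
    simp only [Bool.false_eq_true, false_or] at h1
    rw [← h2] at h1
    by_cases hb : HasBridge G
    · simp only [hb, decide_true]
      exact h1.2 hb
    · simp only [hb, decide_false]
      exact Bool.eq_false_iff.2 fun h3 => hb (h1.1 h3)

end Pool.Agent.TutteEq
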