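import Pool.Agent.TutteEq.Net

/-!
# Replacing every edge by a network
-/

set_option autoImplicit false
set_option linter.unusedSectionVars false

namespace Pool.Agent.TutteEq

open Pool.Agent.PT Pool.Agent.TutteHard Relation

variable {α : Type} [DecidableEq α]

namespace NT

/-- the new vertices -/
def newV (nm : List Bool → α) (A : NT) : ℕ → Finset α
  | 0 => ∅
  | n + 1 => A.inner nm (false :: List.replicate n true) ∪ newV nm A n

theorem red_mem_newV (nm : List Bool → α) (A : NT) (n : ℕ) {x : α} (h : x ∈ newV nm A n) :
    ∃ l, ∃ i < n, x = nm (l ++ false :: List.replicate i true) := by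
  induction n with
  | zero => simp [newV] at h
  | succ n ih =>
    rw [newV, Finset.mem_union] at h
    rcases h with h | h
    · obtain ⟨l, hl⟩ := net_mem_inner nm A _ h
      exact ⟨l, n, by omega, hl⟩
    · obtain ⟨l, i, hi, hl⟩ := ih h
      exact ⟨l, i, by omega, hl⟩

theorem red_disjoint_newV {nm : List Bool → α} (hnm : Function.Injective nm) (A : NT) (n : ℕ) :
    Disjoint (newV nm A n) (A.inner nm (false :: List.replicate n true)) := by
  rw [Finset.disjoint_left]
  intro x hx hy
  obtain ⟨l, i, hi, hl⟩ := red_mem_newV nm A _ hx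
  obtain ⟨l', hl'⟩ := net_mem_inner nm A _ hy
  have := SP.rep_inj' (hnm (hl.symm.trans hl'))
  omega

theorem red_card_newV {nm : List Bool → α} (hnm : Function.Injective nm) (A : NT) (n : ℕ) :
    (newV nm A n).card = n * A.cnt := by
  induction n with
  | zero => simp [newV]
  | succ n ih =>
    rw [newV, Finset.card_union_of_disjoint (red_disjoint_newV hnm A n).symm,
      net_card_inner hnm, ih]
    ring

theorem red_endsIn_repl (nm : List Bool → α) (A : NT) {G : List (α × α)} {V : Finset α}
    (hG : EndsIn V G) : EndsIn (V ∪ newV nm A G.length) (repl nm A G) := by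
  induction G with
  | nil => intro e he; simp [repl] at he
  | cons e G ih =>
    rw [repl, List.length_cons, newV]
    have he := hG e List.mem_cons_self
    have hG' : EndsIn V G := fun f hf => hG f (List.mem_cons_of_mem _ hf)
    refine SP.EndsIn_append ((net_endsIn_edges nm A _ he.1 he.2).mono ?_) ((ih hG').mono ?_)
    · intro x
      simp only [Finset.mem_union]
      tauto
    · intro x
      simp only [Finset.mem_union]
      tauto

/-- the partition function of the new graph -/
theorem red_Z_repl (hw : S_NetW) {nm : List Bool → α} (hnm : Function.Injective nm) {q : ℝ}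
    (hq0 : 0 < q) (hq1 : q < 1) (A : NT) (hok : A.ok) {V : Finset α} {S : List (α × α)}
    (hS : EndsIn V S) :
    ∀ (G : List (α × α)) (L : List ((α × α) × ℝ)), EndsIn V G → EndsW V L →
      Disjoint V (newV nm A G.length) →
      Z q (V ∪ newV nm A G.length) S (SP.wtd (-1) (repl nm A G) ++ L) =
        A.fac q ^ G.length * Z q V S (SP.wtd (A.wt q) G ++ L)
  | [], L, _, _, _ => by simp [newV, repl, SP.wtd]
  | e :: G, L, hG, hL, hV => by
    have he := hG e List.mem_cons_self
    have hG' : EndsIn V G := fun f hf => hG f (List.mem_cons_of_mem _ hf)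
    rw [List.length_cons, newV] at hV
    rw [repl, List.length_cons, newV, SP.wtd_append]
    have hVI : Disjoint V (A.inner nm (false :: List.replicate G.length true)) :=
      Finset.disjoint_of_subset_right Finset.subset_union_left hV
    have hVJ : Disjoint V (newV nm A G.length) :=
      Finset.disjoint_of_subset_right Finset.subset_union_right hV
    have hrv := net_rv hw hnm hq0 hq1 A hok (false :: List.replicate G.length true) e.1 e.2
    have ih := red_Z_repl hw hnm hq0 hq1 A hok hS G (((e, A.wt q)) :: L) hG'
      (hL.cons he.1 he.2) hVJ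
    have hdis := red_disjoint_newV hnm A G.length
    have hr := red_endsIn_repl nm A hG'
    generalize A.inner nm (false :: List.replicate G.length true) = I at *
    generalize newV nm A G.length = J at *
    have h1 : V ∪ (I ∪ J) = (V ∪ J) ∪ I := by
      ext x; simp only [Finset.mem_union]; tauto
    have hsub : V ⊆ V ∪ J := Finset.subset_union_left
    rw [h1, List.append_assoc, hrv.eq (V ∪ J) S _ (hsub he.1) (hsub he.2) ?_ (hS.mono hsub) ?_]
    · have hp : ((((e.1, e.2), A.wt q) :: (SP.wtd (-1) (repl nm A G) ++ L)) :
          List ((α × α) × ℝ)).Perm (SP.wtd (-1) (repl nm A G) ++ ((e, A.wt q) :: L)) :=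
        (List.perm_middle).symm
      rw [Z_perm q _ hp, ih, pow_succ]
      have hp2 : (SP.wtd (A.wt q) G ++ (e, A.wt q) :: L).Perm
          (SP.wtd (A.wt q) (e :: G) ++ L) := List.perm_middle
      rw [Z_perm q _ hp2]
      ring
    · rw [Finset.disjoint_union_left]
      exact ⟨hVI, hdis⟩
    · refine EndsW.append ?_ (hL.mono hsub)
      exact net_endsW hr (-1)

/-- the components of the new graph -/
theorem red_comps_repl {nm : List Bool → α} (hnm : Function.Injective nm) (A : NT)
    {V : Finset α} :
    ∀ (G S : List (α × α)), EndsIn V G → EndsIn V S → Disjoint V (newV nm A G.length) →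
      comps (V ∪ newV nm A G.length) (repl nm A G ++ S) = comps V (G ++ S)
  | [], S, _, _, _ => by simp [newV, repl]
  | e :: G, S, hG, hS, hV => by
    have he := hG e List.mem_cons_self
    have hG' : EndsIn V G := fun f hf => hG f (List.mem_cons_of_mem _ hf)
    rw [List.length_cons, newV] at hV
    rw [repl, List.length_cons, newV]
    have hVI : Disjoint V (A.inner nm (false :: List.replicate G.length true)) :=
      Finset.disjoint_of_subset_right Finset.subset_union_left hV
    have hVJ : Disjoint V (newV nm A G.length) :=
      Finset.disjoint_of_subset_right Finset.subset_union_right hV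
    have hrv := net_comps_edges hnm A (false :: List.replicate G.length true) e.1 e.2
    have ih := red_comps_repl hnm A G (e :: S) hG' (hS.cons he.1 he.2) hVJ
    have hdis := red_disjoint_newV hnm A G.length
    have hr := red_endsIn_repl nm A hG'
    generalize A.inner nm (false :: List.replicate G.length true) = I at *
    generalize newV nm A G.length = J at *
    have h1 : V ∪ (I ∪ J) = (V ∪ J) ∪ I := by
      ext x; simp only [Finset.mem_union]; tauto
    have hsub : V ⊆ V ∪ J := Finset.subset_union_left
    rw [h1, List.append_assoc, hrv (V ∪ J) _ (hsub he.1) (hsub he.2) ?_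
      (SP.EndsIn_append hr (hS.mono hsub)), comps_congr (T := repl nm A G ++ (e :: S)), ih]
    · apply comps_congr
      intro f
      simp only [List.mem_cons, List.mem_append]
      tauto
    · intro f
      simp only [List.mem_cons, List.mem_append]
      tauto
    · rw [Finset.disjoint_union_left]
      exact ⟨hVI, hdis⟩

/-- the vertices of the new graph -/
theorem red_mem_verts_repl (nm : List Bool → α) (A : NT) (G : List (α × α)) (x : α) :
    (∃ e ∈ repl nm A G, x = e.1 ∨ x = e.2) ↔
      (∃ e ∈ G, x = e.1 ∨ x = e.2) ∨ x ∈ newV nm A G.length := by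
  induction G with
  | nil => simp [repl, newV]
  | cons e G ih =>
    have h1 := net_verts_edges nm A (false :: List.replicate G.length true) e.1 e.2 x
    rw [repl, List.length_cons, newV, Finset.mem_union]
    constructor
    · rintro ⟨f, hf, hx⟩
      rcases List.mem_append.1 hf with hf | hf
      · rcases h1.1 ⟨f, hf, hx⟩ with h | h | h
        · exact Or.inl ⟨e, List.mem_cons_self, Or.inl h⟩
        · exact Or.inl ⟨e, List.mem_cons_self, Or.inr h⟩
        · exact Or.inr (Or.inl h)
      · rcases ih.1 ⟨f, hf, hx⟩ with ⟨g, hg, h⟩ | h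
        · exact Or.inl ⟨g, List.mem_cons_of_mem _ hg, h⟩
        · exact Or.inr (Or.inr h)
    · rintro (⟨f, hf, hx⟩ | h | h)
      · rcases List.mem_cons.1 hf with rfl | hf
        · obtain ⟨g, hg, h⟩ := h1.2 (by tauto)
          exact ⟨g, List.mem_append.2 (Or.inl hg), h⟩
        · obtain ⟨g, hg, h⟩ := ih.2 (Or.inl ⟨f, hf, hx⟩)
          exact ⟨g, List.mem_append.2 (Or.inr hg), h⟩
      · obtain ⟨g, hg, h⟩ := h1.2 (by tauto)
        exact ⟨g, List.mem_append.2 (Or.inl hg), h⟩
      · obtain ⟨g, hg, h⟩ := ih.2 (Or.inr h)
        exact ⟨g, List.mem_append.2 (Or.inr hg), h⟩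

end NT

theorem red_disjoint (A : NT) (G : MGraph) :
    Disjoint ((verts G).image nmF) (NT.newV nmT A G.length) := by
  rw [Finset.disjoint_left]
  intro x hx hy
  obtain ⟨a, _, rfl⟩ := Finset.mem_image.1 hx
  obtain ⟨l, i, _, h⟩ := NT.red_mem_newV nmT A _ hy
  unfold nmF nmT at h
  simp at h

theorem red_verts (A : NT) (G : MGraph) :
    verts (redN A G) = (verts G).image nmF ∪ NT.newV nmT A G.length := by
  ext x
  rw [mem_verts, redN, NT.red_mem_verts_repl, ← mem_verts, verts_ren, length_ren,
    Finset.mem_union]

theorem red_card_verts (A : NT) (G : MGraph) :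
    (verts (redN A G)).card = (verts G).card + G.length * A.cnt := by
  rw [red_verts, Finset.card_union_of_disjoint (red_disjoint A G),
    Finset.card_image_of_injective _ nmF_inj, NT.red_card_newV nmT_inj]

theorem red_comps (A : NT) (G : MGraph) :
    comps (verts (redN A G)) (redN A G) = comps (verts G) G := by
  have h := NT.red_comps_repl nmT_inj A (V := (verts G).image nmF) (ren nmF G) []
    (endsIn_ren G) (fun e he => by simp at he) (by rw [length_ren]; exact red_disjoint A G)
  rw [length_ren, List.append_nil, List.append_nil, comps_ren nmF_inj] at h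
  rw [red_verts, redN]
  exact h

theorem red_Z (hw : S_NetW) {q : ℝ} (hq0 : 0 < q) (hq1 : q < 1) (A : NT) (hok : A.ok)
    (G : MGraph) :
    Z q (verts (redN A G)) [] (SP.wtd (-1) (redN A G)) =
      A.fac q ^ G.length * Z q (verts G) [] (SP.wtd (A.wt q) G) := by
  have h := NT.red_Z_repl hw nmT_inj hq0 hq1 A hok (V := (verts G).image nmF) (S := [])
    (fun e he => by simp at he) (ren nmF G) [] (endsIn_ren G) (fun e he => by simp at he)
    (by rw [length_ren]; exact red_disjoint A G)
  rw [length_ren, List.append_nil, List.append_nil] at h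
  have h2 := Z_ren q (A.wt q) nmF_inj (V := verts G) G [] (endsIn_verts G)
    (fun e he => by simp at he)
  have h3 : ren nmF ([] : MGraph) = [] := rfl
  rw [h3] at h2
  rw [red_verts, redN, h, h2]

theorem red (hw : S_NetW) : S_Red := by
  intro q hq0 hq1 A hok G
  have hr : ∀ H : MGraph, rank H Finset.univ = (verts H).card - comps (verts H) H := by
    intro H
    unfold rank
    rw [subEdges_univ]
  have hk := (comps_le_card (endsIn_verts G)).1
  have h1 : rank (redN A G) Finset.univ = rank G Finset.univ + G.length * A.cnt := by
    rw [hr, hr, red_card_verts, red_comps]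
    omega
  refine ⟨h1, ?_⟩
  unfold Zt
  rw [h1, red_comps, red_Z hw hq0 hq1 A hok G, neg_neg, mul_pow, pow_add, mul_comm G.length,
    pow_mul]
  ring

end Pool.Agent.TutteEq
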