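import Pool.Agent.TutteEq.Stmts

/-!
# Thickening: every edge replaced by `k` parallel edges
-/

set_option autoImplicit false

namespace Pool.Agent.TutteEq

open Pool.Agent.PT Pool.Agent.TutteHard Real

/-! ### the graph -/

section graph

variable {α : Type}

theorem thick_nil (k : ℕ) : thick k ([] : List (α × α)) = [] := rfl

theorem thick_cons (k : ℕ) (e : α × α) (G : List (α × α)) :
    thick k (e :: G) = List.replicate k e ++ thick k G := by
  simp [thick]

theorem thick_mem {k : ℕ} (hk : 1 ≤ k) (G : List (α × α)) (e : α × α) :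
    e ∈ thick k G ↔ e ∈ G := by
  unfold thick
  rw [List.mem_flatMap]
  constructor
  · rintro ⟨f, hf, h⟩
    rw [List.eq_of_mem_replicate h]
    exact hf
  · intro h
    exact ⟨e, h, List.mem_replicate.2 ⟨by omega, rfl⟩⟩

theorem thick_verts [DecidableEq α] {k : ℕ} (hk : 1 ≤ k) (G : List (α × α)) :
    verts (thick k G) = verts G := by
  ext x
  rw [mem_verts, mem_verts]
  constructor
  · rintro ⟨e, he, h⟩
    exact ⟨e, (thick_mem hk G e).1 he, h⟩
  · rintro ⟨e, he, h⟩
    exact ⟨e, (thick_mem hk G e).2 he, h⟩

theorem thick_comps [DecidableEq α] {k : ℕ} (hk : 1 ≤ k) (G : List (α × α)) :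
    comps (verts (thick k G)) (thick k G) = comps (verts G) G := by
  rw [thick_verts hk, comps_congr (thick_mem hk G)]

theorem thick_rank [DecidableEq α] {k : ℕ} (hk : 1 ≤ k) (G : List (α × α)) :
    rank (thick k G) Finset.univ = rank G Finset.univ := by
  unfold rank
  rw [subEdges_univ, subEdges_univ, thick_comps hk, thick_verts hk]

theorem thick_Z_replicate (q v : ℝ) (V : Finset α) (e : α × α) (L : List ((α × α) × ℝ)) (k : ℕ)
    (S : List (α × α)) : Z q V S (List.replicate k (e, v) ++ L) =
      Z q V S ((e, (1 + v) ^ k - 1) :: L) := by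
  induction k generalizing L with
  | zero =>
    rw [Z_cons]
    simp
  | succ k ih =>
    have h1 : (List.replicate (k + 1) (e, v) ++ L : List ((α × α) × ℝ)) =
        List.replicate k (e, v) ++ ((e, v) :: L) := by
      rw [List.replicate_succ', List.append_assoc]
      rfl
    rw [h1, ih, Z_par]
    have h2 : (1 + ((1 + v) ^ k - 1)) * (1 + v) - 1 = (1 + v) ^ (k + 1) - 1 := by ring
    rw [h2]

theorem thick_Z (q v : ℝ) (V : Finset α) (k : ℕ) (G : List (α × α)) (S : List (α × α)) :
    Z q V S (SP.wtd v (thick k G)) = Z q V S (SP.wtd ((1 + v) ^ k - 1) G) := by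
  induction G generalizing S with
  | nil => rfl
  | cons e G ih =>
    have h1 : SP.wtd v (thick k (e :: G)) =
        List.replicate k (e, v) ++ SP.wtd v (thick k G) := by
      rw [thick_cons]
      simp [SP.wtd]
    have h2 : SP.wtd ((1 + v) ^ k - 1) (e :: G) =
        (e, (1 + v) ^ k - 1) :: SP.wtd ((1 + v) ^ k - 1) G := rfl
    rw [h1, h2, thick_Z_replicate, Z_cons, Z_cons, ih, ih]

theorem thick_Zt [DecidableEq α] {k : ℕ} (hk : 1 ≤ k) (G : List (α × α)) (q t : ℝ) :
    Zt q t (thick k G) = Zt q (1 - (1 - t) ^ k) G := by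
  unfold Zt
  rw [thick_rank hk, thick_comps hk, thick_verts hk, thick_Z]
  have h : (1 + -t) ^ k - 1 = -(1 - (1 - t) ^ k) := by ring
  rw [h]

end graph

/-! ### polynomial time -/

/-- `k` copies of an element -/
theorem thick_PT_replicate {δ α : Type} [N487b59b3 δ] [N487b59b3 α] {a : δ → α} {n : δ → U}
    (ha : PT a) (hn : PT n) : PT (fun d => List.replicate (n d).val (a d)) := by
  have h := PT.map (δ := δ) (ε := α) (α := Unit) (β := α) (g := fun p => p.1) (e := a)
    (l := fun d => List.replicate (n d).val ()) PT.fst ha hn.toUnits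
  refine h.congr fun d => ?_
  rw [List.map_replicate]

theorem thick_enc_replicate {α : Type} [N487b59b3 α] (k : ℕ) (a : α) :
    (enc (List.replicate k a)).length = k * (2 * (enc a).length + 1) := by
  induction k with
  | zero => simp [enc_nil]
  | succ k ih =>
    rw [List.replicate_succ, length_enc_cons, ih]
    ring

theorem thick_foldl {α : Type} (k : ℕ) (G : List α) :
    G.reverse.foldl (fun s a => List.replicate k a ++ s) [] =
      G.flatMap fun e => List.replicate k e := by
  induction G with
  | nil => rfl
  | cons e G ih =>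
    rw [List.reverse_cons, List.foldl_append, ih]
    simp

theorem thick_PT : PT (fun z : MGraph × U => thick z.2.val z.1) := by
  have h := PT.fold (δ := MGraph × U) (ε := U) (σ := MGraph) (α := Vx × Vx)
    (g := fun p => List.replicate p.1.val p.2.2 ++ p.2.1) (e := fun z => z.2) (s := fun _ => [])
    (l := fun z => z.1.reverse)
    ((thick_PT_replicate PT.snd.comp_snd PT.fst).append PT.snd.comp_fst)
    (Polynomial.X * (2 * Polynomial.X + 1)) (by
      intro e s a
      rw [enc_append, List.length_append, thick_enc_replicate, length_enc_U]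
      simp only [Polynomial.eval_add, Polynomial.eval_mul, Polynomial.eval_X,
        Polynomial.eval_ofNat, Polynomial.eval_one]
      have h1 : e.val * (2 * (enc a).length + 1) ≤
          (e.val + (enc a).length) * (2 * (e.val + (enc a).length) + 1) :=
        Nat.mul_le_mul (by omega) (by omega)
      omega) PT.snd (PT.const []) (PT.reverse.comp PT.fst)
  refine h.congr fun z => ?_
  exact thick_foldl z.2.val z.1

theorem thick_spec : S_Thick :=
  ⟨thick_PT, fun G _ hk => ⟨thick_rank hk G, fun q t => thick_Zt hk G q t⟩⟩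

end Pool.Agent.TutteEq
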