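import Pool.Agent.TutteEq.Stmts

/-!
# Module statements, second part: the hyperbolas `1 < q < 2`

The cone over `G` relates `T(·; 1 - q, 0)` to `T(·; -q, 0)`, a point with `(x-1)(y-1) = 1 + q`.
-/

set_option autoImplicit false

namespace Pool.Agent.TutteEq

open Pool.Agent.PT Pool.Agent.TutteHard Real

/-- all vertices of `G` are joined to the new vertex `[true]` (with multiplicities); if `b`, a
pendant edge is added -/
def coneP (b : Bool) (G : MGraph) : MGraph :=
  ren nmF G ++ (G.flatMap fun e => [([true], nmF e.1), ([true], nmF e.2)]) ++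
    (if b then [([true], [true, true])] else [])

/-- (module Card) the number of vertices in polynomial time -/
def S_Card : Prop := PT (fun G : MGraph => U.mk (verts G).card)

/-- (module ConePT) -/
def S_ConePT : Prop := PT (fun z : Bool × MGraph => coneP z.1 z.2)

/-- (module Cone) -/
def S_Cone : Prop := ∀ (b : Bool) (G : MGraph), G ≠ [] →
  rank (coneP b G) Finset.univ = (verts G).card + b.toNat ∧
  ∀ Q : ℝ, Q ≠ 0 → Q ≠ 1 →
    Zt Q 1 (coneP b G) = (1 - Q) ^ (comps (verts G) G + b.toNat) * Zt (Q - 1) 1 G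

/-- (module Crude) -/
def S_Crude : Prop := ∀ (G : MGraph) (Q t : ℝ), 1 ≤ Q → Q ≤ 2 → |1 - t| ≤ 1 →
  |Zt Q t G - Zt Q 1 G| ≤ 8 ^ G.length * |1 - t|

/-- (module Lower) -/
def S_Lower : Prop := ∀ (G : MGraph) (q : ℝ), 0 < q → q < 1 → ¬ HasLoop G →
  (1 - q) ^ G.length ≤ Zt q 1 G

/-- (module RedD; from `S_Arith`, `S_Arith2`, `S_Rank`, `S_Card`, `S_ConePT`, `S_Cone`, `S_Crude`,
`S_Lower`, `S_TutteZt`, `S_Zero`, `S_Thick`) from the chromatic point of `H_q` to any point of
`H_(1+q)` with `|y| < 1` -/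
def S_RedD : Prop := ∀ q y : ℚ, 0 < q → q < 1 → |y| < 1 →
  APRed (fun G => tutte G (1 - q : ℝ) 0)
    (fun G => tutte G (1 + (1 + q) / (y - 1) : ℝ) (y : ℝ))

end Pool.Agent.TutteEq
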