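import Pool.Agent.TutteEq.Final
import Pool.Agent.TutteEq.Stmts2

/-!
# The final assembly, with the hyperbolas `1 < q < 2`
-/

set_option autoImplicit false

namespace Pool.Agent.TutteEq

open Pool.Agent.PT Pool.Agent.TutteHard

/-- the approximate equivalence along a hyperbola, and the reduction from `H_q` to `H_(1+q)` -/
def S_Final2 : Prop := ∀ x y x' y' : ℚ, |y| < 1 → 0 ≤ x' → x' < 1 → 0 ≤ y' → y' < 1 →
  (x' - 1) * (y' - 1) ≠ 1 → ((x - 1) * (y - 1) = (x' - 1) * (y' - 1) ∨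
    (x - 1) * (y - 1) = 1 + (x' - 1) * (y' - 1)) →
    APRed (fun G => tutte G (x' : ℝ) (y' : ℝ)) (fun G => tutte G (x : ℝ) (y : ℝ)) ∧
    (HasFPRAS (x : ℝ) (y : ℝ) → HasFPRAS (x' : ℝ) (y' : ℝ))

/-- from the chromatic point to the other points of the quadrant -/
theorem final2_target (htr : S_Trans) (hB : S_RedB) (hC : S_RedC) (q x' y' : ℚ) (hq0 : 0 < q)
    (hq1 : q < 1) (hx' : 0 ≤ x') (hx1 : x' < 1) (hy' : 0 ≤ y')
    (hq : q = (x' - 1) * (y' - 1)) (F : MGraph → ℝ)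
    (hF : APRed (fun G => tutte G (1 - q : ℝ) 0) F) :
    APRed (fun G => tutte G (x' : ℝ) (y' : ℝ)) F := by
  have hx0' : (x' : ℝ) - 1 ≠ 0 := by
    have : (x' : ℝ) < 1 := by exact_mod_cast hx1
    intro h; linarith
  have hqR' : (q : ℝ) = ((x' : ℝ) - 1) * ((y' : ℝ) - 1) := by
    rw [hq]; push_cast; ring
  rcases eq_or_lt_of_le hx' with h | h
  · have e2 : (y' : ℝ) = 1 - (q : ℝ) := by
      rw [hqR', ← h]; push_cast; ring
    have e3 : (x' : ℝ) = 0 := by rw [← h]; simp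
    rw [e2, e3]
    exact htr _ _ _ (hC q hq0 hq1) hF
  · rcases eq_or_lt_of_le hy' with h' | h'
    · have e2 : (x' : ℝ) = 1 - (q : ℝ) := by
        rw [hqR', ← h']; push_cast; ring
      have e3 : (y' : ℝ) = 0 := by rw [← h']; simp
      rw [e2, e3]
      exact hF
    · have h2 : x' < 1 - q := by
        rw [hq]
        nlinarith [mul_pos h' (sub_pos.2 hx1)]
      have hBx := hB q x' hq0 hq1 h h2
      have e4 : (1 + (q : ℝ) / ((x' : ℝ) - 1)) = (y' : ℝ) := by
        rw [hqR']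
        field_simp
        ring
      rw [e4] at hBx
      exact htr _ _ _ hBx hF

theorem final2 (ht : S_TutteZt) (ho : S_Pos) (htr : S_Trans) (hf : S_Fpras) (hA : S_RedA)
    (hB : S_RedB) (hC : S_RedC) (hD : S_RedD) : S_Final2 := by
  intro x y x' y' hy hx' hx1 hy' hy1 hne hxy
  obtain ⟨hyl, hyr⟩ := abs_lt.1 hy
  set q : ℚ := (x' - 1) * (y' - 1) with hq
  have hq0 : 0 < q := by nlinarith [mul_pos (sub_pos.2 hx1) (sub_pos.2 hy1)]
  have hq1 : q < 1 := by
    refine lt_of_le_of_ne ?_ hne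
    nlinarith [mul_nonneg hx' hy', mul_nonneg hx' (sub_nonneg.2 hy1.le),
      mul_nonneg hy' (sub_nonneg.2 hx1.le)]
  have hy0 : (y : ℝ) - 1 ≠ 0 := by
    have : (y : ℝ) < 1 := by exact_mod_cast hyr
    intro h; linarith
  have hqR' : (q : ℝ) = ((x' : ℝ) - 1) * ((y' : ℝ) - 1) := by
    rw [hq]; push_cast; ring
  have key : APRed (fun G => tutte G (x' : ℝ) (y' : ℝ)) (fun G => tutte G (x : ℝ) (y : ℝ)) := by
    refine final2_target htr hB hC q x' y' hq0 hq1 hx' hx1 hy' hq _ ?_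
    rcases hxy with hxy | hxy
    · have hqR : (q : ℝ) = ((x : ℝ) - 1) * ((y : ℝ) - 1) := by
        rw [← hxy]; push_cast; ring
      have e1 : (1 + (q : ℝ) / ((y : ℝ) - 1)) = (x : ℝ) := by
        rw [hqR]
        field_simp
        ring
      have hAy := hA q y hq0 hq1 hy
      rw [e1] at hAy
      exact hAy
    · have hqR : (1 + (q : ℝ)) = ((x : ℝ) - 1) * ((y : ℝ) - 1) := by
        have : ((1 + q : ℚ) : ℝ) = (((x - 1) * (y - 1) : ℚ) : ℝ) := by rw [hxy]
        push_cast at this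
        exact this
      have e1 : (1 + (1 + (q : ℝ)) / ((y : ℝ) - 1)) = (x : ℝ) := by
        rw [hqR]
        field_simp
        ring
      have hDy := hD q y hq0 hq1 hy
      rw [e1] at hDy
      exact hDy
  refine ⟨key, hf _ _ _ _ (fun G => ?_) key⟩
  refine final_nonneg ht ho (by exact_mod_cast hx') (by exact_mod_cast hx1)
    (by exact_mod_cast hy') (by exact_mod_cast hy1) ?_ G
  rw [← hqR']
  exact_mod_cast hq1

end Pool.Agent.TutteEq
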