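import Pool.Agent.TutteEq.Stmts

/-!
# Reduction from the chromatic point to a point with `|y| < 1`

Every edge of `G` is replaced by `2 c M` parallel edges, `M = (m + 1) (n + 2)`; the effective `y`
is `y ^ (2 c M)`, which is at most `(1 - q) / (2 M)`.
-/

set_option autoImplicit false

namespace Pool.Agent.TutteEq

open Pool.Agent.PT Pool.Agent.TutteHard Real

/-- the number of parallel edges -/
def redA_k (c : ℕ) (z : MGraph × List Bool) : ℕ := (2 * c) * ((z.1.length + 1) * (z.2.length + 2))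

theorem redA_pt_k (c : ℕ) : PT (fun z : MGraph × List Bool => U.mk (redA_k c z)) := by
  have h1 : PT (fun z : MGraph × List Bool => U.mk (z.1.length + 1)) := (PT.length PT.fst).usucc
  have h2 : PT (fun z : MGraph × List Bool => U.mk (z.2.length + 2)) :=
    (PT.length PT.snd).usucc.usucc
  exact (PT.const (U.mk (2 * c))).umul (h1.umul h2)

/-- the choice of the constant -/
theorem redA_exists_c {a b : ℝ} (ha0 : 0 ≤ a) (ha : a < 1) (hb : 0 < b) (hb1 : b ≤ 1) :
    ∃ c : ℕ, 1 ≤ c ∧ ∀ M : ℕ, 1 ≤ M → a ^ (c * M) ≤ b / (2 * M) := by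
  obtain ⟨n, hn⟩ := exists_pow_lt_of_lt_one (show (0 : ℝ) < b / 4 by positivity) ha
  refine ⟨n + 1, by omega, fun M hM => ?_⟩
  have h1 : a ^ (n + 1) ≤ b / 4 := by
    rw [pow_succ]
    nlinarith [pow_nonneg ha0 n]
  have h2 : a ^ ((n + 1) * M) ≤ (b / 4) ^ M := by
    rw [pow_mul]
    exact pow_le_pow_left₀ (pow_nonneg ha0 _) h1 M
  have h3 : b ^ M ≤ b := by
    calc b ^ M ≤ b ^ 1 := pow_le_pow_of_le_one hb.le hb1 hM
      _ = b := pow_one b
  have h4 : (2 * M : ℝ) ≤ 4 ^ M := by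
    have h5 : 2 * M ≤ 4 ^ M := by
      clear h2 h3
      induction M, hM using Nat.le_induction with
      | base => norm_num
      | succ M hM ih => rw [pow_succ]; omega
    exact_mod_cast h5
  have hM' : (0 : ℝ) < M := by exact_mod_cast hM
  calc a ^ ((n + 1) * M) ≤ (b / 4) ^ M := h2
    _ = b ^ M / 4 ^ M := div_pow _ _ _
    _ ≤ b / 4 ^ M := div_le_div_of_nonneg_right h3 (by positivity)
    _ ≤ b / (2 * M) := div_le_div_of_nonneg_left hb.le (by positivity) h4

/-- `1 - exp (-δ) ≥ δ / 2` -/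
theorem redA_exp {δ : ℝ} (h0 : 0 ≤ δ) (h1 : δ ≤ 1) : exp (-δ) ≤ 1 - δ / 2 := by
  have h2 : exp (-δ) * (1 + δ) ≤ 1 := by
    have h3 : 1 + δ ≤ exp δ := by linarith [add_one_le_exp δ]
    calc exp (-δ) * (1 + δ) ≤ exp (-δ) * exp δ :=
          mul_le_mul_of_nonneg_left h3 (exp_pos _).le
      _ = 1 := by rw [← exp_add]; simp
  have h4 : exp (-δ) ≤ 1 / (1 + δ) := by
    rw [le_div_iff₀ (by linarith)]
    exact h2
  have h5 : 1 / (1 + δ) ≤ 1 - δ / 2 := by
    rw [div_le_iff₀ (by linarith)]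
    nlinarith
  linarith

theorem redA (h : S_Arith) (h2 : S_Arith2) (hr : S_Rank) (ht : S_TutteZt) (hp : S_Pert)
    (hz : S_Zero) (ho : S_Pos) (hk : S_Thick) : S_RedA := by
  classical
  intro q y hq0 hq1 hy
  have hq0' : (0 : ℝ) < (q : ℝ) := by exact_mod_cast hq0
  have hq1' : (q : ℝ) < 1 := by exact_mod_cast hq1
  have hy2 : ((y : ℝ)) ^ 2 < 1 := by
    have : |(y : ℝ)| < 1 := by exact_mod_cast hy
    rw [sq_lt_one_iff_abs_lt_one]
    exact this
  have hy1 : (y : ℝ) < 1 := by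
    have := (abs_lt.1 hy).2
    exact_mod_cast this
  have htq : (0 : ℚ) < 1 - y := by
    have := (abs_lt.1 hy).2
    linarith
  obtain ⟨c, hc1, hc⟩ := redA_exists_c (a := (y : ℝ) ^ 2) (b := 1 - (q : ℝ)) (by positivity) hy2
    (by linarith) (by linarith)
  set P : ℕ := (1 - y).num.toNat with hP
  set Q : ℕ := (1 - y).den with hQ
  have hQ0 : 0 < Q := (1 - y).den_pos
  have hPQ : (P : ℝ) / (Q : ℝ) = 1 - (y : ℝ) := by
    have e1 : ((P : ℤ) : ℚ) = ((1 - y).num : ℚ) := by
      rw [hP, Int.toNat_of_nonneg (Rat.num_nonneg.2 htq.le)]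
    have e2 : (P : ℚ) / (Q : ℚ) = 1 - y := by
      have e3 : (P : ℚ) = ((1 - y).num : ℚ) := by
        rw [← e1]
        norm_cast
      rw [e3, hQ]
      exact Rat.num_div_den _
    have e4 : (((P : ℚ) / (Q : ℚ) : ℚ) : ℝ) = ((1 - y : ℚ) : ℝ) := by rw [e2]
    push_cast at e4
    exact e4
  have hrk := hr.1
  have hlp := hr.2.1
  have hf : PT (fun z : MGraph × List Bool => thick (redA_k c z) z.1) :=
    hk.1.comp (PT.fst.pair (redA_pt_k c))
  have hN : PT (fun z : MGraph × List Bool =>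
      if decide (HasLoop z.1) = true then 0 else P ^ rank z.1 Finset.univ) :=
    PT.ite (hlp.comp PT.fst) (PT.const 0) (h2.2.1 _ (fun _ => P) _ (PT.const P) (hrk.comp PT.fst))
  have hD : PT (fun z : MGraph × List Bool => Q ^ rank z.1 Finset.univ) :=
    h2.2.1 _ (fun _ => Q) _ (PT.const Q) (hrk.comp PT.fst)
  refine ⟨_, _, _, hf, hN, hD, fun G e => ⟨pow_pos hQ0 _, ?_⟩⟩
  have hF : tutte G (1 - q : ℝ) 0 = Zt q 1 G := by
    have := ht G q 1 hq0'.ne' one_ne_zero
    rw [one_pow, one_mul, div_one, sub_self] at this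
    exact this
  simp only
  rw [hF]
  by_cases hL : HasLoop G
  · have h0 := (hz G q hq0'.ne').1 hL
    rw [h0]
    simp [hL]
  · have hk1 : 1 ≤ redA_k c (G, e) := by
      unfold redA_k
      have : 0 < (2 * c) * (((G, e).1.length + 1) * ((G, e).2.length + 2)) := by positivity
      exact this
    obtain ⟨hrk', hthick⟩ := hk.2 G (redA_k c (G, e)) hk1
    have hT := ht (thick (redA_k c (G, e)) G) q (1 - (y : ℝ)) hq0'.ne' (by linarith)
    rw [hrk', hthick] at hT
    have hx : (1 : ℝ) + q / (y - 1) = 1 - q / (1 - y) := by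
      rw [show (y : ℝ) - 1 = -(1 - y) by ring, div_neg]
      ring
    have hval : ((if decide (HasLoop G) = true then 0 else P ^ rank G Finset.univ : ℕ) : ℝ) /
        ((Q ^ rank G Finset.univ : ℕ) : ℝ) *
        tutte (thick (redA_k c (G, e)) G) (1 + q / (y - 1) : ℝ) (y : ℝ) =
        Zt q (1 - (1 - (1 - (y : ℝ))) ^ redA_k c (G, e)) G := by
      rw [← hT, hx]
      simp only [hL, decide_false, Bool.false_eq_true, if_false]
      push_cast
      rw [← div_pow, hPQ, sub_sub_cancel]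
    rw [hval]
    set M : ℕ := (G.length + 1) * (e.length + 2) with hM
    have hM1 : 1 ≤ M := by
      have : 0 < (G.length + 1) * (e.length + 2) := by positivity
      exact this
    have hMr : (1 : ℝ) ≤ M := by exact_mod_cast hM1
    have hpow : (1 - (1 - (y : ℝ))) ^ redA_k c (G, e) = ((y : ℝ) ^ 2) ^ (c * M) := by
      rw [sub_sub_cancel, ← pow_mul]
      congr 1
      unfold redA_k
      rw [hM]
      ring
    rw [hpow]
    set s : ℝ := ((y : ℝ) ^ 2) ^ (c * M) with hs
    have hs0 : 0 ≤ s := by positivity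
    have hsM := hc M hM1
    rw [← hs] at hsM
    set δ : ℝ := 1 / (M : ℝ) with hδ
    have hδ0 : 0 ≤ δ := by positivity
    have hδ1 : δ ≤ 1 := by
      rw [hδ, div_le_one (by linarith)]
      exact hMr
    have he := redA_exp hδ0 hδ1
    have he1 : (1 : ℝ) ≤ exp δ := one_le_exp hδ0
    have hsd : s ≤ (1 - q) * (δ / 2) := by
      refine hsM.trans (le_of_eq ?_)
      rw [hδ]
      field_simp
    have hsδ : s ≤ δ / 2 := by nlinarith
    have hmain := hp G q (1 - s) 1 δ hq0' hq1' hδ0 (by nlinarith) (by linarith) hq1'.le le_rfl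
      (by rw [mul_one]; linarith) (by linarith)
      (fun h' => absurd h' hL)
      (fun _ => ⟨by nlinarith [mul_le_mul_of_nonneg_right he (show (0 : ℝ) ≤ 1 - q by linarith)],
        by nlinarith⟩)
    have hZ0 : 0 ≤ Zt q 1 G := ho G q 1 hq0' hq1' hq1'.le le_rfl
    have hlen : (G.length : ℝ) * δ ≤ 1 / (e.length + 2) := by
      rw [hδ, hM]
      push_cast
      rw [mul_one_div, div_le_div_iff₀ (by positivity) (by positivity)]
      nlinarith [show (0 : ℝ) ≤ (e.length : ℝ) by positivity,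
        show (0 : ℝ) ≤ (G.length : ℝ) by positivity]
    constructor
    · refine le_trans ?_ hmain.1
      refine mul_le_mul_of_nonneg_right (exp_le_exp.2 ?_) hZ0
      linarith
    · refine hmain.2.trans ?_
      exact mul_le_mul_of_nonneg_right (exp_le_exp.2 hlen) hZ0

end Pool.Agent.TutteEq
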