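import Pool.Agent.TutteEq.Stmts

/-!
# The flow point reduces to the chromatic point

Every edge is replaced by a path of `c M + 1` edges, `M = (m + 1) (n + 2)`.
-/

set_option autoImplicit false

namespace Pool.Agent.TutteEq

open Pool.Agent.PT Pool.Agent.TutteHard Real

theorem redC_small (q : ℝ) (c M : ℕ) (h0 : 0 < q) (h1 : q < 1) (hc : 8 ≤ (c : ℝ) * q)
    (hM : 1 ≤ M) : (1 - q) ^ (c * M) ≤ 1 / (8 * (M : ℝ)) := by
  have hM' : (1 : ℝ) ≤ M := by exact_mod_cast hM
  have h2 : 1 - q ≤ (1 + q)⁻¹ := by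
    rw [le_inv_comm₀ (by linarith) (by linarith), le_inv_comm₀ (by linarith) (by linarith)]
    rw [← one_div, le_div_iff₀ (by linarith)]
    nlinarith
  have h3 : (1 - q) ^ (c * M) ≤ ((1 + q)⁻¹) ^ (c * M) :=
    pow_le_pow_left₀ (by linarith) h2 _
  have h4 : 1 + ((c * M : ℕ) : ℝ) * q ≤ (1 + q) ^ (c * M) :=
    one_add_mul_le_pow (by linarith) _
  have h5 : 8 * (M : ℝ) ≤ (1 + q) ^ (c * M) := by
    refine le_trans ?_ h4
    push_cast
    nlinarith
  rw [inv_pow] at h3
  refine le_trans h3 ?_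
  rw [one_div]
  exact inv_anti₀ (by positivity) h5

theorem redC_exp (δ : ℝ) (h : 0 ≤ δ) : exp (-δ) ≤ 1 / (1 + δ) := by
  rw [exp_neg, ← one_div]
  have := add_one_le_exp δ
  exact one_div_le_one_div_of_le (by linarith) (by linarith)

/-- the estimates for `t = q / (1 - x)` -/
theorem redC_est (q x δ : ℝ) (h0 : 0 < q) (h1 : q < 1) (hδ : 0 < δ) (hδ1 : δ ≤ 1 / 2)
    (hx : 0 < x) (hx1 : x ≤ (1 - q) * δ / 4) :
    q ≤ q / (1 - x) ∧ q / (1 - x) ≤ 1 ∧ exp (-δ) * q ≤ q / (1 - x) ∧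
      q / (1 - x) ≤ exp δ * q ∧ exp (-δ) * (1 - q) ≤ 1 - q / (1 - x) ∧
      1 - q / (1 - x) ≤ exp δ * (1 - q) ∧ exp (-δ) ≤ 1 - x := by
  have hx2 : x ≤ 1 / 8 := by nlinarith
  have hx0 : 0 < 1 - x := by linarith
  have he := redC_exp δ hδ.le
  have he' := add_one_le_exp δ
  have hee : exp (-δ) ≤ 1 := by
    rw [exp_le_one_iff]; linarith
  have hxδ : x ≤ δ / 4 := by nlinarith
  have h1δ : 1 / (1 + δ) ≤ 1 - x := by
    rw [div_le_iff₀ (by linarith)]
    nlinarith
  have a1 : q ≤ q / (1 - x) := by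
    rw [le_div_iff₀ hx0]
    nlinarith
  have a2 : 1 - q / (1 - x) = (1 - q) - q * x / (1 - x) := by
    field_simp
    ring
  have a3 : q * x / (1 - x) ≤ (1 - q) * δ / (1 + δ) := by
    rw [div_le_div_iff₀ hx0 (by linarith)]
    have h3 : q * x ≤ (1 - q) * δ / 4 := by nlinarith
    have h4 : 0 ≤ (1 - q) * δ := by nlinarith
    nlinarith
  have a4 : (1 - q) / (1 + δ) = (1 - q) - (1 - q) * δ / (1 + δ) := by
    field_simp
    ring
  have a5 : (1 - q) / (1 + δ) ≤ 1 - q / (1 - x) := by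
    rw [a2, a4]
    linarith
  have a6 : 0 < (1 - q) / (1 + δ) := div_pos (by linarith) (by linarith)
  refine ⟨a1, by linarith, ?_, ?_, ?_, ?_, le_trans he h1δ⟩
  · nlinarith
  · rw [div_le_iff₀ hx0]
    have h3 : 1 ≤ (1 - x) * (1 + δ) := by
      rw [div_le_iff₀ (by linarith)] at h1δ
      exact h1δ
    have h4 : 1 ≤ exp δ * (1 - x) := by nlinarith
    nlinarith
  · refine le_trans ?_ a5
    rw [div_eq_mul_one_div, mul_comm]
    exact mul_le_mul_of_nonneg_left he (by linarith)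
  · have : 1 - q / (1 - x) ≤ 1 - q := by linarith
    nlinarith

open scoped Classical in
theorem redC (h : S_Arith) (h2 : S_Arith2) (hr : S_Rank) (ht : S_TutteZt) (ho : S_Pos)
    (hp : S_Pert) (hz : S_Zero) (hw : S_NetW) (hc : S_Chain) (hd : S_Red) (hq : S_PTRed) :
    S_RedC := by
  intro q hq0 hq1
  have hq0' : (0 : ℝ) < q := by exact_mod_cast hq0
  have hq1' : (q : ℝ) < 1 := by exact_mod_cast hq1
  obtain ⟨c, hc8⟩ : ∃ c : ℕ, 8 ≤ (c : ℝ) * q := by
    obtain ⟨c, hc⟩ := exists_nat_ge (8 / (q : ℝ))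
    exact ⟨c, by rwa [div_le_iff₀ hq0'] at hc⟩
  obtain ⟨a, b, ha, hb, hab⟩ : ∃ a b : ℕ, 0 < a ∧ 0 < b ∧ (q : ℝ) = a / b := by
    have hn : 0 < q.num := Rat.num_pos.2 hq0
    refine ⟨q.num.toNat, q.den, by omega, q.den_pos, ?_⟩
    have h3 : ((q.num.toNat : ℤ) : ℝ) = (q.num : ℝ) := by
      rw [Int.toNat_of_nonneg hn.le]
    rw [Rat.cast_def, ← h3]
    push_cast
    rfl
  have ha' : (0 : ℝ) < a := by exact_mod_cast ha
  have hb' : (0 : ℝ) < b := by exact_mod_cast hb
  -- polynomial-time parameters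
  have pG : PT (fun z : MGraph × List Bool => z.1) := PT.fst
  have pm : PT (fun z : MGraph × List Bool => U.mk z.1.length) := PT.fst.length
  have pn : PT (fun z : MGraph × List Bool => U.mk z.2.length) := PT.snd.length
  have pr : PT (fun z : MGraph × List Bool => U.mk (rank z.1 Finset.univ)) :=
    hr.1.comp PT.fst
  have pB : PT (fun z : MGraph × List Bool => decide (HasBridge z.1)) := hr.2.2.comp PT.fst
  have ppow : ∀ (k : ℕ) (e : MGraph × List Bool → U), PT e →
      PT (fun z : MGraph × List Bool => k ^ (e z).val) := fun k e he =>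
    h2.2.1 _ (fun _ => k) e (PT.const k) he
  have pmul : ∀ f g : MGraph × List Bool → ℕ, PT f → PT g → PT (fun z => f z * g z) :=
    fun f g hf hg => (h _ f g hf hg).2.2.1
  refine ⟨fun z => redN (NT.edge.chain (c * ((z.1.length + 1) * (z.2.length + 2)))) z.1,
    fun z => if decide (HasBridge z.1) then 0 else
      a ^ z.1.length * b ^ rank z.1 Finset.univ,
    fun z => b ^ z.1.length * a ^ rank z.1 Finset.univ, ?_, ?_, ?_, ?_⟩
  · have p1 : PT (fun z : MGraph × List Bool =>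
        U.mk (c * ((z.1.length + 1) * (z.2.length + 2)))) :=
      ((PT.const (U.mk c)).umul (pm.usucc.umul pn.usucc.usucc)).congr fun z => rfl
    exact hq.2.comp (p1.pair pG)
  · exact PT.ite pB (PT.const 0) (pmul _ _ (ppow a _ pm) (ppow b _ pr))
  · exact pmul _ _ (ppow b _ pm) (ppow a _ pr)
  intro G e
  have hD : 0 < b ^ G.length * a ^ rank G Finset.univ := by positivity
  refine ⟨hD, ?_⟩
  have hqr : (0 : ℝ) < (q : ℝ) ^ rank G Finset.univ := by positivity
  -- the flow point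
  have e1 : (q : ℝ) ^ rank G Finset.univ * tutte G 0 (1 - q : ℝ) = Zt q q G := by
    have := ht G q q hq0'.ne' hq0'.ne'
    rwa [div_self hq0'.ne', sub_self] at this
  simp only
  by_cases hB : HasBridge G
  · have h0 : tutte G 0 (1 - q : ℝ) = 0 := by
      have h3 := (hz G q hq0'.ne').2 hB
      rw [h3] at e1
      exact (mul_eq_zero.1 e1).resolve_left hqr.ne'
    rw [h0]
    simp [hB]
  have hN : ((if decide (HasBridge G) = true then 0 else
      a ^ G.length * b ^ rank G Finset.univ : ℕ) : ℝ) = (a : ℝ) ^ G.length *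
        (b : ℝ) ^ rank G Finset.univ := by
    simp [hB]
  rw [hN]
  set m := G.length with hm
  set r := rank G Finset.univ with hrr
  set n := e.length with hn
  set M := (m + 1) * (n + 2) with hM
  have hM1 : 2 ≤ M := by
    rw [hM]; nlinarith
  have hM' : (2 : ℝ) ≤ M := by exact_mod_cast hM1
  have hok : NT.edge.ok := trivial
  obtain ⟨c1, c2, c3, c4⟩ := hc (q : ℝ) hq0' hq1' NT.edge hok (c * M)
  obtain ⟨d1, d2⟩ := hd (q : ℝ) hq0' hq1' (NT.edge.chain (c * M)) c1 G
  have e2 : tutte (redN (NT.edge.chain (c * M)) G) (1 - q : ℝ) 0 =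
      Zt q 1 (redN (NT.edge.chain (c * M)) G) := by
    have := ht (redN (NT.edge.chain (c * M)) G) q 1 hq0'.ne' one_ne_zero
    rwa [one_pow, one_mul, div_one, sub_self] at this
  set A := NT.edge.chain (c * M) with hA
  have hw1 : NT.edge.wt (q : ℝ) = -1 := rfl
  have hf1 : NT.edge.fac (q : ℝ) = 1 := rfl
  have hc1 : NT.edge.cnt = 0 := rfl
  rw [hw1] at c3 c4
  rw [hf1, hc1] at c4
  set x := (1 - (q : ℝ)) ^ (c * M) * (1 - q) with hx
  have hx3 : (1 - (q : ℝ)) ^ (c * M) * (1 + q / -1) = x := by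
    rw [hx]; congr 1; ring
  rw [hx3] at c3 c4
  have hx0 : 0 < x := by
    have : 0 < 1 - (q : ℝ) := by linarith
    positivity
  have hsm := redC_small (q : ℝ) c M hq0' hq1' hc8 (by omega)
  have hest := redC_est (q : ℝ) x (1 / (2 * M)) hq0' hq1' (by positivity) (by
      rw [div_le_div_iff₀ (by linarith) (by norm_num)]; linarith) hx0 (by
      rw [hx]
      have h5 : (1 - (q : ℝ)) * (1 / (2 * (M : ℝ))) / 4 = 1 / (8 * (M : ℝ)) * (1 - q) := by
        field_simp
        ring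
      rw [h5]
      exact mul_le_mul_of_nonneg_right hsm (by linarith))
  obtain ⟨f1, f2, f3, f4, f5, f6, f7⟩ := hest
  have hx1 : x < 1 := by
    have := exp_pos (-(1 / (2 * (M : ℝ))))
    linarith
  have hwt : A.wt (q : ℝ) ≠ 0 := by
    have := (hw (q : ℝ) hq0' hq1' A c1).2.1
    intro h0
    rw [h0] at this
    linarith
  have hwt2 : -(A.wt (q : ℝ)) = q / (1 - x) := by
    have h5 : 1 - x = -q / A.wt (q : ℝ) := by
      rw [← c3]; ring
    rw [h5]
    field_simp
  have hfac : (-1) ^ A.cnt * A.fac (q : ℝ) = (1 - x) / q := by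
    rw [c4]
    rw [pow_zero, one_mul, one_mul]
    congr 1
    ring
  rw [hwt2, hfac] at d2
  set t := (q : ℝ) / (1 - x) with htt
  obtain ⟨g1, g2⟩ := hp G q t q (1 / (2 * M)) hq0' hq1' (by positivity) f1 f2 le_rfl hq1'.le
    f3 f4 (fun _ => ⟨f5, f6⟩) (fun hb' => absurd hb' hB)
  rw [← hm] at g1 g2
  have hF : 0 ≤ Zt q q G := ho G q q hq0' hq1' le_rfl hq1'.le
  have hT : tutte G 0 (1 - q : ℝ) = Zt q q G / q ^ r := by
    rw [← e1]
    field_simp
  have key : ((a : ℝ) ^ m * (b : ℝ) ^ r) / ((b ^ m * a ^ r : ℕ) : ℝ) *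
      tutte (redN A G) (1 - q : ℝ) 0 = (1 - x) ^ m * (Zt q t G / q ^ r) := by
    rw [e2, d2, ← hm, div_pow, hab]
    push_cast
    rw [div_pow, div_pow]
    field_simp
  rw [key, hT]
  have hmM : (m : ℝ) * (1 / (2 * M)) + m * (1 / (2 * M)) ≤ 1 / (n + 2) := by
    have h5 : (m : ℝ) * (1 / (2 * M)) + m * (1 / (2 * M)) = m / M := by
      field_simp
      ring
    rw [h5, hM]
    push_cast
    rw [div_le_div_iff₀ (by positivity) (by positivity)]
    nlinarith [Nat.cast_nonneg (α := ℝ) m, Nat.cast_nonneg (α := ℝ) n]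
  have hm0 : 0 ≤ (m : ℝ) * (1 / (2 * M)) := by positivity
  have hF' : 0 ≤ Zt q q G / q ^ r := by positivity
  have g3 : exp (-(m * (1 / (2 * M)))) * (Zt q q G / q ^ r) ≤ Zt q t G / q ^ r := by
    rw [← mul_div_assoc]
    exact div_le_div_of_nonneg_right g1 hqr.le
  have g4 : Zt q t G / q ^ r ≤ exp (m * (1 / (2 * M))) * (Zt q q G / q ^ r) := by
    rw [← mul_div_assoc]
    exact div_le_div_of_nonneg_right g2 hqr.le
  have g5 : exp (-(m * (1 / (2 * M)))) ≤ (1 - x) ^ m := by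
    have h5 : exp (-(m * (1 / (2 * (M : ℝ))))) = exp (-(1 / (2 * (M : ℝ)))) ^ m := by
      rw [← exp_nat_mul]
      congr 1
      ring
    rw [h5]
    exact pow_le_pow_left₀ (exp_pos _).le f7 m
  have g6 : (1 - x) ^ m ≤ 1 := pow_le_one₀ (by linarith) (by linarith)
  generalize Zt q q G / q ^ r = F at *
  generalize Zt q t G / q ^ r = F' at *
  have hF2 : 0 ≤ F' := le_trans (by positivity) g3
  constructor
  · calc exp (-(1 / ((n : ℝ) + 2))) * F
        ≤ exp (-(m * (1 / (2 * M))) + -(m * (1 / (2 * M)))) * F := by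
          refine mul_le_mul_of_nonneg_right (exp_le_exp.2 ?_) hF'
          linarith
      _ = exp (-(m * (1 / (2 * M)))) * (exp (-(m * (1 / (2 * M)))) * F) := by
          rw [exp_add, mul_assoc]
      _ ≤ (1 - x) ^ m * F' := mul_le_mul g5 g3 (by positivity) (by
          have : 0 < 1 - x := by linarith
          positivity)
  · calc (1 - x) ^ m * F' ≤ 1 * F' := mul_le_mul_of_nonneg_right g6 hF2
      _ = F' := one_mul _
      _ ≤ exp (m * (1 / (2 * M))) * F := g4
      _ ≤ exp (1 / ((n : ℝ) + 2)) * F := by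
          refine mul_le_mul_of_nonneg_right (exp_le_exp.2 ?_) hF'
          linarith

end Pool.Agent.TutteEq
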