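import Pool.Agent.TutteEq.Stmts

/-!
# Approximation-preserving reductions compose
-/

set_option autoImplicit false

namespace Pool.Agent.TutteEq

open Pool.Agent.PT Pool.Agent.TutteHard Real

/-- the doubled accuracy string is computed in polynomial time -/
theorem aP_str : PT (fun z : MGraph × List Bool => z.2 ++ (z.2 ++ [true, true])) :=
  PT.append PT.snd (PT.append PT.snd (PT.const _))

/-- approximation-preserving reductions compose -/
theorem ap_trans (h : S_Arith) : S_Trans := by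
  rintro F F' F'' ⟨f, N, D, hf, hN, hD, H⟩ ⟨f', N', D', hf', hN', hD', H'⟩
  have hz : PT (fun z : MGraph × List Bool => (z.1, z.2 ++ (z.2 ++ [true, true]))) :=
    PT.pair PT.fst aP_str
  have hG : PT (fun z : MGraph × List Bool =>
      (f (z.1, z.2 ++ (z.2 ++ [true, true])), z.2 ++ (z.2 ++ [true, true]))) :=
    PT.pair (hf.comp hz) aP_str
  refine ⟨fun z => f' (f (z.1, z.2 ++ (z.2 ++ [true, true])), z.2 ++ (z.2 ++ [true, true])),
    fun z => N (z.1, z.2 ++ (z.2 ++ [true, true])) *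
      N' (f (z.1, z.2 ++ (z.2 ++ [true, true])), z.2 ++ (z.2 ++ [true, true])),
    fun z => D (z.1, z.2 ++ (z.2 ++ [true, true])) *
      D' (f (z.1, z.2 ++ (z.2 ++ [true, true])), z.2 ++ (z.2 ++ [true, true])),
    hf'.comp hG,
    (h _ _ _ (hN.comp hz) (hN'.comp hG)).2.2.1,
    (h _ _ _ (hD.comp hz) (hD'.comp hG)).2.2.1, fun G e => ?_⟩
  set e' : List Bool := e ++ (e ++ [true, true]) with he'
  obtain ⟨hd, h1, h2⟩ := H G e'
  obtain ⟨hd', h1', h2'⟩ := H' (f (G, e')) e'
  have hlen : (e'.length : ℝ) = 2 * e.length + 2 := by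
    rw [he']; simp; ring
  have hε : 1 / ((e'.length : ℝ) + 2) + 1 / ((e'.length : ℝ) + 2) = 1 / (e.length + 2) := by
    rw [hlen]
    have : (0 : ℝ) < (e.length : ℝ) + 2 := by positivity
    field_simp
    ring
  have hq : (0 : ℝ) ≤ (N (G, e') : ℝ) / (D (G, e') : ℝ) := by positivity
  have hmul : ((N (G, e') * N' (f (G, e'), e') : ℕ) : ℝ) /
      ((D (G, e') * D' (f (G, e'), e') : ℕ) : ℝ) =
      (N (G, e') : ℝ) / (D (G, e') : ℝ) *
        ((N' (f (G, e'), e') : ℝ) / (D' (f (G, e'), e') : ℝ)) := by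
    push_cast
    rw [mul_div_mul_comm]
  refine ⟨Nat.mul_pos hd hd', ?_, ?_⟩
  · simp only
    rw [hmul, ← hε, neg_add, Real.exp_add, mul_assoc, mul_assoc]
    refine (mul_le_mul_of_nonneg_left h1 (Real.exp_pos _).le).trans ?_
    rw [← mul_assoc, mul_comm (Real.exp _), mul_assoc]
    exact mul_le_mul_of_nonneg_left h1' hq
  · simp only
    rw [hmul, ← hε, Real.exp_add, mul_assoc, mul_assoc]
    refine le_trans ?_ (mul_le_mul_of_nonneg_left h2 (Real.exp_pos _).le)
    rw [← mul_assoc (Real.exp _), mul_comm (Real.exp _), mul_assoc]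
    exact mul_le_mul_of_nonneg_left h2' hq

end Pool.Agent.TutteEq
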