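import Pool.Agent.TutteEq.Stmts2
import Pool.Agent.TutteEq.Rank

/-!
# The number of vertices in polynomial time
-/

set_option autoImplicit false

namespace Pool.Agent.TutteEq

open Pool.Agent.PT Pool.Agent.TutteHard

/-- add a vertex to the list of the vertices seen so far, and count it if it is new -/
def card_add (p : Vx × (List Vx × U)) : List Vx × U :=
  if decide (p.1 ∈ p.2.1) then p.2 else (p.1 :: p.2.1, ⟨p.2.2.val + 1⟩)

/-- one step: both ends of an edge -/
def card_step (p : Bool × (List Vx × U) × (Vx × Vx)) : List Vx × U :=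
  card_add (p.2.2.2, card_add (p.2.2.1, p.2.1))

theorem card_PT_add : PT card_add :=
  PT.ite (rank_PT_mem PT.fst PT.snd.comp_fst) PT.snd
    ((PT.cons PT.fst PT.snd.comp_fst).pair (PT.usucc PT.snd.comp_snd))

theorem card_PT_step : PT card_step :=
  card_PT_add.comp (PT.snd.comp_snd.comp_snd.pair
    (card_PT_add.comp (PT.snd.comp_snd.comp_fst.pair PT.snd.comp_fst)))

theorem card_add_size (a : Vx) (s : List Vx × U) :
    (enc (card_add (a, s))).length ≤ (enc s).length + 4 * (enc a).length + 3 := by
  obtain ⟨l, c⟩ := s
  unfold card_add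
  split_ifs
  · simp only
    omega
  · simp only
    rw [length_enc_pair, length_enc_pair, length_enc_cons, length_enc_U, length_enc_U]
    simp only
    omega

theorem card_add_spec (a : Vx) (s : List Vx × U) (h1 : s.1.Nodup) (h2 : s.2.val = s.1.length) :
    (card_add (a, s)).1.Nodup ∧ (card_add (a, s)).2.val = (card_add (a, s)).1.length ∧
      (card_add (a, s)).1.toFinset = insert a s.1.toFinset := by
  obtain ⟨l, c⟩ := s
  unfold card_add
  simp only at h1 h2 ⊢
  by_cases h : a ∈ l
  · rw [if_pos (by simpa using h)]
    exact ⟨h1, h2, (Finset.insert_eq_of_mem (by simpa using h)).symm⟩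
  · rw [if_neg (by simpa using h)]
    refine ⟨List.nodup_cons.2 ⟨h, h1⟩, by simp [h2], by simp⟩

theorem card_fold_spec (G : MGraph) : ∀ s : List Vx × U, s.1.Nodup → s.2.val = s.1.length →
    (G.foldl (fun s e => card_step (true, s, e)) s).2.val = (s.1.toFinset ∪ verts G).card := by
  induction G with
  | nil =>
    intro s h1 h2
    simp only [List.foldl_nil, verts, List.map_nil, List.append_nil, List.toFinset_nil,
      Finset.union_empty]
    rw [h2, List.toFinset_card_of_nodup h1]
  | cons e G ih =>
    intro s h1 h2
    rw [List.foldl_cons]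
    obtain ⟨h3, h4, h5⟩ := card_add_spec e.1 s h1 h2
    obtain ⟨h6, h7, h8⟩ := card_add_spec e.2 (card_add (e.1, s)) h3 h4
    have e1 : card_step (true, s, e) = card_add (e.2, card_add (e.1, s)) := rfl
    rw [e1, ih _ h6 h7, h8, h5]
    congr 1
    ext x
    simp only [verts, Finset.mem_union, Finset.mem_insert, List.mem_toFinset, List.map_cons,
      List.cons_append, List.mem_cons, List.mem_append]
    tauto

theorem card_pt : S_Card := by
  have h := PT.fold (δ := MGraph) (ε := Bool) (σ := List Vx × U) (α := Vx × Vx)
    (g := card_step) (e := fun _ => true) (s := fun _ => ([], ⟨0⟩)) (l := fun G => G)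
    card_PT_step (8 * Polynomial.X + 12) (by
      intro e s a
      obtain ⟨a, b⟩ := a
      have h1 := card_add_size a s
      have h2 := card_add_size b (card_add (a, s))
      have e1 : card_step (e, s, (a, b)) = card_add (b, card_add (a, s)) := rfl
      have h3 := length_enc_pair a b
      rw [e1]
      simp only [Polynomial.eval_add, Polynomial.eval_mul, Polynomial.eval_X,
        Polynomial.eval_ofNat]
      omega) (PT.const true) (PT.const ([], (⟨0⟩ : U))) PT.id
  refine h.comp_snd.congr fun G => ?_
  have key := card_fold_spec G ([], ⟨0⟩) List.nodup_nil rfl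
  simp only [List.toFinset_nil, Finset.empty_union] at key
  have : ∀ u : U, u = U.mk u.val := fun u => rfl
  rw [this (G.foldl (fun s e => card_step (true, s, e)) ([], ⟨0⟩)).2, key]

end Pool.Agent.TutteEq
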