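import Pool.Agent.TutteEq.Stmts2
import Pool.Agent.TutteEq.Net
import Pool.Agent.TutteEq.Pert

/-!
# The cone over a graph
-/

set_option autoImplicit false

namespace Pool.Agent.TutteEq

open Pool.Agent.PT Pool.Agent.TutteHard Real Relation

section

variable {α : Type} [DecidableEq α]

omit [DecidableEq α] in
/-- invariance of a property along connected vertices -/
theorem cone_inv {V : Finset α} {S : List (α × α)} (P : {x // x ∈ V} → Prop)
    (h : ∀ u w : {x // x ∈ V}, ((u : α), (w : α)) ∈ S → (P u ↔ P w)) {u w : {x // x ∈ V}}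
    (hr : EqvGen (rel V S) u w) : P u ↔ P w := by
  induction hr with
  | rel x y hxy => exact h x y hxy
  | refl x => exact Iff.rfl
  | symm x y _ ih => exact ih.symm
  | trans x y z _ _ ih1 ih2 => exact ih1.trans ih2

/-- the star edges of weight `-1` -/
def cone_star (r : α) (l : List α) : List ((α × α) × ℝ) := l.map fun v => ((r, v), -1)

omit [DecidableEq α] in
theorem cone_star_zero (Q : ℝ) {V : Finset α} {r : α} (hr : r ∈ V) (l : List α)
    (hl : ∀ v ∈ l, v ∈ V) (S : List (α × α)) {w : α} (hw : w ∈ l) (hwV : w ∈ V)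
    (h : EqvGen (rel V S) ⟨r, hr⟩ ⟨w, hwV⟩) : Z Q V S (cone_star r l) = 0 := by
  obtain ⟨l₁, l₂, rfl⟩ := List.append_of_mem hw
  have hp : (cone_star r (l₁ ++ w :: l₂)).Perm (((r, w), -1) :: cone_star r (l₁ ++ l₂)) :=
    (List.perm_middle (a := w) (l₁ := l₁) (l₂ := l₂)).map _
  rw [Z_perm Q V hp]
  exact net_Z_hard Q (e := (r, w)) hr hwV _ S h

omit [DecidableEq α] in
/-- the partition function of a star -/
theorem cone_star_Z {Q : ℝ} (hQ : Q ≠ 0) {V : Finset α} {r : α} (hr : r ∈ V) (l : List α)
    (hl : ∀ v ∈ l, v ∈ V) (S : List (α × α))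
    (h : ∀ v (hv : v ∈ l), ¬ EqvGen (rel V S) ⟨r, hr⟩ ⟨v, hl v hv⟩) :
    comps V (l.map (fun v => (r, v)) ++ S) ≤ comps V S ∧
    Z Q V S (cone_star r l) = Q ^ comps V (l.map (fun v => (r, v)) ++ S) *
      (Q - 1) ^ (comps V S - comps V (l.map (fun v => (r, v)) ++ S)) := by
  classical
  induction l generalizing S with
  | nil =>
    simp only [List.map_nil, List.nil_append, le_refl, tsub_self, pow_zero, mul_one, true_and]
    rfl
  | cons v l ih =>
    have hvV := hl v List.mem_cons_self
    have hl' : ∀ w ∈ l, w ∈ V := fun w hw => hl w (List.mem_cons_of_mem _ hw)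
    have hrv : ¬ EqvGen (rel V S) ⟨r, hr⟩ ⟨v, hvV⟩ := h v List.mem_cons_self
    have h' : ∀ w (hw : w ∈ l), ¬ EqvGen (rel V S) ⟨r, hr⟩ ⟨w, hl' w hw⟩ :=
      fun w hw => h w (List.mem_cons_of_mem _ hw)
    obtain ⟨i1, i2⟩ := ih hl' S h'
    have e1 : cone_star r (v :: l) = ((r, v), (-1 : ℝ)) :: cone_star r l := rfl
    have e2 : ((v :: l).map (fun v => (r, v)) ++ S) =
        (r, v) :: (l.map (fun v => (r, v)) ++ S) := rfl
    rw [e1, e2, Z_cons]
    simp only
    by_cases hw : ∃ w, ∃ (hw : w ∈ l), EqvGen (rel V S) ⟨v, hvV⟩ ⟨w, hl' w hw⟩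
    · obtain ⟨w, hw, hvw⟩ := hw
      have h1 : EqvGen (rel V ((r, v) :: S)) ⟨r, hr⟩ ⟨w, hl' w hw⟩ :=
        EqvGen.trans _ ⟨v, hvV⟩ _ (EqvGen.rel _ _ (by simp [rel]))
          (pert_eqv_mono (fun e he => List.mem_cons_of_mem _ he) hvw)
      rw [cone_star_zero Q hr l hl' _ hw (hl' w hw) h1]
      have h2 : EqvGen (rel V (l.map (fun v => (r, v)) ++ S)) ⟨r, hr⟩ ⟨v, hvV⟩ := by
        refine EqvGen.trans _ ⟨w, hl' w hw⟩ _ (EqvGen.rel _ _ ?_) (EqvGen.symm _ _
          (pert_eqv_mono (fun e he => List.mem_append_right _ he) hvw))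
        simp only [rel, List.mem_append, List.mem_map]
        exact Or.inl ⟨w, hw, rfl⟩
      rw [comps_cons_of_eqv hr hvV h2, i2]
      exact ⟨i1, by ring⟩
    · push Not at hw
      have h1 : ∀ w (hw : w ∈ l), ¬ EqvGen (rel V ((r, v) :: S)) ⟨r, hr⟩ ⟨w, hl' w hw⟩ := by
        intro w hwl hc
        have := cone_inv (fun x => EqvGen (rel V S) ⟨w, hl' w hwl⟩ x) (fun a b hab => by
          rcases List.mem_cons.1 hab with hab | hab
          · simp only [Prod.mk.injEq] at hab
            obtain ⟨ha, hb⟩ := hab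
            constructor
            · intro h3
              have : a = ⟨r, hr⟩ := Subtype.ext ha
              rw [this] at h3
              exact absurd (EqvGen.symm _ _ h3) (h' w hwl)
            · intro h3
              have : b = ⟨v, hvV⟩ := Subtype.ext hb
              rw [this] at h3
              exact absurd (EqvGen.symm _ _ h3) (hw w hwl)
          · exact ⟨fun h3 => h3.trans _ _ _ (EqvGen.rel _ _ hab),
              fun h3 => h3.trans _ _ _ (EqvGen.symm _ _ (EqvGen.rel _ _ hab))⟩) hc
        exact h' w hwl (EqvGen.symm _ _ (this.2 (EqvGen.refl _)))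
      obtain ⟨j1, j2⟩ := ih hl' ((r, v) :: S) h1
      have h2 : ¬ EqvGen (rel V (l.map (fun v => (r, v)) ++ S)) ⟨r, hr⟩ ⟨v, hvV⟩ := by
        intro hc
        have := cone_inv (fun x => EqvGen (rel V S) ⟨v, hvV⟩ x) (fun a b hab => by
          rcases List.mem_append.1 hab with hab | hab
          · obtain ⟨w, hwl, hww⟩ := List.mem_map.1 hab
            simp only [Prod.mk.injEq] at hww
            obtain ⟨ha, hb⟩ := hww
            constructor
            · intro h3
              have : a = ⟨r, hr⟩ := Subtype.ext ha.symm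
              rw [this] at h3
              exact absurd (EqvGen.symm _ _ h3) hrv
            · intro h3
              have : b = ⟨w, hl' w hwl⟩ := Subtype.ext hb.symm
              rw [this] at h3
              exact absurd h3 (hw w hwl)
          · exact ⟨fun h3 => h3.trans _ _ _ (EqvGen.rel _ _ hab),
              fun h3 => h3.trans _ _ _ (EqvGen.symm _ _ (EqvGen.rel _ _ hab))⟩) hc
        exact hrv (EqvGen.symm _ _ (this.2 (EqvGen.refl _)))
      have c1 := comps_cons_of_not_eqv hr hvV h2
      have c2 := comps_cons_of_not_eqv hr hvV hrv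
      rw [pert_comps_swap] at j1 j2
      rw [j2, i2]
      obtain ⟨s, hs⟩ : ∃ s, s = comps V ((r, v) :: (l.map (fun v => (r, v)) ++ S)) := ⟨_, rfl⟩
      obtain ⟨t, ht⟩ : ∃ t, t = comps V ((r, v) :: S) := ⟨_, rfl⟩
      rw [c1, c2, ← hs, ← ht]
      rw [← hs, ← ht] at j1
      obtain ⟨d, rfl⟩ : ∃ d, t = s + d := ⟨t - s, by omega⟩
      have e3 : s + d - s = d := by omega
      have e4 : s + d + 1 - (s + 1) = d := by omega
      have e5 : s + d + 1 - s = d + 1 := by omega
      rw [e3, e4, e5]
      exact ⟨by omega, by ring⟩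

/-- the star that covers all vertices, over a contracted graph -/
theorem cone_star_full {Q : ℝ} (hQ : Q ≠ 0) {V : Finset α} {r : α} (hr : r ∉ V) (l : List α)
    (hl : ∀ v ∈ l, v ∈ V) (hV : ∀ v ∈ V, v ∈ l) (S : List (α × α)) (hS : EndsIn V S) :
    Z Q (insert r V) S (cone_star r l) = Q * (Q - 1) ^ comps V S := by
  have hr' : r ∈ insert r V := Finset.mem_insert_self _ _
  have hl' : ∀ v ∈ l, v ∈ insert r V := fun v hv => Finset.mem_insert_of_mem (hl v hv)
  have h0 : ∀ v (hv : v ∈ l), ¬ EqvGen (rel (insert r V) S) ⟨r, hr'⟩ ⟨v, hl' v hv⟩ := by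
    intro v hv hc
    have := cone_inv (fun x => (x : α) = r) (fun a b hab => by
      have := hS _ hab
      simp only at this
      constructor
      · intro h3
        exact absurd (h3 ▸ this.1) hr
      · intro h3
        exact absurd (h3 ▸ this.2) hr) hc
    have h3 : v = r := this.1 rfl
    exact hr (h3 ▸ hl v hv)
  obtain ⟨_, h2⟩ := cone_star_Z hQ hr' l hl' S h0
  have h3 : comps (insert r V) (l.map (fun v => (r, v)) ++ S) = 1 := by
    unfold comps
    rw [Nat.card_eq_one_iff_unique]
    constructor
    · constructor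
      intro a b
      induction a using Quot.ind with
      | mk a =>
        induction b using Quot.ind with
        | mk b =>
          have key : ∀ c : {x // x ∈ insert r V}, EqvGen
              (rel (insert r V) (l.map (fun v => (r, v)) ++ S)) ⟨r, hr'⟩ c := by
            rintro ⟨c, hc⟩
            rcases Finset.mem_insert.1 hc with rfl | hc'
            · exact EqvGen.refl _
            · refine EqvGen.rel _ _ ?_
              simp only [rel, List.mem_append, List.mem_map]
              exact Or.inl ⟨c, hV c hc', rfl⟩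
          exact quot_of_eqv ((EqvGen.symm _ _ (key a)).trans _ _ _ (key b))
    · exact ⟨Quot.mk _ ⟨r, hr'⟩⟩
  rw [h2, h3, comps_insert hS hr, pow_one, Nat.add_sub_cancel]

/-- the cone -/
theorem cone_Z {Q : ℝ} (hQ : Q ≠ 0) {V : Finset α} {r : α} (hr : r ∉ V) (l : List α)
    (hl : ∀ v ∈ l, v ∈ V) (hV : ∀ v ∈ V, v ∈ l) (G : List (α × α)) (hG : EndsIn V G) :
    ∀ S : List (α × α), EndsIn V S →
      Z Q (insert r V) S (SP.wtd (-1) G ++ cone_star r l) =
        Q * Z (Q - 1) V S (SP.wtd (-1) G) := by
  induction G with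
  | nil =>
    intro S hS
    have h1 : SP.wtd (-1) ([] : List (α × α)) = [] := rfl
    rw [h1, List.nil_append, cone_star_full hQ hr l hl hV S hS, Z_nil]
  | cons e G ih =>
    intro S hS
    have he := hG e List.mem_cons_self
    have hG' : EndsIn V G := fun f hf => hG f (List.mem_cons_of_mem _ hf)
    have h1 : SP.wtd (-1) (e :: G) = (e, (-1 : ℝ)) :: SP.wtd (-1) G := rfl
    rw [h1, List.cons_append, Z_cons, Z_cons, ih hG' S hS, ih hG' (e :: S) (hS.cons he.1 he.2)]
    ring

end

theorem cone : S_Cone := by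
  intro b G hG
  set V := (verts G).image nmF with hV
  set l : List Vx := G.flatMap (fun e => [nmF e.1, nmF e.2]) with hl
  have hr : ([true] : Vx) ∉ V := by
    intro h
    obtain ⟨a, _, ha⟩ := Finset.mem_image.1 h
    simp [nmF] at ha
  have hz : ([true, true] : Vx) ∉ insert [true] V := by
    intro h
    rcases Finset.mem_insert.1 h with h | h
    · simp at h
    · obtain ⟨a, _, ha⟩ := Finset.mem_image.1 h
      simp [nmF] at ha
  have hlmem : ∀ x, x ∈ l ↔ ∃ e ∈ G, x = nmF e.1 ∨ x = nmF e.2 := by
    intro x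
    simp only [hl, List.mem_flatMap, List.mem_cons, List.not_mem_nil, or_false]
  have hVmem : ∀ x, x ∈ V ↔ ∃ e ∈ G, x = nmF e.1 ∨ x = nmF e.2 := by
    intro x
    rw [hV, Finset.mem_image]
    constructor
    · rintro ⟨a, ha, rfl⟩
      obtain ⟨e, he, h⟩ := (mem_verts G a).1 ha
      rcases h with rfl | rfl
      · exact ⟨e, he, Or.inl rfl⟩
      · exact ⟨e, he, Or.inr rfl⟩
    · rintro ⟨e, he, h⟩
      rcases h with rfl | rfl
      · exact ⟨e.1, (mem_verts G _).2 ⟨e, he, Or.inl rfl⟩, rfl⟩
      · exact ⟨e.2, (mem_verts G _).2 ⟨e, he, Or.inr rfl⟩, rfl⟩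
  have hl1 : ∀ v ∈ l, v ∈ V := fun v hv => (hVmem v).2 ((hlmem v).1 hv)
  have hl2 : ∀ v ∈ V, v ∈ l := fun v hv => (hlmem v).2 ((hVmem v).1 hv)
  have hlne : l ≠ [] := by
    obtain ⟨e, G', rfl⟩ := List.exists_cons_of_ne_nil hG
    simp [hl]
  have hstar : (G.flatMap fun e => [(([true] : Vx), nmF e.1), ([true], nmF e.2)]) =
      l.map (fun v => (([true] : Vx), v)) := by
    rw [hl, List.map_flatMap]
    rfl
  have hcov : ∀ x : Vx, (∃ e ∈ l.map (fun v => (([true] : Vx), v)), x = e.1 ∨ x = e.2) ↔
      x = [true] ∨ x ∈ V := by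
    intro x
    constructor
    · rintro ⟨e, he, hx⟩
      obtain ⟨v, hv, rfl⟩ := List.mem_map.1 he
      rcases hx with rfl | rfl
      · exact Or.inl rfl
      · exact Or.inr (hl1 _ hv)
    · rintro (rfl | h)
      · obtain ⟨v, l', hvl⟩ := List.exists_cons_of_ne_nil hlne
        exact ⟨([true], v), List.mem_map.2 ⟨v, by rw [hvl]; simp, rfl⟩, Or.inl rfl⟩
      · exact ⟨([true], x), List.mem_map.2 ⟨x, hl2 x h, rfl⟩, Or.inr rfl⟩
  have hren : ∀ x : Vx, (∃ e ∈ ren nmF G, x = e.1 ∨ x = e.2) ↔ x ∈ V := by
    intro x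
    rw [← mem_verts, verts_ren]
  -- vertices
  have hv0 : verts (coneP false G) = insert [true] V := by
    ext x
    rw [mem_verts, Finset.mem_insert]
    unfold coneP
    rw [hstar]
    simp only [Bool.false_eq_true, if_false, List.append_nil, List.mem_append]
    constructor
    · rintro ⟨e, he | he, hx⟩
      · exact Or.inr ((hren x).1 ⟨e, he, hx⟩)
      · exact (hcov x).1 ⟨e, he, hx⟩
    · intro h
      obtain ⟨e, he, hx⟩ := (hcov x).2 h
      exact ⟨e, Or.inr he, hx⟩
  have hv1 : verts (coneP true G) = insert [true, true] (insert [true] V) := by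
    have h1 : coneP true G = coneP false G ++ [([true], [true, true])] := by
      unfold coneP
      simp
    ext x
    rw [Finset.mem_insert, ← hv0, mem_verts, mem_verts, h1]
    simp only [List.mem_append, List.mem_singleton]
    constructor
    · rintro ⟨e, he | he, hx⟩
      · exact Or.inr ⟨e, he, hx⟩
      · subst he
        rcases hx with rfl | rfl
        · right
          have : ([true] : Vx) ∈ verts (coneP false G) := by
            rw [hv0]
            exact Finset.mem_insert_self _ _
          exact (mem_verts _ _).1 this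
        · exact Or.inl rfl
    · rintro (rfl | ⟨e, he, hx⟩)
      · exact ⟨([true], [true, true]), Or.inr rfl, Or.inr rfl⟩
      · exact ⟨e, Or.inl he, hx⟩
  -- components
  have hc0 : comps (insert [true] V) (coneP false G) = 1 := by
    unfold comps
    rw [Nat.card_eq_one_iff_unique]
    have hr' : ([true] : Vx) ∈ insert [true] V := Finset.mem_insert_self _ _
    constructor
    · constructor
      intro a b
      induction a using Quot.ind with
      | mk a =>
        induction b using Quot.ind with
        | mk b =>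
          have key : ∀ c : {x // x ∈ insert [true] V}, EqvGen
              (rel (insert [true] V) (coneP false G)) ⟨[true], hr'⟩ c := by
            rintro ⟨c, hc⟩
            rcases Finset.mem_insert.1 hc with rfl | hc'
            · exact EqvGen.refl _
            · refine EqvGen.rel _ _ ?_
              unfold coneP
              rw [hstar]
              simp only [rel, List.mem_append, List.mem_map]
              exact Or.inl (Or.inr ⟨c, hl2 c hc', rfl⟩)
          exact quot_of_eqv ((EqvGen.symm _ _ (key a)).trans _ _ _ (key b))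
    · exact ⟨Quot.mk _ ⟨[true], hr'⟩⟩
  have hE0 : EndsIn (insert [true] V) (coneP false G) := by
    rw [← hv0]
    exact endsIn_verts _
  have h1t : coneP true G = coneP false G ++ [([true], [true, true])] := by
    unfold coneP
    simp
  have hc1 : comps (insert [true, true] (insert [true] V)) (coneP true G) = 1 := by
    rw [h1t, comps_congr (T := (([true] : Vx), ([true, true] : Vx)) :: coneP false G),
      comps_leaf hE0 (Finset.mem_insert_self _ _) hz, hc0]
    intro f
    simp only [List.mem_append, List.mem_cons, List.not_mem_nil, or_false]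
    tauto
  have hVcard : V.card = (verts G).card := Finset.card_image_of_injective _ nmF_inj
  have hrank : rank (coneP b G) Finset.univ = (verts G).card + b.toNat := by
    have h := pert_rank (coneP b G)
    cases b with
    | false =>
      rw [hv0, hc0, Finset.card_insert_of_notMem hr, hVcard] at h
      simp only [Bool.toNat_false]
      omega
    | true =>
      rw [hv1, hc1, Finset.card_insert_of_notMem hz, Finset.card_insert_of_notMem hr, hVcard] at h
      simp only [Bool.toNat_true]
      omega
  refine ⟨hrank, ?_⟩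
  intro Q hQ0 hQ1
  -- partition functions
  have hGe : EndsIn V (ren nmF G) := by
    rw [hV, ← verts_ren]
    exact endsIn_verts _
  have hZ0 : Z Q (insert [true] V) [] (SP.wtd (-1) (coneP false G)) =
      Q * Z (Q - 1) (verts G) [] (SP.wtd (-1) G) := by
    have h2 : SP.wtd (-1) (coneP false G) = SP.wtd (-1) (ren nmF G) ++ cone_star [true] l := by
      unfold coneP
      rw [hstar]
      simp only [Bool.false_eq_true, if_false, List.append_nil, SP.wtd_append]
      congr 1
      unfold SP.wtd cone_star
      rw [List.map_map]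
      rfl
    have hnil : EndsIn V ([] : MGraph) := fun e he => absurd he List.not_mem_nil
    have h3 := Z_ren (Q - 1) (-1) nmF_inj (V := verts G) G [] (endsIn_verts G)
      (fun e he => by simp at he)
    have h4 : ren nmF ([] : MGraph) = [] := rfl
    rw [h4] at h3
    rw [h2, cone_Z hQ0 hr l hl1 hl2 _ hGe [] hnil, hV, h3]
  have hk := pert_rank G
  have hsign : ∀ r k : ℕ, ∀ B : ℕ, ∀ T : ℝ, (-1 : ℝ) ^ (k + r + B) * ((Q - 1) ^ B * (Q * T)) /
      Q ^ 1 = (1 - Q) ^ (k + B) * ((-1) ^ r * T / (Q - 1) ^ k) := by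
    intro r k B T
    have hQ2 : Q - 1 ≠ 0 := sub_ne_zero.2 hQ1
    have e1 : (1 - Q) = (-1) * (Q - 1) := by ring
    rw [e1, mul_pow, pow_add, pow_add, pow_add (-1 : ℝ) k B, pow_add (Q - 1) k B, pow_one]
    field_simp
  cases b with
  | false =>
    unfold Zt
    rw [hrank, hv0, hc0, hZ0, hk]
    have := hsign (rank G Finset.univ) (comps (verts G) G) 0
      (Z (Q - 1) (verts G) [] (SP.wtd (-1) G))
    simpa using this
  | true =>
    have hZ1 : Z Q (insert [true, true] (insert [true] V)) [] (SP.wtd (-1) (coneP true G)) =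
        (Q - 1) * (Q * Z (Q - 1) (verts G) [] (SP.wtd (-1) G)) := by
      have hp : (SP.wtd (-1) (coneP true G)).Perm
          ((([true], [true, true]), -1) :: SP.wtd (-1) (coneP false G)) := by
        rw [h1t]
        exact (List.perm_append_comm).map _
      have hnil : EndsIn (insert [true] V) ([] : MGraph) :=
        fun e he => absurd he List.not_mem_nil
      have hE0w : EndsW (insert [true] V) (SP.wtd (-1) (coneP false G)) := net_endsW hE0 (-1)
      rw [Z_perm Q _ hp, Z_cons]
      simp only
      rw [Z_leaf Q hnil hE0w (Finset.mem_insert_self _ _) hz, Z_insert Q hnil hE0w hz, hZ0]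
      ring
    unfold Zt
    rw [hrank, hv1, hc1, hZ1, hk]
    have := hsign (rank G Finset.univ) (comps (verts G) G) 1
      (Z (Q - 1) (verts G) [] (SP.wtd (-1) G))
    simpa using this

end Pool.Agent.TutteEq
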