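import Pool.Agent.TutteEq.Stmts2

/-!
# The cone over a graph is computable in polynomial time
-/

set_option autoImplicit false

namespace Pool.Agent.TutteEq

open Pool.Agent.PT Pool.Agent.TutteHard Real

theorem conePT_foldl {α β : Type} (g h : α → β) (G : List α) :
    G.reverse.foldl (fun s a => g a :: h a :: s) [] = G.flatMap fun e => [g e, h e] := by
  induction G with
  | nil => rfl
  | cons e G ih =>
    rw [List.reverse_cons, List.foldl_append, ih]
    simp

/-- the edges of the cone -/
theorem conePT_flatMap : PT (fun G : MGraph =>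
    G.flatMap fun e => [([true], nmF e.1), ([true], nmF e.2)]) := by
  have hx : PT (fun p : Unit × MGraph × (Vx × Vx) => (([true] : Vx), nmF p.2.2.1)) :=
    (PT.const [true]).pair (PT.cons (PT.const false) PT.snd.comp_snd.comp_fst)
  have hy : PT (fun p : Unit × MGraph × (Vx × Vx) => (([true] : Vx), nmF p.2.2.2)) :=
    (PT.const [true]).pair (PT.cons (PT.const false) PT.snd.comp_snd.comp_snd)
  have h := PT.fold (δ := MGraph) (ε := Unit) (σ := MGraph) (α := Vx × Vx)
    (g := fun p => (([true] : Vx), nmF p.2.2.1) :: (([true] : Vx), nmF p.2.2.2) :: p.2.1)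
    (e := fun _ => ()) (s := fun _ => []) (l := fun G => G.reverse)
    (PT.cons hx (PT.cons hy PT.snd.comp_fst))
    (4 * Polynomial.X + 40) (by
      intro e s a
      obtain ⟨a1, a2⟩ := a
      rw [length_enc_cons, length_enc_cons, length_enc_pair, length_enc_pair, length_enc_pair,
        length_enc_bits, length_enc_bits, length_enc_bits, length_enc_bits, length_enc_bits]
      simp only [nmF, List.length_cons, List.length_nil, Polynomial.eval_add, Polynomial.eval_mul,
        Polynomial.eval_X, Polynomial.eval_ofNat]
      omega) (PT.const ()) (PT.const []) PT.reverse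
  refine h.congr fun G => ?_
  exact conePT_foldl (fun e : Vx × Vx => (([true] : Vx), nmF e.1))
    (fun e : Vx × Vx => (([true] : Vx), nmF e.2)) G

theorem conePT_ren : PT (fun G : MGraph => ren nmF G) := by
  have h := PT.map (δ := MGraph) (ε := Unit) (α := Vx × Vx) (β := Vx × Vx)
    (g := fun p => (nmF p.2.1, nmF p.2.2)) (e := fun _ => ()) (l := fun G => G)
    ((PT.cons (PT.const false) PT.snd.comp_fst).pair (PT.cons (PT.const false) PT.snd.comp_snd))
    (PT.const ()) PT.id
  exact h.congr fun G => rfl

theorem conePT : S_ConePT := by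
  have h1 : PT (fun z : Bool × MGraph => ren nmF z.2) := conePT_ren.comp PT.snd
  have h2 : PT (fun z : Bool × MGraph =>
      z.2.flatMap fun e => [([true], nmF e.1), ([true], nmF e.2)]) := conePT_flatMap.comp PT.snd
  have h3 : PT (fun z : Bool × MGraph =>
      if z.1 then ([([true], [true, true])] : MGraph) else []) :=
    PT.ite PT.fst (PT.const _) (PT.const _)
  exact (h1.append h2).append h3

end Pool.Agent.TutteEq
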