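import Pool.Agent.TutteEq.Stmts2
import Pool.Agent.TutteEq.Pert

/-!
# Crude bound for the change of the partition function near the chromatic point
-/

set_option autoImplicit false

namespace Pool.Agent.TutteEq

open Pool.Agent.PT Pool.Agent.TutteHard Real

section

variable {α : Type} [DecidableEq α]

omit [DecidableEq α] in
theorem crude_pow {V : Finset α} {Q : ℝ} (hQ : 1 ≤ Q) {e : α × α} (he : e.1 ∈ V ∧ e.2 ∈ V)
    (S : List (α × α)) : Q ^ comps V (e :: S) ≤ Q ^ comps V S := by
  obtain ⟨a, b⟩ := e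
  exact pow_le_pow_right₀ hQ (comps_cons_le he.1 he.2).1

omit [DecidableEq α] in
theorem crude_bd {V : Finset α} {Q t : ℝ} (hQ : 1 ≤ Q) (G : List (α × α)) (hG : EndsIn V G)
    (S : List (α × α)) :
    |Z Q V S (SP.wtd (-t) G)| ≤ (1 + |t|) ^ G.length * Q ^ comps V S := by
  have hQ0 : 0 < Q := by linarith
  induction G generalizing S with
  | nil =>
    have h1 : SP.wtd (-t) ([] : List (α × α)) = [] := rfl
    rw [h1, Z_nil, abs_of_pos (pow_pos hQ0 _)]
    simp
  | cons e G ih =>
    have h1 : SP.wtd (-t) (e :: G) = (e, -t) :: SP.wtd (-t) G := rfl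
    have hG' : EndsIn V G := fun f hf => hG f (List.mem_cons_of_mem _ hf)
    have i1 := ih hG' (e :: S)
    have i2 := ih hG' S
    have h2 := crude_pow hQ (hG e List.mem_cons_self) S
    have h3 : 0 ≤ (1 + |t|) ^ G.length := by positivity
    rw [h1, Z_cons, List.length_cons]
    simp only
    calc |-t * Z Q V (e :: S) (SP.wtd (-t) G) + Z Q V S (SP.wtd (-t) G)|
        ≤ |t| * |Z Q V (e :: S) (SP.wtd (-t) G)| + |Z Q V S (SP.wtd (-t) G)| := by
          refine (abs_add_le _ _).trans_eq ?_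
          rw [abs_mul, abs_neg]
      _ ≤ |t| * ((1 + |t|) ^ G.length * Q ^ comps V S) + (1 + |t|) ^ G.length * Q ^ comps V S := by
          refine add_le_add (mul_le_mul_of_nonneg_left (i1.trans ?_) (abs_nonneg t)) i2
          exact mul_le_mul_of_nonneg_left h2 h3
      _ = (1 + |t|) ^ (G.length + 1) * Q ^ comps V S := by ring

omit [DecidableEq α] in
theorem crude_diff {V : Finset α} {Q t : ℝ} (hQ : 1 ≤ Q) (ht : |1 - t| ≤ 1)
    (G : List (α × α)) (hG : EndsIn V G) (S : List (α × α)) :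
    |Z Q V S (SP.wtd (-t) G) - Z Q V S (SP.wtd (-1) G)| ≤
      (3 ^ G.length - 2 ^ G.length) * Q ^ comps V S * |1 - t| := by
  have hQ0 : 0 < Q := by linarith
  induction G generalizing S with
  | nil =>
    have h1 : ∀ v : ℝ, SP.wtd v ([] : List (α × α)) = [] := fun _ => rfl
    rw [h1, h1]
    simp
  | cons e G ih =>
    have h1 : ∀ v : ℝ, SP.wtd v (e :: G) = (e, v) :: SP.wtd v G := fun _ => rfl
    have hG' : EndsIn V G := fun f hf => hG f (List.mem_cons_of_mem _ hf)
    have i1 := ih hG' (e :: S)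
    have i2 := ih hG' S
    have h2 := crude_pow hQ (hG e List.mem_cons_self) S
    have hb := crude_bd (t := 1) hQ G hG' (e :: S)
    rw [abs_one, show (1 : ℝ) + 1 = 2 by norm_num] at hb
    have htt : |t| ≤ 2 := by
      rw [abs_le] at ht ⊢
      constructor <;> linarith [ht.1, ht.2]
    have h32 : (0 : ℝ) ≤ 3 ^ G.length - 2 ^ G.length :=
      sub_nonneg.2 (pow_le_pow_left₀ (by norm_num) (by norm_num) _)
    have h0 : 0 ≤ |1 - t| := abs_nonneg _
    have hq : 0 < Q ^ comps V S := pow_pos hQ0 _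
    rw [h1, h1, Z_cons, Z_cons, List.length_cons]
    simp only
    set A := Z Q V (e :: S) (SP.wtd (-t) G)
    set B := Z Q V (e :: S) (SP.wtd (-1) G)
    set C := Z Q V S (SP.wtd (-t) G)
    set D := Z Q V S (SP.wtd (-1) G)
    set m := G.length
    have i1' : |A - B| ≤ (3 ^ m - 2 ^ m) * Q ^ comps V S * |1 - t| :=
      i1.trans (mul_le_mul_of_nonneg_right (mul_le_mul_of_nonneg_left h2 h32) h0)
    have hb' : |B| ≤ 2 ^ m * Q ^ comps V S :=
      hb.trans (mul_le_mul_of_nonneg_left h2 (by positivity))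
    calc |-t * A + C - (-1 * B + D)| = |-t * (A - B) + ((1 - t) * B + (C - D))| := by
          congr 1
          ring
      _ ≤ |t| * |A - B| + (|1 - t| * |B| + |C - D|) := by
          refine (abs_add_le _ _).trans (add_le_add ?_ ?_)
          · rw [abs_mul, abs_neg]
          · refine (abs_add_le _ _).trans_eq ?_
            rw [abs_mul]
      _ ≤ 2 * ((3 ^ m - 2 ^ m) * Q ^ comps V S * |1 - t|) +
          (|1 - t| * (2 ^ m * Q ^ comps V S) + (3 ^ m - 2 ^ m) * Q ^ comps V S * |1 - t|) := by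
          refine add_le_add (mul_le_mul htt i1' (abs_nonneg _) (by norm_num)) (add_le_add
            (mul_le_mul_of_nonneg_left hb' h0) i2)
      _ = (3 ^ (m + 1) - 2 ^ (m + 1)) * Q ^ comps V S * |1 - t| := by ring

end

theorem crude : S_Crude := by
  intro G Q t hQ1 hQ2 ht
  have hQ0 : 0 < Q := by linarith
  have hk : 0 < Q ^ comps (verts G) G := pow_pos hQ0 _
  have h0 : 0 ≤ |1 - t| := abs_nonneg _
  have hd := crude_diff (t := t) hQ1 ht G (endsIn_verts G) []
  rw [comps_nil, pert_rank G, pow_add] at hd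
  have hr : rank G Finset.univ ≤ G.length := by
    have h1 := (comps_le_card (endsIn_verts G)).2
    have h2 := pert_rank G
    omega
  have h3 : Q ^ rank G Finset.univ ≤ 2 ^ G.length :=
    (pow_le_pow_left₀ hQ0.le hQ2 _).trans (pow_le_pow_right₀ (by norm_num) hr)
  have h4 : Zt Q t G - Zt Q 1 G = (-1) ^ rank G Finset.univ *
      (Z Q (verts G) [] (SP.wtd (-t) G) - Z Q (verts G) [] (SP.wtd (-1) G)) /
        Q ^ comps (verts G) G := by
    unfold Zt
    ring
  rw [h4, abs_div, abs_mul, abs_pow, abs_neg, abs_one, one_pow, one_mul, abs_of_pos hk,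
    div_le_iff₀ hk]
  refine hd.trans ?_
  have h5 : (3 : ℝ) ^ G.length - 2 ^ G.length ≤ 3 ^ G.length := by
    have : (0 : ℝ) ≤ 2 ^ G.length := by positivity
    linarith
  have h6 : (3 : ℝ) ^ G.length * 2 ^ G.length ≤ 8 ^ G.length := by
    rw [← mul_pow]
    exact pow_le_pow_left₀ (by norm_num) (by norm_num) _
  calc (3 ^ G.length - 2 ^ G.length) *
        (Q ^ comps (verts G) G * Q ^ rank G Finset.univ) * |1 - t|
      ≤ 3 ^ G.length * (Q ^ comps (verts G) G * 2 ^ G.length) * |1 - t| := by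
        refine mul_le_mul_of_nonneg_right (mul_le_mul h5 (mul_le_mul_of_nonneg_left h3 hk.le)
          (by positivity) (by positivity)) h0
    _ = (3 ^ G.length * 2 ^ G.length) * |1 - t| * Q ^ comps (verts G) G := by ring
    _ ≤ 8 ^ G.length * |1 - t| * Q ^ comps (verts G) G :=
        mul_le_mul_of_nonneg_right (mul_le_mul_of_nonneg_right h6 h0) hk.le

end Pool.Agent.TutteEq
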