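import Pool.Agent.TutteEq.Stmts

/-!
# Approximation-preserving reductions transfer approximation schemes
-/

set_option autoImplicit false

namespace Pool.Agent.TutteEq

open Pool.Agent.PT Pool.Agent.TutteHard Real

/-- the accuracy used by the reduction: a third of the given one -/
def fpras_e (e : List Bool) : List Bool := e ++ (e ++ (e ++ [false, false, false, false]))

theorem fpras_e_length (e : List Bool) : (fpras_e e).length = 3 * e.length + 4 := by
  simp only [fpras_e, List.length_append, List.length_cons, List.length_nil]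
  omega

theorem fpras_e_eps (e : List Bool) :
    (1 : ℝ) / ((fpras_e e).length + 2) = 1 / (e.length + 2) / 3 := by
  rw [fpras_e_length]
  push_cast
  rw [div_div]
  congr 1
  ring

theorem fpras_PTe {α : Type} [N487b59b3 α] {g : α → List Bool} (hg : PT g) :
    PT (fun a => fpras_e (g a)) :=
  PT.append hg (PT.append hg (PT.append hg (PT.const _)))

/-- the rounding: numerator `M > 0`, denominator `Y > 0`, precision `s = size Y + n + 4` -/
def fpras_round (M Y n : ℕ) : ℚ :=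
  if decide (0 < M) = true then
    (2 * ((2 ^ (Nat.size Y + n + 4) * M / Y : ℕ) : ℚ) + 1) / 2 ^ (Nat.size Y + n + 4 + 1)
  else 0

theorem fpras_pow (n : ℕ) : 3 * n + 7 ≤ 2 ^ (n + 5) := by
  induction n with
  | zero => norm_num
  | succ n ih =>
    have : 2 ^ (n + 1 + 5) = 2 * 2 ^ (n + 5) := by ring
    omega

theorem fpras_small (n : ℕ) :
    exp (-(1 / ((n : ℝ) + 2) / 3)) ≤ 1 - 1 / 2 ^ (n + 5) ∧
      1 + 1 / 2 ^ (n + 5) ≤ exp (1 / ((n : ℝ) + 2) / 3) := by
  have h1 : (3 * (n : ℝ) + 7) ≤ 2 ^ (n + 5) := by exact_mod_cast fpras_pow n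
  have hn : (0 : ℝ) ≤ n := Nat.cast_nonneg n
  have hd : (1 : ℝ) / 2 ^ (n + 5) ≤ 1 / (3 * (n : ℝ) + 7) :=
    one_div_le_one_div_of_le (by positivity) h1
  constructor
  · have h2 : 1 + 1 / ((n : ℝ) + 2) / 3 ≤ exp (1 / ((n : ℝ) + 2) / 3) := by
      have := add_one_le_exp (1 / ((n : ℝ) + 2) / 3)
      linarith
    rw [exp_neg]
    have h3 : (exp (1 / ((n : ℝ) + 2) / 3))⁻¹ ≤ (1 + 1 / ((n : ℝ) + 2) / 3)⁻¹ :=
      inv_anti₀ (by positivity) h2
    have h4 : (1 + 1 / ((n : ℝ) + 2) / 3)⁻¹ = 1 - 1 / (3 * (n : ℝ) + 7) := by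
      field_simp
      ring
    rw [h4] at h3
    linarith
  · have h2 := add_one_le_exp (1 / ((n : ℝ) + 2) / 3)
    have h3 : (1 : ℝ) / (3 * (n : ℝ) + 7) ≤ 1 / ((n : ℝ) + 2) / 3 := by
      rw [div_div]
      apply one_div_le_one_div_of_le (by positivity)
      linarith
    linarith

theorem fpras_round_spec {M Y : ℕ} (hM : 0 < M) (hY : 0 < Y) (n : ℕ) :
    exp (-(1 / ((n : ℝ) + 2) / 3)) * ((M : ℝ) / Y) ≤ ((fpras_round M Y n : ℚ) : ℝ) ∧
      ((fpras_round M Y n : ℚ) : ℝ) ≤ exp (1 / ((n : ℝ) + 2) / 3) * ((M : ℝ) / Y) := by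
  obtain ⟨h1, h2⟩ := fpras_small n
  have hY' : (0 : ℝ) < Y := by exact_mod_cast hY
  have hM' : (1 : ℝ) ≤ M := by exact_mod_cast hM
  have hv : (0 : ℝ) < (M : ℝ) / Y := by positivity
  set s : ℕ := Nat.size Y + n + 4 with hs
  set K : ℕ := 2 ^ s * M / Y with hK
  have hval : ((fpras_round M Y n : ℚ) : ℝ) = (2 * (K : ℝ) + 1) / 2 ^ (s + 1) := by
    unfold fpras_round
    rw [if_pos (by simpa using hM)]
    push_cast
    rfl
  have hk1 : (K : ℝ) ≤ 2 ^ s * ((M : ℝ) / Y) := by
    have : K * Y ≤ 2 ^ s * M := Nat.div_mul_le_self _ _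
    have h : (K : ℝ) * Y ≤ 2 ^ s * M := by exact_mod_cast this
    rw [← mul_div_assoc, le_div_iff₀ hY']
    exact h
  have hk2 : 2 ^ s * ((M : ℝ) / Y) ≤ (K : ℝ) + 1 := by
    have : 2 ^ s * M < (K + 1) * Y := by
      rw [mul_comm (K + 1)]
      exact Nat.lt_mul_div_succ _ hY
    have h : (2 : ℝ) ^ s * M < ((K : ℝ) + 1) * Y := by exact_mod_cast this
    rw [← mul_div_assoc, div_le_iff₀ hY']
    exact h.le
  -- `v ≥ 1 / Y ≥ 2 ^ (n + 4) / 2 ^ s`
  have hsz : (Y : ℝ) ≤ 2 ^ Nat.size Y := by exact_mod_cast (Nat.lt_size_self Y).le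
  have hp : (2 : ℝ) ^ (s + 1) = 2 ^ Nat.size Y * 2 ^ (n + 5) := by
    rw [hs, ← pow_add]
    congr 1
  have hv1 : 1 / (2 : ℝ) ^ (s + 1) ≤ 1 / 2 ^ (n + 5) * ((M : ℝ) / Y) := by
    rw [hp, ← one_div_mul_one_div, mul_comm (1 / (2 : ℝ) ^ Nat.size Y)]
    apply mul_le_mul_of_nonneg_left _ (by positivity)
    calc 1 / (2 : ℝ) ^ Nat.size Y ≤ 1 / Y := one_div_le_one_div_of_le hY' hsz
      _ ≤ (M : ℝ) / Y := div_le_div_of_nonneg_right hM' hY'.le
  have hout1 : (M : ℝ) / Y - 1 / 2 ^ (s + 1) ≤ (2 * (K : ℝ) + 1) / 2 ^ (s + 1) := by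
    have h2s : (0 : ℝ) < 2 ^ (s + 1) := by positivity
    rw [le_div_iff₀ h2s, sub_mul, one_div, inv_mul_cancel₀ h2s.ne', pow_succ]
    linarith
  have hout2 : (2 * (K : ℝ) + 1) / 2 ^ (s + 1) ≤ (M : ℝ) / Y + 1 / 2 ^ (s + 1) := by
    have h2s : (0 : ℝ) < 2 ^ (s + 1) := by positivity
    rw [div_le_iff₀ h2s, add_mul, one_div, inv_mul_cancel₀ h2s.ne', pow_succ]
    linarith
  rw [hval]
  constructor
  · have := mul_le_mul_of_nonneg_right h1 hv.le
    linarith [sub_mul (1 : ℝ) (1 / 2 ^ (n + 5)) ((M : ℝ) / Y)]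
  · have := mul_le_mul_of_nonneg_right h2 hv.le
    linarith [add_mul (1 : ℝ) (1 / 2 ^ (n + 5)) ((M : ℝ) / Y)]

theorem fpras_PTround (h : S_Arith) (h2 : S_Arith2) {α : Type} [N487b59b3 α] {M Y : α → ℕ}
    {n : α → U} (hM : PT M) (hY : PT Y) (hn : PT n) :
    PT (fun a => fpras_round (M a) (Y a) (n a).val) := by
  have hsz : PT (fun a => U.mk (Nat.size (Y a))) :=
    (PT.encLen.comp hY).congr fun a => by rw [h2.1]
  have hs : PT (fun a => U.mk (Nat.size (Y a) + (n a).val + 4)) :=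
    (hsz.uadd hn).uadd (PT.const (U.mk 4))
  have hp : PT (fun a => 2 ^ (Nat.size (Y a) + (n a).val + 4)) :=
    h2.2.1 α (fun _ => 2) _ (PT.const 2) hs
  have hX := (h α _ _ hp hM).2.2.1
  have hK := (h α _ _ hX hY).2.2.2.1
  exact PT.ite hM.natPos (h2.2.2 α _ _ hK hs) (PT.const 0)

/-- the positive numerator -/
theorem fpras_PTnum {α : Type} [N487b59b3 α] {f : α → ℚ} (hf : PT f) :
    PT (fun a => (f a).num.toNat) := hf.ratParts.comp_fst.intParts.comp_fst

/-- approximation-preserving reductions transfer approximation schemes -/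
theorem fpras (h : S_Arith) (h2 : S_Arith2) : S_Fpras := by
  intro x y x' y' hpos ⟨f, N, D, hf, hN, hD, hred⟩ ⟨A, p, hA, hprob⟩
  have hA' : PT A := PT.of_isPolyTime hA
  -- the input of the oracle
  have hin : PT (fun z : MGraph × List Bool => (f (z.1, fpras_e z.2), fpras_e z.2)) :=
    (hf.comp (PT.fst.pair (fpras_PTe PT.snd))).pair (fpras_PTe PT.snd)
  obtain ⟨Q, hQ⟩ := hin.length_bound
  have hin' : PT (fun z : (MGraph × List Bool) × List Bool =>
      (f (z.1.1, fpras_e z.1.2), fpras_e z.1.2)) := hin.comp PT.fst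
  have hn : PT (fun z : (MGraph × List Bool) × List Bool =>
      U.mk (p.eval (enc (f (z.1.1, fpras_e z.1.2), fpras_e z.1.2)).length)) :=
    (PT.encLen.comp hin').poly p
  have hr : PT (fun z : (MGraph × List Bool) × List Bool =>
      z.2.take (p.eval (enc (f (z.1.1, fpras_e z.1.2), fpras_e z.1.2)).length)) :=
    PT.take PT.snd hn
  have ha : PT (fun z : (MGraph × List Bool) × List Bool =>
      A ((f (z.1.1, fpras_e z.1.2), fpras_e z.1.2),
        z.2.take (p.eval (enc (f (z.1.1, fpras_e z.1.2), fpras_e z.1.2)).length))) :=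
    hA'.comp (hin'.pair hr)
  have hge : PT (fun z : (MGraph × List Bool) × List Bool => (z.1.1, fpras_e z.1.2)) :=
    PT.fst.comp_fst.pair (fpras_PTe PT.fst.comp_snd)
  have hNz := hN.comp hge
  have hDz := hD.comp hge
  have hM := (h _ _ _ hNz (fpras_PTnum ha)).2.2.1
  have hY := (h _ _ _ hDz ha.ratParts.comp_snd).2.2.1
  have hlen : PT (fun z : (MGraph × List Bool) × List Bool => U.mk z.1.2.length) :=
    PT.length PT.fst.comp_snd
  have hB := fpras_PTround h h2 hM hY hlen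
  refine ⟨_, p.comp Q, hB.isPolyTime, fun G e => ?_⟩
  have hle : p.eval (size (f (G, fpras_e e), fpras_e e)) ≤ (p.comp Q).eval (size (G, e)) := by
    rw [Polynomial.eval_comp]
    exact poly_mono p (hQ (G, e))
  have h1 := hprob (f (G, fpras_e e)) (fpras_e e)
  rw [← prob_take hle] at h1
  refine h1.trans (prob_mono fun r hr => ?_)
  simp only
  change ((fpras_round (N (G, fpras_e e) *
      (A ((f (G, fpras_e e), fpras_e e),
        r.take (p.eval (size (f (G, fpras_e e), fpras_e e))))).num.toNat)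
      (D (G, fpras_e e) * (A ((f (G, fpras_e e), fpras_e e),
        r.take (p.eval (size (f (G, fpras_e e), fpras_e e))))).den) e.length : ℚ) : ℝ) ∈ _
  generalize A ((f (G, fpras_e e), fpras_e e),
        r.take (p.eval (size (f (G, fpras_e e), fpras_e e)))) = a at hr ⊢
  obtain ⟨hD0, hr1, hr2⟩ := hred G (fpras_e e)
  simp only at hr1 hr2
  have hT' := hpos G
  generalize hTT : tutte G x' y' = T' at hT' hr1 hr2 ⊢
  generalize hTT2 : tutte (f (G, fpras_e e)) x y = T at hr hr1 hr2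
  generalize N (G, fpras_e e) = N' at hr1 hr2 ⊢
  generalize D (G, fpras_e e) = D' at hD0 hr1 hr2 ⊢
  rw [fpras_e_eps] at hr hr1 hr2
  set ε : ℝ := 1 / ((e.length : ℝ) + 2) with hε
  have hε0 : 0 < ε := by positivity
  have hD1 : (0 : ℝ) < D' := by exact_mod_cast hD0
  have hle1 : exp (-ε) ≤ exp ε := exp_le_exp.2 (by linarith)
  rcases hT'.eq_or_lt with h0 | h0
  · -- the value is zero
    rw [← h0, mul_zero] at hr1 hr2
    rw [← h0, mul_zero, mul_zero]
    have hz : (N' : ℝ) / D' * T = 0 := le_antisymm (by simpa using hr2) (by simpa using hr1)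
    have hzero : N' * a.num.toNat = 0 := by
      rcases mul_eq_zero.1 hz with hz | hz
      · have : (N' : ℝ) = 0 := by
          rcases div_eq_zero_iff.1 hz with hz | hz
          · exact hz
          · exact absurd hz hD1.ne'
        have : N' = 0 := by exact_mod_cast this
        rw [this, zero_mul]
      · rw [hz, mul_zero, mul_zero] at hr
        have : (a : ℝ) = 0 := by simpa using hr
        have : a = 0 := by exact_mod_cast this
        rw [this]
        simp
    rw [hzero]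
    simp [fpras_round]
  · have hpos1 : 0 < (N' : ℝ) / D' * T := lt_of_lt_of_le (by positivity) hr1
    have hN0 : (0 : ℝ) < (N' : ℝ) / D' := by
      refine lt_of_le_of_ne (by positivity) fun hz => ?_
      rw [← hz, zero_mul] at hpos1
      exact lt_irrefl _ hpos1
    have hT0 : 0 < T := (mul_pos_iff_of_pos_left hN0).1 hpos1
    rw [Set.mem_uIcc] at hr
    have hmono : exp (-(ε / 3)) * T ≤ exp (ε / 3) * T :=
      mul_le_mul_of_nonneg_right (exp_le_exp.2 (by linarith)) hT0.le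
    have hr3 : exp (-(ε / 3)) * T ≤ (a : ℝ) ∧ (a : ℝ) ≤ exp (ε / 3) * T := by
      rcases hr with hr | hr
      · exact hr
      · exact ⟨by linarith [hr.1], by linarith [hr.2]⟩
    have ha0 : (0 : ℝ) < a := lt_of_lt_of_le (by positivity) hr3.1
    have ha1 : 0 < a := by exact_mod_cast ha0
    have hnum : 0 < a.num := Rat.num_pos.2 ha1
    have hN1 : 0 < N' := by
      rcases Nat.eq_zero_or_pos N' with hz | hz
      · rw [hz] at hN0
        simp at hN0
      · exact hz
    have hM0 : 0 < N' * a.num.toNat := Nat.mul_pos hN1 (by omega)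
    have hY0 : 0 < D' * a.den := Nat.mul_pos hD0 a.den_pos
    have hspec := fpras_round_spec hM0 hY0 e.length
    rw [← hε] at hspec
    have hval : (((N' * a.num.toNat : ℕ) : ℝ) / ((D' * a.den : ℕ) : ℝ)) =
        (N' : ℝ) / D' * a := by
      have h3 : ((a.num.toNat : ℕ) : ℝ) = (a.num : ℝ) := by
        have : ((a.num.toNat : ℕ) : ℤ) = a.num := Int.toNat_of_nonneg hnum.le
        exact_mod_cast this
      push_cast
      rw [h3, mul_div_mul_comm, ← Rat.cast_def]
    rw [hval] at hspec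
    have e1 : exp (-ε) * T' = exp (-(ε / 3)) * (exp (-(ε / 3)) * (exp (-(ε / 3)) * T')) := by
      rw [← mul_assoc, ← mul_assoc, ← exp_add, ← exp_add]
      congr 2
      ring
    have e2 : exp ε * T' = exp (ε / 3) * (exp (ε / 3) * (exp (ε / 3) * T')) := by
      rw [← mul_assoc, ← mul_assoc, ← exp_add, ← exp_add]
      congr 2
      ring
    rw [Set.mem_uIcc]
    left
    constructor
    · rw [e1]
      refine le_trans ?_ hspec.1
      apply mul_le_mul_of_nonneg_left _ (exp_pos _).le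
      calc exp (-(ε / 3)) * (exp (-(ε / 3)) * T') ≤ exp (-(ε / 3)) * ((N' : ℝ) / D' * T) :=
            mul_le_mul_of_nonneg_left hr1 (exp_pos _).le
        _ = (N' : ℝ) / D' * (exp (-(ε / 3)) * T) := by ring
        _ ≤ (N' : ℝ) / D' * a := mul_le_mul_of_nonneg_left hr3.1 hN0.le
    · rw [e2]
      refine le_trans hspec.2 ?_
      apply mul_le_mul_of_nonneg_left _ (exp_pos _).le
      calc (N' : ℝ) / D' * a ≤ (N' : ℝ) / D' * (exp (ε / 3) * T) :=
            mul_le_mul_of_nonneg_left hr3.2 hN0.le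
        _ = exp (ε / 3) * ((N' : ℝ) / D' * T) := by ring
        _ ≤ exp (ε / 3) * (exp (ε / 3) * T') := mul_le_mul_of_nonneg_left hr2 (exp_pos _).le

end Pool.Agent.TutteEq
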