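import Pool.Agent.TutteEq.Stmts2
import Pool.Agent.TutteEq.Pert

/-!
# A lower bound at the chromatic point
-/

set_option autoImplicit false

namespace Pool.Agent.TutteEq

open Pool.Agent.PT Pool.Agent.TutteHard Real Relation

theorem lower_aux {α : Type} [DecidableEq α] {q : ℝ} (hq0 : 0 < q) (hq1 : q < 1)
    {V : Finset α} (G : List (α × α)) (hG : EndsIn V G) (hl : ∀ e ∈ G, e.1 ≠ e.2) :
    (1 - q) ^ G.length * q ^ comps V G ≤ pertF q V [] (SP.wtd (-1) G) := by
  induction G with
  | nil =>
    have h1 : SP.wtd (-1) ([] : List (α × α)) = [] := rfl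
    rw [h1]
    unfold pertF
    rw [Z_nil, List.map_nil, List.append_nil, comps_nil, List.length_nil, pow_zero, one_mul]
    have h2 : Even (V.card + V.card) := ⟨_, rfl⟩
    rw [h2.neg_one_pow, one_mul]
  | cons e G ih =>
    obtain ⟨a, b⟩ := e
    have he := hG (a, b) List.mem_cons_self
    have hab : a ≠ b := hl (a, b) List.mem_cons_self
    have hG' : EndsIn V G := fun f hf => hG f (List.mem_cons_of_mem _ hf)
    have ih' := ih hG' (fun f hf => hl f (List.mem_cons_of_mem _ hf))
    have e1 : SP.wtd (-1) ((a, b) :: G) = ((a, b), (-1 : ℝ)) :: SP.wtd (-1) G := rfl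
    have hL : EndsW V (SP.wtd (-1) G) := by
      intro f hf
      obtain ⟨g, hg, rfl⟩ := List.mem_map.1 hf
      exact hG' g hg
    have hw : ∀ f ∈ SP.wtd (-1) G, -1 ≤ f.2 ∧ f.2 ≤ -q := by
      intro f hf
      obtain ⟨g, _, rfl⟩ := List.mem_map.1 hf
      constructor
      · simp only; linarith
      · simp only; linarith
    have hB := pertF_nonneg hq0 (SP.wtd (-1) G) [(a, b)] hL hw
    have h0 : ¬ EqvGen (rel V []) ⟨a, he.1⟩ ⟨b, he.2⟩ := fun h =>
      hab (congrArg Subtype.val (pert_eqv_nil h))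
    have hq2 : 0 < 1 - q := by linarith
    rw [e1, List.length_cons, pow_succ]
    by_cases h : EqvGen (rel V ((SP.wtd (-1) G).map Prod.fst ++ [])) ⟨a, he.1⟩ ⟨b, he.2⟩
    · rw [pertF_other q (-1) he.1 he.2 _ [] h0 h]
      rw [pert_wtd_fst, List.append_nil] at h
      rw [comps_cons_of_eqv he.1 he.2 h]
      have h3 : 0 ≤ (1 - q) ^ G.length * q ^ comps V G :=
        mul_nonneg (pow_nonneg hq2.le _) (pow_nonneg hq0.le _)
      nlinarith
    · have hbr := pertF_bridge q (-1) he.1 he.2 (SP.wtd (-1) G) [] h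
      have hZ := pert_Z_bridge q he.1 he.2 (SP.wtd (-1) G) [] h
      have h5 : pertF q V [] (SP.wtd (-1) G) = q * pertF q V [(a, b)] (SP.wtd (-1) G) := by
        unfold pertF
        rw [hZ, pert_comps_swap, comps_cons_of_not_eqv he.1 he.2 h0,
          comps_cons_of_not_eqv he.1 he.2 h, pow_add, pow_add, pow_add, pow_add]
        ring
      rw [hbr]
      rw [pert_wtd_fst, List.append_nil] at h
      rw [comps_cons_of_not_eqv he.1 he.2 h, h5, pow_succ] at ih'
      have h6 : (1 - q) ^ G.length * q ^ comps V ((a, b) :: G) ≤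
          pertF q V [(a, b)] (SP.wtd (-1) G) := by
        have h7 : q * ((1 - q) ^ G.length * q ^ comps V ((a, b) :: G)) ≤
            q * pertF q V [(a, b)] (SP.wtd (-1) G) := by
          calc q * ((1 - q) ^ G.length * q ^ comps V ((a, b) :: G)) =
              (1 - q) ^ G.length * (q ^ comps V ((a, b) :: G) * q) := by ring
            _ ≤ _ := ih'
        exact le_of_mul_le_mul_left h7 hq0
      calc (1 - q) ^ G.length * (1 - q) * q ^ comps V ((a, b) :: G) =
          (1 - q) * ((1 - q) ^ G.length * q ^ comps V ((a, b) :: G)) := by ring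
        _ ≤ (1 - q) * pertF q V [(a, b)] (SP.wtd (-1) G) :=
            mul_le_mul_of_nonneg_left h6 hq2.le
        _ = _ := by ring

theorem lower : S_Lower := by
  intro G q hq0 hq1 hl
  rw [pert_Zt, le_div_iff₀ (pow_pos hq0 _)]
  exact lower_aux hq0 hq1 G (endsIn_verts G) (fun e he h => hl ⟨e, he, h⟩)

end Pool.Agent.TutteEq
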