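import Pool.Agent.TutteEq.Stmts

/-!
# Module Par: the logarithms of the effective parameters are Lipschitz near the target
-/

set_option autoImplicit false

namespace Pool.Agent.TutteEq

open Real

/-- `F` is positive at `τ` and just below, and `log F` is Lipschitz there -/
def ParQ (τ : ℝ) (F : ℝ → ℝ) : Prop :=
  0 < F τ ∧ ∃ Λ η : ℝ, 0 < Λ ∧ 0 < η ∧ ∀ s : ℝ, s ≤ τ → τ - s ≤ η →
    0 < F s ∧ exp (-(Λ * (τ - s))) * F τ ≤ F s ∧ F s ≤ exp (Λ * (τ - s)) * F τ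

theorem par_lin (τ A B : ℝ) (h : 0 < A + B * τ) : ParQ τ (fun s => A + B * s) := by
  refine ⟨h, ?_⟩
  set f := A + B * τ with hf
  set M : ℝ := |B| + 1 with hM
  have hM0 : 0 < M := by positivity
  refine ⟨2 * M / f, f / (2 * M), by positivity, by positivity, ?_⟩
  intro s hs hη
  have hd : 0 ≤ τ - s := by linarith
  have hB : |B * (τ - s)| ≤ M * (τ - s) := by
    rw [abs_mul, abs_of_nonneg hd]
    exact mul_le_mul_of_nonneg_right (by linarith) hd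
  have hB' := abs_le.mp hB
  have hMd : M * (τ - s) ≤ f / 2 := by
    rw [le_div_iff₀ (by positivity)] at hη
    linarith
  have hFs : A + B * s = f - B * (τ - s) := by rw [hf]; ring
  set y := 2 * M / f * (τ - s) with hy
  have hy0 : 0 ≤ y := by positivity
  have hyf : y * f = 2 * (M * (τ - s)) := by
    rw [hy]; field_simp
  have hy1 : y ≤ 1 := by
    by_contra hc
    push Not at hc
    nlinarith
  have he : 1 + y ≤ exp y := by
    have := add_one_le_exp y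
    linarith
  have hs1 : f - M * (τ - s) ≤ A + B * s := by rw [hFs]; linarith [hB'.2]
  have hs2 : A + B * s ≤ f + M * (τ - s) := by rw [hFs]; linarith [hB'.1]
  refine ⟨by linarith, ?_, ?_⟩
  · show exp (-y) * f ≤ A + B * s
    rw [exp_neg]
    have h1 : (exp y)⁻¹ ≤ 1 - y / 2 := by
      rw [inv_le_iff_one_le_mul₀ (exp_pos y)]
      nlinarith
    calc (exp y)⁻¹ * f ≤ (1 - y / 2) * f := mul_le_mul_of_nonneg_right h1 h.le
      _ = f - M * (τ - s) := by linear_combination (-1 / 2 : ℝ) * hyf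
      _ ≤ A + B * s := hs1
  · show A + B * s ≤ exp y * f
    calc A + B * s ≤ f + M * (τ - s) := hs2
      _ ≤ (1 + y) * f := by nlinarith [mul_nonneg hM0.le hd]
      _ ≤ exp y * f := mul_le_mul_of_nonneg_right he h.le

theorem par_mul {τ : ℝ} {F G : ℝ → ℝ} (hF : ParQ τ F) (hG : ParQ τ G) :
    ParQ τ (fun s => F s * G s) := by
  obtain ⟨hF0, Λ₁, η₁, hΛ₁, hη₁, h₁⟩ := hF
  obtain ⟨hG0, Λ₂, η₂, hΛ₂, hη₂, h₂⟩ := hG
  refine ⟨mul_pos hF0 hG0, Λ₁ + Λ₂, min η₁ η₂, by positivity, lt_min hη₁ hη₂, ?_⟩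
  intro s hs hη
  obtain ⟨a1, a2, a3⟩ := h₁ s hs (hη.trans (min_le_left _ _))
  obtain ⟨b1, b2, b3⟩ := h₂ s hs (hη.trans (min_le_right _ _))
  refine ⟨mul_pos a1 b1, ?_, ?_⟩
  · have : exp (-((Λ₁ + Λ₂) * (τ - s))) * (F τ * G τ) =
        (exp (-(Λ₁ * (τ - s))) * F τ) * (exp (-(Λ₂ * (τ - s))) * G τ) := by
      rw [show -((Λ₁ + Λ₂) * (τ - s)) = -(Λ₁ * (τ - s)) + -(Λ₂ * (τ - s)) by ring, exp_add]
      ring
    rw [this]
    exact mul_le_mul a2 b2 (by positivity) a1.le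
  · have : exp ((Λ₁ + Λ₂) * (τ - s)) * (F τ * G τ) =
        (exp (Λ₁ * (τ - s)) * F τ) * (exp (Λ₂ * (τ - s)) * G τ) := by
      rw [show (Λ₁ + Λ₂) * (τ - s) = Λ₁ * (τ - s) + Λ₂ * (τ - s) by ring, exp_add]
      ring
    rw [this]
    exact mul_le_mul a3 b3 b1.le (by positivity)

theorem par_inv {τ : ℝ} {F : ℝ → ℝ} (hF : ParQ τ F) : ParQ τ (fun s => (F s)⁻¹) := by
  obtain ⟨hF0, Λ₁, η₁, hΛ₁, hη₁, h₁⟩ := hF
  refine ⟨inv_pos.mpr hF0, Λ₁, η₁, hΛ₁, hη₁, ?_⟩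
  intro s hs hη
  obtain ⟨a1, a2, a3⟩ := h₁ s hs hη
  have e1 : exp (-(Λ₁ * (τ - s))) = (exp (Λ₁ * (τ - s)))⁻¹ := exp_neg _
  have e0 : 0 < exp (Λ₁ * (τ - s)) := exp_pos _
  refine ⟨inv_pos.mpr a1, ?_, ?_⟩
  · rw [e1, ← mul_inv]
    exact inv_anti₀ a1 a3
  · rw [e1] at a2
    have h2 : F τ ≤ exp (Λ₁ * (τ - s)) * F s := by
      have := mul_le_mul_of_nonneg_left a2 e0.le
      rwa [← mul_assoc, mul_inv_cancel₀ e0.ne', one_mul] at this
    show (F s)⁻¹ ≤ exp (Λ₁ * (τ - s)) * (F τ)⁻¹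
    rw [← div_eq_mul_inv, inv_eq_one_div, div_le_div_iff₀ a1 hF0]
    linarith

theorem par_congr {τ : ℝ} {F G : ℝ → ℝ} (hF : ParQ τ F) (h : ∀ s ≤ τ, G s = F s) :
    ParQ τ G := by
  obtain ⟨hF0, Λ₁, η₁, hΛ₁, hη₁, h₁⟩ := hF
  refine ⟨by rw [h τ le_rfl]; exact hF0, Λ₁, η₁, hΛ₁, hη₁, ?_⟩
  intro s hs hη
  rw [h s hs, h τ le_rfl]
  exact h₁ s hs hη

theorem par : S_Par := by
  intro q hq hq1 j τ hτ hτ1
  set a : ℝ := (1 - q) ^ j with ha
  set c : ℝ := (1 - q) / (2 - q) with hc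
  have hc0 : 0 < c := div_pos (by linarith) (by linarith)
  have hc1 : c < 1 := by rw [hc, div_lt_one (by linarith)]; linarith
  have ha0 : 0 < a := pow_pos (by linarith) _
  have ha1 : a ≤ 1 := pow_le_one₀ (by linarith) (by linarith)
  have hL1 : ∀ s ≤ τ, 0 < 1 - c * s := by
    intro s hs
    by_cases h0 : 0 ≤ s
    · nlinarith
    · push Not at h0; nlinarith
  have hx0 : ∀ s ≤ τ, x0 q s = (1 - q - c * s) / (1 - c * s) := by
    intro s hs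
    have h1 := hL1 s hs
    have h2 : c * s - 1 ≠ 0 := by linarith
    have h3 : (1 - c * s) ≠ 0 := h1.ne'
    have h4 : x0 q s = 1 + q / (c * s - 1) := rfl
    have h5 : q / (c * s - 1) = -q / (1 - c * s) := by
      rw [div_eq_div_iff h2 h3]; ring
    rw [h4, h5, eq_div_iff h3, add_mul, div_mul_cancel₀ _ h3]
    ring
  -- the linear functions
  have hq2 : 0 < 1 - q := by linarith
  have hcτ : c * τ < 1 - q := by
    have h1 : c * (2 - q) = 1 - q := by rw [hc]; field_simp [show (2 - q) ≠ 0 by linarith]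
    have h2 : c * τ ≤ c := by nlinarith
    nlinarith
  have Q1 : ParQ τ (fun s => 1 + (-c) * s) := par_lin τ 1 (-c) (by linarith [hL1 τ le_rfl])
  have Q2 : ParQ τ (fun s => (1 - q) + (-c) * s) := par_lin τ (1 - q) (-c) (by linarith)
  have Q3 : ParQ τ (fun s => (1 - a * (1 - q)) + (-((1 - a) * c)) * s) := by
    apply par_lin
    have := hL1 τ le_rfl
    have e : 1 - a * (1 - q) + -((1 - a) * c) * τ = (1 - a) * (1 - c * τ) + a * q := by ring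
    rw [e]
    have h1 : 0 ≤ (1 - a) * (1 - c * τ) := mul_nonneg (by linarith) this.le
    have h2 : 0 < a * q := mul_pos ha0 hq
    linarith
  have Q4 : ParQ τ (fun s => ((1 - q) * (1 - a)) + (-((1 - q - a) * c)) * s) := by
    apply par_lin
    have e : (1 - q) * (1 - a) + -((1 - q - a) * c) * τ = (1 - q - a) * (1 - c * τ) + a * q := by
      ring
    rw [e]
    have h2 : 0 < a * q := mul_pos ha0 hq
    rcases Nat.eq_zero_or_pos j with hj | hj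
    · have : a = 1 := by rw [ha, hj, pow_zero]
      rw [this]
      have : 0 < q * (c * τ) := by positivity
      nlinarith
    · have h3 : a ≤ 1 - q := by
        calc a = (1 - q) ^ j := ha
          _ ≤ (1 - q) ^ 1 := pow_le_pow_of_le_one hq2.le (by linarith) hj
          _ = 1 - q := pow_one _
      have h1 : 0 ≤ (1 - q - a) * (1 - c * τ) := mul_nonneg (by linarith) (hL1 τ le_rfl).le
      linarith
  have Qw : ParQ τ (fun s => q + 0 * s) := par_lin τ q 0 (by linarith)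
  have Qa : ParQ τ (fun s => a + 0 * s) := par_lin τ a 0 (by linarith)
  have e3 : ∀ s ≤ τ, 1 - a * x0 q s =
      ((1 - a * (1 - q)) + (-((1 - a) * c)) * s) / (1 - c * s) := by
    intro s hs
    have h3 : (1 - c * s) ≠ 0 := (hL1 s hs).ne'
    rw [hx0 s hs, eq_div_iff h3, sub_mul, mul_assoc, div_mul_cancel₀ _ h3]
    ring
  have e1 : ∀ s ≤ τ, 1 - x0 q s = q / (1 - c * s) := by
    intro s hs
    have h3 : (1 - c * s) ≠ 0 := (hL1 s hs).ne'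
    rw [hx0 s hs, eq_div_iff h3, sub_mul, div_mul_cancel₀ _ h3]
    ring
  have et : ∀ s ≤ τ, tE q j s =
      q * (1 - c * s) / ((1 - a * (1 - q)) + (-((1 - a) * c)) * s) := by
    intro s hs
    rw [tE, ← ha, e3 s hs, div_div_eq_mul_div]
  have T1 : ParQ τ (fun s => tE q j s) := by
    refine par_congr (par_mul (par_mul Qw Q1) (par_inv Q3)) ?_
    intro s hs
    rw [et s hs, div_eq_mul_inv]
    ring
  have hr : ∀ s ≤ τ, rE q j s = ((1 - a * (1 - q)) + (-((1 - a) * c)) * s) / q := by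
    intro s hs
    have h3 : (1 - c * s) ≠ 0 := (hL1 s hs).ne'
    rw [rE, ← ha, e3 s hs, e1 s hs, div_div_div_cancel_right₀ h3]
  have T4 : ParQ τ (fun s => rE q j s) := by
    refine par_congr (par_mul Q3 (par_inv Qw)) ?_
    intro s hs
    rw [hr s hs, div_eq_mul_inv]
    ring
  -- `1 - tE` and `tE - q`
  obtain ⟨p3, Λ₃, η₃, hΛ₃, hη₃, h₃⟩ := Q3
  have T2' : ParQ τ (fun s => (((1 - q) * (1 - a)) + (-((1 - q - a) * c)) * s) *
      (((1 - a * (1 - q)) + (-((1 - a) * c)) * s))⁻¹) :=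
    par_mul Q4 (par_inv ⟨p3, Λ₃, η₃, hΛ₃, hη₃, h₃⟩)
  have T3' : ParQ τ (fun s => ((q + 0 * s) * (a + 0 * s) * ((1 - q) + (-c) * s)) *
      (((1 - a * (1 - q)) + (-((1 - a) * c)) * s))⁻¹) :=
    par_mul (par_mul (par_mul Qw Qa) Q2) (par_inv ⟨p3, Λ₃, η₃, hΛ₃, hη₃, h₃⟩)
  have i2 : ∀ s ≤ τ, 0 < (1 - a * (1 - q)) + (-((1 - a) * c)) * s →
      1 - tE q j s = (((1 - q) * (1 - a)) + (-((1 - q - a) * c)) * s) *
      (((1 - a * (1 - q)) + (-((1 - a) * c)) * s))⁻¹ := by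
    intro s hs hpos
    rw [et s hs, ← div_eq_mul_inv, eq_div_iff hpos.ne', sub_mul, div_mul_cancel₀ _ hpos.ne']
    ring
  have i3 : ∀ s ≤ τ, 0 < (1 - a * (1 - q)) + (-((1 - a) * c)) * s →
      tE q j s - q = ((q + 0 * s) * (a + 0 * s) * ((1 - q) + (-c) * s)) *
      (((1 - a * (1 - q)) + (-((1 - a) * c)) * s))⁻¹ := by
    intro s hs hpos
    rw [et s hs, ← div_eq_mul_inv, eq_div_iff hpos.ne', sub_mul, div_mul_cancel₀ _ hpos.ne']
    ring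
  obtain ⟨p1, Λ₁, η₁, hΛ₁, hη₁, h₁⟩ := T1
  obtain ⟨p4, Λ₄, η₄, hΛ₄, hη₄, h₄⟩ := T4
  obtain ⟨p2, Λ₂, η₂, hΛ₂, hη₂, h₂⟩ := T2'
  obtain ⟨p5, Λ₅, η₅, hΛ₅, hη₅, h₅⟩ := T3'
  have Qs : ParQ τ (fun s => 0 + 1 * s) := par_lin τ 0 1 (by linarith)
  obtain ⟨p6, Λ₆, η₆, hΛ₆, hη₆, h₆⟩ := Qs
  set Λ := Λ₁ + Λ₂ + Λ₄ + Λ₅ with hΛ
  refine ⟨Λ, min (min (min η₁ η₂) (min η₃ η₄)) (min η₅ η₆), by positivity, by positivity, ?_⟩
  intro s hs hη
  simp only [le_min_iff] at hη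
  obtain ⟨⟨⟨g1, g2⟩, g3, g4⟩, g5, g6⟩ := hη
  obtain ⟨a1, a2, a3⟩ := h₁ s hs g1
  obtain ⟨b1, b2, b3⟩ := h₂ s hs g2
  obtain ⟨c1, c2, c3⟩ := h₄ s hs g4
  obtain ⟨d1, d2, d3⟩ := h₅ s hs g5
  obtain ⟨f1, -, -⟩ := h₃ s hs g3
  obtain ⟨s1, -, -⟩ := h₆ s hs g6
  simp only at a1 a2 a3 b1 b2 b3 c1 c2 c3 d1 d2 d3 f1 s1 p1 p2 p3 p4 p5
  rw [← i2 s hs f1] at b1 b2 b3
  rw [← i2 τ le_rfl p3] at b2 b3 p2
  rw [← i3 s hs f1] at d1 d2 d3
  rw [← i3 τ le_rfl p3] at d2 d3 p5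
  have hd : 0 ≤ τ - s := by linarith
  have up : ∀ (L : ℝ), L ≤ Λ → exp (L * (τ - s)) ≤ exp (Λ * (τ - s)) := fun L hL =>
    exp_le_exp.mpr (mul_le_mul_of_nonneg_right hL hd)
  have dn : ∀ (L : ℝ), L ≤ Λ → exp (-(Λ * (τ - s))) ≤ exp (-(L * (τ - s))) := fun L hL =>
    exp_le_exp.mpr (neg_le_neg (mul_le_mul_of_nonneg_right hL hd))
  have l1 : Λ₁ ≤ Λ := by rw [hΛ]; linarith
  have l2 : Λ₂ ≤ Λ := by rw [hΛ]; linarith
  have l4 : Λ₄ ≤ Λ := by rw [hΛ]; linarith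
  have l5 : Λ₅ ≤ Λ := by rw [hΛ]; linarith
  refine ⟨by linarith, by linarith, by linarith, c1, ?_, ?_, ?_, ?_, ?_, ?_, ?_, ?_⟩
  · exact (mul_le_mul_of_nonneg_right (dn _ l1) p1.le).trans a2
  · exact a3.trans (mul_le_mul_of_nonneg_right (up _ l1) p1.le)
  · exact (mul_le_mul_of_nonneg_right (dn _ l2) p2.le).trans b2
  · exact b3.trans (mul_le_mul_of_nonneg_right (up _ l2) p2.le)
  · exact (mul_le_mul_of_nonneg_right (dn _ l5) p5.le).trans d2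
  · exact d3.trans (mul_le_mul_of_nonneg_right (up _ l5) p5.le)
  · exact (mul_le_mul_of_nonneg_right (dn _ l4) p4.le).trans c2
  · exact c3.trans (mul_le_mul_of_nonneg_right (up _ l4) p4.le)

end Pool.Agent.TutteEq
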