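import Pool.Agent.TutteEq.Stmts

/-!
# Module Par2: the targets
-/

set_option autoImplicit false

namespace Pool.Agent.TutteEq

theorem par2 : S_Par2 := by
  classical
  intro q x hq hq1 hx hx1
  have h1q : (0 : ℚ) < 1 - q := by linarith
  have hex : ∃ n : ℕ, (1 - q) ^ (n + 2) ≤ x := by
    obtain ⟨n, hn⟩ := exists_pow_lt_of_lt_one hx (by linarith : 1 - q < 1)
    exact ⟨n, le_trans (pow_le_pow_of_le_one h1q.le (by linarith) (by omega)) hn.le⟩
  obtain ⟨j, hj1, hj2⟩ : ∃ j : ℕ, (1 - q) ^ (j + 2) ≤ x ∧ x < (1 - q) ^ (j + 1) := by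
    refine ⟨Nat.find hex, Nat.find_spec hex, ?_⟩
    rcases Nat.eq_zero_or_pos (Nat.find hex) with h | h
    · rw [h]; simpa using hx1
    · have h3 := Nat.find_min hex (m := Nat.find hex - 1) (by omega)
      have e : Nat.find hex - 1 + 2 = Nat.find hex + 1 := by omega
      rw [e] at h3
      exact not_le.mp h3
  have hp : 0 < (1 - q) ^ j := pow_pos h1q j
  obtain ⟨y, hy⟩ : ∃ y : ℚ, x = (1 - q) ^ j * y := ⟨x / (1 - q) ^ j, by field_simp⟩
  have hy1 : (1 - q) ^ 2 ≤ y := by
    rw [pow_add, hy] at hj1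
    exact le_of_mul_le_mul_left hj1 hp
  have hy2 : y < 1 - q := by
    rw [pow_add, pow_one, hy] at hj2
    exact lt_of_mul_lt_mul_left hj2 hp.le
  have h1y : 0 < 1 - y := by linarith
  have h2q : 0 < 2 - q := by linarith
  have e1 : 1 + q / (y - 1) = (1 - y - q) / (1 - y) := by
    have : y - 1 ≠ 0 := by linarith
    have : 1 - y ≠ 0 := h1y.ne'
    rw [show y - 1 = -(1 - y) by ring, div_neg]
    field_simp
    ring
  refine ⟨j, (2 - q) / (1 - q) * (1 + q / (y - 1)), ?_, ?_, ?_⟩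
  · rw [e1]
    apply mul_pos (div_pos h2q h1q)
    exact div_pos (by linarith) h1y
  · rw [e1, div_mul_div_comm, div_le_one (mul_pos h1q h1y)]
    nlinarith
  · rw [hy]
    congr 1
    have hy0 : y - 1 ≠ 0 := by linarith
    have e2 : (1 - q) / (2 - q) * ((2 - q) / (1 - q) * (1 + q / (y - 1))) - 1 = q / (y - 1) := by
      have : (1 - q) / (2 - q) * ((2 - q) / (1 - q)) = 1 := by
        rw [div_mul_div_comm, mul_comm (1 - q), div_self (mul_pos h2q h1q).ne']
      rw [← mul_assoc, this]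
      ring
    rw [e2, div_div_eq_mul_div, mul_div_assoc, mul_comm q, div_mul_cancel₀ _ hq.ne']
    ring

end Pool.Agent.TutteEq
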