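import Pool.Agent.TutteEq.Stmts

/-!
# The reduction from a point with `x, y > 0` to the chromatic point
-/

set_option autoImplicit false

namespace Pool.Agent.TutteEq

open Pool.Agent.PT Pool.Agent.TutteHard Real

theorem redB_rat {r : ℚ} (hr : 0 < r) :
    ∃ a b : ℕ, 0 < a ∧ 0 < b ∧ (r : ℝ) = (a : ℝ) / (b : ℝ) := by
  refine ⟨r.num.toNat, r.den, ?_, r.den_pos, ?_⟩
  · have := Rat.num_pos.2 hr
    omega
  · have h1 : ((r.num.toNat : ℤ)) = r.num := Int.toNat_of_nonneg (Rat.num_pos.2 hr).le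
    have h2 : ((r.num.toNat : ℕ) : ℝ) = ((r.num : ℤ) : ℝ) := by
      rw [← h1]
      push_cast
      rfl
    rw [h2]
    exact Rat.cast_def r

theorem redB_gs_pos {b : ℝ} (hb : 0 < b) {K : ℕ} (hK : 1 ≤ K) : 0 < gs b K := by
  unfold gs
  apply Finset.sum_pos (fun i _ => pow_pos hb i)
  exact ⟨0, Finset.mem_range.2 hK⟩

/-- the constant of the apex network -/
theorem redB_apx_fac (q : ℝ) (K J : ℕ) (hK : 1 ≤ K) :
    (-1) ^ (NT.apx K J).cnt * (NT.apx K J).fac q = gs (2 - q) K ^ J * (2 - q) := by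
  obtain ⟨k, rfl⟩ : ∃ k, K = k + 1 := ⟨K - 1, by omega⟩
  simp only [NT.cnt, NT.fac, Nat.add_sub_cancel]
  rw [mul_pow]
  have h1 : ((-1 : ℝ) ^ (k + 1 + 1)) ^ J = (-1) ^ (J * k) := by
    rw [← pow_mul, show (k + 1 + 1) * J = J * k + 2 * J by ring, pow_add, pow_mul (-1) 2 J]
    norm_num
  have h2 : (-1 : ℝ) ^ (1 + J * k) * (-1) ^ (J * k) = -1 := by
    rw [add_comm, pow_succ, show (-1 : ℝ) ^ (J * k) * -1 * (-1) ^ (J * k) =
      -((-1 : ℝ) ^ (J * k) * (-1) ^ (J * k)) by ring, ← mul_pow]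
    norm_num
  rw [h1]
  calc (-1 : ℝ) ^ (1 + J * k) * ((-1) ^ (J * k) * gs (2 - q) (k + 1) ^ J * (q - 2)) =
      ((-1 : ℝ) ^ (1 + J * k) * (-1) ^ (J * k)) * (gs (2 - q) (k + 1) ^ J * (q - 2)) := by ring
    _ = _ := by rw [h2]; ring

/-- the value of the reduced instance -/
theorem redB_value (ht : S_TutteZt) (hc : S_Chain) (hd : S_Red) {q : ℝ} (h0 : 0 < q) (h1 : q < 1)
    (j K J : ℕ) (hK : 1 ≤ K) (G : MGraph) :
    tutte (redN ((NT.apx K J).chain j) G) (1 - q) 0 =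
      (gs (2 - q) K ^ J * (2 - q) * rE q j (fK q K ^ J)) ^ G.length *
        Zt q (tE q j (fK q K ^ J)) G := by
  have hok : (NT.apx K J).ok := hK
  obtain ⟨c1, c2, c3, c4⟩ := hc q h0 h1 (NT.apx K J) hok j
  have e1 := ht (redN ((NT.apx K J).chain j) G) q 1 h0.ne' one_ne_zero
  rw [one_pow, one_mul, div_one, sub_self] at e1
  rw [e1, (hd q h0 h1 _ c1 G).2, c4, redB_apx_fac q K J hK]
  have e2 : 1 + q / (NT.apx K J).wt q = x0 q (fK q K ^ J) := rfl
  rw [e2] at c3 ⊢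
  have e3 : -(((NT.apx K J).chain j).wt q) = tE q j (fK q K ^ J) := by
    unfold tE
    rw [← c3]
    rw [show (1 : ℝ) - (1 + q / ((NT.apx K J).chain j).wt q) =
      -(q / ((NT.apx K J).chain j).wt q) by ring]
    by_cases hz : ((NT.apx K J).chain j).wt q = 0
    · rw [hz]; simp
    · field_simp
  rw [e3]
  rfl

theorem redB (h : S_Arith) (h2 : S_Arith2) (hg : S_Gsn) (hs : S_Sel) (hr : S_Rank)
    (ht : S_TutteZt) (ho : S_Pos) (hp : S_Pert) (_hw : S_NetW) (hc : S_Chain) (hd : S_Red)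
    (hq : S_PTRed) (ha : S_Par) (hb : S_Par2) : S_RedB := by
  intro q x hq0 hq1 hx0 hx1
  have hq0' : (0 : ℝ) < (q : ℝ) := by exact_mod_cast hq0
  have hq1' : (q : ℝ) < 1 := by exact_mod_cast hq1
  have hx0' : (0 : ℝ) < (x : ℝ) := by exact_mod_cast hx0
  have hx1' : (x : ℝ) < 1 - (q : ℝ) := by exact_mod_cast hx1
  -- the target
  obtain ⟨j, τ, hτ0, hτ1, hxτ⟩ := hb q x hq0 hq1 hx0 hx1
  have hτ0' : (0 : ℝ) < (τ : ℝ) := by exact_mod_cast hτ0
  have hτ1' : (τ : ℝ) ≤ 1 := by exact_mod_cast hτ1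
  obtain ⟨Λ, η, hΛ, hη, hpar⟩ := ha (q : ℝ) hq0' hq1' j (τ : ℝ) hτ0' hτ1'
  have hxr : (x : ℝ) = (1 - (q : ℝ)) ^ j * x0 (q : ℝ) (τ : ℝ) := by
    unfold x0
    rw [hxτ]
    push_cast
    rfl
  have htE : tE (q : ℝ) j (τ : ℝ) = (q : ℝ) / (1 - (x : ℝ)) := by
    unfold tE
    rw [hxr]
  obtain ⟨-, hE1, hE2, hE3, -⟩ := hpar (τ : ℝ) le_rfl (by rw [sub_self]; exact hη.le)
  -- the constants as quotients of natural numbers
  obtain ⟨P, Q, hP, hQ, hPQ⟩ := redB_rat (r := 2 - q) (by linarith)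
  push_cast at hPQ
  obtain ⟨a, b, hapos, hbpos, hab⟩ :=
    redB_rat (r := (1 - x) / (1 - (1 + q / ((1 - q) / (2 - q) * τ - 1)))) (by
      have : rE (q : ℝ) j (τ : ℝ) =
          (((1 - x) / (1 - (1 + q / ((1 - q) / (2 - q) * τ - 1))) : ℚ) : ℝ) := by
        unfold rE
        rw [← hxr]
        unfold x0
        push_cast
        rfl
      rw [this] at hE3
      exact_mod_cast hE3)
  have hrE : rE (q : ℝ) j (τ : ℝ) = (a : ℝ) / (b : ℝ) := by
    rw [← hab]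
    unfold rE
    rw [← hxr]
    unfold x0
    push_cast
    rfl
  obtain ⟨a', b', ha'pos, hb'pos, hab'⟩ := redB_rat (r := q / (1 - x)) (by
    apply div_pos hq0
    linarith)
  have htE' : tE (q : ℝ) j (τ : ℝ) = (a' : ℝ) / (b' : ℝ) := by
    rw [htE, ← hab']
    push_cast
    rfl
  -- the accuracy
  obtain ⟨c, hc1⟩ := exists_nat_ge (max (2 * Λ) (max (1 / η) 1))
  have hcΛ : 2 * Λ ≤ (c : ℝ) := (le_max_left _ _).trans hc1
  have hcη : 1 / η ≤ (c : ℝ) := ((le_max_left _ _).trans (le_max_right _ _)).trans hc1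
  have hcone : (1 : ℝ) ≤ (c : ℝ) := ((le_max_right _ _).trans (le_max_right _ _)).trans hc1
  have hcone' : 1 ≤ c := by exact_mod_cast hcone
  obtain ⟨Ks, Js, hKs, hJs, hsel⟩ := hs q τ hq0 hq1 hτ0 hτ1 c hcone'
  -- unary numbers computed from the input
  have pM : PT (fun z : MGraph × List Bool => U.mk ((z.1.length + 1) * (z.2.length + 2))) :=
    ((PT.length PT.fst).usucc).umul (((PT.length PT.snd).usucc).usucc)
  have pK : PT (fun z : MGraph × List Bool =>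
      U.mk (Ks ((z.1.length + 1) * (z.2.length + 2)))) := hKs.comp pM
  have pJ : PT (fun z : MGraph × List Bool =>
      U.mk (Js ((z.1.length + 1) * (z.2.length + 2)))) := hJs.comp pM
  have pm : PT (fun z : MGraph × List Bool => U.mk z.1.length) := PT.length PT.fst
  have pr : PT (fun z : MGraph × List Bool => U.mk (rank z.1 Finset.univ)) := hr.1.comp PT.fst
  have pK1 : PT (fun z : MGraph × List Bool =>
      U.mk (Ks ((z.1.length + 1) * (z.2.length + 2)) - 1)) := pK.usub (PT.const (U.mk 1))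
  -- the numerator and the denominator
  have pow' : ∀ {f : MGraph × List Bool → ℕ} {e : MGraph × List Bool → U}, PT f → PT e →
      PT (fun z => f z ^ (e z).val) := fun hf he => h2.2.1 _ _ _ hf he
  have mul' : ∀ {f g : MGraph × List Bool → ℕ}, PT f → PT g → PT (fun z => f z * g z) :=
    fun hf hg => (h _ _ _ hf hg).2.2.1
  have pgsn : PT (fun z : MGraph × List Bool =>
      gsn P Q (Ks ((z.1.length + 1) * (z.2.length + 2)))) := (hg P Q hQ).1.comp pK
  have pN : PT (fun z : MGraph × List Bool =>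
      Q ^ ((Ks ((z.1.length + 1) * (z.2.length + 2)) - 1) *
          (Js ((z.1.length + 1) * (z.2.length + 2)) * z.1.length)) *
        ((Q * b) ^ z.1.length * b' ^ rank z.1 Finset.univ)) :=
    mul' (pow' (PT.const Q) (pK1.umul (pJ.umul pm)))
      (mul' (pow' (PT.const (Q * b)) pm) (pow' (PT.const b') pr))
  have pD : PT (fun z : MGraph × List Bool =>
      gsn P Q (Ks ((z.1.length + 1) * (z.2.length + 2))) ^
          (Js ((z.1.length + 1) * (z.2.length + 2)) * z.1.length) *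
        ((P * a) ^ z.1.length * a' ^ rank z.1 Finset.univ)) :=
    mul' (pow' pgsn (pJ.umul pm))
      (mul' (pow' (PT.const (P * a)) pm) (pow' (PT.const a') pr))
  have pf : PT (fun z : MGraph × List Bool =>
      redN ((NT.apx (Ks ((z.1.length + 1) * (z.2.length + 2)))
        (Js ((z.1.length + 1) * (z.2.length + 2)))).chain j) z.1) :=
    (hq.1 j).comp ((pK.pair pJ).pair PT.fst)
  refine ⟨_, _, _, pf, pN, pD, fun G e => ?_⟩
  simp only
  set m := G.length with hm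
  set n := e.length with hn
  set K := Ks ((m + 1) * (n + 2)) with hKdef
  set J := Js ((m + 1) * (n + 2)) with hJdef
  obtain ⟨s1, s2, s3⟩ := hsel ((m + 1) * (n + 2)) (Nat.succ_le_of_lt (by positivity))
  rw [← hKdef, ← hJdef] at s2 s3
  rw [← hKdef] at s1
  have hK1 : 1 ≤ K := by omega
  set s := fK (q : ℝ) K ^ J with hsdef
  -- the accuracy
  have hMpos : (0 : ℝ) < (((m + 1) * (n + 2) : ℕ) : ℝ) := by positivity
  have hcpos : (0 : ℝ) < (c : ℝ) := by linarith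
  have hs4 : (τ : ℝ) - s ≤ η := by
    refine s3.trans ?_
    have hM1 : (1 : ℝ) ≤ (((m + 1) * (n + 2) : ℕ) : ℝ) := by
      exact_mod_cast Nat.succ_le_of_lt (show 0 < (m + 1) * (n + 2) by positivity)
    calc 1 / ((c : ℝ) * (((m + 1) * (n + 2) : ℕ) : ℝ)) ≤ 1 / (c : ℝ) := by
          apply one_div_le_one_div_of_le hcpos
          nlinarith
      _ ≤ η := by
          rw [div_le_iff₀ hcpos]
          rw [div_le_iff₀ hη] at hcη
          linarith
  obtain ⟨p1, p2, p3, p4, p5, p6, p7, p8, p9, p10, p11, p12⟩ := hpar s s2 hs4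
  set δ := Λ * ((τ : ℝ) - s) with hδ
  have hδ0 : 0 ≤ δ := mul_nonneg hΛ.le (by linarith)
  have hmδ : 2 * ((m : ℝ) * δ) ≤ 1 / ((n : ℝ) + 2) := by
    have h5 : δ ≤ 1 / (2 * (((m : ℝ) + 1) * ((n : ℝ) + 2))) := by
      calc δ ≤ Λ * (1 / ((c : ℝ) * (((m + 1) * (n + 2) : ℕ) : ℝ))) :=
            mul_le_mul_of_nonneg_left s3 hΛ.le
        _ ≤ ((c : ℝ) / 2) * (1 / ((c : ℝ) * (((m + 1) * (n + 2) : ℕ) : ℝ))) := by
            apply mul_le_mul_of_nonneg_right (by linarith) (by positivity)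
        _ = _ := by
            push_cast
            field_simp
    have h6 : (m : ℝ) * δ ≤ (m : ℝ) * (1 / (2 * (((m : ℝ) + 1) * ((n : ℝ) + 2)))) :=
      mul_le_mul_of_nonneg_left h5 (by positivity)
    have h7 : (m : ℝ) * (1 / (2 * (((m : ℝ) + 1) * ((n : ℝ) + 2)))) ≤
        1 / (2 * ((n : ℝ) + 2)) := by
      rw [mul_one_div, div_le_div_iff₀ (by positivity) (by positivity)]
      have : (0 : ℝ) ≤ (n : ℝ) := by positivity
      nlinarith
    calc 2 * ((m : ℝ) * δ) ≤ 2 * (1 / (2 * ((n : ℝ) + 2))) := by linarith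
      _ = _ := by field_simp
  have hpert := hp G (q : ℝ) (tE (q : ℝ) j s) (tE (q : ℝ) j τ) δ hq0' hq1' hδ0 p2.le p3.le
    hE1.le hE2.le p5 p6 (fun _ => ⟨p7, p8⟩) (fun _ => ⟨p9, p10⟩)
  rw [← hm] at hpert
  have hval := redB_value ht hc hd hq0' hq1' j K J hK1 G
  rw [← hm, ← hsdef] at hval
  have hT := ht G (q : ℝ) (tE (q : ℝ) j τ) hq0'.ne' (by linarith)
  have ht1 : (1 : ℝ) - (q : ℝ) / tE (q : ℝ) j τ = (x : ℝ) := by
    rw [htE]
    have : (1 : ℝ) - (x : ℝ) ≠ 0 := by linarith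
    field_simp
    ring
  have ht2 : (1 : ℝ) - tE (q : ℝ) j τ = 1 + (q : ℝ) / ((x : ℝ) - 1) := by
    rw [htE, show (1 : ℝ) - (x : ℝ) = -((x : ℝ) - 1) by ring, div_neg]
    ring
  rw [ht1, ht2] at hT
  -- the factor
  have hPpos : (0 : ℝ) < (P : ℝ) := by exact_mod_cast hP
  have hQpos : (0 : ℝ) < (Q : ℝ) := by exact_mod_cast hQ
  have hapos' : (0 : ℝ) < (a : ℝ) := by exact_mod_cast hapos
  have hbpos' : (0 : ℝ) < (b : ℝ) := by exact_mod_cast hbpos
  have ha'pos' : (0 : ℝ) < (a' : ℝ) := by exact_mod_cast ha'pos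
  have hb'pos' : (0 : ℝ) < (b' : ℝ) := by exact_mod_cast hb'pos
  have hgsn := (hg P Q hQ).2 K hK1
  rw [← hPQ] at hgsn
  have hgspos : 0 < gs (2 - (q : ℝ)) K := redB_gs_pos (by linarith) hK1
  have hgsnpos : (0 : ℝ) < (gsn P Q K : ℝ) := by
    rw [hgsn]
    positivity
  have hgsnpos' : 0 < gsn P Q K := by exact_mod_cast hgsnpos
  have htpos : (0 : ℝ) < tE (q : ℝ) j τ := by linarith
  have hfac : ((Q ^ ((K - 1) * (J * m)) * ((Q * b) ^ m * b' ^ rank G Finset.univ) : ℕ) : ℝ) /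
      ((gsn P Q K ^ (J * m) * ((P * a) ^ m * a' ^ rank G Finset.univ) : ℕ) : ℝ) =
      1 / ((gs (2 - (q : ℝ)) K ^ J * (2 - (q : ℝ)) * rE (q : ℝ) j τ) ^ m *
        tE (q : ℝ) j τ ^ rank G Finset.univ) := by
    have e1 : (gs (2 - (q : ℝ)) K) = (gsn P Q K : ℝ) / (Q : ℝ) ^ (K - 1) := by
      rw [hgsn]
      field_simp
    rw [hrE, htE', e1, hPQ]
    push_cast
    rw [div_eq_div_iff (by positivity) (by positivity)]
    simp only [mul_pow, div_pow, ← pow_mul]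
    have e2 : (K - 1) * (J * m) = (K - 1) * J * m := by ring
    rw [e2]
    field_simp
  refine ⟨by positivity, ?_⟩
  rw [hfac, hval]
  set R := rank G Finset.univ with hR
  set g := gs (2 - (q : ℝ)) K ^ J * (2 - (q : ℝ)) with hgdef
  have hgpos : 0 < g := mul_pos (pow_pos hgspos _) (by linarith)
  clear_value g
  have key : 1 / ((g * rE (q : ℝ) j τ) ^ m * tE (q : ℝ) j τ ^ R) *
      ((g * rE (q : ℝ) j s) ^ m * Zt (q : ℝ) (tE (q : ℝ) j s) G) =
      (rE (q : ℝ) j s / rE (q : ℝ) j τ) ^ m *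
        (Zt (q : ℝ) (tE (q : ℝ) j s) G / tE (q : ℝ) j τ ^ R) := by
    rw [mul_pow, mul_pow, div_pow]
    field_simp
  rw [key]
  have hTT : tutte G (x : ℝ) (1 + (q : ℝ) / ((x : ℝ) - 1)) =
      Zt (q : ℝ) (tE (q : ℝ) j τ) G / tE (q : ℝ) j τ ^ R := by
    rw [← hT]
    field_simp
  rw [hTT]
  -- bounds
  have r1 : exp (-((m : ℝ) * δ)) ≤ (rE (q : ℝ) j s / rE (q : ℝ) j τ) ^ m := by
    rw [show -((m : ℝ) * δ) = (m : ℝ) * (-δ) by ring, Real.exp_nat_mul]
    apply pow_le_pow_left₀ (Real.exp_pos _).le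
    rw [le_div_iff₀ hE3]
    exact p11
  have r2 : (rE (q : ℝ) j s / rE (q : ℝ) j τ) ^ m ≤ exp ((m : ℝ) * δ) := by
    rw [Real.exp_nat_mul]
    apply pow_le_pow_left₀ (div_pos p4 hE3).le
    rw [div_le_iff₀ hE3]
    exact p12
  have z0 : 0 ≤ Zt (q : ℝ) (tE (q : ℝ) j τ) G := ho G q _ hq0' hq1' hE1.le hE2.le
  have z0' : 0 ≤ Zt (q : ℝ) (tE (q : ℝ) j s) G := ho G q _ hq0' hq1' p2.le p3.le
  have tR : 0 < tE (q : ℝ) j τ ^ R := pow_pos htpos _
  constructor
  · calc exp (-(1 / ((n : ℝ) + 2))) * (Zt (q : ℝ) (tE (q : ℝ) j τ) G / tE (q : ℝ) j τ ^ R)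
        ≤ (exp (-((m : ℝ) * δ)) * exp (-((m : ℝ) * δ))) *
          (Zt (q : ℝ) (tE (q : ℝ) j τ) G / tE (q : ℝ) j τ ^ R) := by
          apply mul_le_mul_of_nonneg_right _ (div_nonneg z0 tR.le)
          rw [← Real.exp_add]
          apply Real.exp_le_exp.2
          linarith
      _ = exp (-((m : ℝ) * δ)) * (exp (-((m : ℝ) * δ)) * Zt (q : ℝ) (tE (q : ℝ) j τ) G /
            tE (q : ℝ) j τ ^ R) := by ring
      _ ≤ _ := by
          apply mul_le_mul r1 _ (by positivity) (by positivity)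
          exact div_le_div_of_nonneg_right hpert.1 tR.le
  · calc (rE (q : ℝ) j s / rE (q : ℝ) j τ) ^ m *
          (Zt (q : ℝ) (tE (q : ℝ) j s) G / tE (q : ℝ) j τ ^ R)
        ≤ exp ((m : ℝ) * δ) * (exp ((m : ℝ) * δ) * Zt (q : ℝ) (tE (q : ℝ) j τ) G /
            tE (q : ℝ) j τ ^ R) := by
          apply mul_le_mul r2 _ (div_nonneg z0' tR.le) (Real.exp_pos _).le
          exact div_le_div_of_nonneg_right hpert.2 tR.le
      _ = (exp ((m : ℝ) * δ) * exp ((m : ℝ) * δ)) *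
          (Zt (q : ℝ) (tE (q : ℝ) j τ) G / tE (q : ℝ) j τ ^ R) := by ring
      _ ≤ exp (1 / ((n : ℝ) + 2)) *
          (Zt (q : ℝ) (tE (q : ℝ) j τ) G / tE (q : ℝ) j τ ^ R) := by
          apply mul_le_mul_of_nonneg_right _ (div_nonneg z0 tR.le)
          rw [← Real.exp_add]
          apply Real.exp_le_exp.2
          linarith

end Pool.Agent.TutteEq
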