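import Pool.Agent.TutteEq.Stmts2
import Pool.Agent.TutteEq.RedA

/-!
# Reduction from the chromatic point of `H_q` to a point of `H_(1+q)` with `|y| < 1`

`G` is replaced by the cone over `G` (with a pendant edge if the number of components is odd), and
then every edge by `2 c M` parallel edges, `M = (m + 1) (n + 2)`.
-/

set_option autoImplicit false

namespace Pool.Agent.TutteEq

open Pool.Agent.PT Pool.Agent.TutteHard Real

/-- the number of components -/
noncomputable def redD_k (z : MGraph × List Bool) : ℕ :=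
  (verts z.1).card - rank z.1 Finset.univ

/-- is the number of components odd -/
noncomputable def redD_b (z : MGraph × List Bool) : Bool := decide (redD_k z % 2 = 1)

/-- the number of components, increased to an even number -/
noncomputable def redD_k' (z : MGraph × List Bool) : U :=
  if redD_b z then U.mk (redD_k z + 1) else U.mk (redD_k z)

theorem redD_pt_k (hc : S_Card) (hr : S_Rank) :
    PT (fun z : MGraph × List Bool => U.mk (redD_k z)) := by
  classical
  exact (hc.comp PT.fst).usub (hr.1.comp PT.fst)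

theorem redD_pt_b (hc : S_Card) (hr : S_Rank) :
    PT (fun z : MGraph × List Bool => redD_b z) :=
  (redD_pt_k hc hr).uodd

theorem redD_pt_k' (hc : S_Card) (hr : S_Rank) :
    PT (fun z : MGraph × List Bool => redD_k' z) :=
  PT.ite (redD_pt_b hc hr) (redD_pt_k hc hr).usucc (redD_pt_k hc hr)

theorem redD_val_k' (z : MGraph × List Bool) :
    (redD_k' z).val = redD_k z + (redD_b z).toNat := by
  unfold redD_k'
  cases redD_b z <;> simp

theorem redD_even_k' (z : MGraph × List Bool) : Even (redD_k' z).val := by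
  rw [redD_val_k']
  unfold redD_b
  by_cases h : redD_k z % 2 = 1
  · rw [decide_eq_true h, Bool.toNat_true, Nat.even_iff]
    omega
  · rw [decide_eq_false h, Bool.toNat_false, Nat.even_iff]
    omega

theorem redD_k_eq (z : MGraph × List Bool) : redD_k z = comps (verts z.1) z.1 := by
  have hk := (comps_le_card (endsIn_verts z.1)).1
  unfold redD_k rank
  rw [subEdges_univ]
  omega

theorem redD_card_le (G : MGraph) : (verts G).card ≤ 2 * G.length := by
  unfold verts
  refine (List.toFinset_card_le _).trans ?_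
  rw [List.length_append, List.length_map, List.length_map]
  omega

theorem redD_k'_le (z : MGraph × List Bool) : (redD_k' z).val ≤ 2 * z.1.length + 1 := by
  rw [redD_val_k', redD_k_eq]
  have h1 := (comps_le_card (endsIn_verts z.1)).1
  have h2 := redD_card_le z.1
  have h3 : (redD_b z).toNat ≤ 1 := Bool.toNat_le _
  omega

theorem redD_length_cone (b : Bool) (G : MGraph) : (coneP b G).length ≤ 3 * G.length + 1 := by
  unfold coneP
  rw [List.length_append, List.length_append]
  have h1 : (ren nmF G).length = G.length := by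
    unfold ren
    rw [List.length_map]
  have h2 : (G.flatMap fun e => [(([true] : Vx), nmF e.1), ([true], nmF e.2)]).length =
      2 * G.length := by
    rw [List.length_flatMap]
    induction G with
    | nil => rfl
    | cons e G ih =>
      rw [List.map_cons, List.sum_cons, List.length_cons]
      have ih' := ih (by unfold ren; rw [List.length_map])
      rw [ih']
      simp only [List.length_cons, List.length_nil]
      omega
  have h3 : (if b then [(([true] : Vx), ([true, true] : Vx))] else []).length ≤ 1 := by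
    cases b <;> simp
  omega

theorem redD_tutte_nil (x y : ℝ) : tutte ([] : MGraph) x y = 1 := by
  have h1 : ∀ A : Finset (Fin ([] : MGraph).length), rank ([] : MGraph) A = 0 := by
    intro A
    unfold rank
    have : (verts ([] : MGraph)).card = 0 := rfl
    rw [this, Nat.zero_sub]
  have h2 : ∀ A : Finset (Fin ([] : MGraph).length), A = ∅ := by
    intro A
    ext i
    exact Fin.elim0 i
  unfold tutte
  rw [Finset.sum_eq_single (∅ : Finset (Fin ([] : MGraph).length))]
  · rw [h1, h1]
    simp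
  · intro A _ hA
    exact absurd (h2 A) hA
  · intro h
    exact absurd (Finset.mem_univ _) h

/-- the choice of the constant -/
theorem redD_exists_c {a b : ℝ} (ha0 : 0 ≤ a) (ha : a < 1) (hb : 0 < b) :
    ∃ c : ℕ, 1 ≤ c ∧ ∀ M : ℕ, 1 ≤ M → a ^ (c * M) ≤ b ^ M / (2 * M) := by
  obtain ⟨n, hn⟩ := exists_pow_lt_of_lt_one (show (0 : ℝ) < b / 4 by positivity) ha
  refine ⟨n + 1, by omega, fun M hM => ?_⟩
  have h1 : a ^ (n + 1) ≤ b / 4 := by
    rw [pow_succ]
    nlinarith [pow_nonneg ha0 n]
  have h2 : a ^ ((n + 1) * M) ≤ (b / 4) ^ M := by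
    rw [pow_mul]
    exact pow_le_pow_left₀ (pow_nonneg ha0 _) h1 M
  have h4 : (2 * M : ℝ) ≤ 4 ^ M := by
    have h5 : 2 * M ≤ 4 ^ M := by
      clear h2
      induction M, hM using Nat.le_induction with
      | base => norm_num
      | succ M hM ih => rw [pow_succ]; omega
    exact_mod_cast h5
  have hM' : (0 : ℝ) < M := by exact_mod_cast hM
  calc a ^ ((n + 1) * M) ≤ (b / 4) ^ M := h2
    _ = b ^ M / 4 ^ M := div_pow _ _ _
    _ ≤ b ^ M / (2 * M) := div_le_div_of_nonneg_left (by positivity) (by positivity) h4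

theorem redD_rat {r : ℚ} (hr : 0 < r) :
    ∃ a b : ℕ, 0 < a ∧ 0 < b ∧ (r : ℝ) = (a : ℝ) / (b : ℝ) := by
  refine ⟨r.num.toNat, r.den, ?_, r.den_pos, ?_⟩
  · have := Rat.num_pos.2 hr
    omega
  · have h1 : ((r.num.toNat : ℤ)) = r.num := Int.toNat_of_nonneg (Rat.num_pos.2 hr).le
    have h2 : ((r.num.toNat : ℕ) : ℝ) = ((r.num : ℤ) : ℝ) := by
      rw [← h1]
      push_cast
      rfl
    rw [h2]
    exact Rat.cast_def r

/-- the estimate -/
theorem redD_est {q a Z X δ : ℝ} {m n k l c : ℕ} (hq0 : 0 < q) (hq1 : q < 1) (_ha0 : 0 ≤ a)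
    (hc : ∀ M : ℕ, 1 ≤ M → a ^ (c * M) ≤ (q ^ 2 * (1 - q) / 512) ^ M / (2 * M))
    (hk : k ≤ 2 * m + 1) (hl : l ≤ 3 * m + 1) (hδ : δ = 1 / ((n : ℝ) + 2))
    (hZ : (1 - q) ^ m ≤ Z) (hX : |X - q ^ k * Z| ≤ 8 ^ l * a ^ (c * ((m + 1) * (n + 2)))) :
    exp (-δ) * Z ≤ X / q ^ k ∧ X / q ^ k ≤ exp δ * Z := by
  have hn0 : (0 : ℝ) ≤ n := Nat.cast_nonneg n
  have hδ0 : 0 ≤ δ := by rw [hδ]; positivity
  have hδ1 : δ ≤ 1 := by
    rw [hδ, div_le_one (by linarith)]
    linarith
  have hqk : 0 < q ^ k := pow_pos hq0 k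
  have h1q : 0 < 1 - q := by linarith
  set M : ℕ := (m + 1) * (n + 2) with hM
  have hM1 : 1 ≤ M := Nat.succ_le_of_lt (show 0 < (m + 1) * (n + 2) by positivity)
  have hMm : m + 1 ≤ M := Nat.le_mul_of_pos_right _ (by omega)
  have hMn : n + 2 ≤ M := Nat.le_mul_of_pos_left _ (by omega)
  set β : ℝ := q ^ 2 * (1 - q) / 512 with hβ
  have hβ0 : 0 < β := by positivity
  have hβ1 : β ≤ 1 := by
    have : q ^ 2 ≤ 1 := pow_le_one₀ hq0.le hq1.le
    rw [hβ, div_le_one (by norm_num)]
    nlinarith
  have e1 : a ^ (c * M) ≤ β ^ (m + 1) * (δ / 2) := by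
    refine (hc M hM1).trans ?_
    have h2 : β ^ M ≤ β ^ (m + 1) := pow_le_pow_of_le_one hβ0.le hβ1 hMm
    have h3 : (1 : ℝ) / (2 * M) ≤ δ / 2 := by
      rw [hδ, div_div, mul_comm ((n : ℝ) + 2) 2]
      apply one_div_le_one_div_of_le (by positivity)
      have : ((n + 2 : ℕ) : ℝ) ≤ (M : ℝ) := by exact_mod_cast hMn
      push_cast at this
      linarith
    rw [div_eq_mul_one_div]
    exact mul_le_mul h2 h3 (by positivity) (by positivity)
  have e2 : (8 : ℝ) ^ l * β ^ (m + 1) ≤ q ^ k * (1 - q) ^ m := by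
    have f1 : (8 : ℝ) ^ l ≤ 512 ^ (m + 1) := by
      have : (512 : ℝ) ^ (m + 1) = 8 ^ (3 * (m + 1)) := by
        rw [pow_mul]; norm_num
      rw [this]
      exact pow_le_pow_right₀ (by norm_num) (by omega)
    have f2 : β ^ (m + 1) = (q ^ (2 * (m + 1)) * (1 - q) ^ (m + 1)) / 512 ^ (m + 1) := by
      rw [hβ, div_pow, mul_pow, ← pow_mul]
    have f3 : q ^ (2 * (m + 1)) ≤ q ^ k :=
      pow_le_pow_of_le_one hq0.le hq1.le (by omega)
    have f4 : (1 - q) ^ (m + 1) ≤ (1 - q) ^ m :=
      pow_le_pow_of_le_one h1q.le (by linarith) (by omega)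
    calc (8 : ℝ) ^ l * β ^ (m + 1) ≤ 512 ^ (m + 1) * β ^ (m + 1) :=
          mul_le_mul_of_nonneg_right f1 (by positivity)
      _ = q ^ (2 * (m + 1)) * (1 - q) ^ (m + 1) := by
          rw [f2]; field_simp
      _ ≤ q ^ k * (1 - q) ^ m := mul_le_mul f3 f4 (by positivity) (by positivity)
  have e3 : |X - q ^ k * Z| ≤ q ^ k * (Z * (δ / 2)) := by
    refine hX.trans ?_
    calc (8 : ℝ) ^ l * a ^ (c * M) ≤ 8 ^ l * (β ^ (m + 1) * (δ / 2)) :=
          mul_le_mul_of_nonneg_left e1 (by positivity)
      _ = (8 ^ l * β ^ (m + 1)) * (δ / 2) := by ring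
      _ ≤ (q ^ k * (1 - q) ^ m) * (δ / 2) := mul_le_mul_of_nonneg_right e2 (by positivity)
      _ ≤ (q ^ k * Z) * (δ / 2) :=
          mul_le_mul_of_nonneg_right (mul_le_mul_of_nonneg_left hZ hqk.le) (by positivity)
      _ = q ^ k * (Z * (δ / 2)) := by ring
  have hZ0 : 0 < Z := lt_of_lt_of_le (pow_pos h1q m) hZ
  have e4 := abs_le.mp e3
  have g1 : X / q ^ k ≤ Z + Z * (δ / 2) := by
    rw [div_le_iff₀ hqk]
    have := e4.2
    nlinarith
  have g2 : Z - Z * (δ / 2) ≤ X / q ^ k := by
    rw [le_div_iff₀ hqk]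
    have := e4.1
    nlinarith
  have he := redA_exp hδ0 hδ1
  have he1 : 1 + δ ≤ exp δ := by linarith [add_one_le_exp δ]
  constructor
  · refine le_trans ?_ g2
    nlinarith [mul_le_mul_of_nonneg_right he hZ0.le]
  · refine g1.trans ?_
    nlinarith [mul_le_mul_of_nonneg_right he1 hZ0.le, mul_nonneg hZ0.le hδ0]

theorem redD (h : S_Arith) (h2 : S_Arith2) (hr : S_Rank) (hc : S_Card) (hp : S_ConePT)
    (ho : S_Cone) (hu : S_Crude) (hl : S_Lower) (ht : S_TutteZt) (hz : S_Zero) (hk : S_Thick) :
    S_RedD := by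
  classical
  intro q y hq0 hq1 hy
  have hq0' : (0 : ℝ) < (q : ℝ) := by exact_mod_cast hq0
  have hq1' : (q : ℝ) < 1 := by exact_mod_cast hq1
  have hyabs : |(y : ℝ)| < 1 := by exact_mod_cast hy
  have hy2 : ((y : ℝ)) ^ 2 < 1 := by
    rw [sq_lt_one_iff_abs_lt_one]
    exact hyabs
  have hy1 : (y : ℝ) < 1 := (abs_lt.1 hyabs).2
  have htq : (0 : ℚ) < 1 - y := by
    have := (abs_lt.1 hy).2
    linarith
  have h1q : (0 : ℝ) < 1 - q := by linarith
  obtain ⟨c, hc1, hcc⟩ := redD_exists_c (a := (y : ℝ) ^ 2) (b := (q : ℝ) ^ 2 * (1 - q) / 512)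
    (by positivity) hy2 (by positivity)
  obtain ⟨P, Q, hP0, hQ0, hPQ⟩ := redD_rat htq
  obtain ⟨a, b, ha0, hb0, hab⟩ := redD_rat hq0
  push_cast at hPQ
  have pb := redD_pt_b hc hr
  have pk' := redD_pt_k' hc hr
  have pH : PT (fun z : MGraph × List Bool => coneP (redD_b z) z.1) := hp.comp (pb.pair PT.fst)
  have pf : PT (fun z : MGraph × List Bool => thick (redA_k c z) (coneP (redD_b z) z.1)) :=
    hk.1.comp (pH.pair (redA_pt_k c))
  have prH : PT (fun z : MGraph × List Bool =>
      U.mk (rank (coneP (redD_b z) z.1) Finset.univ)) := hr.1.comp pH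
  have pow' : ∀ {f : MGraph × List Bool → ℕ} {e : MGraph × List Bool → U}, PT f → PT e →
      PT (fun z => f z ^ (e z).val) := fun hf he => h2.2.1 _ _ _ hf he
  have mul' : ∀ {f g : MGraph × List Bool → ℕ}, PT f → PT g → PT (fun z => f z * g z) :=
    fun hf hg => (h _ _ _ hf hg).2.2.1
  have pN : PT (fun z : MGraph × List Bool => if decide (HasLoop z.1) = true then 0 else
      P ^ rank (coneP (redD_b z) z.1) Finset.univ * b ^ (redD_k' z).val) :=
    PT.ite (hr.2.1.comp PT.fst) (PT.const 0)
      (mul' (pow' (PT.const P) prH) (pow' (PT.const b) pk'))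
  have pD : PT (fun z : MGraph × List Bool =>
      Q ^ rank (coneP (redD_b z) z.1) Finset.univ * a ^ (redD_k' z).val) :=
    mul' (pow' (PT.const Q) prH) (pow' (PT.const a) pk')
  refine ⟨_, _, _, pf, pN, pD, fun G e => ⟨by positivity, ?_⟩⟩
  have hF : tutte G (1 - q : ℝ) 0 = Zt q 1 G := by
    have := ht G q 1 hq0'.ne' one_ne_zero
    rw [one_pow, one_mul, div_one, sub_self] at this
    exact this
  simp only
  by_cases hG : G = []
  · -- the empty graph
    subst hG
    have b0 : redD_b ([], e) = false := by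
      unfold redD_b redD_k
      have : (verts (([] : MGraph), e).1).card = 0 := rfl
      rw [this, Nat.zero_sub]
      rfl
    have k0 : (redD_k' ([], e)).val = 0 := by
      rw [redD_val_k', b0]
      unfold redD_k
      have : (verts (([] : MGraph), e).1).card = 0 := rfl
      rw [this, Nat.zero_sub]
      rfl
    have c0 : coneP false ([] : MGraph) = [] := rfl
    have t0 : thick (redA_k c ([], e)) ([] : MGraph) = [] := rfl
    have r0 : rank ([] : MGraph) Finset.univ = 0 := by
      unfold rank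
      have : (verts ([] : MGraph)).card = 0 := rfl
      rw [this, Nat.zero_sub]
    have l0 : ¬ HasLoop ([] : MGraph) := by
      rintro ⟨x, hx, -⟩
      simp at hx
    rw [b0, c0, t0, redD_tutte_nil, redD_tutte_nil, k0, r0]
    simp only [l0, decide_false, Bool.false_eq_true, if_false, pow_zero, mul_one, Nat.cast_one,
      div_one]
    have hδ0 : (0 : ℝ) ≤ 1 / ((e.length : ℝ) + 2) := by positivity
    exact ⟨Real.exp_le_one_iff.2 (by linarith), Real.one_le_exp hδ0⟩
  · rw [hF]
    by_cases hL : HasLoop G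
    · have h0 := (hz G q hq0'.ne').1 hL
      rw [h0]
      simp [hL]
    · set H : MGraph := coneP (redD_b (G, e)) G with hH
      have hk1 : 1 ≤ redA_k c (G, e) := by
        unfold redA_k
        have : 0 < (2 * c) * (((G, e).1.length + 1) * ((G, e).2.length + 2)) := by positivity
        exact this
      obtain ⟨hrk', hthick⟩ := hk.2 H (redA_k c (G, e)) hk1
      have hT := ht (thick (redA_k c (G, e)) H) (1 + q) (1 - (y : ℝ)) (by linarith) (by linarith)
      rw [hrk', hthick] at hT
      have hx : (1 : ℝ) + (1 + q) / (y - 1) = 1 - (1 + q) / (1 - y) := by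
        rw [show (y : ℝ) - 1 = -(1 - y) by ring, div_neg]
        ring
      set kk := (redD_k' (G, e)).val with hkk
      set X : ℝ := Zt (1 + q) (1 - (1 - (1 - (y : ℝ))) ^ redA_k c (G, e)) H with hX
      have hval : ((if decide (HasLoop G) = true then 0 else
          P ^ rank H Finset.univ * b ^ kk : ℕ) : ℝ) /
          ((Q ^ rank H Finset.univ * a ^ kk : ℕ) : ℝ) *
          tutte (thick (redA_k c (G, e)) H) (1 + (1 + q) / (y - 1) : ℝ) (y : ℝ) =
          X / (q : ℝ) ^ kk := by
        rw [← hT, hx]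
        simp only [hL, decide_false, Bool.false_eq_true, if_false]
        push_cast
        rw [sub_sub_cancel, hPQ, hab, div_pow, div_pow]
        have hQ' : (Q : ℝ) ≠ 0 := by positivity
        have hb' : (b : ℝ) ≠ 0 := by positivity
        have ha' : (a : ℝ) ≠ 0 := by positivity
        field_simp
      rw [hval]
      -- the cone
      obtain ⟨-, hcone⟩ := ho (redD_b (G, e)) G hG
      have hcone' := hcone (1 + (q : ℝ)) (by linarith) (by linarith)
      have hke : kk = comps (verts G) G + (redD_b (G, e)).toNat := by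
        rw [hkk, redD_val_k', redD_k_eq]
      have hev : Even kk := redD_even_k' (G, e)
      rw [← hH, ← hke, show (1 : ℝ) - (1 + q) = -q by ring, hev.neg_pow,
        show (1 : ℝ) + q - 1 = q by ring] at hcone'
      -- the crude bound
      have hpow : (1 - (1 - (y : ℝ))) ^ redA_k c (G, e) =
          ((y : ℝ) ^ 2) ^ (c * ((G.length + 1) * (e.length + 2))) := by
        rw [sub_sub_cancel, ← pow_mul]
        congr 1
        unfold redA_k
        ring
      rw [hpow] at hX
      set s : ℝ := ((y : ℝ) ^ 2) ^ (c * ((G.length + 1) * (e.length + 2))) with hs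
      have hs0 : 0 ≤ s := by positivity
      have hs1 : s ≤ 1 := pow_le_one₀ (by positivity) hy2.le
      have hcr := hu H (1 + q) (1 - s) (by linarith) (by linarith)
        (by rw [sub_sub_cancel, abs_of_nonneg hs0]; exact hs1)
      rw [sub_sub_cancel, abs_of_nonneg hs0, ← hX, hcone'] at hcr
      exact redD_est hq0' hq1' (by positivity) hcc (redD_k'_le (G, e))
        (redD_length_cone (redD_b (G, e)) G) rfl (hl G q hq0' hq1' hL) hcr

end Pool.Agent.TutteEq
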