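import Pool.Agent.TutteEq.Gsn

/-!
# Module Sel: choice of the parameters of the apex network
-/

set_option autoImplicit false

namespace Pool.Agent.TutteEq

open Pool.Agent.PT Pool.Agent.TutteHard Real

theorem sel_one_sub {q : ℝ} (hq1 : q < 1) (k : ℕ) :
    0 < gs (2 - q) (k + 1) ∧ 1 - fK q (k + 1) = 1 / gs (2 - q) (k + 1) := by
  have h0 : 0 ≤ gs (2 - q) k := by
    unfold gs
    exact Finset.sum_nonneg fun i _ => pow_nonneg (by linarith) i
  have h1 : gs (2 - q) (k + 1) = (2 - q) * gs (2 - q) k + 1 := by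
    unfold gs
    rw [geom_sum_succ]
  have h2 : 0 < gs (2 - q) (k + 1) := by
    rw [h1]
    have : 0 ≤ (2 - q) * gs (2 - q) k := mul_nonneg (by linarith) h0
    linarith
  refine ⟨h2, ?_⟩
  unfold fK
  rw [Nat.add_sub_cancel, eq_div_iff h2.ne', sub_mul, div_mul_cancel₀ _ h2.ne', h1]
  ring

theorem sel_fK_nonneg {q : ℝ} (hq1 : q < 1) (k : ℕ) : 0 ≤ fK q (k + 1) := by
  unfold fK
  have h0 : ∀ j, 0 ≤ gs (2 - q) j := fun j => by
    unfold gs
    exact Finset.sum_nonneg fun i _ => pow_nonneg (by linarith) i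
  exact div_nonneg (mul_nonneg (by linarith) (h0 _)) (h0 _)

theorem sel_gs_ge {b : ℝ} (hb : 0 < b) (k : ℕ) : b ^ k ≤ gs b (k + 1) := by
  unfold gs
  exact Finset.single_le_sum (f := fun i => b ^ i) (fun i _ => (pow_pos hb i).le)
    (Finset.mem_range.2 (Nat.lt_succ_self k))

theorem sel_gs_le {b : ℝ} (hb : 0 < b) (hb2 : b ≤ 2) (k : ℕ) : gs b k ≤ 2 ^ k := by
  unfold gs
  calc ∑ i ∈ Finset.range k, b ^ i ≤ ∑ i ∈ Finset.range k, (2 : ℝ) ^ i :=
        Finset.sum_le_sum fun i _ => pow_le_pow_left₀ hb.le hb2 i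
    _ = 2 ^ k - 1 := by
        rw [geom_sum_eq (by norm_num)]
        norm_num
    _ ≤ 2 ^ k := by linarith

/-- one step of the search -/
def selStep (p : (ℕ × ℕ) × U × ℕ × ℕ) : U × ℕ × ℕ :=
  (if !decide (p.2.2.1 ≤ p.2.2.2) then U.mk (p.2.1.val + 1) else p.2.1,
    p.2.2.1 * p.1.1, p.2.2.2 * p.1.2)

theorem selStep_pt (h : S_Arith) : PT selStep := by
  have hA : PT (fun p : (ℕ × ℕ) × U × ℕ × ℕ => p.2.2.1) := PT.snd.comp_snd.comp_fst
  have hB : PT (fun p : (ℕ × ℕ) × U × ℕ × ℕ => p.2.2.2) := PT.snd.comp_snd.comp_snd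
  have hi : PT (fun p : (ℕ × ℕ) × U × ℕ × ℕ => p.2.1) := PT.snd.comp_fst
  have hv : PT (fun p : (ℕ × ℕ) × U × ℕ × ℕ => p.1.1) := PT.fst.comp_fst
  have hu : PT (fun p : (ℕ × ℕ) × U × ℕ × ℕ => p.1.2) := PT.fst.comp_snd
  exact (PT.ite (h _ _ _ hA hB).2.2.2.2.not hi.usucc hi).pair
    ((h _ _ _ hA hv).2.2.1.pair (h _ _ _ hB hu).2.2.1)

theorem sel_size_mul (a b : ℕ) : Nat.size (a * b) ≤ Nat.size a + Nat.size b := by
  rw [Nat.size_le, pow_add]
  exact Nat.mul_lt_mul'' (Nat.lt_size_self a) (Nat.lt_size_self b)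

theorem sel_iter (v u A B : ℕ) (n : ℕ) :
    (fun s => selStep ((v, u), s))^[n] (U.mk 0, A, B) =
      (U.mk ((Finset.range n).filter fun i => B * u ^ i < A * v ^ i).card,
        A * v ^ n, B * u ^ n) := by
  induction n with
  | zero => simp
  | succ n ih =>
    rw [Function.iterate_succ_apply', ih]
    unfold selStep
    simp only [Finset.range_add_one, Finset.filter_insert]
    by_cases hc : B * u ^ n < A * v ^ n
    · have hc' : ¬ (A * v ^ n ≤ B * u ^ n) := by omega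
      rw [if_pos hc, Finset.card_insert_of_notMem (by simp)]
      simp only [hc', decide_false, Bool.not_false, if_true]
      refine Prod.ext rfl (Prod.ext ?_ ?_) <;> simp only [pow_succ] <;> ring
    · have hc' : A * v ^ n ≤ B * u ^ n := by omega
      rw [if_neg hc]
      simp only [hc', decide_true, Bool.not_true]
      refine Prod.ext ?_ (Prod.ext ?_ ?_)
      · simp
      · simp only [pow_succ]; ring
      · simp only [pow_succ]; ring

/-- the search in polynomial time -/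
theorem sel_search (h : S_Arith) (h2 : S_Arith2) (A B : ℕ) {v u : U → ℕ} {n : U → U}
    (hv : PT v) (hu : PT u) (hn : PT n) :
    PT (fun M : U => U.mk ((Finset.range (n M).val).filter
      fun i => B * u M ^ i < A * v M ^ i).card) := by
  have hit := (PT.iter (g := selStep) (e := fun M : U => (v M, u M))
    (s := fun _ : U => (U.mk 0, A, B)) (n := n) (selStep_pt h) (3 * Polynomial.X + 1) ?_
    (hv.pair hu) (PT.const _) hn).comp_fst
  · refine hit.congr fun M => ?_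
    simp only [sel_iter]
  · rintro ⟨x, y⟩ ⟨i, a, b⟩
    simp only [selStep, length_enc_pair, h2.1, Polynomial.eval_add, Polynomial.eval_mul,
      Polynomial.eval_X, Polynomial.eval_one, Polynomial.eval_ofNat]
    have e1 := sel_size_mul a x
    have e2 := sel_size_mul b y
    have e3 : (enc (if (!decide (a ≤ b)) = true then U.mk (i.val + 1) else i)).length ≤
        (enc i).length + 1 := by
      split_ifs
      · rw [length_enc_U, length_enc_U]
      · exact Nat.le_succ _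
    omega

/-- counting up to the first index -/
theorem sel_count {p : ℕ → Prop} [DecidablePred p] (hp : ∀ i, p (i + 1) → p i) {n : ℕ}
    (hn : ¬ p n) : ∃ J, ((Finset.range n).filter p).card = J ∧ ¬ p J ∧
      (∀ j, J = j + 1 → p j) := by
  classical
  have hex : ∃ n, ¬ p n := ⟨n, hn⟩
  have hmono : ∀ i j, i ≤ j → p j → p i := by
    intro i j hij
    induction j, hij using Nat.le_induction with
    | base => exact fun h => h
    | succ j _ ih => exact fun h => ih (hp j h)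
  refine ⟨Nat.find hex, ?_, Nat.find_spec hex, ?_⟩
  · have e : (Finset.range n).filter p = Finset.range (Nat.find hex) := by
      ext i
      simp only [Finset.mem_filter, Finset.mem_range]
      constructor
      · rintro ⟨_, hi⟩
        by_contra hc
        push Not at hc
        exact Nat.find_spec hex (hmono _ _ hc hi)
      · intro hi
        have h1 : Nat.find hex ≤ n := Nat.find_min' hex hn
        exact ⟨lt_of_lt_of_le hi h1, not_not.1 (Nat.find_min hex hi)⟩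
    rw [e, Finset.card_range]
  · intro j hj
    have := Nat.find_min hex (m := j) (by omega)
    exact not_not.1 this

theorem sel_two_pow_size {M : ℕ} (hM : 1 ≤ M) : 2 ^ Nat.size M ≤ 2 * M := by
  have h0 : 0 < Nat.size M := Nat.size_pos.2 hM
  have h1 : 2 ^ (Nat.size M - 1) ≤ M := Nat.lt_size.1 (by omega)
  obtain ⟨k, hk⟩ : ∃ k, Nat.size M = k + 1 := ⟨Nat.size M - 1, by omega⟩
  rw [hk] at h1 ⊢
  rw [Nat.add_sub_cancel] at h1
  rw [pow_succ]
  omega

/-- Module Sel -/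
theorem sel (h : S_Arith) (h2 : S_Arith2) (hg : S_Gsn) : S_Sel := by
  intro q τ hq0 hq1 hτ0 hτ1 c hc
  have hq1' : (q : ℝ) < 1 := by exact_mod_cast hq1
  have hq0' : (0 : ℝ) < q := by exact_mod_cast hq0
  have hτ0' : (0 : ℝ) < τ := by exact_mod_cast hτ0
  have hτ1' : (τ : ℝ) ≤ 1 := by exact_mod_cast hτ1
  have hc' : (1 : ℝ) ≤ c := by exact_mod_cast hc
  set b : ℝ := 2 - q with hb
  have hb0 : 0 < b := by linarith
  have hb1 : 1 < b := by linarith
  have hb2 : b ≤ 2 := by linarith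
  -- numerators
  obtain ⟨P, Q, hQ, hPQ⟩ : ∃ P Q : ℕ, 0 < Q ∧ ((P : ℝ) / Q) = b := by
    refine ⟨(2 - q : ℚ).num.toNat, (2 - q : ℚ).den, (2 - q : ℚ).den_pos, ?_⟩
    have h3 : (0 : ℤ) ≤ (2 - q : ℚ).num := Rat.num_nonneg.2 (by linarith)
    have h4 : (((2 - q : ℚ).num.toNat : ℕ) : ℝ) = (((2 - q : ℚ).num : ℤ) : ℝ) := by
      have : (((2 - q : ℚ).num.toNat : ℕ) : ℤ) = (2 - q : ℚ).num := Int.toNat_of_nonneg h3
      exact_mod_cast this
    rw [h4]
    have h5 : (((2 - q : ℚ)) : ℝ) = ((2 - q : ℚ).num : ℝ) / ((2 - q : ℚ).den : ℝ) :=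
      Rat.cast_def _
    rw [← h5, hb]
    push_cast
    ring
  obtain ⟨tn, td, htd, htt⟩ : ∃ tn td : ℕ, 0 < td ∧ ((tn : ℝ) / td) = τ := by
    refine ⟨τ.num.toNat, τ.den, τ.den_pos, ?_⟩
    have h3 : (0 : ℤ) ≤ τ.num := Rat.num_nonneg.2 hτ0.le
    have h4 : ((τ.num.toNat : ℕ) : ℝ) = ((τ.num : ℤ) : ℝ) := by
      have : ((τ.num.toNat : ℕ) : ℤ) = τ.num := Int.toNat_of_nonneg h3
      exact_mod_cast this
    rw [h4]
    exact (Rat.cast_def τ).symm
  obtain ⟨c2, hc2⟩ : ∃ c2 : ℕ, (2 * c : ℝ) ≤ b ^ c2 :=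
    (pow_unbounded_of_one_lt _ hb1).imp fun _ h => h.le
  obtain ⟨L, hL⟩ : ∃ L : ℕ, -Real.log τ ≤ L := exists_nat_ge _
  have hQr : (0 : ℝ) < Q := by exact_mod_cast hQ
  have htdr : (0 : ℝ) < td := by exact_mod_cast htd
  -- the parameters
  set k : ℕ → ℕ := fun M => c2 * Nat.size M with hk
  have hsz : PT (fun M : U => U.mk (Nat.size M.val)) := by
    have h3 : PT (fun n : ℕ => U.mk (enc n).length) := PT.encLen
    exact (h3.comp (gsn_uval h h2)).congr fun M => by simp only [h2.1]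
  have hkPT : PT (fun M : U => U.mk (k M.val)) :=
    ((PT.const (U.mk c2)).umul hsz).congr fun M => rfl
  have hv : PT (fun M : U => P * gsn P Q (k M.val + 1)) := by
    have h3 : PT (fun M : U => gsn P Q (k M.val + 1)) :=
      ((hg P Q hQ).1.comp hkPT.usucc).congr fun M => rfl
    exact (h U _ _ (PT.const P) h3).2.2.1
  have hu : PT (fun M : U => gsn P Q (k M.val + 2)) :=
    ((hg P Q hQ).1.comp hkPT.usucc.usucc).congr fun M => rfl
  have hn : PT (fun M : U => U.mk (L * (4 * (2 * M.val) ^ c2))) := by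
    refine (PT.umonomial PT.id (L * (4 * 2 ^ c2)) c2).congr fun M => ?_
    congr 1
    rw [mul_pow]
    ring
  refine ⟨fun M => k M + 2, fun M => ((Finset.range (L * (4 * (2 * M) ^ c2))).filter
      fun i => tn * gsn P Q (k M + 2) ^ i < td * (P * gsn P Q (k M + 1)) ^ i).card,
    hkPT.usucc.usucc.congr fun M => rfl, sel_search h h2 td tn hv hu hn, ?_⟩
  intro M hM
  have hM' : (1 : ℝ) ≤ M := by exact_mod_cast hM
  refine ⟨by simp, ?_⟩
  -- real quantities
  set f := fK (q : ℝ) (k M + 2) with hf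
  set g := gs b (k M + 2) with hg'
  obtain ⟨hg0, hfg⟩ := sel_one_sub hq1' (k M + 1)
  have hfg' : 1 - f = 1 / g := hfg
  have hf0 : 0 ≤ f := sel_fK_nonneg hq1' (k M + 1)
  have hg0' : 0 < g := hg0
  -- the comparison
  have hP1 : (gsn P Q (k M + 2) : ℝ) = (Q : ℝ) ^ (k M + 1) * g := by
    rw [(hg P Q hQ).2 (k M + 2) (by omega), hPQ]
    rfl
  have hP2 : (gsn P Q (k M + 1) : ℝ) = (Q : ℝ) ^ (k M) * gs b (k M + 1) := by
    rw [(hg P Q hQ).2 (k M + 1) (by omega), hPQ]
    rfl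
  have hPb : (P : ℝ) = b * Q := by
    rw [← hPQ, div_mul_cancel₀ _ hQr.ne']
  have hvu : ((P * gsn P Q (k M + 1) : ℕ) : ℝ) = f * (gsn P Q (k M + 2) : ℝ) := by
    push_cast
    rw [hP1, hP2, hPb]
    have h3 : f * g = b * gs b (k M + 1) := by
      rw [hf, hg']
      unfold fK
      rw [show k M + 2 - 1 = k M + 1 by omega, ← hb, div_mul_cancel₀]
      exact hg0'.ne'
    calc b * Q * (Q ^ (k M) * gs b (k M + 1)) = Q ^ (k M + 1) * (b * gs b (k M + 1)) := by ring
      _ = Q ^ (k M + 1) * (f * g) := by rw [h3]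
      _ = f * (Q ^ (k M + 1) * g) := by ring
  have hupos : (0 : ℝ) < (gsn P Q (k M + 2) : ℝ) := by
    rw [hP1]
    positivity
  have hcmp : ∀ i : ℕ, (tn * gsn P Q (k M + 2) ^ i < td * (P * gsn P Q (k M + 1)) ^ i) ↔
      (τ : ℝ) < f ^ i := by
    intro i
    rw [← @Nat.cast_lt ℝ]
    push_cast
    have h3 : ((P : ℝ) * (gsn P Q (k M + 1) : ℝ)) = f * (gsn P Q (k M + 2) : ℝ) := by
      rw [← hvu]; push_cast; ring
    rw [h3, mul_pow, ← htt, div_lt_iff₀ htdr]
    have hupi : (0 : ℝ) < (gsn P Q (k M + 2) : ℝ) ^ i := pow_pos hupos i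
    constructor
    · intro h4
      have h5 : (tn : ℝ) * (gsn P Q (k M + 2) : ℝ) ^ i <
          (f ^ i * td) * (gsn P Q (k M + 2) : ℝ) ^ i := by
        calc _ < (td : ℝ) * (f ^ i * (gsn P Q (k M + 2) : ℝ) ^ i) := h4
          _ = _ := by ring
      exact lt_of_mul_lt_mul_right h5 hupi.le
    · intro h4
      calc (tn : ℝ) * (gsn P Q (k M + 2) : ℝ) ^ i < (f ^ i * td) *
            (gsn P Q (k M + 2) : ℝ) ^ i := mul_lt_mul_of_pos_right h4 hupi
        _ = _ := by ring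
  have hf1 : f ≤ 1 := by
    have : 0 < 1 / g := by positivity
    linarith
  -- the search ends
  have hsize : (2 : ℝ) ^ (k M + 2) ≤ 4 * (2 * M) ^ c2 := by
    have h3 : 2 ^ (k M + 2) ≤ 4 * (2 * M) ^ c2 := by
      have e : k M = Nat.size M * c2 := by rw [hk]; exact mul_comm _ _
      rw [e, pow_add, pow_mul, mul_comm]
      exact Nat.mul_le_mul_left _ (Nat.pow_le_pow_left (sel_two_pow_size hM) c2)
    exact_mod_cast h3
  have hgle : g ≤ 4 * (2 * M) ^ c2 := (sel_gs_le hb0 hb2 _).trans hsize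
  have hend : f ^ (L * (4 * (2 * M) ^ c2)) ≤ (τ : ℝ) := by
    have h3 : f ≤ Real.exp (-(1 / g)) := by
      have := Real.add_one_le_exp (-(1 / g))
      linarith
    have h4 : f ^ (L * (4 * (2 * M) ^ c2)) ≤ Real.exp (-(1 / g)) ^ (L * (4 * (2 * M) ^ c2)) :=
      pow_le_pow_left₀ hf0 h3 _
    refine h4.trans ?_
    rw [← Real.exp_nat_mul]
    rw [← Real.le_log_iff_exp_le hτ0']
    push_cast
    have h5 : (L : ℝ) ≤ (L : ℝ) * (4 * (2 * (M : ℝ)) ^ c2) * (1 / g) := by
      rw [mul_assoc]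
      have h6 : 1 ≤ (4 * (2 * (M : ℝ)) ^ c2) * (1 / g) := by
        rw [mul_one_div, le_div_iff₀ hg0']
        linarith
      have h7 : (0 : ℝ) ≤ L := Nat.cast_nonneg L
      nlinarith
    linarith
  obtain ⟨J, hJ1, hJ2, hJ3⟩ := sel_count
    (p := fun i => tn * gsn P Q (k M + 2) ^ i < td * (P * gsn P Q (k M + 1)) ^ i)
    (fun i hi => by
      rw [hcmp] at hi ⊢
      refine lt_of_lt_of_le hi ?_
      rw [pow_succ]
      exact mul_le_of_le_one_right (pow_nonneg hf0 i) hf1)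
    (n := L * (4 * (2 * M) ^ c2)) (by
      rw [hcmp]
      exact not_lt.2 hend)
  simp only [hJ1]
  have hJ2' : f ^ J ≤ (τ : ℝ) := by
    have := hJ2
    rw [hcmp] at this
    exact not_lt.1 this
  refine ⟨hJ2', ?_⟩
  have hinv : 1 / g ≤ 1 / ((c : ℝ) * M) := by
    apply one_div_le_one_div_of_le (by positivity)
    have h3 : b ^ (k M + 1) ≤ g := sel_gs_ge hb0 (k M + 1)
    refine le_trans ?_ h3
    have h4 : (c : ℝ) * M ≤ (2 * c) ^ Nat.size M := by
      rw [mul_pow]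
      have h5 : (M : ℝ) ≤ 2 ^ Nat.size M := by exact_mod_cast (Nat.lt_size_self M).le
      have h6 : (c : ℝ) ≤ c ^ Nat.size M :=
        le_self_pow₀ hc' (Nat.size_pos.2 hM).ne'
      calc (c : ℝ) * M ≤ c ^ Nat.size M * 2 ^ Nat.size M :=
            mul_le_mul h6 h5 (by positivity) (by positivity)
        _ = _ := by ring
    calc (c : ℝ) * M ≤ (2 * c) ^ Nat.size M := h4
      _ ≤ (b ^ c2) ^ Nat.size M := pow_le_pow_left₀ (by positivity) hc2 _
      _ = b ^ (k M) := by rw [hk, pow_mul]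
      _ ≤ b ^ (k M + 1) := pow_le_pow_right₀ hb1.le (Nat.le_succ _)
  rcases Nat.eq_zero_or_pos J with hJ0 | hJ0
  · rw [hJ0, pow_zero] at hJ2' ⊢
    have : (0 : ℝ) ≤ 1 / ((c : ℝ) * M) := by positivity
    linarith
  · obtain ⟨j, rfl⟩ : ∃ j, J = j + 1 := ⟨J - 1, by omega⟩
    have h3 := hJ3 j rfl
    rw [hcmp] at h3
    have h4 : f ^ (j + 1) = f * f ^ j := by ring
    have h5 : f * τ ≤ f * f ^ j := mul_le_mul_of_nonneg_left h3.le hf0
    have h6 : (τ : ℝ) * (1 - f) ≤ 1 - f := mul_le_of_le_one_left (by linarith) hτ1'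
    rw [h4]
    rw [hfg'] at h6
    nlinarith
end Pool.Agent.TutteEq
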