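import Pool.Agent.Lib_helper88.TutteHard.Sign

/-!
# Approximate equivalence of the Tutte polynomial along a hyperbola: definitions

`T(G; x, y)` with `(x - 1)(y - 1) = q`, `0 < q < 1`; `t = 1 - y`, `x = 1 - q / t`.
The class `P`: `q ≤ t ≤ 1`, i.e. `0 ≤ x`, `0 ≤ y`.
-/

set_option autoImplicit false

namespace Pool.Agent.TutteEq

open Pool.Agent.PT Pool.Agent.TutteHard

section graphs

variable {α : Type} [DecidableEq α]

/-- the normalised partition function `(-1)^r(E) Z / q^k(E)`, all edges of weight `-t` -/
noncomputable def Zt (q t : ℝ) (G : List (α × α)) : ℝ :=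
  (-1) ^ rank G Finset.univ * Z q (verts G) [] (SP.wtd (-t) G) / q ^ comps (verts G) G

/-- `G` has a loop -/
def HasLoop (G : List (α × α)) : Prop := ∃ e ∈ G, e.1 = e.2

/-- `G` has a bridge -/
def HasBridge (G : List (α × α)) : Prop :=
  ∃ (G₁ : List (α × α)) (e : α × α) (G₂ : List (α × α)), G = G₁ ++ e :: G₂ ∧
    comps (verts G) (G₁ ++ G₂) ≠ comps (verts G) G

/-- every edge is replaced by `k` parallel edges -/
def thick (k : ℕ) (G : List (α × α)) : List (α × α) := G.flatMap fun e => List.replicate k e

/-- a path of `K` edges from `a` to `b` whose inner vertices are joined to `r` -/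
def fan (nm : List Bool → α) (r : α) : ℕ → List Bool → α → α → List (α × α)
  | 0, _, _, _ => []
  | 1, _, a, b => [(a, b)]
  | K + 2, p, a, b => (a, nm p) :: (r, nm p) :: fan nm r (K + 1) (true :: p) (nm p) b

/-- the inner vertices of `fan` -/
def fanI (nm : List Bool → α) : ℕ → List Bool → Finset α
  | 0, _ => ∅
  | 1, _ => ∅
  | K + 2, p => insert (nm p) (fanI nm (K + 1) (true :: p))

/-- `J` fans in parallel -/
def fans (nm : List Bool → α) (r : α) (K : ℕ) : ℕ → List Bool → α → α → List (α × α)
  | 0, _, _, _ => []
  | J + 1, p, a, b => fan nm r K (false :: p) a b ++ fans nm r K J (true :: p) a b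

/-- the inner vertices of `fans` -/
def fansI (nm : List Bool → α) (K : ℕ) : ℕ → List Bool → Finset α
  | 0, _ => ∅
  | J + 1, p => fanI nm K (false :: p) ∪ fansI nm K J (true :: p)

end graphs

/-- networks: an edge, two networks in series, `J` paths of `K` edges in parallel with an apex
joined to all their vertices (also to the two ends) -/
inductive NT : Type
  | edge : NT
  | ser : NT → NT → NT
  | apx : ℕ → ℕ → NT

/-- `1 + b + ... + b^(K-1)` -/
noncomputable def gs (b : ℝ) (K : ℕ) : ℝ := ∑ i ∈ Finset.range K, b ^ i

/-- the effective `y` of a fan of `K ≥ 1` edges in the presence of the apex: `(b^K-b)/(b^K-1)` for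
`b = 2 - q` -/
noncomputable def fK (q : ℝ) (K : ℕ) : ℝ := (2 - q) * gs (2 - q) (K - 1) / gs (2 - q) K

namespace NT

/-- the effective weight, all edges having weight `-1` -/
noncomputable def wt (q : ℝ) : NT → ℝ
  | edge => -1
  | ser A B => A.wt q * B.wt q / (q + A.wt q + B.wt q)
  | apx K J => (1 - q) / (2 - q) * fK q K ^ J - 1

/-- the constant factor -/
noncomputable def fac (q : ℝ) : NT → ℝ
  | edge => 1
  | ser A B => A.fac q * B.fac q * (q + A.wt q + B.wt q)
  | apx K J => ((-1) ^ (K + 1) * gs (2 - q) K) ^ J * (q - 2)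

/-- the paths are not empty -/
def ok : NT → Prop
  | edge => True
  | ser A B => A.ok ∧ B.ok
  | apx K _ => 1 ≤ K

/-- the number of inner vertices -/
def cnt : NT → ℕ
  | edge => 0
  | ser A B => A.cnt + B.cnt + 1
  | apx K J => 1 + J * (K - 1)

/-- `j` more edges in series -/
def chain (A : NT) : ℕ → NT
  | 0 => A
  | j + 1 => ser (chain A j) edge

variable {α : Type}

/-- the edges of the network between `a` and `b` -/
def edges (nm : List Bool → α) : NT → List Bool → α → α → List (α × α)
  | edge, _, a, b => [(a, b)]
  | ser A B, p, a, b => A.edges nm (false :: p) a (nm p) ++ B.edges nm (true :: p) (nm p) b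
  | apx K J, p, a, b => (a, nm p) :: (nm p, b) :: fans nm (nm p) K J (true :: p) a b

variable [DecidableEq α]

/-- the inner vertices -/
def inner (nm : List Bool → α) : NT → List Bool → Finset α
  | edge, _ => ∅
  | ser A B, p => insert (nm p) (A.inner nm (false :: p) ∪ B.inner nm (true :: p))
  | apx K J, p => insert (nm p) (fansI nm K J (true :: p))

/-- every edge of `G` is replaced by the network `A` -/
def repl (nm : List Bool → α) (A : NT) : List (α × α) → List (α × α)
  | [] => []
  | e :: G => A.edges nm (false :: List.replicate G.length true) e.1 e.2 ++ repl nm A G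

end NT

/-- the graph in which every edge of `G` is replaced by a copy of the network `A` -/
def redN (A : NT) (G : MGraph) : MGraph := NT.repl nmT A (ren nmF G)

/-- approximation-preserving reduction from `F` to `F'`: graphs and a rational factor are computed
in polynomial time, the accuracy `1 / (|e| + 2)` being given by the length of the string `e` -/
def APRed (F F' : MGraph → ℝ) : Prop :=
  ∃ (f : MGraph × List Bool → MGraph) (N D : MGraph × List Bool → ℕ), PT f ∧ PT N ∧ PT D ∧
    ∀ (G : MGraph) (e : List Bool), 0 < D (G, e) ∧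
      Real.exp (-(1 / (e.length + 2))) * F G ≤
        (N (G, e) : ℝ) / (D (G, e) : ℝ) * F' (f (G, e)) ∧
      (N (G, e) : ℝ) / (D (G, e) : ℝ) * F' (f (G, e)) ≤ Real.exp (1 / (e.length + 2)) * F G

end Pool.Agent.TutteEq
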