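import Pool.Agent.TutteEq.Stmts

/-!
# The final assembly
-/

set_option autoImplicit false

namespace Pool.Agent.TutteEq

open Pool.Agent.PT Pool.Agent.TutteHard

/-- the approximate equivalence along a hyperbola -/
def S_Final : Prop := ∀ x y x' y' : ℚ, |x| < 1 → |y| < 1 → 0 ≤ x' → x' < 1 → 0 ≤ y' → y' < 1 →
  (x - 1) * (y - 1) = (x' - 1) * (y' - 1) → (x - 1) * (y - 1) < 1 →
    APRed (fun G => tutte G (x' : ℝ) (y' : ℝ)) (fun G => tutte G (x : ℝ) (y : ℝ)) ∧
    (HasFPRAS (x : ℝ) (y : ℝ) → HasFPRAS (x' : ℝ) (y' : ℝ))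

theorem final_nonneg (ht : S_TutteZt) (ho : S_Pos) {x y : ℝ} (hx : 0 ≤ x) (hx1 : x < 1)
    (hy : 0 ≤ y) (hy1 : y < 1) (hq1 : (x - 1) * (y - 1) < 1) (G : MGraph) :
    0 ≤ tutte G x y := by
  have hx2 : 0 < 1 - x := by linarith
  have hy2 : 0 < 1 - y := by linarith
  have hq0 : 0 < (x - 1) * (y - 1) := by nlinarith [mul_pos hx2 hy2]
  have h1 := ht G ((x - 1) * (y - 1)) (1 - y) hq0.ne' hy2.ne'
  have e1 : 1 - (x - 1) * (y - 1) / (1 - y) = x := by
    field_simp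
    ring
  have e2 : 1 - (1 - y) = y := by ring
  rw [e1, e2] at h1
  have h2 := ho G ((x - 1) * (y - 1)) (1 - y) hq0 hq1 (by nlinarith) (by linarith)
  rw [← h1] at h2
  exact (mul_nonneg_iff_of_pos_left (pow_pos hy2 _)).1 h2

theorem final (ht : S_TutteZt) (ho : S_Pos) (htr : S_Trans) (hf : S_Fpras) (hA : S_RedA)
    (hB : S_RedB) (hC : S_RedC) : S_Final := by
  intro x y x' y' hx hy hx' hx1 hy' hy1 hxy hq1
  obtain ⟨hxl, hxr⟩ := abs_lt.1 hx
  obtain ⟨hyl, hyr⟩ := abs_lt.1 hy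
  set q : ℚ := (x - 1) * (y - 1) with hq
  have hq0 : 0 < q := by nlinarith [mul_pos (sub_pos.2 hxr) (sub_pos.2 hyr)]
  have hy0 : (y : ℝ) - 1 ≠ 0 := by
    have : (y : ℝ) < 1 := by exact_mod_cast hyr
    intro h; linarith
  have hx0' : (x' : ℝ) - 1 ≠ 0 := by
    have : (x' : ℝ) < 1 := by exact_mod_cast hx1
    intro h; linarith
  have hqR : (q : ℝ) = ((x : ℝ) - 1) * ((y : ℝ) - 1) := by
    rw [hq]; push_cast; ring
  have hqR' : (q : ℝ) = ((x' : ℝ) - 1) * ((y' : ℝ) - 1) := by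
    rw [hxy]; push_cast; ring
  have e1 : (1 + (q : ℝ) / ((y : ℝ) - 1)) = (x : ℝ) := by
    rw [hqR]
    field_simp
    ring
  have hAy := hA q y hq0 hq1 hy
  rw [e1] at hAy
  have key : APRed (fun G => tutte G (x' : ℝ) (y' : ℝ)) (fun G => tutte G (x : ℝ) (y : ℝ)) := by
    rcases eq_or_lt_of_le hx' with h | h
    · -- `x' = 0`
      have e2 : (y' : ℝ) = 1 - (q : ℝ) := by
        rw [hqR', ← h]; push_cast; ring
      have e3 : (x' : ℝ) = 0 := by rw [← h]; simp
      rw [e2, e3]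
      exact htr _ _ _ (hC q hq0 hq1) hAy
    · rcases eq_or_lt_of_le hy' with h' | h'
      · have e2 : (x' : ℝ) = 1 - (q : ℝ) := by
          rw [hqR', ← h']; push_cast; ring
        have e3 : (y' : ℝ) = 0 := by rw [← h']; simp
        rw [e2, e3]
        exact hAy
      · have h2 : x' < 1 - q := by
          rw [hxy]
          nlinarith [mul_pos h' (sub_pos.2 hx1)]
        have hBx := hB q x' hq0 hq1 h h2
        have e4 : (1 + (q : ℝ) / ((x' : ℝ) - 1)) = (y' : ℝ) := by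
          rw [hqR']
          field_simp
          ring
        rw [e4] at hBx
        exact htr _ _ _ hBx hAy
  refine ⟨key, hf _ _ _ _ (fun G => ?_) key⟩
  refine final_nonneg ht ho (by exact_mod_cast hx') (by exact_mod_cast hx1)
    (by exact_mod_cast hy') (by exact_mod_cast hy1) ?_ G
  rw [← hqR']
  exact_mod_cast hq1

end Pool.Agent.TutteEq
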