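import Pool.Agent.TutteEq.Defs

/-!
# Module statements

Every module `X` proves `theorem x : S_X`; other statements may be taken as hypotheses.
-/

set_option autoImplicit false

namespace Pool.Agent.TutteEq

open Pool.Agent.PT Pool.Agent.TutteHard Real

/-! ## polynomial-time arithmetic -/

/-- (module Arith) binary arithmetic in polynomial time -/
def S_Arith : Prop := ∀ (α : Type) [N487b59b3 α] (f g : α → ℕ), PT f → PT g →
  PT (fun a => f a + g a) ∧ PT (fun a => f a - g a) ∧ PT (fun a => f a * g a) ∧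
  PT (fun a => f a / g a) ∧ PT (fun a => decide (f a ≤ g a))

/-- (module Arith2; from `S_Arith`) length of the binary encoding; powers with unary exponent;
dyadic numbers with odd numerator (these are reduced fractions) -/
def S_Arith2 : Prop := (∀ n : ℕ, (enc n).length = Nat.size n) ∧
  (∀ (α : Type) [N487b59b3 α] (f : α → ℕ) (e : α → U), PT f → PT e →
    PT (fun a => f a ^ (e a).val)) ∧
  (∀ (α : Type) [N487b59b3 α] (n : α → ℕ) (s : α → U), PT n → PT s →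
    PT (fun a => ((2 * (n a : ℚ) + 1) / 2 ^ ((s a).val + 1) : ℚ)))

/-- numerators of `1 + b + ... + b^(K-1)` for `b = P / Q` -/
def gsn (P Q : ℕ) : ℕ → ℕ
  | 0 => 0
  | K + 1 => P * gsn P Q K + Q ^ K

/-- (module Gsn; from `S_Arith`, `S_Arith2`) -/
def S_Gsn : Prop := ∀ P Q : ℕ, 0 < Q → PT (fun k : U => gsn P Q k.val) ∧
  ∀ K : ℕ, 1 ≤ K → (gsn P Q K : ℝ) = (Q : ℝ) ^ (K - 1) * gs ((P : ℝ) / Q) K

/-- (module Sel; from `S_Arith`, `S_Arith2`, `S_Gsn`) choice of the parameters of the apex network: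
`K` logarithmic, `J` polynomial, with `fK q K ^ J` close to the target `τ` -/
def S_Sel : Prop := ∀ (q τ : ℚ), 0 < q → q < 1 → 0 < τ → τ ≤ 1 → ∀ c : ℕ, 1 ≤ c →
  ∃ (K J : ℕ → ℕ), PT (fun M : U => U.mk (K M.val)) ∧ PT (fun M : U => U.mk (J M.val)) ∧
    ∀ M : ℕ, 1 ≤ M → 2 ≤ K M ∧ fK (q : ℝ) (K M) ^ J M ≤ (τ : ℝ) ∧
      (τ : ℝ) - fK (q : ℝ) (K M) ^ J M ≤ 1 / ((c : ℝ) * M)

open scoped Classical in
/-- (module Rank) rank, loops and bridges in polynomial time -/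
def S_Rank : Prop := PT (fun G : MGraph => U.mk (rank G Finset.univ)) ∧
  PT (fun G : MGraph => decide (HasLoop G)) ∧ PT (fun G : MGraph => decide (HasBridge G))

/-! ## positivity and perturbation -/

/-- (module Pert) -/
def S_TutteZt : Prop := ∀ (G : MGraph) (q t : ℝ), q ≠ 0 → t ≠ 0 →
  t ^ rank G Finset.univ * tutte G (1 - q / t) (1 - t) = Zt q t G

/-- (module Pert) -/
def S_Pos : Prop := ∀ (G : MGraph) (q t : ℝ), 0 < q → q < 1 → q ≤ t → t ≤ 1 → 0 ≤ Zt q t G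

/-- (module Pert) loops are factors `1 - t`, bridges are factors `t - q` -/
def S_Zero : Prop := ∀ (G : MGraph) (q : ℝ), q ≠ 0 → (HasLoop G → Zt q 1 G = 0) ∧
  (HasBridge G → Zt q q G = 0)

/-- (module Pert) a relative change of the weight changes the partition function by a controlled
factor -/
def S_Pert : Prop := ∀ (G : MGraph) (q t t' δ : ℝ), 0 < q → q < 1 → 0 ≤ δ → q ≤ t → t ≤ 1 →
  q ≤ t' → t' ≤ 1 → exp (-δ) * t' ≤ t → t ≤ exp δ * t' →
  (HasLoop G → exp (-δ) * (1 - t') ≤ 1 - t ∧ 1 - t ≤ exp δ * (1 - t')) →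
  (HasBridge G → exp (-δ) * (t' - q) ≤ t - q ∧ t - q ≤ exp δ * (t' - q)) →
  exp (-(G.length * δ)) * Zt q t' G ≤ Zt q t G ∧ Zt q t G ≤ exp (G.length * δ) * Zt q t' G

/-! ## graph constructions -/

/-- (module Thick) -/
def S_Thick : Prop := PT (fun z : MGraph × U => thick z.2.val z.1) ∧
  ∀ (G : MGraph) (k : ℕ), 1 ≤ k → rank (thick k G) Finset.univ = rank G Finset.univ ∧
    ∀ q t : ℝ, Zt q t (thick k G) = Zt q (1 - (1 - t) ^ k) G

/-- (module Net) the networks act as single edges -/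
def S_Net : Prop := ∀ (α : Type) [DecidableEq α] (nm : List Bool → α), Function.Injective nm →
  ∀ A : NT, A.ok → ∀ p : List Bool,
    (∀ x ∈ A.inner nm p, ∃ l, x = nm (l ++ p)) ∧ (A.inner nm p).card = A.cnt ∧
    (∀ a b x : α, (∃ e ∈ A.edges nm p a b, x = e.1 ∨ x = e.2) ↔
      x = a ∨ x = b ∨ x ∈ A.inner nm p) ∧
    (∀ (a b : α) (V : Finset α) (S : List (α × α)), a ∈ V → b ∈ V →
      Disjoint V (A.inner nm p) → EndsIn V S →
      comps (V ∪ A.inner nm p) (A.edges nm p a b ++ S) = comps V ((a, b) :: S)) ∧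
    (∀ (q : ℝ) (a b : α), 0 < q → q < 1 →
      RV q (SP.wtd (-1) (A.edges nm p a b)) (A.inner nm p) a b (A.wt q) (A.fac q))

/-- (module NetW) effective weights and signs -/
def S_NetW : Prop := ∀ q : ℝ, 0 < q → q < 1 → ∀ A : NT, A.ok →
  -1 ≤ A.wt q ∧ A.wt q ≤ -q ∧ 0 < (-1) ^ A.cnt * A.fac q

/-- (module NetW) chains -/
def S_Chain : Prop := ∀ q : ℝ, 0 < q → q < 1 → ∀ A : NT, A.ok → ∀ j : ℕ,
  (A.chain j).ok ∧ (A.chain j).cnt = A.cnt + j ∧
    1 + q / (A.chain j).wt q = (1 - q) ^ j * (1 + q / A.wt q) ∧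
    (-1) ^ (A.chain j).cnt * (A.chain j).fac q = (-1) ^ A.cnt * A.fac q *
      ((1 - (1 - q) ^ j * (1 + q / A.wt q)) / (1 - (1 + q / A.wt q)))

/-- (module Red; from `S_Net`, `S_NetW`) -/
def S_Red : Prop := ∀ q : ℝ, 0 < q → q < 1 → ∀ A : NT, A.ok → ∀ G : MGraph,
  rank (redN A G) Finset.univ = rank G Finset.univ + G.length * A.cnt ∧
    Zt q 1 (redN A G) = ((-1) ^ A.cnt * A.fac q) ^ G.length * Zt q (-(A.wt q)) G

/-- (module PTRed) the constructions are computable in polynomial time (unary parameters) -/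
def S_PTRed : Prop :=
  (∀ j : ℕ, PT (fun z : (U × U) × MGraph =>
    redN ((NT.apx z.1.1.val z.1.2.val).chain j) z.2)) ∧
  PT (fun z : U × MGraph => redN (NT.edge.chain z.1.val) z.2)

/-! ## analysis of the target -/

/-- the effective `x` of the apex network with `fK ^ J = s` -/
noncomputable def x0 (q s : ℝ) : ℝ := 1 + q / ((1 - q) / (2 - q) * s - 1)

/-- the effective `t` of the chain -/
noncomputable def tE (q : ℝ) (j : ℕ) (s : ℝ) : ℝ := q / (1 - (1 - q) ^ j * x0 q s)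

/-- the last factor of the constant of the chain -/
noncomputable def rE (q : ℝ) (j : ℕ) (s : ℝ) : ℝ := (1 - (1 - q) ^ j * x0 q s) / (1 - x0 q s)

/-- (module Par) -/
def S_Par : Prop := ∀ q : ℝ, 0 < q → q < 1 → ∀ (j : ℕ) (τ : ℝ), 0 < τ → τ ≤ 1 →
  ∃ Λ η₀ : ℝ, 0 < Λ ∧ 0 < η₀ ∧ ∀ s : ℝ, s ≤ τ → τ - s ≤ η₀ →
    0 < s ∧ q < tE q j s ∧ tE q j s < 1 ∧ 0 < rE q j s ∧
    exp (-(Λ * (τ - s))) * tE q j τ ≤ tE q j s ∧ tE q j s ≤ exp (Λ * (τ - s)) * tE q j τ ∧
    exp (-(Λ * (τ - s))) * (1 - tE q j τ) ≤ 1 - tE q j s ∧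
      1 - tE q j s ≤ exp (Λ * (τ - s)) * (1 - tE q j τ) ∧
    exp (-(Λ * (τ - s))) * (tE q j τ - q) ≤ tE q j s - q ∧
      tE q j s - q ≤ exp (Λ * (τ - s)) * (tE q j τ - q) ∧
    exp (-(Λ * (τ - s))) * rE q j τ ≤ rE q j s ∧ rE q j s ≤ exp (Λ * (τ - s)) * rE q j τ

/-- (module Par2) the targets: `x = (1-q)^j * x0 q τ` for some `j` and `0 < τ ≤ 1` -/
def S_Par2 : Prop := ∀ q x : ℚ, 0 < q → q < 1 → 0 < x → x < 1 - q → ∃ (j : ℕ) (τ : ℚ),
  0 < τ ∧ τ ≤ 1 ∧ x = (1 - q) ^ j * (1 + q / ((1 - q) / (2 - q) * τ - 1))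

/-! ## reductions -/

/-- (module AP) -/
def S_Trans : Prop := ∀ F F' F'' : MGraph → ℝ, APRed F F' → APRed F' F'' → APRed F F''

/-- (module Fpras; from `S_Arith`, `S_Arith2`) -/
def S_Fpras : Prop := ∀ x y x' y' : ℝ, (∀ G : MGraph, 0 ≤ tutte G x' y') →
  APRed (fun G => tutte G x' y') (fun G => tutte G x y) → HasFPRAS x y → HasFPRAS x' y'

/-- (module RedA; from `S_Arith`, `S_Arith2`, `S_Rank`, `S_TutteZt`, `S_Pert`, `S_Zero`,
`S_Pos`, `S_Thick`) from the chromatic point to any point with `|y| < 1` -/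
def S_RedA : Prop := ∀ q y : ℚ, 0 < q → q < 1 → |y| < 1 →
  APRed (fun G => tutte G (1 - q : ℝ) 0) (fun G => tutte G (1 + q / (y - 1) : ℝ) (y : ℝ))

/-- (module RedB; from everything) from a point with `x, y > 0` to the chromatic point -/
def S_RedB : Prop := ∀ q x : ℚ, 0 < q → q < 1 → 0 < x → x < 1 - q →
  APRed (fun G => tutte G (x : ℝ) (1 + q / (x - 1) : ℝ)) (fun G => tutte G (1 - q : ℝ) 0)

/-- (module RedC) from the flow point to the chromatic point -/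
def S_RedC : Prop := ∀ q : ℚ, 0 < q → q < 1 →
  APRed (fun G => tutte G 0 (1 - q : ℝ)) (fun G => tutte G (1 - q : ℝ) 0)

end Pool.Agent.TutteEq
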